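import Pool.Agent.H95.AV.BMach

/-!
# Job AV-BClose: block machines with the same expected number of occurrences are close

PROOF.  Let `l = w.length`, `m x = mw (bκ T K) (bout T) w x ∈ [0, 1]`.  For a state `(u, s', j)` with
`j + l ≤ T` and `j + l ≤ T - 1` or `l` arbitrary: `m (u, s', j) = 1` if `w <+: (List.ofFn u).drop j` and `0`
otherwise (induction on `w`: as long as `j + 1 < T` the machine moves to `(u, s', j + 1)`; the last letter
may be read at the position `T - 1`, after which the rest of the word is empty and `mw [] = 1`;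
`∑ y, bκ x y = 1`).  So `law (block machine) w = (1/T) ∑ s, π s * ∑ u, ∑ s', K s u s' * cnt T w u + E`,
where `E = (1/T) ∑_{j < T, j + l > T} ∑ s, π s * ∑ u, ∑ s', K s u s' * m (u, s', j)` and `0 ≤ E ≤ l / T`, as there
are at most `l` such `j` and the inner sums are at most `∑ s, π s * ∑ u, ∑ s', K s u s' = 1`.  The same for
`K'`, and the first terms agree by hypothesis.
-/

set_option autoImplicit false

namespace Pool.Agent.H95.AV

open Classical

private theorem bc_mw {R A : Type} [Fintype R] (κ : R → R → ℝ) (out : R → A) (a : A) (w : List A)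
    (r : R) : mw κ out (a :: w) r = if out r = a then ∑ r', κ r r' * mw κ out w r' else 0 := rfl

private theorem bc_run {R A : Type} [Fintype R] [Fintype A] (T : ℕ) (hT : 1 ≤ T) (π : R → ℝ)
    (K : R → (Fin T → A) → R → ℝ) (h : IsBlk T π K) (w : List A) :
    ∀ (u : Fin T → A) (s' : R) (j : Fin T), (j : ℕ) + w.length ≤ T →
      mw (bκ T K) (bout T) w (u, s', j) = if w <+: (List.ofFn u).drop j then 1 else 0 := by
  induction w with
  | nil =>
    intro u s' j _
    rw [if_pos List.nil_prefix]
    rfl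
  | cons a w ih =>
    intro u s' j hj
    have hd : (List.ofFn u).drop j = u j :: (List.ofFn u).drop (j + 1) := by
      rw [List.drop_eq_getElem_cons (by simp)]
      simp
    rw [bc_mw, hd]
    have ho : bout T (u, s', j) = u j := rfl
    rw [ho]
    by_cases ha : u j = a
    · have hsum : ∑ y, bκ T K (u, s', j) y * mw (bκ T K) (bout T) w y =
          if w <+: (List.ofFn u).drop (j + 1) then 1 else 0 := by
        by_cases hj1 : (j : ℕ) + 1 < T
        · have h1 : ∀ y : BSt T A R, bκ T K (u, s', j) y * mw (bκ T K) (bout T) w y =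
              if y = (u, s', ⟨(j : ℕ) + 1, hj1⟩) then
                mw (bκ T K) (bout T) w (u, s', ⟨(j : ℕ) + 1, hj1⟩) else 0 := by
            intro y
            obtain ⟨u', r', j'⟩ := y
            unfold bκ
            simp only
            rw [if_pos hj1]
            by_cases hy : u' = u ∧ r' = s' ∧ (j' : ℕ) = (j : ℕ) + 1
            · obtain ⟨g1, g2, g3⟩ := hy
              subst g1 g2
              have g4 : j' = ⟨(j : ℕ) + 1, hj1⟩ := Fin.ext g3
              subst g4
              rw [if_pos ⟨rfl, rfl, rfl⟩, if_pos rfl, one_mul]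
            · rw [if_neg hy, if_neg, zero_mul]
              intro h2
              apply hy
              have h3 := Prod.ext_iff.1 h2
              have h4 := Prod.ext_iff.1 h3.2
              exact ⟨h3.1, h4.1, congrArg Fin.val h4.2⟩
          rw [Finset.sum_congr rfl fun y _ => h1 y, Finset.sum_ite_eq' Finset.univ,
            if_pos (Finset.mem_univ _)]
          refine ih u s' ⟨(j : ℕ) + 1, hj1⟩ ?_
          have : (j : ℕ) + (w.length + 1) ≤ T := by simpa using hj
          show (j : ℕ) + 1 + w.length ≤ T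
          omega
        · have hw : w = [] := by
            have : (j : ℕ) + (w.length + 1) ≤ T := by simpa using hj
            exact List.eq_nil_of_length_eq_zero (by omega)
          subst hw
          rw [if_pos List.nil_prefix]
          have h1 := (blk_mach T hT π K h).κ_sum (u, s', j)
          rw [← h1]
          refine Finset.sum_congr rfl fun y _ => ?_
          show bκ T K (u, s', j) y * 1 = _
          rw [mul_one]
      rw [if_pos ha, hsum, ha]
      by_cases hp : w <+: (List.ofFn u).drop (j + 1)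
      · rw [if_pos hp, if_pos (List.cons_prefix_cons.2 ⟨rfl, hp⟩)]
      · rw [if_neg hp, if_neg (fun h2 => hp (List.cons_prefix_cons.1 h2).2)]
    · rw [if_neg ha, if_neg (fun h2 => ha (List.cons_prefix_cons.1 h2).1.symm)]

/-- the part of the law with the phase `j` -/
private noncomputable def bc_P {R A : Type} [Fintype R] [Fintype A] (T : ℕ) (π : R → ℝ)
    (K : R → (Fin T → A) → R → ℝ) (w : List A) (j : Fin T) : ℝ :=
  ∑ u, ∑ s', (∑ s, π s * K s u s') * mw (bκ T K) (bout T) w (u, s', j)

private theorem bc_law {R A : Type} [Fintype R] [Fintype A] (T : ℕ) (π : R → ℝ)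
    (K : R → (Fin T → A) → R → ℝ) (w : List A) :
    law (bπ T π K) (bκ T K) (bout T) w = 1 / (T : ℝ) * ∑ j, bc_P T π K w j := by
  have h1 : ∑ j, bc_P T π K w j = ∑ u, ∑ s', ∑ j, (∑ s, π s * K s u s') *
      mw (bκ T K) (bout T) w (u, s', j) := by
    unfold bc_P
    rw [Finset.sum_comm]
    refine Finset.sum_congr rfl fun u _ => ?_
    rw [Finset.sum_comm]
  rw [h1, Finset.mul_sum]
  unfold law bπ
  rw [Fintype.sum_prod_type]
  refine Finset.sum_congr rfl fun u _ => ?_
  rw [Fintype.sum_prod_type, Finset.mul_sum]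
  refine Finset.sum_congr rfl fun s' _ => ?_
  rw [Finset.mul_sum]
  refine Finset.sum_congr rfl fun j _ => ?_
  rw [mul_assoc]

private theorem bc_q {R A : Type} [Fintype R] [Fintype A] (T : ℕ) (π : R → ℝ)
    (K : R → (Fin T → A) → R → ℝ) (f : (Fin T → A) → ℝ) :
    ∑ u, ∑ s', (∑ s, π s * K s u s') * f u = ∑ s, π s * ∑ u, ∑ s', K s u s' * f u := by
  simp only [Finset.sum_mul, Finset.mul_sum]
  have h1 : ∀ u : Fin T → A, ∑ s', ∑ s, π s * K s u s' * f u =
      ∑ s, ∑ s', π s * K s u s' * f u := fun u => Finset.sum_comm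
  rw [Finset.sum_congr rfl fun u _ => h1 u, Finset.sum_comm]
  refine Finset.sum_congr rfl fun s _ => Finset.sum_congr rfl fun u _ =>
    Finset.sum_congr rfl fun s' _ => ?_
  rw [mul_assoc]

private theorem bc_bd {R A : Type} [Fintype R] [Fintype A] (T : ℕ) (hT : 1 ≤ T) (π : R → ℝ)
    (K : R → (Fin T → A) → R → ℝ) (h : IsBlk T π K) (w : List A) (j : Fin T) :
    0 ≤ bc_P T π K w j ∧ bc_P T π K w j ≤ 1 := by
  have hm := blk_mach T hT π K h
  have hq : ∀ u s', 0 ≤ ∑ s, π s * K s u s' := fun u s' =>
    Finset.sum_nonneg fun s _ => mul_nonneg (h.π_nonneg s) (h.nonneg s u s')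
  unfold bc_P
  constructor
  · exact Finset.sum_nonneg fun u _ => Finset.sum_nonneg fun s' _ =>
      mul_nonneg (hq u s') (mw_nonneg hm _ _ _)
  · calc ∑ u, ∑ s', (∑ s, π s * K s u s') * mw (bκ T K) (bout T) w (u, s', j)
        ≤ ∑ u, ∑ s', (∑ s, π s * K s u s') * (fun _ : Fin T → A => (1 : ℝ)) u :=
          Finset.sum_le_sum fun u _ => Finset.sum_le_sum fun s' _ =>
            mul_le_mul_of_nonneg_left (mw_le_one hm _ _ _) (hq u s')
      _ = 1 := by
          rw [bc_q]
          simp only [mul_one, h.sum, h.π_sum]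

theorem bc_cnt {A : Type} (T : ℕ) (w : List A) (u : Fin T → A) :
    (Finset.univ.filter (fun j : Fin T => (j : ℕ) + w.length ≤ T ∧
      w <+: (List.ofFn u).drop j)).card = cnt T w u := by
  unfold cnt
  rw [← Finset.card_map Fin.valEmbedding]
  congr 1
  ext j
  rw [Finset.mem_filter, Finset.mem_map]
  have h1 : j ∈ ((Finset.univ : Finset (Fin T)) >>= fun a => pure (a : ℕ)) ↔ j < T := by
    let _ : DecidableEq ℕ := fun a b => Classical.propDecidable (a = b)
    refine (Finset.mem_sup (f := fun a : Fin T => ({(a : ℕ)} : Finset ℕ))).trans ?_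
    constructor
    · rintro ⟨a, -, ha⟩
      rw [Finset.mem_singleton] at ha
      rw [ha]
      exact a.2
    · intro hj
      exact ⟨⟨j, hj⟩, Finset.mem_univ _, Finset.mem_singleton.2 rfl⟩
  rw [h1]
  constructor
  · rintro ⟨a, ha, rfl⟩
    exact ⟨a.2, (Finset.mem_filter.1 ha).2⟩
  · rintro ⟨h2, h3⟩
    exact ⟨⟨j, h2⟩, Finset.mem_filter.2 ⟨Finset.mem_univ _, h3⟩, rfl⟩

private theorem bc_good {R A : Type} [Fintype R] [Fintype A] (T : ℕ) (hT : 1 ≤ T) (π : R → ℝ)
    (K : R → (Fin T → A) → R → ℝ) (h : IsBlk T π K) (w : List A) :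
    ∑ j ∈ Finset.univ.filter (fun j : Fin T => (j : ℕ) + w.length ≤ T), bc_P T π K w j =
      ∑ s, π s * ∑ u, ∑ s', K s u s' * cnt T w u := by
  rw [← bc_q T π K (fun u => (cnt T w u : ℝ))]
  have h1 : ∀ j ∈ Finset.univ.filter (fun j : Fin T => (j : ℕ) + w.length ≤ T),
      bc_P T π K w j = ∑ u, ∑ s', (∑ s, π s * K s u s') *
        (if w <+: (List.ofFn u).drop j then (1 : ℝ) else 0) := by
    intro j hj
    unfold bc_P
    refine Finset.sum_congr rfl fun u _ => Finset.sum_congr rfl fun s' _ => ?_
    rw [bc_run T hT π K h w u s' j (Finset.mem_filter.1 hj).2]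
  rw [Finset.sum_congr rfl h1, Finset.sum_comm]
  refine Finset.sum_congr rfl fun u _ => ?_
  rw [Finset.sum_comm]
  refine Finset.sum_congr rfl fun s' _ => ?_
  rw [← Finset.mul_sum, Finset.sum_ite, Finset.sum_const_zero, add_zero, Finset.sum_const,
    nsmul_eq_mul, mul_one, Finset.filter_filter]
  rw [← bc_cnt]

theorem blk_close {R A : Type} [Fintype R] [Fintype A] (T : ℕ) (hT : 1 ≤ T) (π : R → ℝ)
    (K K' : R → (Fin T → A) → R → ℝ) (h : IsBlk T π K) (h' : IsBlk T π K') (w : List A)
    (hc : ∀ s, ∑ u, ∑ s', K s u s' * cnt T w u = ∑ u, ∑ s', K' s u s' * cnt T w u) :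
    |law (bπ T π K) (bκ T K) (bout T) w - law (bπ T π K') (bκ T K') (bout T) w| ≤
      (w.length : ℝ) / T := by
  have hT0 : (0 : ℝ) < T := by exact_mod_cast hT
  rw [bc_law, bc_law, ← mul_sub, abs_mul, abs_of_pos (by positivity : (0 : ℝ) < 1 / T)]
  have h1 := bc_good T hT π K h w
  have h2 := bc_good T hT π K' h' w
  have h3 : ∑ s, π s * ∑ u, ∑ s', K s u s' * cnt T w u =
      ∑ s, π s * ∑ u, ∑ s', K' s u s' * cnt T w u :=
    Finset.sum_congr rfl fun s _ => by rw [hc s]
  rw [h3, ← h2] at h1
  rw [← Finset.sum_filter_add_sum_filter_not Finset.univ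
    (fun j : Fin T => (j : ℕ) + w.length ≤ T) (fun j => bc_P T π K w j),
    ← Finset.sum_filter_add_sum_filter_not Finset.univ
    (fun j : Fin T => (j : ℕ) + w.length ≤ T) (fun j => bc_P T π K' w j), h1,
    add_sub_add_left_eq_sub, ← Finset.sum_sub_distrib]
  have h4 : |∑ j ∈ Finset.univ.filter (fun j : Fin T => ¬ (j : ℕ) + w.length ≤ T),
      (bc_P T π K w j - bc_P T π K' w j)| ≤ w.length := by
    refine (Finset.abs_sum_le_sum_abs _ _).trans ?_
    have h5 : ∑ j ∈ Finset.univ.filter (fun j : Fin T => ¬ (j : ℕ) + w.length ≤ T),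
        |bc_P T π K w j - bc_P T π K' w j| ≤
        ∑ _j ∈ Finset.univ.filter (fun j : Fin T => ¬ (j : ℕ) + w.length ≤ T), (1 : ℝ) := by
      refine Finset.sum_le_sum fun j _ => ?_
      obtain ⟨a1, a2⟩ := bc_bd T hT π K h w j
      obtain ⟨b1, b2⟩ := bc_bd T hT π K' h' w j
      rw [abs_le]
      constructor <;> linarith
    refine h5.trans ?_
    rw [Finset.sum_const, nsmul_eq_mul, mul_one]
    have h6 : (Finset.univ.filter (fun j : Fin T => ¬ (j : ℕ) + w.length ≤ T)).card ≤
        (Finset.range w.length).card := by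
      refine Finset.card_le_card_of_injOn (fun j : Fin T => T - 1 - (j : ℕ)) ?_ ?_
      · intro j hj
        have hj' := (Finset.mem_filter.1 hj).2
        have := j.2
        refine Finset.mem_coe.2 (Finset.mem_range.2 ?_)
        show T - 1 - (j : ℕ) < w.length
        omega
      · intro j _ j' _ hjj
        have h7 : T - 1 - (j : ℕ) = T - 1 - (j' : ℕ) := hjj
        have := j.2
        have := j'.2
        exact Fin.ext (by omega)
    rw [Finset.card_range] at h6
    exact_mod_cast h6
  calc _ ≤ 1 / (T : ℝ) * (w.length : ℝ) := mul_le_mul_of_nonneg_left h4 (by positivity)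
    _ = (w.length : ℝ) / T := by ring

end Pool.Agent.H95.AV
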