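import Pool.Agent.H95.AV.BMach

/-!
# Job AV-BCount: number of words of a block machine with small block kernel

PROOF.  For a state `x = (u, s', j)` let `c x M` be the number of `w : Fin M → A` with
`mw (bκ T K) (bout T) (List.ofFn w) x ≠ 0`.  CLAIM: `c x M ≤ C^((M + j) / T)` (natural division; note
`C ≥ 1`: since the kernel sums to `1` it has a nonzero entry).  Induction on `M`.  `M = 0`: `c = 1`.
`M + 1`: such a word is `bout T x` followed by a `w'` with `mw ... w' y ≠ 0` for some `y` with
`bκ T K x y ≠ 0`, so `c x (M + 1) ≤ ∑_{y, bκ x y ≠ 0} c y M`.  If `j + 1 < T` there is one such `y`, with phase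
`j + 1`: `C^((M + j + 1) / T)`.  If `j + 1 = T` there are at most `C` such `y`, all of phase `0`:
`C * C^(M / T) = C^((M + T) / T) = C^((M + 1 + j) / T)`.
For `M = T * N`, `j < T`: `(T N + j) / T = N`.  If `law ... (List.ofFn w) ≠ 0` then
`mw ... (List.ofFn w) x ≠ 0` for some state `x`; sum over all states.
-/

set_option autoImplicit false

namespace Pool.Agent.H95.AV

open Classical

/-- words of length `M` with nonzero weight from the state `x` -/
noncomputable def bWords {R A : Type} [Fintype R] [Fintype A] (T : ℕ)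
    (K : R → (Fin T → A) → R → ℝ) (x : BSt T A R) (M : ℕ) : Finset (Fin M → A) :=
  (Finset.univ : Finset (Fin M → A)).filter
    (fun w => mw (bκ T K) (bout T) (List.ofFn w) x ≠ 0)

theorem bWords_succ_card {R A : Type} [Fintype R] [Fintype A] (T : ℕ)
    (K : R → (Fin T → A) → R → ℝ) (x : BSt T A R) (M : ℕ) :
    (bWords T K x (M + 1)).card ≤
      ∑ y ∈ (Finset.univ : Finset (BSt T A R)).filter (fun y => bκ T K x y ≠ 0),
        (bWords T K y M).card := by
  have hout : ∀ w ∈ bWords T K x (M + 1), bout T x = w 0 ∧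
      ∃ y, bκ T K x y ≠ 0 ∧ mw (bκ T K) (bout T) (List.ofFn (Fin.tail w)) y ≠ 0 := by
    intro w hw
    have hw2 := (Finset.mem_filter.mp hw).2
    rw [List.ofFn_succ] at hw2
    simp only [mw] at hw2
    by_cases e : bout T x = w 0
    · rw [if_pos e] at hw2
      obtain ⟨y, -, hy⟩ := Finset.exists_ne_zero_of_sum_ne_zero hw2
      exact ⟨e, y, left_ne_zero_of_mul hy, right_ne_zero_of_mul hy⟩
    · rw [if_neg e] at hw2
      exact absurd rfl hw2
  refine le_trans (Finset.card_le_card_of_injOn (t := ((Finset.univ : Finset (BSt T A R)).filter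
    (fun y => bκ T K x y ≠ 0)).biUnion (fun y => bWords T K y M)) (fun w => Fin.tail w) ?_ ?_)
    Finset.card_biUnion_le
  · intro w hw
    obtain ⟨-, y, hy1, hy2⟩ := hout w hw
    exact Finset.mem_biUnion.mpr ⟨y, Finset.mem_filter.mpr ⟨Finset.mem_univ _, hy1⟩,
      Finset.mem_filter.mpr ⟨Finset.mem_univ _, hy2⟩⟩
  · intro w hw w' hw' heq
    have e1 := (hout w hw).1
    have e2 := (hout w' hw').1
    funext i
    refine Fin.cases ?_ (fun i => ?_) i
    · exact e1.symm.trans e2
    · exact congrFun heq i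

theorem blk_C_pos {R A : Type} [Fintype R] [Fintype A] (T : ℕ) (π : R → ℝ)
    (K : R → (Fin T → A) → R → ℝ) (h : IsBlk T π K) (C : ℕ)
    (hC : ∀ s, ((Finset.univ : Finset ((Fin T → A) × R)).filter
      (fun x => K s x.1 x.2 ≠ 0)).card ≤ C) (s : R) : 1 ≤ C := by
  have h1 : ∑ u, ∑ s', K s u s' ≠ 0 := by rw [h.sum s]; exact one_ne_zero
  obtain ⟨u, -, hu⟩ := Finset.exists_ne_zero_of_sum_ne_zero h1
  obtain ⟨s', -, hs'⟩ := Finset.exists_ne_zero_of_sum_ne_zero hu
  refine le_trans (Finset.card_pos.mpr ⟨(u, s'), ?_⟩) (hC s)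
  exact Finset.mem_filter.mpr ⟨Finset.mem_univ _, hs'⟩

theorem bWords_card {R A : Type} [Fintype R] [Fintype A] (T : ℕ) (π : R → ℝ)
    (K : R → (Fin T → A) → R → ℝ) (h : IsBlk T π K) (C : ℕ)
    (hC : ∀ s, ((Finset.univ : Finset ((Fin T → A) × R)).filter
      (fun x => K s x.1 x.2 ≠ 0)).card ≤ C) (M : ℕ) :
    ∀ x : BSt T A R, (bWords T K x M).card ≤ C ^ ((M + (x.2.2 : ℕ)) / T) := by
  induction M with
  | zero =>
    intro x
    have hC1 : 1 ≤ C := blk_C_pos T π K h C hC x.2.1
    refine le_trans (Finset.card_le_univ _) ?_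
    have e : Fintype.card (Fin 0 → A) = 1 := by simp
    rw [e]
    exact Nat.one_le_pow _ _ hC1
  | succ M ih =>
    intro x
    refine le_trans (bWords_succ_card T K x M) ?_
    have hT : 1 ≤ T := le_trans (Nat.succ_le_of_lt (Nat.pos_of_ne_zero (fun e => by
      have := x.2.2.2
      omega))) le_rfl
    by_cases hj : (x.2.2 : ℕ) + 1 < T
    · have hsub : (Finset.univ : Finset (BSt T A R)).filter (fun y => bκ T K x y ≠ 0) ⊆
          {((x.1, x.2.1, ⟨(x.2.2 : ℕ) + 1, hj⟩) : BSt T A R)} := by
        intro y hy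
        have hy2 := (Finset.mem_filter.mp hy).2
        unfold bκ at hy2
        rw [if_pos hj] at hy2
        by_cases e : y.1 = x.1 ∧ y.2.1 = x.2.1 ∧ (y.2.2 : ℕ) = (x.2.2 : ℕ) + 1
        · rw [Finset.mem_singleton]
          obtain ⟨e1, e2, e3⟩ := e
          exact Prod.ext e1 (Prod.ext e2 (Fin.ext e3))
        · rw [if_neg e] at hy2
          exact absurd rfl hy2
      refine le_trans (Finset.sum_le_sum_of_subset hsub) ?_
      rw [Finset.sum_singleton]
      refine le_trans (ih _) (le_of_eq ?_)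
      congr 2
      show M + ((x.2.2 : ℕ) + 1) = M + 1 + (x.2.2 : ℕ)
      omega
    · have hjT : (x.2.2 : ℕ) + 1 = T := by
        have := x.2.2.2
        omega
      have hy0 : ∀ y ∈ (Finset.univ : Finset (BSt T A R)).filter (fun y => bκ T K x y ≠ 0),
          (y.2.2 : ℕ) = 0 ∧ K x.2.1 y.1 y.2.1 ≠ 0 := by
        intro y hy
        have hy2 := (Finset.mem_filter.mp hy).2
        unfold bκ at hy2
        rw [if_neg hj] at hy2
        by_cases e : (y.2.2 : ℕ) = 0
        · rw [if_pos e] at hy2
          exact ⟨e, hy2⟩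
        · rw [if_neg e] at hy2
          exact absurd rfl hy2
      have hb : ∀ y ∈ (Finset.univ : Finset (BSt T A R)).filter (fun y => bκ T K x y ≠ 0),
          (bWords T K y M).card ≤ C ^ (M / T) := by
        intro y hy
        have h1 := ih y
        rw [(hy0 y hy).1, add_zero] at h1
        exact h1
      refine le_trans (Finset.sum_le_card_nsmul _ _ _ hb) ?_
      have hcard : ((Finset.univ : Finset (BSt T A R)).filter (fun y => bκ T K x y ≠ 0)).card
          ≤ C := by
        refine le_trans (Finset.card_le_card_of_injOn (t := (Finset.univ :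
          Finset ((Fin T → A) × R)).filter (fun z => K x.2.1 z.1 z.2 ≠ 0))
          (fun y => (y.1, y.2.1)) ?_ ?_) (hC x.2.1)
        · intro y hy
          exact Finset.mem_filter.mpr ⟨Finset.mem_univ _, (hy0 y hy).2⟩
        · intro y hy y' hy' heq
          have e0 : (y.2.2 : ℕ) = (y'.2.2 : ℕ) := (hy0 y hy).1.trans (hy0 y' hy').1.symm
          have e1 := congrArg Prod.fst heq
          have e2 := congrArg Prod.snd heq
          exact Prod.ext e1 (Prod.ext e2 (Fin.ext e0))
      rw [smul_eq_mul]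
      have e3 : (M + 1 + (x.2.2 : ℕ)) / T = M / T + 1 := by
        rw [show M + 1 + (x.2.2 : ℕ) = M + T by omega, Nat.add_div_right M hT]
      rw [e3, pow_succ, mul_comm]
      exact Nat.mul_le_mul_left _ hcard

theorem blk_count {R A : Type} [Fintype R] [Fintype A] (T : ℕ) (hT : 1 ≤ T) (π : R → ℝ)
    (K : R → (Fin T → A) → R → ℝ) (h : IsBlk T π K) (C N : ℕ)
    (hC : ∀ s, ((Finset.univ : Finset ((Fin T → A) × R)).filter
      (fun x => K s x.1 x.2 ≠ 0)).card ≤ C) :
    ((Finset.univ : Finset (Fin (T * N) → A)).filter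
      (fun w => law (bπ T π K) (bκ T K) (bout T) (List.ofFn w) ≠ 0)).card ≤
      Fintype.card (BSt T A R) * C ^ N := by
  have hsub : (Finset.univ : Finset (Fin (T * N) → A)).filter
      (fun w => law (bπ T π K) (bκ T K) (bout T) (List.ofFn w) ≠ 0) ⊆
      (Finset.univ : Finset (BSt T A R)).biUnion (fun x => bWords T K x (T * N)) := by
    intro w hw
    have hw2 := (Finset.mem_filter.mp hw).2
    unfold law at hw2
    obtain ⟨x, -, hx⟩ := Finset.exists_ne_zero_of_sum_ne_zero hw2
    exact Finset.mem_biUnion.mpr ⟨x, Finset.mem_univ _,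
      Finset.mem_filter.mpr ⟨Finset.mem_univ _, right_ne_zero_of_mul hx⟩⟩
  refine le_trans (Finset.card_le_card hsub) (le_trans Finset.card_biUnion_le ?_)
  have hb : ∀ x ∈ (Finset.univ : Finset (BSt T A R)), (bWords T K x (T * N)).card ≤ C ^ N := by
    intro x _
    have h1 := bWords_card T π K h C hC (T * N) x
    have e : (T * N + (x.2.2 : ℕ)) / T = N := by
      rw [Nat.mul_add_div (by omega), Nat.div_eq_of_lt x.2.2.2, add_zero]
    rw [e] at h1
    exact h1
  refine le_trans (Finset.sum_le_card_nsmul _ _ _ hb) ?_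
  rw [smul_eq_mul, Finset.card_univ]

end Pool.Agent.H95.AV
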