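import Pool.Agent.H95.AV.Defs

/-!
# Block machines: definitions

`bw κ out w r r'`: probability that the chain started in `r` outputs `w` and is then in `r'`.
A block kernel `K s u s'` is the probability, started in `s`, of the block `u` of `T` letters with
final state `s'`.  The block machine has states `(u, s', j)`: block `u`, the next block starts in `s'`,
position `j` in the block.
-/

set_option autoImplicit false

namespace Pool.Agent.H95.AV

open Classical

/-- probability to output the word and to be in `r'` afterwards, starting in `r` -/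
noncomputable def bw {R A : Type} [Fintype R] (κ : R → R → ℝ) (out : R → A) :
    List A → R → R → ℝ
  | [], r, r' => if r = r' then 1 else 0
  | a :: w, r, r' => if out r = a then ∑ s, κ r s * bw κ out w s r' else 0

/-- `K` is a stochastic block kernel which preserves the probability `π` -/
structure IsBlk {R A : Type} [Fintype R] [Fintype A] (T : ℕ) (π : R → ℝ)
    (K : R → (Fin T → A) → R → ℝ) : Prop where
  π_nonneg : ∀ s, 0 ≤ π s
  π_sum : ∑ s, π s = 1
  nonneg : ∀ s u s', 0 ≤ K s u s'
  sum : ∀ s, ∑ u, ∑ s', K s u s' = 1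
  stat : ∀ s', ∑ s, π s * ∑ u, K s u s' = π s'

/-- states of the block machine -/
abbrev BSt (T : ℕ) (A R : Type) : Type := (Fin T → A) × R × Fin T

/-- stationary law of the block machine -/
noncomputable def bπ {R A : Type} [Fintype R] (T : ℕ) (π : R → ℝ)
    (K : R → (Fin T → A) → R → ℝ) : BSt T A R → ℝ :=
  fun x => 1 / (T : ℝ) * ∑ s, π s * K s x.1 x.2.1

/-- kernel of the block machine -/
noncomputable def bκ {R A : Type} (T : ℕ) (K : R → (Fin T → A) → R → ℝ) :
    BSt T A R → BSt T A R → ℝ :=
  fun x y => if (x.2.2 : ℕ) + 1 < T then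
      (if y.1 = x.1 ∧ y.2.1 = x.2.1 ∧ (y.2.2 : ℕ) = (x.2.2 : ℕ) + 1 then 1 else 0)
    else (if (y.2.2 : ℕ) = 0 then K x.2.1 y.1 y.2.1 else 0)

/-- output of the block machine -/
def bout {R A : Type} (T : ℕ) : BSt T A R → A := fun x => x.1 x.2.2

/-- the block kernel of a machine -/
noncomputable def KT {R A : Type} [Fintype R] (T : ℕ) (κ : R → R → ℝ) (out : R → A) :
    R → (Fin T → A) → R → ℝ :=
  fun s u s' => bw κ out (List.ofFn u) s s'

/-- number of occurrences of `w` in the block `u` -/
noncomputable def cnt {A : Type} (T : ℕ) (w : List A) (u : Fin T → A) : ℕ :=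
  ((Finset.univ : Finset (Fin T)).filter
    (fun j => (j : ℕ) + w.length ≤ T ∧ w <+: (List.ofFn u).drop j)).card

end Pool.Agent.H95.AV
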