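import Pool.Agent.H95.AV.LawM
import Pool.Agent.H95.AV.BDefs

/-!
# Job AV-BKT: the block kernel of a machine

`bw_nonneg`, `mw_append`: induction on the word.  `bw_sum`: `∑ u : Fin T → A, ∑ s', bw ... = 1`, induction
on `T`.  `isBlk_KT`: `∑ u : Fin T → A, bw κ out (List.ofFn u) s s'` is the `T` step transition
probability, and `π` is preserved; induction on `T` (`Fin.consEquiv`).
-/

set_option autoImplicit false

namespace Pool.Agent.H95.AV

open Classical

theorem bw_nonneg {R A : Type} [Fintype R] {π : R → ℝ} {κ : R → R → ℝ} (h : IsMach π κ)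
    (out : R → A) (w : List A) (r r' : R) : 0 ≤ bw κ out w r r' := by
  induction w generalizing r with
  | nil =>
    show 0 ≤ if r = r' then (1 : ℝ) else 0
    split_ifs <;> norm_num
  | cons a w ih =>
    show 0 ≤ if out r = a then ∑ s, κ r s * bw κ out w s r' else 0
    split_ifs
    · exact Finset.sum_nonneg fun s _ => mul_nonneg (h.κ_nonneg r s) (ih s)
    · exact le_rfl

theorem mw_append {R A : Type} [Fintype R] (κ : R → R → ℝ) (out : R → A) (u w : List A)
    (s : R) : mw κ out (u ++ w) s = ∑ s', bw κ out u s s' * mw κ out w s' := by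
  induction u generalizing s with
  | nil =>
    show mw κ out w s = ∑ s', (if s = s' then (1 : ℝ) else 0) * mw κ out w s'
    simp
  | cons a u ih =>
    show (if out s = a then ∑ r', κ s r' * mw κ out (u ++ w) r' else 0) =
      ∑ s', (if out s = a then ∑ r, κ s r * bw κ out u r s' else 0) * mw κ out w s'
    by_cases h : out s = a
    · simp only [if_pos h, ih, Finset.mul_sum, Finset.sum_mul]
      rw [Finset.sum_comm]
      refine Finset.sum_congr rfl fun s' _ => Finset.sum_congr rfl fun r _ => ?_
      ring
    · simp only [if_neg h, zero_mul, Finset.sum_const_zero]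

theorem BKT_zero {R A : Type} [Fintype R] [Fintype A] (κ : R → R → ℝ) (out : R → A) (s s' : R) :
    ∑ u : Fin 0 → A, bw κ out (List.ofFn u) s s' = if s = s' then 1 else 0 := by
  rw [Fintype.sum_unique]
  simp [bw]

theorem BKT_succ {R A : Type} [Fintype R] [Fintype A] (T : ℕ) (κ : R → R → ℝ) (out : R → A)
    (s s' : R) :
    ∑ u : Fin (T + 1) → A, bw κ out (List.ofFn u) s s' =
      ∑ r, κ s r * ∑ u : Fin T → A, bw κ out (List.ofFn u) r s' := by
  rw [← (Fin.consEquiv (fun _ : Fin (T + 1) => A)).sum_comp, Fintype.sum_prod_type]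
  have h1 : ∀ (a : A) (u : Fin T → A),
      bw κ out (List.ofFn ((Fin.consEquiv (fun _ : Fin (T + 1) => A)) (a, u))) s s' =
        if out s = a then ∑ r, κ s r * bw κ out (List.ofFn u) r s' else 0 := by
    intro a u
    have h2 : List.ofFn ((Fin.consEquiv (fun _ : Fin (T + 1) => A)) (a, u)) = a :: List.ofFn u := by
      rw [List.ofFn_succ]
      simp [Fin.consEquiv]
    rw [h2]
    rfl
  simp only [h1]
  rw [Finset.sum_comm]
  simp only [Finset.sum_ite_eq, Finset.mem_univ, if_true, Finset.mul_sum]
  rw [Finset.sum_comm]

theorem isBlk_KT {R A : Type} [Fintype R] [Fintype A] (T : ℕ) {π : R → ℝ} {κ : R → R → ℝ}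
    (h : IsMach π κ) (hs : IsStat π κ) (out : R → A) : IsBlk T π (KT T κ out) where
  π_nonneg := h.π_nonneg
  π_sum := h.π_sum
  nonneg := fun s u s' => bw_nonneg h out _ s s'
  sum := by
    intro s
    unfold KT
    rw [Finset.sum_comm]
    induction T generalizing s with
    | zero =>
      simp only [BKT_zero]
      simp
    | succ T ih =>
      simp only [BKT_succ]
      rw [Finset.sum_comm]
      simp only [← Finset.mul_sum, ih, mul_one]
      exact h.κ_sum s
  stat := by
    intro s'
    unfold KT
    induction T with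
    | zero =>
      simp only [BKT_zero]
      simp
    | succ T ih =>
      simp only [BKT_succ]
      calc ∑ s, π s * ∑ r, κ s r * ∑ u : Fin T → A, bw κ out (List.ofFn u) r s'
          = ∑ r, (∑ s, π s * κ s r) * ∑ u : Fin T → A, bw κ out (List.ofFn u) r s' := by
            simp only [Finset.sum_mul]
            rw [Finset.sum_comm]
            refine Finset.sum_congr rfl fun s _ => ?_
            rw [Finset.mul_sum]
            exact Finset.sum_congr rfl fun r _ => by ring
        _ = ∑ r, π r * ∑ u : Fin T → A, bw κ out (List.ofFn u) r s' :=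
            Finset.sum_congr rfl fun r _ => by rw [hs r]
        _ = π s' := ih

end Pool.Agent.H95.AV
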