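import Pool.Agent.H95.AV.BMach

/-!
# Job AV-BLaw: a stationary machine cut into blocks has the same law

PROOF.  Write `mb` for `mw (bκ T K) (bout T)`, `K = KT T κ out`, `M` for `mw κ out`.  CLAIM: for all words
`w`, all `j < T`, all `x : Fin j → A` (or lists `x` of length `j`) and all `s`:
`∑ u, ∑ s', (if (List.ofFn u).take j = x then K s u s' * mb w (u, s', j) else 0) = M (x ++ w) s`.
Induction on `w`.  `w = []`: the left side is `∑_{u starts with x} ∑ s', bw (List.ofFn u) s s'`, which is
`M x s` (`mw_append` with `w = []`, and `∑_{y : Fin (T - j) → A} M (x ++ List.ofFn y) s = M x s` by `mw_right`).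
`w = a :: w'`, `j + 1 < T`: `mb (a :: w') (u, s', j) = [u j = a] mb w' (u, s', j + 1)`, and
`take j = x` and `u j = a` iff `take (j + 1) = x ++ [a]`: induction hypothesis for `j + 1`.
`w = a :: w'`, `j + 1 = T`: `mb (a :: w') (u, s', j) = [u j = a] ∑ u', ∑ s'', K s' u' s'' * mb w' (u', s'', 0)
= [u j = a] M w' s'` by the induction hypothesis for `j = 0`, `x = []`; and `List.ofFn u = x ++ [a]`, so
the left side is `∑ s', bw (x ++ [a]) s s' * M w' s' = M (x ++ [a] ++ w') s` (`mw_append`).
Sum over all `x` of length `j`: `∑ u, ∑ s', K s u s' * mb w (u, s', j) = ∑_{x} M (x ++ w) s`; multiply by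
`π s / T`, sum over `s` and `j < T`: `law (block machine) w = (1/T) ∑_{j < T} ∑_{x : Fin j → A}
law π κ out (List.ofFn x ++ w) = law π κ out w` by `isLaw_sum_left`.
-/

set_option autoImplicit false

namespace Pool.Agent.H95.AV

open Classical

theorem bl_right {A : Type} [Fintype A] (F : List A → ℝ)
    (hF : ∀ w, ∑ a, F (w ++ [a]) = F w) (T : ℕ) (w : List A) :
    ∑ u : Fin T → A, F (w ++ List.ofFn u) = F w := by
  induction T generalizing w with
  | zero =>
    rw [Fintype.sum_unique, List.ofFn_zero, List.append_nil]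
  | succ T ih =>
    rw [lawS_cons T (fun l => F (w ++ l)), ← hF w]
    refine Finset.sum_congr rfl fun a _ => ?_
    rw [← ih (w ++ [a])]
    refine Finset.sum_congr rfl fun u _ => ?_
    rw [List.append_assoc, List.singleton_append]

theorem bl_take {A : Type} [Fintype A] (x : List A) :
    ∀ (T : ℕ) (F : List A → ℝ), (∀ w, ∑ a, F (w ++ [a]) = F w) → x.length ≤ T →
      ∑ u : Fin T → A, (if (List.ofFn u).take x.length = x then F (List.ofFn u) else 0) = F x := by
  induction x with
  | nil =>
    intro T F hF _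
    have h := bl_right F hF T []
    rw [← h]
    refine Finset.sum_congr rfl fun u _ => ?_
    simp
  | cons a x ih =>
    intro T F hF hT
    obtain ⟨T, rfl⟩ : ∃ T', T = T' + 1 := ⟨T - 1, by simp at hT; omega⟩
    rw [lawS_cons T (fun l => if l.take (a :: x).length = a :: x then F l else 0)]
    rw [Finset.sum_eq_single a]
    · have h := ih T (fun l => F (a :: l)) (fun w => by
        have := hF (a :: w)
        simpa using this) (by simp at hT; omega)
      rw [← h]
      refine Finset.sum_congr rfl fun u _ => ?_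
      simp
    · intro b _ hb
      refine Finset.sum_eq_zero fun u _ => ?_
      rw [if_neg]
      intro h
      rw [List.length_cons, List.take_succ_cons] at h
      exact hb (List.cons.inj h).1
    · intro h
      exact absurd (Finset.mem_univ a) h

theorem bl_bw_sum {R A : Type} [Fintype R] (κ : R → R → ℝ) (out : R → A) (w : List A) (s : R) :
    ∑ s', bw κ out w s s' = mw κ out w s := by
  have h := mw_append κ out w [] s
  rw [List.append_nil] at h
  rw [h]
  refine Finset.sum_congr rfl fun s' _ => ?_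
  rw [mw, mul_one]

/-- the next state inside a block -/
theorem bl_next {R A : Type} [Fintype R] [Fintype A] (T : ℕ) (K : R → (Fin T → A) → R → ℝ)
    (φ : BSt T A R → ℝ) (u : Fin T → A) (s' : R) (j : ℕ) (hj : j + 1 < T) :
    ∑ y, bκ T K (u, s', ⟨j, by omega⟩) y * φ y = φ (u, s', ⟨j + 1, hj⟩) := by
  rw [Finset.sum_eq_single (u, s', (⟨j + 1, hj⟩ : Fin T))]
  · unfold bκ
    rw [if_pos (by exact hj), if_pos ⟨rfl, rfl, rfl⟩, one_mul]
  · rintro ⟨u', s'', j'⟩ _ hne
    unfold bκ
    rw [if_pos (by exact hj), if_neg, zero_mul]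
    rintro ⟨h1, h2, h3⟩
    apply hne
    have h1' : u' = u := h1
    have h2' : s'' = s' := h2
    have h3' : j' = (⟨j + 1, hj⟩ : Fin T) := Fin.ext h3
    rw [h1', h2', h3']
  · intro h
    exact absurd (Finset.mem_univ _) h

/-- the next state at the end of a block -/
theorem bl_last {R A : Type} [Fintype R] [Fintype A] (T : ℕ) (hT : 1 ≤ T)
    (K : R → (Fin T → A) → R → ℝ)
    (φ : BSt T A R → ℝ) (u : Fin T → A) (s' : R) (j : Fin T) (hj : ¬ ((j : ℕ) + 1 < T)) :
    ∑ y, bκ T K (u, s', j) y * φ y = ∑ u', ∑ s'', K s' u' s'' * φ (u', s'', ⟨0, hT⟩) := by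
  rw [Fintype.sum_prod_type]
  refine Finset.sum_congr rfl fun u' _ => ?_
  rw [Fintype.sum_prod_type]
  refine Finset.sum_congr rfl fun s'' _ => ?_
  rw [Finset.sum_eq_single (⟨0, hT⟩ : Fin T)]
  · unfold bκ
    rw [if_neg hj, if_pos rfl]
  · intro j' _ hne
    unfold bκ
    rw [if_neg hj, if_neg, zero_mul]
    intro h
    exact hne (Fin.ext h)
  · intro h
    exact absurd (Finset.mem_univ _) h

theorem bl_take_succ {A : Type} {T : ℕ} (u : Fin T → A) (j : ℕ) (hj : j < T) (x : List A) (a : A)
    (hx : x.length = j) :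
    (List.ofFn u).take (j + 1) = x ++ [a] ↔ (List.ofFn u).take j = x ∧ u ⟨j, hj⟩ = a := by
  have h1 : (List.ofFn u).take (j + 1) = (List.ofFn u).take j ++ [u ⟨j, hj⟩] := by
    have hl : j < (List.ofFn u).length := by rw [List.length_ofFn]; exact hj
    rw [← List.take_append_getElem hl, List.getElem_ofFn]
  rw [h1]
  constructor
  · intro h
    have h2 := List.append_inj h (by rw [List.length_take, List.length_ofFn, hx]; omega)
    exact ⟨h2.1, by simpa using h2.2⟩
  · rintro ⟨h2, h3⟩
    rw [h2, h3]

theorem bl_claim {R A : Type} [Fintype R] [Fintype A] (T : ℕ) (hT : 1 ≤ T) {π : R → ℝ}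
    {κ : R → R → ℝ} (h : IsMach π κ) (out : R → A) (w : List A) :
    ∀ (j : ℕ) (hj : j < T) (x : List A), x.length = j → ∀ s : R,
      ∑ u : Fin T → A, ∑ s', (if (List.ofFn u).take j = x then
        KT T κ out s u s' * mw (bκ T (KT T κ out)) (bout T) w (u, s', ⟨j, hj⟩) else 0) =
        mw κ out (x ++ w) s := by
  induction w with
  | nil =>
    intro j hj x hx s
    have hsum := bl_take x T (fun l => mw κ out l s) (fun w => mw_right h out w s) (by omega)
    rw [List.append_nil, ← hsum]
    refine Finset.sum_congr rfl fun u _ => ?_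
    rw [hx]
    by_cases hc : (List.ofFn u).take j = x
    · rw [if_pos hc, ← bl_bw_sum]
      refine Finset.sum_congr rfl fun s' _ => ?_
      rw [if_pos hc, mw, mul_one]
      rfl
    · rw [if_neg hc]
      exact Finset.sum_eq_zero fun s' _ => if_neg hc
  | cons a w ih =>
    intro j hj x hx s
    by_cases hj1 : j + 1 < T
    · have h1 := ih (j + 1) hj1 (x ++ [a]) (by rw [List.length_append, hx]; rfl) s
      rw [List.append_assoc, List.singleton_append] at h1
      rw [← h1]
      refine Finset.sum_congr rfl fun u _ => Finset.sum_congr rfl fun s' _ => ?_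
      by_cases hc : (List.ofFn u).take j = x
      · rw [if_pos hc, mw, bl_next T _ _ u s' j hj1]
        by_cases ha : bout T ((u, s', ⟨j, hj⟩) : BSt T A R) = a
        · rw [if_pos ha, if_pos ((bl_take_succ u j hj x a hx).2 ⟨hc, ha⟩)]
        · rw [if_neg ha, if_neg (fun hh => ha ((bl_take_succ u j hj x a hx).1 hh).2), mul_zero]
      · rw [if_neg hc, if_neg (fun hh => hc ((bl_take_succ u j hj x a hx).1 hh).1)]
    · have hTj : T = j + 1 := by omega
      have h0 : ∀ s' : R, ∑ u' : Fin T → A, ∑ s'', KT T κ out s' u' s'' *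
          mw (bκ T (KT T κ out)) (bout T) w (u', s'', ⟨0, hT⟩) = mw κ out w s' := by
        intro s'
        have h1 := ih 0 hT [] rfl s'
        rw [List.nil_append] at h1
        rw [← h1]
        refine Finset.sum_congr rfl fun u' _ => Finset.sum_congr rfl fun s'' _ => ?_
        rw [if_pos (List.take_zero)]
      have hxa : (x ++ [a]).length = T := by rw [List.length_append, hx, hTj]; rfl
      let u0 : Fin T → A := fun i => (x ++ [a])[(i : ℕ)]'(by rw [hxa]; exact i.2)
      have hu0 : List.ofFn u0 = x ++ [a] := by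
        apply List.ext_getElem
        · rw [List.length_ofFn, hxa]
        · intro i h1 h2
          rw [List.getElem_ofFn]
      have hiff : ∀ u : Fin T → A, ((List.ofFn u).take j = x ∧ u ⟨j, hj⟩ = a) ↔ u = u0 := by
        intro u
        rw [← bl_take_succ u j hj x a hx, ← hu0]
        rw [List.take_of_length_le (by rw [List.length_ofFn]; omega)]
        exact List.ofFn_injective.eq_iff
      rw [Finset.sum_eq_single u0]
      · obtain ⟨hc, ha⟩ := (hiff u0).2 rfl
        rw [show x ++ a :: w = (x ++ [a]) ++ w by rw [List.append_assoc, List.singleton_append],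
          mw_append]
        refine Finset.sum_congr rfl fun s' _ => ?_
        rw [if_pos hc, mw, if_pos (show bout T ((u0, s', ⟨j, hj⟩) : BSt T A R) = a from ha),
          bl_last T hT _ _ u0 s' ⟨j, hj⟩ hj1, h0 s', KT, hu0]
      · intro u _ hne
        refine Finset.sum_eq_zero fun s' _ => ?_
        by_cases hc : (List.ofFn u).take j = x
        · rw [if_pos hc, mw, if_neg, mul_zero]
          intro ha
          exact hne ((hiff u).1 ⟨hc, ha⟩)
        · rw [if_neg hc]
      · intro hh
        exact absurd (Finset.mem_univ _) hh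

theorem bl_phase {R A : Type} [Fintype R] [Fintype A] (T : ℕ) (hT : 1 ≤ T) {π : R → ℝ}
    {κ : R → R → ℝ} (h : IsMach π κ) (out : R → A) (w : List A) (j : Fin T) (s : R) :
    ∑ u : Fin T → A, ∑ s', KT T κ out s u s' *
      mw (bκ T (KT T κ out)) (bout T) w (u, s', j) =
      ∑ x : Fin (j : ℕ) → A, mw κ out (List.ofFn x ++ w) s := by
  have h1 : ∀ x : Fin (j : ℕ) → A, mw κ out (List.ofFn x ++ w) s =
      ∑ u : Fin T → A, ∑ s', (if (List.ofFn u).take j = List.ofFn x then
        KT T κ out s u s' * mw (bκ T (KT T κ out)) (bout T) w (u, s', j) else 0) := by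
    intro x
    rw [← bl_claim T hT h out w j j.2 (List.ofFn x) (List.length_ofFn) s]
  have h2 : ∑ x : Fin (j : ℕ) → A, mw κ out (List.ofFn x ++ w) s =
      ∑ x : Fin (j : ℕ) → A, ∑ u : Fin T → A, ∑ s', (if (List.ofFn u).take j = List.ofFn x then
        KT T κ out s u s' * mw (bκ T (KT T κ out)) (bout T) w (u, s', j) else 0) :=
    Finset.sum_congr rfl fun x _ => h1 x
  rw [h2]
  conv_rhs => rw [Finset.sum_comm]
  refine Finset.sum_congr rfl fun u _ => ?_
  conv_rhs => rw [Finset.sum_comm]
  refine Finset.sum_congr rfl fun s' _ => ?_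
  let x0 : Fin (j : ℕ) → A := fun i => u ⟨i, lt_trans i.2 j.2⟩
  have hx0 : (List.ofFn u).take j = List.ofFn x0 := by
    apply List.ext_getElem
    · rw [List.length_take, List.length_ofFn, List.length_ofFn]
      have := j.2
      omega
    · intro i h1 h2
      rw [List.getElem_take, List.getElem_ofFn, List.getElem_ofFn]
  rw [Finset.sum_eq_single x0]
  · rw [if_pos hx0]
  · intro x _ hne
    rw [if_neg]
    intro hh
    exact hne (List.ofFn_injective (hh.symm.trans hx0))
  · intro hh
    exact absurd (Finset.mem_univ _) hh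

theorem blk_law {R A : Type} [Fintype R] [Fintype A] (T : ℕ) (hT : 1 ≤ T) {π : R → ℝ}
    {κ : R → R → ℝ} (h : IsMach π κ) (hs : IsStat π κ) (out : R → A) (w : List A) :
    law (bπ T π (KT T κ out)) (bκ T (KT T κ out)) (bout T) w = law π κ out w := by
  have hlaw := isLaw_law h hs out
  have h1 : law (bπ T π (KT T κ out)) (bκ T (KT T κ out)) (bout T) w =
      ∑ j : Fin T, 1 / (T : ℝ) * ∑ s, π s * ∑ u : Fin T → A, ∑ s', KT T κ out s u s' *
        mw (bκ T (KT T κ out)) (bout T) w (u, s', j) := by
    unfold law bπ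
    rw [Fintype.sum_prod_type]
    have h2 : ∀ u : Fin T → A, ∑ y : R × Fin T,
        1 / (T : ℝ) * (∑ s, π s * KT T κ out s u y.1) *
          mw (bκ T (KT T κ out)) (bout T) w (u, y) =
        ∑ j : Fin T, ∑ s' : R, 1 / (T : ℝ) * (∑ s, π s * KT T κ out s u s') *
          mw (bκ T (KT T κ out)) (bout T) w (u, s', j) := by
      intro u
      rw [Fintype.sum_prod_type, Finset.sum_comm]
    rw [Finset.sum_congr rfl fun u _ => h2 u, Finset.sum_comm]
    refine Finset.sum_congr rfl fun j _ => ?_
    simp only [Finset.mul_sum, Finset.sum_mul]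
    rw [Finset.sum_comm]
    conv_rhs => rw [Finset.sum_comm]
    rw [Finset.sum_comm]
    refine Finset.sum_congr rfl fun u _ => ?_
    rw [Finset.sum_comm]
    refine Finset.sum_congr rfl fun s _ => Finset.sum_congr rfl fun s' _ => ?_
    ring
  rw [h1]
  have h3 : ∀ j : Fin T, 1 / (T : ℝ) * ∑ s, π s * ∑ u : Fin T → A, ∑ s', KT T κ out s u s' *
        mw (bκ T (KT T κ out)) (bout T) w (u, s', j) = 1 / (T : ℝ) * law π κ out w := by
    intro j
    congr 1
    rw [Finset.sum_congr rfl fun s _ => by rw [bl_phase T hT h out w j s]]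
    simp only [Finset.mul_sum]
    rw [Finset.sum_comm]
    exact isLaw_sum_left hlaw j w
  rw [Finset.sum_congr rfl fun j _ => h3 j, Finset.sum_const, Finset.card_univ, Fintype.card_fin,
    nsmul_eq_mul, ← mul_assoc]
  have hT0 : (T : ℝ) ≠ 0 := by
    have : (1 : ℝ) ≤ T := by exact_mod_cast hT
    positivity
  rw [mul_one_div_cancel hT0, one_mul]

end Pool.Agent.H95.AV
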