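import Pool.Agent.H95.AV.LawM
import Pool.Agent.H95.AV.BKT

/-!
# Job AV-BMach: basic properties of block machines

`blk_mach`.  PROOF.  `∑ x, bπ x = (1/T) * T * ∑ s, π s * ∑ u, ∑ s', K s u s' = 1`.  `∑ y, bκ x y = 1`:
for `j + 1 < T` exactly one `y`; for `j + 1 = T` (`j < T`) the sum over the `y` with phase `0` (`T ≥ 1`).
`blk_stat`: for `y = (u, s', j)` with `j ≥ 1` the only predecessor (among the `x` with phase
`< T - 1`) is `(u, s', j - 1)`, and those with phase `T - 1` contribute `0`.  For `j = 0`: the sum over the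
`x = (u₀, s₀, T - 1)` of `(1/T) ∑ s, π s * K s u₀ s₀ * K s₀ u s'`
`= (1/T) ∑ s₀, (∑ s, π s * ∑ u₀, K s u₀ s₀) * K s₀ u s' = (1/T) ∑ s₀, π s₀ * K s₀ u s'` (`stat`); the `x`
with phase `< T - 1` contribute `0` (their successors have phase `≥ 1`).
-/

set_option autoImplicit false

namespace Pool.Agent.H95.AV

open Classical

theorem bmach_sum_prod {R A : Type} [Fintype R] [Fintype A] (T : ℕ) (f : BSt T A R → ℝ) :
    ∑ x, f x = ∑ u : Fin T → A, ∑ s : R, ∑ j : Fin T, f (u, s, j) := by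
  rw [Fintype.sum_prod_type]
  refine Finset.sum_congr rfl fun u _ => ?_
  rw [Fintype.sum_prod_type]

theorem bmach_bκ_lt {R A : Type} (T : ℕ) (K : R → (Fin T → A) → R → ℝ) (x : BSt T A R)
    (h : (x.2.2 : ℕ) + 1 < T) (y : BSt T A R) :
    bκ T K x y = if y = (x.1, x.2.1, ⟨(x.2.2 : ℕ) + 1, h⟩) then 1 else 0 := by
  unfold bκ
  rw [if_pos h]
  have hiff : (y.1 = x.1 ∧ y.2.1 = x.2.1 ∧ (y.2.2 : ℕ) = (x.2.2 : ℕ) + 1) ↔
      y = (x.1, x.2.1, ⟨(x.2.2 : ℕ) + 1, h⟩) := by
    constructor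
    · rintro ⟨h1, h2, h3⟩
      refine Prod.ext h1 (Prod.ext h2 (Fin.ext h3))
    · intro hy
      rw [hy]
      exact ⟨rfl, rfl, rfl⟩
  by_cases hy : y = (x.1, x.2.1, ⟨(x.2.2 : ℕ) + 1, h⟩)
  · rw [if_pos (hiff.2 hy), if_pos hy]
  · rw [if_neg (fun h' => hy (hiff.1 h')), if_neg hy]

theorem bmach_bκ_ge {R A : Type} (T : ℕ) (K : R → (Fin T → A) → R → ℝ) (x : BSt T A R)
    (h : ¬ (x.2.2 : ℕ) + 1 < T) (y : BSt T A R) :
    bκ T K x y = if (y.2.2 : ℕ) = 0 then K x.2.1 y.1 y.2.1 else 0 := by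
  unfold bκ
  rw [if_neg h]

theorem blk_mach {R A : Type} [Fintype R] [Fintype A] (T : ℕ) (hT : 1 ≤ T) (π : R → ℝ)
    (K : R → (Fin T → A) → R → ℝ) (h : IsBlk T π K) : IsMach (bπ T π K) (bκ T K) := by
  have hT0 : (0 : ℝ) < T := by exact_mod_cast hT
  refine ⟨?_, ?_, ?_, ?_⟩
  · intro x
    unfold bπ
    exact mul_nonneg (by positivity)
      (Finset.sum_nonneg fun s _ => mul_nonneg (h.π_nonneg s) (h.nonneg _ _ _))
  · rw [bmach_sum_prod]
    have h1 : ∀ (u : Fin T → A) (s' : R), ∑ _j : Fin T, bπ T π K (u, s', _j) =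
        ∑ s, π s * K s u s' := by
      intro u s'
      show ∑ _j : Fin T, 1 / (T : ℝ) * ∑ s, π s * K s u s' = ∑ s, π s * K s u s'
      rw [Finset.sum_const, Finset.card_univ, Fintype.card_fin, nsmul_eq_mul, ← mul_assoc,
        mul_one_div_cancel hT0.ne', one_mul]
    simp only [h1]
    have h2 : ∑ u : Fin T → A, ∑ s' : R, ∑ s, π s * K s u s' =
        ∑ s, π s * ∑ u, ∑ s', K s u s' := by
      have h3 : ∀ u : Fin T → A, ∑ s' : R, ∑ s, π s * K s u s' = ∑ s, ∑ s', π s * K s u s' :=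
        fun u => Finset.sum_comm
      simp only [h3]
      rw [Finset.sum_comm]
      refine Finset.sum_congr rfl fun s _ => ?_
      simp only [Finset.mul_sum]
    rw [h2]
    simp only [h.sum, mul_one]
    exact h.π_sum
  · intro x y
    by_cases hx : (x.2.2 : ℕ) + 1 < T
    · rw [bmach_bκ_lt T K x hx]
      split_ifs
      · exact zero_le_one
      · exact le_refl _
    · rw [bmach_bκ_ge T K x hx]
      split_ifs
      · exact h.nonneg _ _ _
      · exact le_refl _
  · intro x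
    by_cases hx : (x.2.2 : ℕ) + 1 < T
    · simp only [bmach_bκ_lt T K x hx]
      rw [Finset.sum_ite_eq' Finset.univ]
      simp
    · simp only [bmach_bκ_ge T K x hx]
      rw [bmach_sum_prod]
      have h1 : ∀ (u : Fin T → A) (s' : R), ∑ j : Fin T,
          (if ((u, s', j) : BSt T A R).2.2.val = 0 then
            K x.2.1 ((u, s', j) : BSt T A R).1 ((u, s', j) : BSt T A R).2.1 else 0) =
          K x.2.1 u s' := by
        intro u s'
        rw [Finset.sum_eq_single (⟨0, hT⟩ : Fin T)]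
        · exact if_pos rfl
        · intro j _ hj
          refine if_neg fun hj' => hj (Fin.ext hj')
        · intro hn
          exact absurd (Finset.mem_univ _) hn
      refine Eq.trans ?_ (h.sum x.2.1)
      exact Finset.sum_congr rfl fun u _ => Finset.sum_congr rfl fun s' _ => h1 u s'

theorem blk_stat {R A : Type} [Fintype R] [Fintype A] (T : ℕ) (hT : 1 ≤ T) (π : R → ℝ)
    (K : R → (Fin T → A) → R → ℝ) (h : IsBlk T π K) : IsStat (bπ T π K) (bκ T K) := by
  intro y
  obtain ⟨u, s', j⟩ := y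
  by_cases hj : (j : ℕ) = 0
  · rw [bmach_sum_prod]
    have h1 : ∀ (u₀ : Fin T → A) (s₀ : R), ∑ i : Fin T,
        bπ T π K (u₀, s₀, i) * bκ T K (u₀, s₀, i) (u, s', j) =
        (1 / (T : ℝ) * ∑ s, π s * K s u₀ s₀) * K s₀ u s' := by
      intro u₀ s₀
      rw [Finset.sum_eq_single (⟨T - 1, by omega⟩ : Fin T)]
      · rw [bmach_bκ_ge T K _ (by show ¬ (T - 1 + 1 < T); omega)]
        rw [if_pos (show (((u, s', j) : BSt T A R).2.2 : ℕ) = 0 from hj)]
        rfl
      · intro i _ hi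
        have hi' : (i : ℕ) + 1 < T := by
          have h2 := i.2
          have h3 : (i : ℕ) ≠ T - 1 := fun h4 => hi (Fin.ext h4)
          omega
        rw [bmach_bκ_lt T K (u₀, s₀, i) hi', if_neg, mul_zero]
        intro h4
        have h5 : (j : ℕ) = (i : ℕ) + 1 := congrArg (fun z : BSt T A R => (z.2.2 : ℕ)) h4
        omega
      · intro hn
        exact absurd (Finset.mem_univ _) hn
    simp only [h1]
    rw [Finset.sum_comm]
    have h6 : ∀ s₀ : R, ∑ u₀ : Fin T → A, (1 / (T : ℝ) * ∑ s, π s * K s u₀ s₀) * K s₀ u s' =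
        1 / (T : ℝ) * (π s₀ * K s₀ u s') := by
      intro s₀
      rw [← Finset.sum_mul, ← Finset.mul_sum, Finset.sum_comm, mul_assoc]
      congr 2
      refine Eq.trans ?_ (h.stat s₀)
      refine Finset.sum_congr rfl fun s _ => ?_
      rw [Finset.mul_sum]
    simp only [h6]
    rw [← Finset.mul_sum]
    rfl
  · have hj1 : (j : ℕ) - 1 < T := by
      have := j.2
      omega
    rw [Finset.sum_eq_single ((u, s', ⟨(j : ℕ) - 1, hj1⟩) : BSt T A R)]
    · have hlt : ((((u, s', ⟨(j : ℕ) - 1, hj1⟩) : BSt T A R).2.2 : ℕ)) + 1 < T := by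
        show (j : ℕ) - 1 + 1 < T
        have := j.2
        omega
      rw [bmach_bκ_lt T K _ hlt, if_pos, mul_one]
      · rfl
      · refine Prod.ext rfl (Prod.ext rfl (Fin.ext ?_))
        show (j : ℕ) = (j : ℕ) - 1 + 1
        omega
    · intro x _ hx
      by_cases hx1 : (x.2.2 : ℕ) + 1 < T
      · rw [bmach_bκ_lt T K x hx1, if_neg, mul_zero]
        intro h4
        apply hx
        have e1 : u = x.1 := congrArg (fun z : BSt T A R => z.1) h4
        have e2 : s' = x.2.1 := congrArg (fun z : BSt T A R => z.2.1) h4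
        have e3 : (j : ℕ) = (x.2.2 : ℕ) + 1 := congrArg (fun z : BSt T A R => (z.2.2 : ℕ)) h4
        refine Prod.ext e1.symm (Prod.ext e2.symm (Fin.ext ?_))
        show (x.2.2 : ℕ) = (j : ℕ) - 1
        omega
      · rw [bmach_bκ_ge T K x hx1, if_neg, mul_zero]
        exact hj
    · intro hn
      exact absurd (Finset.mem_univ _) hn

end Pool.Agent.H95.AV
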