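import Pool.Agent.H95.AV.Defs

/-!
# Job AV-Lump: lumping of machines, comparison of supports

`law_lump`.  PROOF.  `mw κ o w r = mw κ' o' w (ψ r)` by induction on `w`:
`∑ s, κ r s * mw κ' o' w (ψ s) = ∑ r', (∑ s, if ψ s = r' then κ r s else 0) * mw κ' o' w r'`.  Then sum
over `r` with weights `π` in the same way.
`law_supp`.  PROOF.  `mw κ' out w r ≠ 0 → mw κ out w r ≠ 0` by induction on `w`, all terms being
nonnegative (a sum of nonnegative terms is nonzero iff some term is nonzero).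
-/

set_option autoImplicit false

namespace Pool.Agent.H95.AV

open Classical

theorem sum_lump {R R' : Type} [Fintype R] [Fintype R'] (ψ : R → R') (f : R → ℝ) (g : R' → ℝ) :
    ∑ s, f s * g (ψ s) = ∑ r', (∑ s, (if ψ s = r' then f s else 0)) * g r' := by
  have h : ∀ r', (∑ s, (if ψ s = r' then f s else 0)) * g r' =
      ∑ s, (if ψ s = r' then f s else 0) * g r' := fun r' => Finset.sum_mul _ _ _
  rw [Finset.sum_congr rfl (fun r' _ => h r'), Finset.sum_comm]
  refine Finset.sum_congr rfl (fun s _ => ?_)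
  rw [Finset.sum_eq_single (ψ s)]
  · rw [if_pos rfl]
  · intro b _ hb
    rw [if_neg (fun e => hb e.symm), zero_mul]
  · intro hn
    exact absurd (Finset.mem_univ _) hn

theorem mw_lump {R R' B : Type} [Fintype R] [Fintype R'] (κ : R → R → ℝ)
    (o : R → B) (κ' : R' → R' → ℝ) (o' : R' → B) (ψ : R → R')
    (h1 : ∀ r, o r = o' (ψ r))
    (h2 : ∀ r r', ∑ s, (if ψ s = r' then κ r s else 0) = κ' (ψ r) r') (w : List B) :
    ∀ r, mw κ o w r = mw κ' o' w (ψ r) := by
  induction w with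
  | nil => intro r; rfl
  | cons a w ih =>
    intro r
    simp only [mw]
    rw [h1 r]
    by_cases h : o' (ψ r) = a
    · rw [if_pos h, if_pos h]
      have e1 : ∀ s, κ r s * mw κ o w s = κ r s * mw κ' o' w (ψ s) := fun s => by rw [ih s]
      rw [Finset.sum_congr rfl (fun s _ => e1 s), sum_lump ψ (κ r) (mw κ' o' w)]
      exact Finset.sum_congr rfl (fun r' _ => by rw [h2 r r'])
    · rw [if_neg h, if_neg h]

theorem mw_nonneg_of {R A : Type} [Fintype R] {π : R → ℝ} {κ : R → R → ℝ}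
    (h : IsMach π κ) (out : R → A) (w : List A) : ∀ r, 0 ≤ mw κ out w r := by
  induction w with
  | nil => intro r; exact zero_le_one
  | cons a w ih =>
    intro r
    simp only [mw]
    by_cases e : out r = a
    · rw [if_pos e]
      exact Finset.sum_nonneg (fun s _ => mul_nonneg (h.κ_nonneg r s) (ih s))
    · rw [if_neg e]

theorem mw_supp {R A : Type} [Fintype R] {π π' : R → ℝ} {κ κ' : R → R → ℝ}
    (h : IsMach π κ) (_h' : IsMach π' κ') (out : R → A)
    (hκ : ∀ r r', κ' r r' ≠ 0 → κ r r' ≠ 0) (w : List A) :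
    ∀ r, mw κ' out w r ≠ 0 → mw κ out w r ≠ 0 := by
  induction w with
  | nil => intro r _; exact one_ne_zero
  | cons a w ih =>
    intro r
    simp only [mw]
    by_cases e : out r = a
    · rw [if_pos e, if_pos e]
      intro hne
      obtain ⟨s, -, hs⟩ := Finset.exists_ne_zero_of_sum_ne_zero hne
      have hs1 : κ r s ≠ 0 := hκ r s (left_ne_zero_of_mul hs)
      have hs2 : mw κ out w s ≠ 0 := ih s (right_ne_zero_of_mul hs)
      have hpos : 0 < κ r s * mw κ out w s :=
        mul_pos (lt_of_le_of_ne (h.κ_nonneg r s) (Ne.symm hs1))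
          (lt_of_le_of_ne (mw_nonneg_of h out w s) (Ne.symm hs2))
      exact ne_of_gt (Finset.sum_pos' (fun s _ => mul_nonneg (h.κ_nonneg r s)
        (mw_nonneg_of h out w s)) ⟨s, Finset.mem_univ _, hpos⟩)
    · rw [if_neg e, if_neg e]
      exact id

theorem law_lump {R R' B : Type} [Fintype R] [Fintype R'] (π : R → ℝ) (κ : R → R → ℝ)
    (o : R → B) (π' : R' → ℝ) (κ' : R' → R' → ℝ) (o' : R' → B) (ψ : R → R')
    (h1 : ∀ r, o r = o' (ψ r))
    (h2 : ∀ r r', ∑ s, (if ψ s = r' then κ r s else 0) = κ' (ψ r) r')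
    (h3 : ∀ r', ∑ s, (if ψ s = r' then π s else 0) = π' r') (w : List B) :
    law π κ o w = law π' κ' o' w := by
  unfold law
  have e1 : ∀ r, π r * mw κ o w r = π r * mw κ' o' w (ψ r) := fun r => by
    rw [mw_lump κ o κ' o' ψ h1 h2 w r]
  rw [Finset.sum_congr rfl (fun r _ => e1 r), sum_lump ψ π (mw κ' o' w)]
  exact Finset.sum_congr rfl (fun r' _ => by rw [h3 r'])

theorem law_supp {R A : Type} [Fintype R] {π π' : R → ℝ} {κ κ' : R → R → ℝ}
    (h : IsMach π κ) (h' : IsMach π' κ') (out : R → A) (hπ : ∀ r, π' r ≠ 0 → π r ≠ 0)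
    (hκ : ∀ r r', κ' r r' ≠ 0 → κ r r' ≠ 0) (w : List A) (hw : law π' κ' out w ≠ 0) :
    law π κ out w ≠ 0 := by
  unfold law at hw ⊢
  obtain ⟨s, -, hs⟩ := Finset.exists_ne_zero_of_sum_ne_zero hw
  have hs1 : π s ≠ 0 := hπ s (left_ne_zero_of_mul hs)
  have hs2 : mw κ out w s ≠ 0 := mw_supp h h' out hκ w s (right_ne_zero_of_mul hs)
  have hpos : 0 < π s * mw κ out w s :=
    mul_pos (lt_of_le_of_ne (h.π_nonneg s) (Ne.symm hs1))
      (lt_of_le_of_ne (mw_nonneg_of h out w s) (Ne.symm hs2))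
  exact ne_of_gt (Finset.sum_pos' (fun s _ => mul_nonneg (h.π_nonneg s)
    (mw_nonneg_of h out w s)) ⟨s, Finset.mem_univ _, hpos⟩)

end Pool.Agent.H95.AV
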