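import Pool.Agent.H95.AV.BMach
import Pool.Agent.H95.AV.Lump

/-!
# Job AV-BOwn: the law of the images of the letters only depends on the image block kernel

PROOF.  Let `Kf s v s' = ∑ u, if (fun t => f (u t)) = v then K s u s' else 0`, `v : Fin T → B`; by
hypothesis this is the same function for `K` and `K'`.  By `law_lump` with
`ψ (u, s', j) = (fun t => f (u t), s', j)`, `o x = f (bout T x)`, `o' = bout T`:
`law (bπ T π K) (bκ T K) (fun x => f (bout T x)) w = law (bπ T π Kf) (bκ T Kf) (bout T) w`.
Check of the hypotheses of `law_lump`: `h2`: for `j + 1 < T` both sides are `1` if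
`r' = ψ (u, s', j + 1)` and `0` otherwise; for `j + 1 = T` both are `0` unless `r'` has phase `0`, then
the sum over the `(u', s'', 0)` with `f ∘ u' = v'` of `K s' u' s''` is `Kf s' v' s''`.  `h3`: exchange the
sums.
-/

set_option autoImplicit false

namespace Pool.Agent.H95.AV

open Classical

private theorem BOwn_sum {R A B : Type} [Fintype R] [Fintype A] (T : ℕ) (f : A → B)
    (g : BSt T A R → ℝ) (r' : BSt T B R) :
    ∑ x : BSt T A R, (if ((fun t => f (x.1 t), x.2.1, x.2.2) : BSt T B R) = r' then g x else 0) =
      ∑ u : Fin T → A, if (fun t => f (u t)) = r'.1 then g (u, r'.2.1, r'.2.2) else 0 := by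
  obtain ⟨v, t, i⟩ := r'
  rw [Fintype.sum_prod_type]
  refine Finset.sum_congr rfl fun u _ => ?_
  rw [Fintype.sum_prod_type]
  by_cases hu : (fun t => f (u t)) = v
  · rw [if_pos hu]
    rw [Finset.sum_eq_single t, Finset.sum_eq_single i]
    · rw [if_pos]
      rw [hu]
    · intro j _ hj
      rw [if_neg]
      intro h
      exact hj (Prod.ext_iff.1 (Prod.ext_iff.1 h).2).2
    · intro h
      exact absurd (Finset.mem_univ _) h
    · intro s' _ hs'
      refine Finset.sum_eq_zero fun j _ => ?_
      rw [if_neg]
      intro h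
      exact hs' (Prod.ext_iff.1 (Prod.ext_iff.1 h).2).1
    · intro h
      exact absurd (Finset.mem_univ _) h
  · rw [if_neg hu]
    refine Finset.sum_eq_zero fun s' _ => Finset.sum_eq_zero fun j _ => ?_
    rw [if_neg]
    intro h
    exact hu (Prod.ext_iff.1 h).1

private theorem BOwn_aux {R A B : Type} [Fintype R] [Fintype A] [Fintype B] (T : ℕ) (π : R → ℝ)
    (K : R → (Fin T → A) → R → ℝ) (f : A → B) (w : List B) :
    law (bπ T π K) (bκ T K) (fun x => f (bout T x)) w =
      law (bπ T π (fun s (v : Fin T → B) s' =>
        ∑ u, (if (fun t => f (u t)) = v then K s u s' else 0)))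
        (bκ T (fun s (v : Fin T → B) s' =>
        ∑ u, (if (fun t => f (u t)) = v then K s u s' else 0))) (bout T) w := by
  refine law_lump (bπ T π K) (bκ T K) (fun x => f (bout T x)) _ _ (bout T)
    (fun x : BSt T A R => ((fun t => f (x.1 t), x.2.1, x.2.2) : BSt T B R)) (fun _ => rfl) ?_ ?_ w
  · intro r r'
    refine (Finset.sum_congr rfl fun x _ => ?_).trans
      ((BOwn_sum T f (fun x => bκ T K r x) r').trans ?_)
    · split_ifs <;> rfl
    obtain ⟨u, s', j⟩ := r
    obtain ⟨v, t, i⟩ := r'
    by_cases hj : (j : ℕ) + 1 < T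
    · simp only [bκ, if_pos hj]
      by_cases hv : v = fun t => f (u t)
      · subst hv
        rw [Finset.sum_eq_single u]
        · simp
        · intro u' _ hu'
          simp [hu']
        · intro h
          exact absurd (Finset.mem_univ _) h
      · rw [if_neg (fun h => hv h.1)]
        refine Finset.sum_eq_zero fun u' _ => ?_
        by_cases h1 : (fun t => f (u' t)) = v
        · rw [if_pos h1, if_neg]
          rintro ⟨h2, -, -⟩
          apply hv
          rw [← h1]
          change u' = u at h2
          rw [h2]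
        · rw [if_neg h1]
    · simp only [bκ, if_neg hj]
      by_cases hi : (i : ℕ) = 0
      · simp only [if_pos hi]
      · simp only [if_neg hi, ite_self, Finset.sum_const_zero]
  · intro r'
    refine (Finset.sum_congr rfl fun x _ => ?_).trans
      ((BOwn_sum T f (fun x => bπ T π K x) r').trans ?_)
    · split_ifs <;> rfl
    obtain ⟨v, t, i⟩ := r'
    simp only [bπ]
    simp_rw [Finset.mul_sum]
    rw [Finset.sum_comm]
    refine Finset.sum_congr rfl fun u _ => ?_
    by_cases hu : (fun t => f (u t)) = v
    · simp only [if_pos hu]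
    · simp only [if_neg hu, mul_zero, Finset.sum_const_zero]

theorem blk_own {R A B : Type} [Fintype R] [Fintype A] [Fintype B] (T : ℕ) (π : R → ℝ)
    (K K' : R → (Fin T → A) → R → ℝ) (f : A → B)
    (hK : ∀ s (v : Fin T → B) s', ∑ u, (if (fun t => f (u t)) = v then K s u s' else 0) =
      ∑ u, (if (fun t => f (u t)) = v then K' s u s' else 0)) (w : List B) :
    law (bπ T π K) (bκ T K) (fun x => f (bout T x)) w =
      law (bπ T π K') (bκ T K') (fun x => f (bout T x)) w := by
  rw [BOwn_aux, BOwn_aux]
  have h : (fun s (v : Fin T → B) s' => ∑ u, (if (fun t => f (u t)) = v then K s u s' else 0)) =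
      fun s (v : Fin T → B) s' => ∑ u, (if (fun t => f (u t)) = v then K' s u s' else 0) := by
    funext s v s'
    exact hK s v s'
  rw [h]

end Pool.Agent.H95.AV
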