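import Pool.Agent.H95.AV.OwnA

/-!
# Job AV-Own: letterwise images

`own` is linear in the function on words: `own_add`, `own_smul`, `own_sum` (job AV-OwnA).
`own_law`: `own f v (mw κ out · r) = mw κ (f ∘ out) v r` by induction on `v`:
`own f (b :: v) (mw κ out · r) = ∑_a [f a = b] own f v (w ↦ [out r = a] ∑_{r'} κ r r' mw κ out w r')
= [f (out r) = b] ∑_{r'} κ r r' own f v (mw κ out · r')`, and linearity.
`own_own`, `own_id`: induction on the word.
`own_ofFn`: `own f (List.ofFn v) p` is the sum of `p (List.ofFn u)` over the `u : Fin T → A` with
`f ∘ u = v`; induction on `T` (`Fin.consEquiv`).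
`le_own`: `p w ≤ own f (w.map f) p` for `p ≥ 0`: one of the summands.
`own_isLaw`: `own f` of a law is a law (`∑_b own f (v ++ [b]) p = own f v p`, induction on `v`).
-/

set_option autoImplicit false

namespace Pool.Agent.H95.AV

open Classical

theorem own_mw {R A B : Type} [Fintype R] [Fintype A] (κ : R → R → ℝ) (out : R → A) (f : A → B)
    (v : List B) (r : R) :
    own f v (fun w => mw κ out w r) = mw κ (fun r => f (out r)) v r := by
  induction v generalizing r with
  | nil => rfl
  | cons b v ih =>
    rw [own, mw, Finset.sum_eq_single (out r)]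
    · by_cases h : f (out r) = b
      · rw [if_pos h, if_pos h]
        have e : (fun w => mw κ out (out r :: w) r) = fun w => ∑ r', κ r r' * mw κ out w r' := by
          funext w
          rw [mw, if_pos rfl]
        rw [e, own_sum]
        refine Finset.sum_congr rfl fun r' _ => ?_
        rw [own_smul, ih]
      · rw [if_neg h, if_neg h]
    · intro a _ ha
      have e : (fun w => mw κ out (a :: w) r) = fun _ => (0 : ℝ) := by
        funext w
        rw [mw, if_neg (Ne.symm ha)]
      rw [e, own_zero, ite_self]
    · intro h
      exact absurd (Finset.mem_univ _) h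

theorem own_law {R A B : Type} [Fintype R] [Fintype A] (π : R → ℝ) (κ : R → R → ℝ)
    (out : R → A) (f : A → B) (v : List B) :
    own f v (law π κ out) = law π κ (fun r => f (out r)) v := by
  have e : law π κ out = fun w => ∑ r, π r * mw κ out w r := rfl
  rw [e, own_sum]
  unfold law
  refine Finset.sum_congr rfl fun r _ => ?_
  rw [own_smul, own_mw]

theorem own_own {A B C : Type} [Fintype A] [Fintype B] (f : A → B) (g : B → C) (v : List C)
    (p : List A → ℝ) :
    own g v (fun w => own f w p) = own (fun a => g (f a)) v p := by
  induction v generalizing p with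
  | nil => rfl
  | cons c v ih =>
    rw [own, own]
    have e : ∀ b : B, own g v (fun w => own f (b :: w) p) =
        ∑ a, if f a = b then own (fun a => g (f a)) v (fun w => p (a :: w)) else 0 := by
      intro b
      have e1 : (fun w => own f (b :: w) p) =
          fun w => ∑ a, if f a = b then own f w (fun w => p (a :: w)) else 0 := rfl
      rw [e1, own_sum]
      refine Finset.sum_congr rfl fun a _ => ?_
      by_cases h : f a = b
      · simp only [if_pos h]
        exact ih _
      · simp only [if_neg h]
        exact own_zero g v
    simp only [e]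
    have e2 : ∀ b : B, (if g b = c then ∑ a, (if f a = b then
        own (fun a => g (f a)) v (fun w => p (a :: w)) else 0) else 0) =
        ∑ a, if f a = b then (if g (f a) = c then
          own (fun a => g (f a)) v (fun w => p (a :: w)) else 0) else 0 := by
      intro b
      by_cases h : g b = c
      · rw [if_pos h]
        refine Finset.sum_congr rfl fun a _ => ?_
        by_cases h1 : f a = b
        · rw [if_pos h1, if_pos h1, if_pos (by rw [h1]; exact h)]
        · rw [if_neg h1, if_neg h1]
      · rw [if_neg h]
        refine (Finset.sum_eq_zero fun a _ => ?_).symm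
        by_cases h1 : f a = b
        · rw [if_pos h1, if_neg (by rw [h1]; exact h)]
        · rw [if_neg h1]
    simp only [e2]
    rw [Finset.sum_comm]
    refine Finset.sum_congr rfl fun a _ => ?_
    rw [Finset.sum_ite_eq, if_pos (Finset.mem_univ _)]

theorem own_id {A : Type} [Fintype A] (v : List A) (p : List A → ℝ) :
    own (fun a => a) v p = p v := by
  induction v generalizing p with
  | nil => rfl
  | cons b v ih =>
    rw [own, Finset.sum_ite_eq', if_pos (Finset.mem_univ _), ih]

theorem own_ofFn {A B : Type} [Fintype A] (f : A → B) (T : ℕ) (v : Fin T → B) (p : List A → ℝ) :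
    own f (List.ofFn v) p =
      ∑ u : Fin T → A, if (fun t => f (u t)) = v then p (List.ofFn u) else 0 := by
  induction T generalizing p with
  | zero =>
    rw [List.ofFn_zero, own, Fintype.sum_unique, if_pos (Subsingleton.elim _ _), List.ofFn_zero]
  | succ T ih =>
    rw [List.ofFn_succ, own, ← (Fin.consEquiv (fun _ : Fin (T + 1) => A)).sum_comp,
      Fintype.sum_prod_type]
    refine Finset.sum_congr rfl fun a _ => ?_
    have key : ∀ u : Fin T → A, (fun t => f (Fin.consEquiv (fun _ : Fin (T + 1) => A) (a, u) t)) =
        v ↔ f a = v 0 ∧ (fun t => f (u t)) = fun t => v t.succ := by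
      intro u
      constructor
      · intro h
        refine ⟨congrFun h 0, funext fun t => congrFun h t.succ⟩
      · rintro ⟨h1, h2⟩
        funext t
        refine Fin.cases ?_ ?_ t
        · exact h1
        · intro i
          exact congrFun h2 i
    have key2 : ∀ u : Fin T → A, List.ofFn (Fin.consEquiv (fun _ : Fin (T + 1) => A) (a, u)) =
        a :: List.ofFn u := by
      intro u
      rw [List.ofFn_succ]
      rfl
    by_cases h : f a = v 0
    · rw [if_pos h, ih]
      refine Finset.sum_congr rfl fun u _ => ?_
      rw [key2]
      by_cases h2 : (fun t => f (u t)) = fun t => v t.succ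
      · rw [if_pos h2, if_pos ((key u).2 ⟨h, h2⟩)]
      · rw [if_neg h2, if_neg fun hc => h2 ((key u).1 hc).2]
    · rw [if_neg h]
      refine (Finset.sum_eq_zero fun u _ => ?_).symm
      rw [if_neg fun hc => h ((key u).1 hc).1]

theorem le_own {A B : Type} [Fintype A] (f : A → B) (p : List A → ℝ) (hp : ∀ w, 0 ≤ p w)
    (w : List A) : p w ≤ own f (w.map f) p := by
  induction w generalizing p with
  | nil => exact le_rfl
  | cons a w ih =>
    rw [List.map_cons, own]
    have h1 := ih (fun w => p (a :: w)) (fun w => hp _)
    have h2 : (if f a = f a then own f (w.map f) (fun w => p (a :: w)) else 0) ≤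
        ∑ a', if f a' = f a then own f (w.map f) (fun w => p (a' :: w)) else 0 := by
      refine Finset.single_le_sum (f := fun a' => if f a' = f a then
        own f (w.map f) (fun w => p (a' :: w)) else 0) ?_ (Finset.mem_univ a)
      intro a' _
      show (0 : ℝ) ≤ if f a' = f a then own f (w.map f) (fun w => p (a' :: w)) else 0
      split_ifs
      · exact own_nonneg f _ _ fun w => hp _
      · exact le_rfl
    rw [if_pos rfl] at h2
    exact h1.trans h2

theorem Own_sum_fiber {A B : Type} [Fintype A] [Fintype B] (f : A → B) (X : A → ℝ) :
    ∑ b, ∑ a, (if f a = b then X a else 0) = ∑ a, X a := by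
  rw [Finset.sum_comm]
  refine Finset.sum_congr rfl fun a _ => ?_
  rw [Finset.sum_ite_eq, if_pos (Finset.mem_univ _)]

theorem Own_right {A B : Type} [Fintype A] [Fintype B] (f : A → B) (v : List B)
    (p : List A → ℝ) (hr : ∀ w, ∑ a, p (w ++ [a]) = p w) :
    ∑ b, own f (v ++ [b]) p = own f v p := by
  induction v generalizing p with
  | nil =>
    have e : ∀ b : B, own f ([] ++ [b]) p = ∑ a, if f a = b then p [a] else 0 := fun b => rfl
    simp only [e]
    rw [Own_sum_fiber, own]
    exact hr []
  | cons c v ih =>
    have e : ∀ b : B, own f (c :: v ++ [b]) p =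
        ∑ a, if f a = c then own f (v ++ [b]) (fun w => p (a :: w)) else 0 := fun b => rfl
    simp only [e]
    rw [Finset.sum_comm, own]
    refine Finset.sum_congr rfl fun a _ => ?_
    by_cases h : f a = c
    · simp only [if_pos h]
      exact ih _ fun w => hr (a :: w)
    · simp only [if_neg h]
      exact Finset.sum_const_zero

theorem own_isLaw {A B : Type} [Fintype A] [Fintype B] (f : A → B) {p : List A → ℝ}
    (hp : IsLaw p) : IsLaw (fun v => own f v p) where
  nil := hp.nil
  nonneg := fun v => own_nonneg f v p hp.nonneg
  right := fun v => Own_right f v p hp.right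
  left := by
    intro v
    have e : ∀ b : B, own f (b :: v) p =
        ∑ a, if f a = b then own f v (fun w => p (a :: w)) else 0 := fun b => rfl
    show ∑ b, own f (b :: v) p = own f v p
    simp only [e]
    rw [Own_sum_fiber, ← own_sum]
    congr 1
    funext w
    exact hp.left w

end Pool.Agent.H95.AV
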