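import Pool.Agent.H95.AV.LawM
import Pool.Agent.H95.AV.Own

/-!
# Job AV-Closed: the couplings form a compact set of functions on words

The topology is the product topology on `List (Fin k → V) → ℝ`.
`continuous_own`: `p ↦ own f v p` is continuous, by induction on `v` (finite sums of continuous
functions, for all `p` at once: for every continuous `q : X → (List A → ℝ)`).
`isClosed_coupl`: the conditions are equations and inequalities between continuous functions, and
`p w = 0` for the `w` with `¬ Good w`; intersections of closed sets.
`isCompact_coupl`: closed subset of `Set.pi Set.univ (fun _ => Set.Icc 0 1)` (`isCompact_univ_pi`,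
`isLaw_le_one`).
`continuous_ent`: finite sum of `negMulLog` (`Real.continuous_negMulLog`) of coordinates.
-/

set_option autoImplicit false

namespace Pool.Agent.H95.AV

open Classical

theorem continuous_own {A B : Type} [Fintype A] (f : A → B) (v : List B) :
    Continuous (fun p : List A → ℝ => own f v p) := by
  have key : ∀ (v : List B) {X : Type} [TopologicalSpace X] (q : X → List A → ℝ), Continuous q →
      Continuous fun x => own f v (q x) := by
    intro v
    induction v with
    | nil =>
      intro X _ q hq
      exact (continuous_apply ([] : List A)).comp hq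
    | cons b v ih =>
      intro X _ q hq
      simp only [own]
      refine continuous_finsetSum _ fun a _ => ?_
      by_cases h : f a = b
      · simp only [if_pos h]
        refine ih (fun x w => q x (a :: w)) ?_
        exact continuous_pi fun w => (continuous_apply (a :: w)).comp hq
      · simp only [if_neg h]
        exact continuous_const
  exact key v _ continuous_id

theorem isClosed_coupl (lp : Bool) (k : ℕ) (V : Type) [Fintype V] :
    IsClosed {p : List (Fin k → V) → ℝ | IsCoupl lp k V p} := by
  have h : {p : List (Fin k → V) → ℝ | IsCoupl lp k V p} =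
      ((({p | p [] = 1} ∩ ⋂ w, {p | 0 ≤ p w}) ∩
        ⋂ w, {p | ∑ a, p (w ++ [a]) = p w}) ∩ ⋂ w, {p | ∑ a, p (a :: w) = p w}) ∩
      ((⋂ (i : Fin k), ⋂ (v : List V),
        {p | own (fun x : Fin k → V => x i) v p = pathw lp V v}) ∩
      ⋂ (w : List (Fin k → V)), ⋂ (_ : ¬ Good w), {p | p w = 0}) := by
    ext p
    simp only [Set.mem_ofPred_eq, Set.mem_inter_iff, Set.mem_iInter]
    constructor
    · rintro ⟨⟨h1, h2, h3, h4⟩, h5, h6⟩
      exact ⟨⟨⟨⟨h1, h2⟩, h3⟩, h4⟩, h5, fun w hw => by_contra fun hc => hw (h6 w hc)⟩
    · rintro ⟨⟨⟨⟨h1, h2⟩, h3⟩, h4⟩, h5, h6⟩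
      exact ⟨⟨h1, h2, h3, h4⟩, h5, fun w hw => by_contra fun hc => hw (h6 w hc)⟩
  rw [h]
  refine ((((isClosed_eq (continuous_apply _) continuous_const).inter
    (isClosed_iInter fun w => isClosed_le continuous_const (continuous_apply w))).inter
    (isClosed_iInter fun w => isClosed_eq
      (continuous_finsetSum _ fun a _ => continuous_apply (w ++ [a])) (continuous_apply w))).inter
    (isClosed_iInter fun w => isClosed_eq
      (continuous_finsetSum _ fun a _ => continuous_apply (a :: w)) (continuous_apply w))).inter
    ((isClosed_iInter fun i => isClosed_iInter fun v => isClosed_eq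
      (continuous_own _ v) continuous_const).inter
    (isClosed_iInter fun w => isClosed_iInter fun _ => isClosed_eq (continuous_apply w)
      continuous_const))

theorem isCompact_coupl (lp : Bool) (k : ℕ) (V : Type) [Fintype V] :
    IsCompact {p : List (Fin k → V) → ℝ | IsCoupl lp k V p} := by
  have hc : IsCompact (Set.pi Set.univ
      (fun _ : List (Fin k → V) => Set.Icc (0 : ℝ) 1)) :=
    isCompact_univ_pi fun _ => isCompact_Icc
  refine hc.of_isClosed_subset (isClosed_coupl lp k V) ?_
  intro p hp w _
  exact ⟨hp.isLaw.nonneg w, isLaw_le_one hp.isLaw w⟩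

theorem continuous_ent {A : Type} [Fintype A] (T : ℕ) :
    Continuous (fun p : List A → ℝ => ent p T) := by
  unfold ent
  exact continuous_finsetSum _ fun w _ =>
    Real.continuous_negMulLog.comp (continuous_apply (List.ofFn w))

end Pool.Agent.H95.AV
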