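import Pool.Agent.H95.AV.LawM

/-!
# Job AV-EntSub: subadditivity of the entropy

PROOF.  Words of length `m + n` are pairs `(u, v)`, `u : Fin m → A`, `v : Fin n → A` (`Fin.appendEquiv` or
`Fin.append`, `List.ofFn_fin_append`).  Let `P (u, v) = p (List.ofFn u ++ List.ofFn v)`,
`a u = p (List.ofFn u)`, `b v = p (List.ofFn v)`; `∑ v, P (u, v) = a u` (`isLaw_sum_right`),
`∑ u, P (u, v) = b v` (`isLaw_sum_left`).  For all `u, v`:
`negMulLog P ≤ - P log (a u) - P log (b v) + a u * b v - P` : if `P > 0` then `a u, b v > 0` and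
`log (a b / P) ≤ a b / P - 1`; if `P = 0` the right side is `a u * b v ≥ 0`.  Sum over all `u, v`: the
last two terms cancel (`∑ a = ∑ b = ∑ P = 1`), `- ∑ P log (a u) = - ∑ a u log (a u)`.
-/

set_option autoImplicit false

namespace Pool.Agent.H95.AV

open Classical

theorem EntSub_pt {P a b : ℝ} (hP : 0 ≤ P) (ha : P ≤ a) (hb : P ≤ b) :
    Real.negMulLog P ≤ -(P * Real.log a) - P * Real.log b + a * b - P := by
  have ha0 : 0 ≤ a := hP.trans ha
  have hb0 : 0 ≤ b := hP.trans hb
  rcases hP.lt_or_eq with h | h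
  · have ha1 : 0 < a := lt_of_lt_of_le h ha
    have hb1 : 0 < b := lt_of_lt_of_le h hb
    have h1 := Real.log_le_sub_one_of_pos (x := a * b / P) (by positivity)
    rw [Real.log_div (by positivity) h.ne', Real.log_mul ha1.ne' hb1.ne'] at h1
    have h2 := mul_le_mul_of_nonneg_left h1 hP
    have h3 : P * (a * b / P - 1) = a * b - P := by
      field_simp
    rw [h3] at h2
    unfold Real.negMulLog
    linarith
  · rw [← h]
    simp only [Real.negMulLog_zero, zero_mul, neg_zero, sub_zero, zero_add]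
    positivity

theorem ent_add_le {A : Type} [Fintype A] {p : List A → ℝ} (hp : IsLaw p) (m n : ℕ) :
    ent p (m + n) ≤ ent p m + ent p n := by
  have h0 : ent p (m + n) = ∑ u : Fin m → A, ∑ v : Fin n → A,
      Real.negMulLog (p (List.ofFn u ++ List.ofFn v)) := by
    unfold ent
    rw [← (Fin.appendEquiv m n).sum_comp, Fintype.sum_prod_type]
    refine Finset.sum_congr rfl fun u _ => Finset.sum_congr rfl fun v _ => ?_
    rw [← List.ofFn_fin_append]
    rfl
  rw [h0]
  have h1 : ∀ (u : Fin m → A) (v : Fin n → A),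
      p (List.ofFn u ++ List.ofFn v) ≤ p (List.ofFn u) := by
    intro u v
    rw [← isLaw_sum_right hp n (List.ofFn u)]
    exact Finset.single_le_sum (f := fun v : Fin n → A => p (List.ofFn u ++ List.ofFn v))
      (fun b _ => hp.nonneg _) (Finset.mem_univ v)
  have h2 : ∀ (u : Fin m → A) (v : Fin n → A),
      p (List.ofFn u ++ List.ofFn v) ≤ p (List.ofFn v) := by
    intro u v
    rw [← isLaw_sum_left hp m (List.ofFn v)]
    exact Finset.single_le_sum (f := fun u : Fin m → A => p (List.ofFn u ++ List.ofFn v))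
      (fun b _ => hp.nonneg _) (Finset.mem_univ u)
  have h3 : ∑ u : Fin m → A, ∑ v : Fin n → A,
      Real.negMulLog (p (List.ofFn u ++ List.ofFn v)) ≤
      ∑ u : Fin m → A, ∑ v : Fin n → A,
      (-(p (List.ofFn u ++ List.ofFn v) * Real.log (p (List.ofFn u)))
        - p (List.ofFn u ++ List.ofFn v) * Real.log (p (List.ofFn v))
        + p (List.ofFn u) * p (List.ofFn v) - p (List.ofFn u ++ List.ofFn v)) :=
    Finset.sum_le_sum fun u _ => Finset.sum_le_sum fun v _ =>
      EntSub_pt (hp.nonneg _) (h1 u v) (h2 u v)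
  refine h3.trans (le_of_eq ?_)
  simp only [Finset.sum_sub_distrib, Finset.sum_add_distrib, Finset.sum_neg_distrib]
  have e1 : ∑ u : Fin m → A, ∑ v : Fin n → A,
      p (List.ofFn u ++ List.ofFn v) * Real.log (p (List.ofFn u)) = - ent p m := by
    unfold ent Real.negMulLog
    rw [← Finset.sum_neg_distrib]
    refine Finset.sum_congr rfl fun u _ => ?_
    rw [← Finset.sum_mul, isLaw_sum_right hp]
    ring
  have e2 : ∑ u : Fin m → A, ∑ v : Fin n → A,
      p (List.ofFn u ++ List.ofFn v) * Real.log (p (List.ofFn v)) = - ent p n := by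
    unfold ent Real.negMulLog
    rw [← Finset.sum_neg_distrib, Finset.sum_comm]
    refine Finset.sum_congr rfl fun v _ => ?_
    rw [← Finset.sum_mul, isLaw_sum_left hp]
    ring
  have e3 : ∑ u : Fin m → A, ∑ v : Fin n → A, p (List.ofFn u) * p (List.ofFn v) = 1 := by
    rw [← Finset.sum_mul_sum, isLaw_sum hp, isLaw_sum hp, one_mul]
  have e4 : ∑ u : Fin m → A, ∑ v : Fin n → A, p (List.ofFn u ++ List.ofFn v) = 1 := by
    rw [← isLaw_sum hp m]
    exact Finset.sum_congr rfl fun u _ => isLaw_sum_right hp n _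
  rw [e1, e2, e3, e4]
  ring

theorem ent_nonneg {A : Type} [Fintype A] {p : List A → ℝ} (hp : IsLaw p) (m : ℕ) :
    0 ≤ ent p m :=
  Finset.sum_nonneg fun _ _ => Real.negMulLog_nonneg (hp.nonneg _) (isLaw_le_one hp _)

end Pool.Agent.H95.AV
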