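import Pool.Agent.H95.AV.EntLow
import Pool.Agent.H95.AV.EntSub

/-!
# Job AV-Lim: the entropy rate

PROOF.  `ent p` is subadditive (`ent_add_le`) and nonnegative, so `ent p T / T` tends to
`Subadditive.lim` (`Subadditive.tendsto_lim`), which is at most `ent p M / M` for all `M ≥ 1`
(`Subadditive.lim_le_div`), so at most `log d + δ` for all `δ > 0`, `d = dgr lp V`.  On the other
hand `ent p T / T ≥ log (n d^(T-1)) / T = (log n + (T - 1) log d) / T`, which tends to `log d`
(`ent_ge`), so the limit is at least `log d` (`ge_of_tendsto'`, `le_of_tendsto_of_tendsto`).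
-/

set_option autoImplicit false

namespace Pool.Agent.H95.AV

open Classical

theorem tendsto_ent (lp : Bool) (k : ℕ) (hk : 1 ≤ k) (V : Type) [Fintype V]
    (hV : 2 ≤ Fintype.card V) {p : List (Fin k → V) → ℝ} (hc : IsCoupl lp k V p)
    (h : ∀ δ : ℝ, 0 < δ → ∃ M : ℕ, 1 ≤ M ∧ ent p M < M * (Real.log (dgr lp V) + δ)) :
    Filter.Tendsto (fun T : ℕ => ent p T / T) Filter.atTop (nhds (Real.log (dgr lp V))) := by
  have hn2 : (2 : ℝ) ≤ Fintype.card V := by exact_mod_cast hV
  have hd : 1 ≤ dgr lp V := by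
    unfold dgr
    split_ifs <;> linarith
  have hd0 : 0 < dgr lp V := by linarith
  have hsub : Subadditive (ent p) := fun m n => ent_add_le hc.isLaw m n
  have hbdd : BddBelow (Set.range fun n : ℕ => ent p n / n) := by
    refine ⟨0, ?_⟩
    rintro _ ⟨n, rfl⟩
    exact div_nonneg (ent_nonneg hc.isLaw n) (Nat.cast_nonneg n)
  have hlim := hsub.tendsto_lim hbdd
  have hup : hsub.lim ≤ Real.log (dgr lp V) := by
    refine le_of_forall_pos_le_add fun δ hδ => ?_
    obtain ⟨M, hM, hlt⟩ := h δ hδ
    have hM' : (0 : ℝ) < M := by exact_mod_cast hM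
    refine (hsub.lim_le_div hbdd (n := M) (by omega)).trans ?_
    rw [div_le_iff₀ hM']
    linarith [mul_comm (M : ℝ) (Real.log (dgr lp V) + δ)]
  have hlow : Real.log (dgr lp V) ≤ hsub.lim := by
    have htend : Filter.Tendsto (fun T : ℕ => Real.log (dgr lp V) +
        (Real.log (Fintype.card V : ℝ) - Real.log (dgr lp V)) / (T : ℝ)) Filter.atTop
        (nhds (Real.log (dgr lp V) + 0)) :=
      tendsto_const_nhds.add (tendsto_const_div_atTop_nhds_zero_nat _)
    rw [add_zero] at htend
    refine le_of_tendsto_of_tendsto htend hlim (Filter.eventually_atTop.2 ⟨1, fun T hT => ?_⟩)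
    have hT' : (0 : ℝ) < T := by exact_mod_cast hT
    have hge := ent_ge lp k hk V hV hc T hT
    rw [Real.log_mul (by positivity) (by positivity), Real.log_pow] at hge
    have hcast : ((T - 1 : ℕ) : ℝ) = (T : ℝ) - 1 := by
      rw [Nat.cast_sub hT, Nat.cast_one]
    rw [hcast] at hge
    show Real.log (dgr lp V) + (Real.log (Fintype.card V : ℝ) - Real.log (dgr lp V)) / (T : ℝ) ≤
      ent p T / T
    rw [le_div_iff₀ hT', add_mul, div_mul_cancel₀ _ hT'.ne']
    linarith
  rw [le_antisymm hup hlow] at hlim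
  exact hlim

end Pool.Agent.H95.AV
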