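import Pool.Agent.H95.AV.LawM

/-!
# Job AV-Trim: one may assume that all states have positive probability

PROOF.  `R' = {r // π r ≠ 0}` with the restrictions of `π`, `κ`, `out`.  If `π r ≠ 0` and `κ r r' ≠ 0`
then `π r' ≥ π r κ r r' > 0` by stationarity, so for `r ∈ R'` the sum of `κ r r'` over `r' ∈ R'` is `1`,
and `mw` of the restricted machine is the restriction of `mw` (induction on the word).
-/

set_option autoImplicit false

namespace Pool.Agent.H95.AV

open Classical

theorem trim_sum {R : Type} [Fintype R] (p : R → Prop) [Fintype {x // p x}] (g : R → ℝ)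
    (hg : ∀ r, ¬ p r → g r = 0) : ∑ i : {x // p x}, g i.1 = ∑ i, g i := by
  rw [← Finset.sum_subtype (Finset.univ.filter p) (p := p) (by simp) g]
  exact Finset.sum_filter_of_ne fun r _ hr => by
    by_contra hc
    exact hr (hg r hc)

theorem exists_trim {R A : Type} [Fintype R] (π : R → ℝ) (κ : R → R → ℝ) (out : R → A)
    (h : IsMach π κ) (hs : IsStat π κ) :
    ∃ (R' : Type) (_ : Fintype R') (π' : R' → ℝ) (κ' : R' → R' → ℝ) (out' : R' → A),
      IsMach π' κ' ∧ IsStat π' κ' ∧ (∀ r, 0 < π' r) ∧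
        ∀ w, law π' κ' out' w = law π κ out w := by
  have hpos : ∀ r r', π r ≠ 0 → π r' = 0 → κ r r' = 0 := by
    intro r r' hr hr'
    have h1 := hs r'
    rw [hr'] at h1
    have h2 := (Finset.sum_eq_zero_iff_of_nonneg
      (fun s _ => mul_nonneg (h.π_nonneg s) (h.κ_nonneg s r'))).1 h1 r (Finset.mem_univ r)
    exact (mul_eq_zero.1 h2).resolve_left hr
  have hmw : ∀ (w : List A) (r : {r : R // π r ≠ 0}),
      mw (fun r s : {r : R // π r ≠ 0} => κ r.1 s.1) (fun r => out r.1) w r =
        mw κ out w r.1 := by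
    intro w
    induction w with
    | nil => intro r; rfl
    | cons a w ih =>
      intro r
      show (if out r.1 = a then ∑ r' : {r : R // π r ≠ 0}, κ r.1 r'.1 *
        mw (fun r s : {r : R // π r ≠ 0} => κ r.1 s.1) (fun r => out r.1) w r' else 0) =
        if out r.1 = a then ∑ r', κ r.1 r' * mw κ out w r' else 0
      simp only [ih]
      rw [trim_sum (fun r => π r ≠ 0) (fun r' => κ r.1 r' * mw κ out w r') (fun r' hr' => by
        have h3 : π r' = 0 := not_not.1 hr'
        show κ r.1 r' * mw κ out w r' = 0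
        rw [hpos r.1 r' r.2 h3, zero_mul])]
  refine ⟨{r : R // π r ≠ 0}, inferInstance, fun r => π r.1, fun r s => κ r.1 s.1,
    fun r => out r.1, ⟨fun r => h.π_nonneg _, ?_, fun r s => h.κ_nonneg _ _, ?_⟩, ?_, ?_, ?_⟩
  · rw [trim_sum (fun r => π r ≠ 0) π (fun r hr => not_not.1 hr)]
    exact h.π_sum
  · intro r
    rw [trim_sum (fun r => π r ≠ 0) (fun s => κ r.1 s)
      (fun s hsn => hpos r.1 s r.2 (not_not.1 hsn))]
    exact h.κ_sum r.1
  · intro r'
    show ∑ r : {r : R // π r ≠ 0}, π r.1 * κ r.1 r'.1 = π r'.1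
    rw [trim_sum (fun r => π r ≠ 0) (fun r => π r * κ r r'.1) (fun r hr => by
      have h3 : π r = 0 := not_not.1 hr
      show π r * κ r r'.1 = 0
      rw [h3, zero_mul])]
    exact hs r'.1
  · intro r
    exact lt_of_le_of_ne (h.π_nonneg _) (Ne.symm r.2)
  · intro w
    show ∑ r : {r : R // π r ≠ 0}, π r.1 *
      mw (fun r s : {r : R // π r ≠ 0} => κ r.1 s.1) (fun r => out r.1) w r =
      ∑ r, π r * mw κ out w r
    simp only [hmw]
    exact trim_sum (fun r => π r ≠ 0) (fun r => π r * mw κ out w r) (fun r hr => by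
      have h3 : π r = 0 := not_not.1 hr
      show π r * mw κ out w r = 0
      rw [h3, zero_mul])

end Pool.Agent.H95.AV
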