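import Pool.Agent.H95.AV.Res
import Pool.Agent.H95.AV.Lim
import Pool.Agent.H95.AV.Closed
import Pool.Agent.H95.AV.Trim

/-!
# Job AV-Baire: a finite state coupling gives a coupling of minimum entropy

PROOF.  Let `X = List (Fin k → V) → ℝ` with the product topology, `fsl = {p | IsFS p ∧ IsCoupl lp k V p}`,
`J = closure fsl`.  `J ⊆ {p | IsCoupl lp k V p}`, and `J` is compact (`isClosed_coupl`,
`isCompact_coupl`), nonempty by hypothesis.  For `m : ℕ` let
`U m = {p : X | ∃ M ≥ 1, ent p M < M * (log (dgr lp V) + 1 / (m + 1))}`, open in `X` (`continuous_ent`).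
The subtype `J` is a compact Hausdorff space, so a Baire space (`BaireSpace` instance for locally
compact spaces, `isCompact_iff_compactSpace`).  CLAIM: `{x : J | x.1 ∈ U m}` is dense in `J`.  Let `O ⊆ X`
be open and meet `J`; then `O` meets `fsl` in some `p₀`.  There are a finite set `F` of words and `ε > 0`
such that all `p` with `|p w - p₀ w| < ε` for `w ∈ F` are in `O` (basis of the product topology,
`isOpen_pi_iff`, `Metric.isOpen_iff`).  By `exists_trim` `p₀` is the law of a machine with positive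
stationary law, so `resample` with `δ = 1 / (m + 1)` gives a `p ∈ fsl ∩ O ∩ U m`.
By `dense_iInter_of_isOpen_nat` the intersection of all these sets is dense in `J`, so nonempty:
there is `p ∈ J` in all `U m`.  `tendsto_ent` gives the limit.
-/

set_option autoImplicit false

namespace Pool.Agent.H95.AV

open Classical

theorem minE_of_fsc (lp : Bool) (k : ℕ) (hk : 1 ≤ k) (V : Type) [Fintype V]
    (hV : 2 ≤ Fintype.card V) (h : FSC lp k V) : MinE lp k V := by
  set fsl : Set (List (Fin k → V) → ℝ) := {p | IsFS p ∧ IsCoupl lp k V p} with hfsl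
  set J : Set (List (Fin k → V) → ℝ) := closure fsl with hJ
  have hJsub : J ⊆ {p | IsCoupl lp k V p} :=
    closure_minimal (fun p hp => hp.2) (isClosed_coupl lp k V)
  have hJc : IsCompact J := (isCompact_coupl lp k V).of_isClosed_subset isClosed_closure hJsub
  haveI : CompactSpace J := isCompact_iff_compactSpace.1 hJc
  obtain ⟨R, hR, π, κ, out, h1, h2, h3⟩ := h
  have hne : (law π κ out) ∈ J := subset_closure ⟨⟨R, hR, π, κ, out, h1, h2, rfl⟩, h3⟩
  haveI : Nonempty J := ⟨⟨_, hne⟩⟩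
  set U : ℕ → Set (List (Fin k → V) → ℝ) := fun m =>
    {p | ∃ M : ℕ, 1 ≤ M ∧ ent p M < M * (Real.log (dgr lp V) + 1 / ((m : ℝ) + 1))} with hU
  have hUo : ∀ m, IsOpen (U m) := by
    intro m
    have e : U m = ⋃ (M : ℕ), ⋃ (_ : 1 ≤ M),
        {p | ent p M < M * (Real.log (dgr lp V) + 1 / ((m : ℝ) + 1))} := by
      ext p
      simp [hU]
    rw [e]
    exact isOpen_iUnion fun M => isOpen_iUnion fun _ =>
      isOpen_lt (continuous_ent M) continuous_const
  have hUd : ∀ m, Dense ((Subtype.val : J → _) ⁻¹' (U m)) := by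
    intro m
    rw [dense_iff_inter_open]
    rintro W hW ⟨⟨x, hx⟩, hxW⟩
    obtain ⟨O, hO, rfl⟩ := isOpen_induced_iff.1 hW
    obtain ⟨p₀, hp₀O, hp₀⟩ := mem_closure_iff.1 hx O hO hxW
    obtain ⟨⟨R, hR, π, κ, out, hm, hs, rfl⟩, hc⟩ := hp₀
    obtain ⟨R', hR', π', κ', out', hm', hs', hpos, heq⟩ := exists_trim π κ out hm hs
    have heq' : law π' κ' out' = law π κ out := funext heq
    rw [← heq'] at hc hp₀O
    obtain ⟨I, u, hu, hIu⟩ := isOpen_pi_iff.1 hO _ hp₀O
    have hev : ∀ᶠ ε : ℝ in nhdsWithin 0 (Set.Ioi 0), ∀ a ∈ I,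
        Metric.ball (law π' κ' out' a) ε ⊆ u a := by
      rw [Filter.eventually_all_finset]
      intro a ha
      obtain ⟨ε, hε, hb⟩ := Metric.isOpen_iff.1 (hu a ha).1 _ (hu a ha).2
      filter_upwards [Ioo_mem_nhdsGT hε] with t ht
      exact (Metric.ball_subset_ball ht.2.le).trans hb
    obtain ⟨ε, hεu, hε⟩ := (hev.and self_mem_nhdsWithin).exists
    obtain ⟨p, hp1, hp2, hp3, hp4⟩ := resample lp k hk V hV π' κ' out' hm' hs' hpos hc I ε
      (1 / ((m : ℝ) + 1)) hε (by positivity)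
    have hpJ : p ∈ J := subset_closure ⟨hp1, hp2⟩
    refine ⟨⟨p, hpJ⟩, ?_, hp4⟩
    refine hIu ?_
    intro a ha
    refine hεu a ha ?_
    rw [Metric.mem_ball, Real.dist_eq]
    exact hp3 a ha
  have hD := dense_iInter_of_isOpen_nat (f := fun m => (Subtype.val : J → _) ⁻¹' (U m))
    (fun m => (hUo m).preimage continuous_subtype_val) hUd
  obtain ⟨⟨p, hpJ⟩, hp⟩ := hD.nonempty
  refine ⟨p, hJsub hpJ, tendsto_ent lp k hk V hV (hJsub hpJ) ?_⟩
  intro δ hδ
  obtain ⟨m, hm⟩ := exists_nat_one_div_lt hδ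
  obtain ⟨M, hM, hlt⟩ := Set.mem_iInter.1 hp m
  refine ⟨M, hM, hlt.trans_le ?_⟩
  have hM0 : (0 : ℝ) ≤ M := Nat.cast_nonneg M
  exact mul_le_mul_of_nonneg_left (by linarith) hM0

end Pool.Agent.H95.AV
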