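import Mathlib

/-!
# Job AV-Cara: conical Caratheodory theorem

PROOF.  Among all `y ≥ 0` with `y ω = 0` where `x ω = 0` and with the same values
`∑ ω, c i ω * y ω`, `i : I` (`x` is one) choose one with the smallest number of nonzero entries.  Let
`S = {ω | y ω ≠ 0}` and suppose `card I < card S`.  The vectors `(c i ω)_i ∈ ℝ^I`, `ω ∈ S`, are linearly
dependent (`Module.exists_nontrivial_relation_of_finrank_lt_card` or
`exists_nontrivial_relation_of_finrank_lt_card`): there is `g : Ω → ℝ`, `g ≠ 0`, `g ω = 0` outside `S`,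
`∑ ω, c i ω * g ω = 0` for all `i`.  Replacing `g` by `-g` we may assume that `g ω > 0` for some `ω`.  Let `t`
be the minimum of `y ω / g ω` over the `ω` with `g ω > 0`; then `y - t g ≥ 0` has the same values and
fewer nonzero entries.  Contradiction.
-/

set_option autoImplicit false

namespace Pool.Agent.H95.AV

open Classical

theorem cara_rel {Ω I : Type} [Fintype Ω] [Fintype I] (c : I → Ω → ℝ) (y : Ω → ℝ)
    (hcard : Fintype.card I < ((Finset.univ : Finset Ω).filter (fun ω => y ω ≠ 0)).card) :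
    ∃ g : Ω → ℝ, (∀ ω, y ω = 0 → g ω = 0) ∧ (∀ i, ∑ ω, c i ω * g ω = 0) ∧ ∃ ω, 0 < g ω := by
  have hsub : Fintype.card {ω // y ω ≠ 0} =
      ((Finset.univ : Finset Ω).filter (fun ω => y ω ≠ 0)).card :=
    Fintype.card_subtype _
  have hlt : Module.finrank ℝ (I → ℝ) < Module.finrank ℝ ({ω // y ω ≠ 0} → ℝ) := by
    rw [Module.finrank_fintype_fun_eq_card, Module.finrank_fintype_fun_eq_card, hsub]
    exact hcard
  have hker := LinearMap.ker_ne_bot_of_finrank_lt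
    (f := Matrix.mulVecLin (fun (i : I) (ω : {ω // y ω ≠ 0}) => c i ω.1)) hlt
  obtain ⟨g', hg', hne⟩ := Submodule.exists_mem_ne_zero_of_ne_bot hker
  rw [LinearMap.mem_ker] at hg'
  obtain ⟨g, hg⟩ : ∃ g : Ω → ℝ, g = fun ω => if h : y ω ≠ 0 then g' ⟨ω, h⟩ else 0 := ⟨_, rfl⟩
  have hg0 : ∀ ω, y ω = 0 → g ω = 0 := by
    intro ω h
    rw [hg]
    simp [h]
  have hg1 : ∀ ω : {ω // y ω ≠ 0}, g ω.1 = g' ω := by
    intro ω
    rw [hg]
    simp [ω.2]
  have hsum : ∀ i, ∑ ω, c i ω * g ω = 0 := by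
    intro i
    have h1 : ∑ ω, c i ω * g ω =
        ∑ ω ∈ (Finset.univ : Finset Ω).filter (fun ω => y ω ≠ 0), c i ω * g ω := by
      rw [Finset.sum_filter]
      refine Finset.sum_congr rfl fun ω _ => ?_
      by_cases h : y ω = 0
      · rw [hg0 ω h, mul_zero, if_neg (by simp [h])]
      · rw [if_pos h]
    rw [h1, Finset.sum_subtype (p := fun ω => y ω ≠ 0) _ (by intro ω; simp)]
    have h2 := congrFun hg' i
    change ∑ ω : {ω // y ω ≠ 0}, c i ω.1 * g' ω = 0 at h2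
    exact (Finset.sum_congr rfl fun ω _ => by rw [hg1]).trans h2
  have hex : ∃ ω, g ω ≠ 0 := by
    obtain ⟨ω, hω⟩ := Function.ne_iff.1 hne
    exact ⟨ω.1, by rw [hg1]; exact hω⟩
  obtain ⟨ω, hω⟩ := hex
  rcases lt_or_gt_of_ne hω with h | h
  · refine ⟨fun ω => - g ω, fun ω h => by simp [hg0 ω h], ?_, ω, by linarith⟩
    intro i
    simp only [mul_neg, Finset.sum_neg_distrib, hsum i, neg_zero]
  · exact ⟨g, hg0, hsum, ω, h⟩

theorem cara_step {Ω I : Type} [Fintype Ω] [Fintype I] (c : I → Ω → ℝ) (y : Ω → ℝ)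
    (hy : ∀ ω, 0 ≤ y ω)
    (hcard : Fintype.card I < ((Finset.univ : Finset Ω).filter (fun ω => y ω ≠ 0)).card) :
    ∃ z : Ω → ℝ, (∀ ω, 0 ≤ z ω) ∧ (∀ ω, y ω = 0 → z ω = 0) ∧
      (∀ i, ∑ ω, c i ω * z ω = ∑ ω, c i ω * y ω) ∧
      ((Finset.univ : Finset Ω).filter (fun ω => z ω ≠ 0)).card <
        ((Finset.univ : Finset Ω).filter (fun ω => y ω ≠ 0)).card := by
  obtain ⟨g, hg0, hsum, ω1, hω1⟩ := cara_rel c y hcard
  obtain ⟨ω0, hω0, hmin⟩ := Finset.exists_min_image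
    ((Finset.univ : Finset Ω).filter (fun ω => 0 < g ω)) (fun ω => y ω / g ω)
    ⟨ω1, by simp [hω1]⟩
  rw [Finset.mem_filter] at hω0
  have hgpos := hω0.2
  obtain ⟨t, ht⟩ : ∃ t, t = y ω0 / g ω0 := ⟨_, rfl⟩
  have ht0 : 0 ≤ t := by rw [ht]; exact div_nonneg (hy _) hgpos.le
  have hz : ∀ ω, y ω = 0 → y ω - t * g ω = 0 := by
    intro ω h
    rw [h, hg0 ω h]
    ring
  have hy0 : y ω0 ≠ 0 := by
    intro h
    rw [hg0 ω0 h] at hgpos
    exact lt_irrefl _ hgpos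
  have hz0 : y ω0 - t * g ω0 = 0 := by
    rw [ht, div_mul_cancel₀ _ hgpos.ne', sub_self]
  refine ⟨fun ω => y ω - t * g ω, ?_, hz, ?_, ?_⟩
  · intro ω
    rcases lt_or_ge 0 (g ω) with h | h
    · have h1 := hmin ω (by simp [h])
      rw [← ht, le_div_iff₀ h] at h1
      linarith
    · have h1 : t * g ω ≤ 0 := mul_nonpos_of_nonneg_of_nonpos ht0 h
      have h2 := hy ω
      linarith
  · intro i
    have h1 : ∀ ω, c i ω * (y ω - t * g ω) = c i ω * y ω - t * (c i ω * g ω) := fun ω => by ring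
    simp only [h1]
    rw [Finset.sum_sub_distrib, ← Finset.mul_sum, hsum i, mul_zero, sub_zero]
  · refine Finset.card_lt_card ?_
    rw [Finset.ssubset_iff_of_subset]
    · refine ⟨ω0, by simp [hy0], ?_⟩
      simp [hz0]
    · intro ω hω
      rw [Finset.mem_filter] at hω ⊢
      exact ⟨Finset.mem_univ _, fun h => hω.2 (hz ω h)⟩

theorem cara {Ω I : Type} [Fintype Ω] [Fintype I] (c : I → Ω → ℝ) (x : Ω → ℝ)
    (hx : ∀ ω, 0 ≤ x ω) :
    ∃ y : Ω → ℝ, (∀ ω, 0 ≤ y ω) ∧ (∀ ω, x ω = 0 → y ω = 0) ∧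
      (∀ i, ∑ ω, c i ω * y ω = ∑ ω, c i ω * x ω) ∧
      ((Finset.univ : Finset Ω).filter (fun ω => y ω ≠ 0)).card ≤ Fintype.card I := by
  have key : ∀ n : ℕ, ∀ y : Ω → ℝ, (∀ ω, 0 ≤ y ω) →
      ((Finset.univ : Finset Ω).filter (fun ω => y ω ≠ 0)).card ≤ n →
      ∃ z : Ω → ℝ, (∀ ω, 0 ≤ z ω) ∧ (∀ ω, y ω = 0 → z ω = 0) ∧
        (∀ i, ∑ ω, c i ω * z ω = ∑ ω, c i ω * y ω) ∧
        ((Finset.univ : Finset Ω).filter (fun ω => z ω ≠ 0)).card ≤ Fintype.card I := by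
    intro n
    induction n with
    | zero =>
      intro y hy hn
      exact ⟨y, hy, fun _ h => h, fun _ => rfl, hn.trans (Nat.zero_le _)⟩
    | succ n ih =>
      intro y hy hn
      rcases Nat.lt_or_ge (Fintype.card I)
        ((Finset.univ : Finset Ω).filter (fun ω => y ω ≠ 0)).card with h | h
      · obtain ⟨z, hz1, hz2, hz3, hz4⟩ := cara_step c y hy h
        obtain ⟨w, hw1, hw2, hw3, hw4⟩ := ih z hz1 (by omega)
        exact ⟨w, hw1, fun ω h => hw2 ω (hz2 ω h), fun i => (hw3 i).trans (hz3 i), hw4⟩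
      · exact ⟨y, hy, fun _ h => h, fun _ => rfl, h⟩
  exact key _ x hx le_rfl

end Pool.Agent.H95.AV
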