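import Mathlib

/-!
# Avoidance couplings: words, laws, finite machines

`mw κ out w r`: probability that the chain with kernel `κ`, started in `r`, outputs the word `w`
(the state `r` outputs `out r`, the first letter); `law π κ out` the same with initial law `π`.
`own f v p`: image of the law `p` under the letterwise map `f`.  `steps`, `pathw`: the law of the
simple random walk on the complete graph on `V` (`lp = true`: with loops).
-/

set_option autoImplicit false

namespace Pool.Agent.H95.AV

open Classical

/-- initial law and stochastic kernel on a finite set -/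
structure IsMach {R : Type} [Fintype R] (π : R → ℝ) (κ : R → R → ℝ) : Prop where
  π_nonneg : ∀ r, 0 ≤ π r
  π_sum : ∑ r, π r = 1
  κ_nonneg : ∀ r r', 0 ≤ κ r r'
  κ_sum : ∀ r, ∑ r', κ r r' = 1

/-- `π` is stationary for `κ` -/
def IsStat {R : Type} [Fintype R] (π : R → ℝ) (κ : R → R → ℝ) : Prop :=
  ∀ r', ∑ r, π r * κ r r' = π r'

/-- probability of the output word `w` if the chain starts in `r` -/
noncomputable def mw {R A : Type} [Fintype R] (κ : R → R → ℝ) (out : R → A) : List A → R → ℝ
  | [], _ => 1
  | a :: w, r => if out r = a then ∑ r', κ r r' * mw κ out w r' else 0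

/-- probability of the output word `w` -/
noncomputable def law {R A : Type} [Fintype R] (π : R → ℝ) (κ : R → R → ℝ) (out : R → A)
    (w : List A) : ℝ :=
  ∑ r, π r * mw κ out w r

/-- `p` gives the finite dimensional distributions of a stationary process -/
structure IsLaw {A : Type} [Fintype A] (p : List A → ℝ) : Prop where
  nil : p [] = 1
  nonneg : ∀ w, 0 ≤ p w
  right : ∀ w, ∑ a, p (w ++ [a]) = p w
  left : ∀ w, ∑ a, p (a :: w) = p w

/-- image of the function `p` on words under the letterwise map `f`, at the word `v` -/
noncomputable def own {A B : Type} [Fintype A] (f : A → B) : List B → (List A → ℝ) → ℝ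
  | [], p => p []
  | b :: v, p => ∑ a, if f a = b then own f v (fun w => p (a :: w)) else 0

/-- transition probability of the simple random walk on the complete graph on `V`, with loops if
`lp = true` -/
noncomputable def stp (lp : Bool) (V : Type) [Fintype V] (x y : V) : ℝ :=
  if lp = true then 1 / (Fintype.card V : ℝ) else
    if x = y then 0 else 1 / ((Fintype.card V : ℝ) - 1)

/-- probability that the walk started in `x` continues with the word `w` -/
noncomputable def steps (lp : Bool) (V : Type) [Fintype V] : V → List V → ℝ
  | _, [] => 1
  | x, y :: w => stp lp V x y * steps lp V y w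

/-- probability of the word `w` for the walk with uniform initial distribution -/
noncomputable def pathw (lp : Bool) (V : Type) [Fintype V] : List V → ℝ
  | [] => 1
  | x :: w => 1 / (Fintype.card V : ℝ) * steps lp V x w

/-- no walker moves to a vertex occupied by a walker who moves after it -/
def Avoid {k : ℕ} {V : Type} (x y : Fin k → V) : Prop :=
  ∀ i j : Fin k, i < j → y i ≠ x j

/-- the word satisfies all the conditions of an avoidance coupling -/
def Good {k : ℕ} {V : Type} : List (Fin k → V) → Prop
  | [] => True
  | [x] => Function.Injective x
  | x :: y :: w => Function.Injective x ∧ Avoid x y ∧ Good (y :: w)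

/-- stationary avoidance coupling of `k` walkers on the complete graph on `V`, as a function on
words -/
structure IsCoupl (lp : Bool) (k : ℕ) (V : Type) [Fintype V] (p : List (Fin k → V) → ℝ) :
    Prop where
  isLaw : IsLaw p
  own_eq : ∀ (i : Fin k) (v : List V), own (fun x : Fin k → V => x i) v p = pathw lp V v
  good : ∀ w, p w ≠ 0 → Good w

/-- there is a stationary avoidance coupling given by a finite stationary Markov chain -/
def FSC (lp : Bool) (k : ℕ) (V : Type) [Fintype V] : Prop :=
  ∃ (R : Type) (_ : Fintype R) (π : R → ℝ) (κ : R → R → ℝ) (out : R → Fin k → V),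
    IsMach π κ ∧ IsStat π κ ∧ IsCoupl lp k V (law π κ out)

/-- there is an avoidance coupling given by a finite Markov chain with any initial law: each
walker moves as a simple random walk, its initial distribution may be anything -/
def PFS (lp : Bool) (k : ℕ) (V : Type) [Fintype V] : Prop :=
  ∃ (R : Type) (_ : Fintype R) (π : R → ℝ) (κ : R → R → ℝ) (out : R → Fin k → V),
    IsMach π κ ∧
    (∀ (i : Fin k) (x : V) (v : List V), own (fun x : Fin k → V => x i) (x :: v) (law π κ out) =
      own (fun x : Fin k → V => x i) [x] (law π κ out) * steps lp V x v) ∧
    ∀ w, law π κ out w ≠ 0 → Good w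

/-- number of steps available to a walker -/
noncomputable def dgr (lp : Bool) (V : Type) [Fintype V] : ℝ :=
  if lp = true then (Fintype.card V : ℝ) else (Fintype.card V : ℝ) - 1

/-- entropy of the words of length `T` -/
noncomputable def ent {A : Type} [Fintype A] (p : List A → ℝ) (T : ℕ) : ℝ :=
  ∑ w : Fin T → A, Real.negMulLog (p (List.ofFn w))

/-- there is a stationary avoidance coupling of minimum entropy -/
def MinE (lp : Bool) (k : ℕ) (V : Type) [Fintype V] : Prop :=
  ∃ p : List (Fin k → V) → ℝ, IsCoupl lp k V p ∧
    Filter.Tendsto (fun T : ℕ => ent p T / T) Filter.atTop (nhds (Real.log (dgr lp V)))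

end Pool.Agent.H95.AV
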