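import Pool.Agent.H95.AV.Defs

/-!
# Job AV-Kmap: kernels given by random maps

All statements are immediate from the definition (exchange of finite sums).
-/

set_option autoImplicit false

namespace Pool.Agent.H95.AV

open Classical

/-- kernel of the random map `r ↦ F r ω`, `ω` of law `μ` -/
noncomputable def kmap {R Ω : Type} [Fintype Ω] (μ : Ω → ℝ) (F : R → Ω → R) : R → R → ℝ :=
  fun r r' => ∑ ω, if F r ω = r' then μ ω else 0

theorem kmap_nonneg {R Ω : Type} [Fintype Ω] (μ : Ω → ℝ) (F : R → Ω → R)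
    (hμ : ∀ ω, 0 ≤ μ ω) (r r' : R) : 0 ≤ kmap μ F r r' := by
  unfold kmap
  refine Finset.sum_nonneg (fun ω _ => ?_)
  split_ifs
  · exact hμ ω
  · exact le_rfl

theorem kmap_apply {R Ω : Type} [Fintype R] [Fintype Ω] (μ : Ω → ℝ) (F : R → Ω → R)
    (r : R) (φ : R → ℝ) : ∑ r', kmap μ F r r' * φ r' = ∑ ω, μ ω * φ (F r ω) := by
  unfold kmap
  simp only [Finset.sum_mul, ite_mul, zero_mul]
  rw [Finset.sum_comm]
  refine Finset.sum_congr rfl (fun ω _ => ?_)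
  rw [Finset.sum_ite_eq]
  simp

theorem kmap_sum {R Ω : Type} [Fintype R] [Fintype Ω] (μ : Ω → ℝ) (F : R → Ω → R)
    (hμ : ∑ ω, μ ω = 1) (r : R) : ∑ r', kmap μ F r r' = 1 := by
  have h := kmap_apply μ F r (fun _ => 1)
  simp only [mul_one] at h
  rw [h, hμ]

theorem kmap_ne_zero {R Ω : Type} [Fintype Ω] (μ : Ω → ℝ) (F : R → Ω → R) (r r' : R)
    (h : kmap μ F r r' ≠ 0) : ∃ ω, μ ω ≠ 0 ∧ F r ω = r' := by
  unfold kmap at h
  obtain ⟨ω, -, hω⟩ := Finset.exists_ne_zero_of_sum_ne_zero h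
  by_cases hF : F r ω = r'
  · rw [if_pos hF] at hω
    exact ⟨ω, hω, hF⟩
  · rw [if_neg hF] at hω
    exact absurd rfl hω

theorem kmap_mach {R Ω : Type} [Fintype R] [Fintype Ω] (π : R → ℝ) (μ : Ω → ℝ)
    (F : R → Ω → R) (hπ : ∀ r, 0 ≤ π r) (hπ1 : ∑ r, π r = 1) (hμ : ∀ ω, 0 ≤ μ ω)
    (hμ1 : ∑ ω, μ ω = 1) : IsMach π (kmap μ F) :=
  ⟨hπ, hπ1, fun r r' => kmap_nonneg μ F hμ r r', fun r => kmap_sum μ F hμ1 r⟩

end Pool.Agent.H95.AV
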