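import Mathlib

/-!
# Job AV-Upd: the update of the bits

Walker `j` goes to the place of walker `σ j`.  New bit: if `σ j = j` the old bit plus `c`; if
`j < σ j` (walker `σ j` has not moved yet) the opposite of the bit of `σ j`; otherwise a fresh bit `z j`.

PROOF of both averages.  The map `(y, z) ↦ (y', z')`, `y' = updX σ c y z`,
`z' j = if σ j < j then y (σ j) else z j` is a bijection of pairs; inverse: for `k = σ j`,
`y k = if j = k then xor (y' k) c else if j < k then !(y' j) else z' j`, and
`z j = if σ j < j then y' j else z' j`.  The condition `y i = b`: let `i = σ j₀`.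
If `j₀ = i` it says `y' i = xor b c` (case `upd_avg_eq`; the sum over `z'` gives `2^m`).  If `j₀ < i` it says
`y' j₀ = !b`, and `φ` does not depend on the coordinate `j₀ < i`: half of the sum over all `y'`.  If `j₀ > i`
it says `z' j₀ = b`: half of the sum over `z'`.  In both cases the result is `(1/2) 2^m ∑ v, φ v`.
-/

set_option autoImplicit false

namespace Pool.Agent.H95.AV

/-- the new bits -/
def updX {m : ℕ} (σ : Equiv.Perm (Fin m)) (c : Bool) (y z : Fin m → Bool) : Fin m → Bool :=
  fun j => if σ j = j then xor (y j) c else if j < σ j then !(y (σ j)) else z j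

/-- `φ` only depends on the coordinates `j ≥ i` -/
def Loc {m : ℕ} (i : Fin m) (φ : (Fin m → Bool) → ℝ) : Prop :=
  ∀ y y' : Fin m → Bool, (∀ j, i ≤ j → y j = y' j) → φ y = φ y'

/-- flip one bit -/
def updFlip {m : ℕ} (j : Fin m) : Equiv.Perm (Fin m → Bool) :=
  Function.Involutive.toPerm (fun v => Function.update v j (!(v j))) (by
    intro v
    funext k
    by_cases h : k = j
    · subst h
      simp
    · simp [Function.update_of_ne h])

theorem updFlip_same {m : ℕ} (j : Fin m) (v : Fin m → Bool) : updFlip j v j = !(v j) :=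
  Function.update_self _ _ _

theorem updFlip_ne {m : ℕ} (j k : Fin m) (h : k ≠ j) (v : Fin m → Bool) :
    updFlip j v k = v k :=
  Function.update_of_ne h _ _

theorem upd_half {m : ℕ} (j : Fin m) (b : Bool) (φ : (Fin m → Bool) → ℝ)
    (hφ : ∀ v, φ (updFlip j v) = φ v) :
    2 * ∑ v : Fin m → Bool, (if v j = b then φ v else 0) = ∑ v, φ v := by
  have h1 : ∑ v : Fin m → Bool, (if v j = b then φ v else 0) =
      ∑ v : Fin m → Bool, (if v j = b then 0 else φ v) := by
    rw [← Equiv.sum_comp (updFlip j) (fun v => if v j = b then φ v else 0)]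
    refine Finset.sum_congr rfl fun v _ => ?_
    rw [updFlip_same, hφ]
    cases v j <;> cases b <;> simp
  rw [two_mul]
  nth_rw 2 [h1]
  rw [← Finset.sum_add_distrib]
  refine Finset.sum_congr rfl fun v _ => ?_
  split_ifs <;> simp

theorem sum_loc_half {m : ℕ} (i j : Fin m) (hj : j < i) (b : Bool) (φ : (Fin m → Bool) → ℝ)
    (hφ : Loc i φ) :
    2 * ∑ v : Fin m → Bool, (if v j = b then φ v else 0) = ∑ v, φ v := by
  refine upd_half j b φ fun v => hφ _ _ fun k hk => ?_
  exact updFlip_ne j k (fun h => absurd hk (not_le.2 (h ▸ hj))) v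

theorem updX_lt {m : ℕ} (σ : Equiv.Perm (Fin m)) (c : Bool) (y z : Fin m → Bool) (j : Fin m)
    (h : j < σ j) : updX σ c y z j ≠ y (σ j) := by
  unfold updX
  rw [if_neg (ne_of_gt h), if_pos h]
  cases y (σ j) <;> simp

/-- the inverse, old bits -/
def updI {m : ℕ} (σ : Equiv.Perm (Fin m)) (c : Bool) (y' z' : Fin m → Bool) : Fin m → Bool :=
  fun k => if σ.symm k = k then xor (y' k) c else
    if σ.symm k < k then !(y' (σ.symm k)) else z' (σ.symm k)

/-- the bijection -/
def updE {m : ℕ} (σ : Equiv.Perm (Fin m)) (c : Bool) :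
    (Fin m → Bool) × (Fin m → Bool) ≃ (Fin m → Bool) × (Fin m → Bool) where
  toFun p := (updX σ c p.1 p.2, fun j => if σ j < j then p.1 (σ j) else p.2 j)
  invFun q := (updI σ c q.1 q.2, fun j => if σ j < j then q.1 j else q.2 j)
  left_inv := by
    rintro ⟨y, z⟩
    refine Prod.ext ?_ ?_
    · funext k
      show updI σ c (updX σ c y z) (fun j => if σ j < j then y (σ j) else z j) k = y k
      unfold updI
      by_cases h1 : σ.symm k = k
      · have h2 : σ k = k := by rw [← h1, Equiv.apply_symm_apply]; exact h1.symm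
        rw [if_pos h1]
        unfold updX
        rw [if_pos h2]
        cases y k <;> cases c <;> rfl
      · rw [if_neg h1]
        by_cases h3 : σ.symm k < k
        · rw [if_pos h3]
          unfold updX
          rw [Equiv.apply_symm_apply, if_neg (Ne.symm h1), if_pos h3, Bool.not_not]
        · have h4 : k < σ.symm k := lt_of_le_of_ne (not_lt.1 h3) (Ne.symm h1)
          rw [if_neg h3]
          show (if σ (σ.symm k) < σ.symm k then y (σ (σ.symm k)) else z (σ.symm k)) = y k
          rw [Equiv.apply_symm_apply, if_pos h4]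
    · funext j
      show (if σ j < j then updX σ c y z j else if σ j < j then y (σ j) else z j) = z j
      by_cases h : σ j < j
      · rw [if_pos h]
        unfold updX
        rw [if_neg (ne_of_lt h), if_neg (not_lt.2 h.le)]
      · rw [if_neg h, if_neg h]
  right_inv := by
    rintro ⟨y, z⟩
    refine Prod.ext ?_ ?_
    · funext j
      show updX σ c (updI σ c y z) (fun j => if σ j < j then y j else z j) j = y j
      unfold updX
      by_cases h1 : σ j = j
      · have h2 : σ.symm j = j := by rw [Equiv.symm_apply_eq]; exact h1.symm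
        rw [if_pos h1]
        unfold updI
        rw [if_pos h2]
        cases y j <;> cases c <;> rfl
      · rw [if_neg h1]
        by_cases h3 : j < σ j
        · rw [if_pos h3]
          unfold updI
          rw [Equiv.symm_apply_apply, if_neg (Ne.symm h1), if_pos h3, Bool.not_not]
        · have h4 : σ j < j := lt_of_le_of_ne (not_lt.1 h3) h1
          rw [if_neg h3]
          show (if σ j < j then y j else z j) = y j
          rw [if_pos h4]
    · funext j
      show (if σ j < j then updI σ c y z (σ j) else if σ j < j then y j else z j) = z j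
      by_cases h : σ j < j
      · rw [if_pos h]
        unfold updI
        rw [Equiv.symm_apply_apply, if_neg (ne_of_gt h), if_neg (not_lt.2 h.le)]
      · rw [if_neg h, if_neg h]

theorem upd_sum {m : ℕ} (σ : Equiv.Perm (Fin m)) (i : Fin m) (b c : Bool)
    (φ : (Fin m → Bool) → ℝ) :
    ∑ y : Fin m → Bool, ∑ z : Fin m → Bool, (if y i = b then φ (updX σ c y z) else 0) =
      ∑ y : Fin m → Bool, ∑ z : Fin m → Bool, (if updI σ c y z i = b then φ y else 0) := by
  rw [← Fintype.sum_prod_type'
    (fun y z : Fin m → Bool => if y i = b then φ (updX σ c y z) else 0),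
    ← Fintype.sum_prod_type'
    (fun y z : Fin m → Bool => if updI σ c y z i = b then φ y else 0),
    ← Equiv.sum_comp (updE σ c).symm]
  refine Finset.sum_congr rfl fun p _ => ?_
  have h1 : updX σ c ((updE σ c).symm p).1 ((updE σ c).symm p).2 = p.1 :=
    congrArg Prod.fst ((updE σ c).apply_symm_apply p)
  rw [h1]
  rfl

theorem upd_avg_ne {m : ℕ} (σ : Equiv.Perm (Fin m)) (i : Fin m) (hi : σ i ≠ i) (b c : Bool)
    (φ : (Fin m → Bool) → ℝ) (hφ : Loc i φ) :
    ∑ y : Fin m → Bool, ∑ z : Fin m → Bool, (if y i = b then φ (updX σ c y z) else 0) =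
      2 ^ (m - 1) * ∑ v, φ v := by
  have hm : 0 < m := i.pos
  have h2m : (2 : ℝ) ^ m = 2 * 2 ^ (m - 1) := by
    rw [← pow_succ', Nat.sub_add_cancel hm]
  have hs : σ.symm i ≠ i := fun h => hi (by rw [Equiv.symm_apply_eq] at h; exact h.symm)
  rw [upd_sum]
  by_cases h3 : σ.symm i < i
  · have h4 : ∀ y z : Fin m → Bool, (if updI σ c y z i = b then φ y else 0) =
        if y (σ.symm i) = !b then φ y else 0 := by
      intro y z
      unfold updI
      rw [if_neg hs, if_pos h3]
      cases y (σ.symm i) <;> cases b <;> rfl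
    simp only [h4]
    simp only [Finset.sum_const, Finset.card_univ, Fintype.card_fun, Fintype.card_bool,
      Fintype.card_fin, nsmul_eq_mul, Nat.cast_pow, Nat.cast_ofNat]
    rw [← Finset.mul_sum, h2m, ← sum_loc_half i (σ.symm i) h3 (!b) φ hφ]
    ring
  · have h4 : ∀ y z : Fin m → Bool, (if updI σ c y z i = b then φ y else 0) =
        φ y * (if z (σ.symm i) = b then (1 : ℝ) else 0) := by
      intro y z
      unfold updI
      rw [if_neg hs, if_neg h3]
      split_ifs <;> simp
    simp only [h4]
    have h5 := upd_half (σ.symm i) b (fun _ => (1 : ℝ)) (fun _ => rfl)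
    simp only [Finset.sum_const, Finset.card_univ, Fintype.card_fun, Fintype.card_bool,
      Fintype.card_fin, nsmul_eq_mul, Nat.cast_pow, Nat.cast_ofNat, mul_one] at h5
    rw [h2m] at h5
    have h6 : ∑ z : Fin m → Bool, (if z (σ.symm i) = b then (1 : ℝ) else 0) = 2 ^ (m - 1) :=
      mul_left_cancel₀ two_ne_zero h5
    simp only [← Finset.mul_sum, h6]
    rw [← Finset.sum_mul, mul_comm]

theorem upd_avg_eq {m : ℕ} (σ : Equiv.Perm (Fin m)) (i : Fin m) (hi : σ i = i) (b c : Bool)
    (φ : (Fin m → Bool) → ℝ) (hφ : Loc i φ) :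
    ∑ y : Fin m → Bool, ∑ z : Fin m → Bool, (if y i = b then φ (updX σ c y z) else 0) =
      2 ^ m * ∑ v : Fin m → Bool, (if v i = xor b c then φ v else 0) := by
  have hs : σ.symm i = i := by rw [Equiv.symm_apply_eq]; exact hi.symm
  rw [upd_sum]
  have h4 : ∀ y z : Fin m → Bool, (if updI σ c y z i = b then φ y else 0) =
      if y i = xor b c then φ y else 0 := by
    intro y z
    unfold updI
    rw [if_pos hs]
    cases y i <;> cases b <;> cases c <;> rfl
  simp only [h4]
  simp only [Finset.sum_const, Finset.card_univ, Fintype.card_fun, Fintype.card_bool,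
    Fintype.card_fin, nsmul_eq_mul, Nat.cast_pow, Nat.cast_ofNat]
  rw [← Finset.mul_sum]

end Pool.Agent.H95.AV
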