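import Pool.Agent.H95.AV.Path
import Pool.Agent.H95.AV.Kmap
import Pool.Agent.H95.AV.Upd

/-!
# The machine for `m` walkers on `2 m` vertices

Vertices `(p, b)`, `p : Fin m` (addition mod `m`), `b : Bool`.  State `(g, y)`: walker `i` is at
`(i + g, y i)`.  Step: `((d, c), z)` with `(d, c)` of the law of a step of the walk from `(0, false)`, `z`
uniform; walker `j` goes to the part of walker `j + d`, bits `updX`.
-/

set_option autoImplicit false

namespace Pool.Agent.H95.AV

open Classical

abbrev ER (m : ℕ) : Type := Fin m × (Fin m → Bool)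
abbrev EΩ (m : ℕ) : Type := (Fin m × Bool) × (Fin m → Bool)

/-- law of the noise -/
noncomputable def eμ (lp : Bool) (m : ℕ) [NeZero m] : EΩ m → ℝ :=
  fun ω => stp lp (Fin m × Bool) ((0 : Fin m), false) ω.1 / 2 ^ m

/-- one step -/
def eF (m : ℕ) [NeZero m] : ER m → EΩ m → ER m :=
  fun r ω => (r.1 + ω.1.1, updX (Equiv.addRight ω.1.1) ω.1.2 r.2 ω.2)

/-- initial law -/
noncomputable def eπ (m : ℕ) [NeZero m] : ER m → ℝ :=
  fun r => if r.1 = 0 then 1 / 2 ^ m else 0

/-- positions of the walkers -/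
def eout (m : ℕ) [NeZero m] : ER m → Fin m → Fin m × Bool :=
  fun r i => (i + r.1, r.2 i)

end Pool.Agent.H95.AV
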