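import Pool.Agent.H95.AV.Markov
import Pool.Agent.H95.AV.EDefs

/-!
# Job AV-EOwn: each walker of the `E` machine is a simple random walk

PROOF.  Fix `i`, `V = Fin m × Bool`, `card V = 2 m`.  Apply `law_markov` with `E = V`, `g = id`,
`Q = stp lp V` (`hQ` is then trivial), `Λ (p, b) (g, y) = if i + g = p ∧ y i = b then 1 / 2^(m-1) else 0`,
`ι (p, b) = if p = i then 1/2 else 0`, and `C φ` : for all `g` the function `y ↦ φ (g, y)` is `Loc i`.
`hCκ`: if `y, y'` agree on the coordinates `≥ i` then so do `updX σ c y z` and `updX σ c y' z` (for `j ≥ i` with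
`j < σ j` the coordinate `σ j` is `> i`), and `y i = y' i`.
`hCπ`: `∑ r, π r φ r = 2^(-m) ∑ y, φ (0, y)` and the right side is
`∑ b, 1/2 * 2^(-(m-1)) ∑_{y i = b} φ (0, y)`.
`hCΛ`: by `kmap_apply` the left side at `(p, b)` is `∑_{d, c} stp (0, false) (d, c) * 2^(-m) * 2^(-(m-1)) *
∑_{y, y i = b} ∑_z φ (p - i + d, updX (addRight d) c y z)`.  For `d ≠ 0` (`i + d ≠ i`) `upd_avg_ne` gives
`stp (0, false) (d, c) * 2^(-m) ∑_v φ (p - i + d, v)`, `stp (0, false) (d, c) = s` with `s = 1/(2m)`
(`lp = true`) or `1/(2m-1)`, for both `c`: in total `2 s * 2^(-m) ∑_v φ (p - i + d, v) =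
s ∑_{b'} ∑_r Λ (p + d, b') r φ r`.  For `d = 0` `upd_avg_eq` gives
`∑_c stp (0, false) (0, c) * 2^(-(m-1)) ∑_{v i = xor b c} φ (p - i, v) = ∑_c stp (0, false) (0, c) ∑_r
Λ (p, xor b c) r φ r`, and `stp (0, false) (0, c) = stp (p, b) (p, xor b c)`.  Sum over `d` (`p' = p + d`).
-/

set_option autoImplicit false

namespace Pool.Agent.H95.AV

open Classical

theorem stp_congr (lp : Bool) (V : Type) [Fintype V] (x y x' y' : V) (h : x = y ↔ x' = y') :
    stp lp V x y = stp lp V x' y' := by
  unfold stp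
  by_cases hx : x = y
  · rw [if_pos hx, if_pos (h.1 hx)]
  · rw [if_neg hx, if_neg (fun hh => hx (h.2 hh))]

/-- sum over the two values of the bit `i` -/
theorem eo_split {m : ℕ} (i : Fin m) (φ : (Fin m → Bool) → ℝ) :
    ∑ b : Bool, ∑ y : Fin m → Bool, (if y i = b then φ y else 0) = ∑ y, φ y := by
  rw [Finset.sum_comm]
  refine Finset.sum_congr rfl fun y _ => ?_
  rw [Finset.sum_ite_eq, if_pos (Finset.mem_univ _)]

theorem eo_pow (m : ℕ) [NeZero m] : (2 : ℝ) ^ m = 2 * 2 ^ (m - 1) := by
  have h : m = (m - 1) + 1 := by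
    have := NeZero.pos m
    omega
  conv_lhs => rw [h, pow_succ]
  ring

/-- half of the words have a given bit -/
theorem eo_half {m : ℕ} [NeZero m] (i : Fin m) (b : Bool) :
    ∑ y : Fin m → Bool, (if y i = b then (1 : ℝ) else 0) = 2 ^ (m - 1) := by
  have h1 := eo_split i (fun _ => (1 : ℝ))
  have h2 : ∑ y : Fin m → Bool, (if y i = true then (1 : ℝ) else 0) =
      ∑ y : Fin m → Bool, (if y i = false then (1 : ℝ) else 0) := by
    refine Fintype.sum_equiv (Equiv.piCongrRight fun _ => Equiv.boolNot) _ _ fun y => ?_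
    have h3 : (Equiv.piCongrRight (fun _ : Fin m => Equiv.boolNot)) y i = !(y i) := rfl
    rw [h3]
    cases y i <;> simp
  have h4 : ∑ y : Fin m → Bool, (1 : ℝ) = 2 ^ m := by
    rw [Finset.sum_const, Finset.card_univ, Fintype.card_fun, Fintype.card_bool, Fintype.card_fin]
    simp
  rw [Fintype.sum_bool, h4, eo_pow m] at h1
  cases b <;> linarith

/-- sum against the local law -/
theorem eo_lam {m : ℕ} [NeZero m] (i : Fin m) (p : Fin m) (b : Bool) (φ : ER m → ℝ) :
    ∑ r : ER m, (if i + r.1 = p ∧ r.2 i = b then 1 / (2 : ℝ) ^ (m - 1) else 0) * φ r =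
      1 / (2 : ℝ) ^ (m - 1) * ∑ y : Fin m → Bool, (if y i = b then φ (p - i, y) else 0) := by
  rw [Fintype.sum_prod_type, Finset.sum_eq_single (p - i)]
  · rw [Finset.mul_sum]
    refine Finset.sum_congr rfl fun y _ => ?_
    by_cases h : y i = b
    · rw [if_pos ⟨add_sub_cancel i p, h⟩, if_pos h]
    · rw [if_neg (fun hh => h hh.2), if_neg h, zero_mul, mul_zero]
  · intro g _ hg
    refine Finset.sum_eq_zero fun y _ => ?_
    rw [if_neg, zero_mul]
    rintro ⟨h1, -⟩
    apply hg
    have h1' : i + g = p := h1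
    rw [← h1', add_sub_cancel_left]
  · intro hh
    exact absurd (Finset.mem_univ _) hh

theorem eo_card (m : ℕ) [NeZero m] : 2 ≤ Fintype.card (Fin m × Bool) := by
  rw [Fintype.card_prod, Fintype.card_fin, Fintype.card_bool]
  have := NeZero.pos m
  omega

theorem eo_mu_sum (lp : Bool) (m : ℕ) [NeZero m] : ∑ ω, eμ lp m ω = 1 := by
  unfold eμ
  rw [Fintype.sum_prod_type]
  have h1 : ∀ v : Fin m × Bool, ∑ _z : Fin m → Bool,
      stp lp (Fin m × Bool) ((0 : Fin m), false) v / 2 ^ m =
      stp lp (Fin m × Bool) ((0 : Fin m), false) v := by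
    intro v
    rw [Finset.sum_const, Finset.card_univ, Fintype.card_fun, Fintype.card_bool, Fintype.card_fin,
      nsmul_eq_mul]
    push_cast
    field_simp
  rw [Finset.sum_congr rfl fun v _ => h1 v]
  exact stp_sum lp _ (eo_card m) _

theorem eo_updX {m : ℕ} (i : Fin m) (σ : Equiv.Perm (Fin m)) (c : Bool)
    (y y' z : Fin m → Bool) (h : ∀ j, i ≤ j → y j = y' j) (j : Fin m) (hj : i ≤ j) :
    updX σ c y z j = updX σ c y' z j := by
  unfold updX
  by_cases h1 : σ j = j
  · rw [if_pos h1, if_pos h1, h j hj]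
  · rw [if_neg h1, if_neg h1]
    by_cases h2 : j < σ j
    · rw [if_pos h2, if_pos h2, h (σ j) (hj.trans h2.le)]
    · rw [if_neg h2, if_neg h2]

/-- left side of the local equation, for fixed `d`, `c` -/
theorem eo_left (lp : Bool) (m : ℕ) [NeZero m] (i p : Fin m) (b : Bool) (φ : ER m → ℝ) :
    ∑ r : ER m, (if i + r.1 = p ∧ r.2 i = b then 1 / (2 : ℝ) ^ (m - 1) else 0) *
      ∑ ω, eμ lp m ω * φ (eF m r ω) =
    ∑ d : Fin m, ∑ c : Bool, stp lp (Fin m × Bool) ((0 : Fin m), false) (d, c) / 2 ^ m *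
      (1 / (2 : ℝ) ^ (m - 1)) * ∑ y : Fin m → Bool, ∑ z : Fin m → Bool,
        (if y i = b then φ (p - i + d, updX (Equiv.addRight d) c y z) else 0) := by
  rw [eo_lam i p b (fun r => ∑ ω, eμ lp m ω * φ (eF m r ω))]
  have h1 : ∀ y : Fin m → Bool, (if y i = b then ∑ ω, eμ lp m ω * φ (eF m (p - i, y) ω) else 0) =
      ∑ d : Fin m, ∑ c : Bool, ∑ z : Fin m → Bool,
        (if y i = b then stp lp (Fin m × Bool) ((0 : Fin m), false) (d, c) / 2 ^ m *
          φ (p - i + d, updX (Equiv.addRight d) c y z) else 0) := by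
    intro y
    by_cases h : y i = b
    · rw [if_pos h, Fintype.sum_prod_type, Fintype.sum_prod_type]
      refine Finset.sum_congr rfl fun d _ => Finset.sum_congr rfl fun c _ =>
        Finset.sum_congr rfl fun z _ => ?_
      rw [if_pos h]
      rfl
    · rw [if_neg h]
      symm
      exact Finset.sum_eq_zero fun d _ => Finset.sum_eq_zero fun c _ =>
        Finset.sum_eq_zero fun z _ => if_neg h
  rw [Finset.sum_congr rfl fun y _ => h1 y, Finset.sum_comm, Finset.mul_sum]
  refine Finset.sum_congr rfl fun d _ => ?_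
  rw [Finset.sum_comm, Finset.mul_sum]
  refine Finset.sum_congr rfl fun c _ => ?_
  rw [Finset.mul_sum, Finset.mul_sum]
  refine Finset.sum_congr rfl fun y _ => ?_
  rw [Finset.mul_sum, Finset.mul_sum]
  refine Finset.sum_congr rfl fun z _ => ?_
  by_cases h : y i = b
  · rw [if_pos h, if_pos h]
    ring
  · rw [if_neg h, if_neg h, mul_zero, mul_zero]

theorem eo_main (lp : Bool) (m : ℕ) [NeZero m] (i p : Fin m) (b : Bool) (φ : ER m → ℝ)
    (hφ : ∀ g, Loc i fun y => φ (g, y)) :
    ∑ r : ER m, (if i + r.1 = p ∧ r.2 i = b then 1 / (2 : ℝ) ^ (m - 1) else 0) *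
      ∑ ω, eμ lp m ω * φ (eF m r ω) =
    ∑ y : Fin m × Bool, stp lp (Fin m × Bool) (p, b) y *
      ∑ r : ER m, (if i + r.1 = y.1 ∧ r.2 i = y.2 then 1 / (2 : ℝ) ^ (m - 1) else 0) * φ r := by
  rw [eo_left]
  have hR : ∑ y : Fin m × Bool, stp lp (Fin m × Bool) (p, b) y *
      ∑ r : ER m, (if i + r.1 = y.1 ∧ r.2 i = y.2 then 1 / (2 : ℝ) ^ (m - 1) else 0) * φ r =
      ∑ d : Fin m, ∑ b' : Bool, stp lp (Fin m × Bool) (p, b) (p + d, b') *
        (1 / (2 : ℝ) ^ (m - 1) * ∑ y : Fin m → Bool, (if y i = b' then φ (p - i + d, y) else 0)) := by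
    rw [Fintype.sum_prod_type]
    refine (Equiv.sum_comp (Equiv.addLeft p) _).symm.trans ?_
    refine Finset.sum_congr rfl fun d _ => Finset.sum_congr rfl fun b' _ => ?_
    have h1 := eo_lam i (p + d) b' φ
    have h2 : p + d - i = p - i + d := by abel
    rw [h2] at h1
    rw [← h1]
    rfl
  rw [hR]
  have h2m : (0 : ℝ) < 2 ^ (m - 1) := by positivity
  have hpow := eo_pow m
  refine Finset.sum_congr rfl fun d _ => ?_
  by_cases hd : d = 0
  · subst hd
    have hσ : (Equiv.addRight (0 : Fin m)) i = i := by simp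
    have h1 : ∀ c : Bool, stp lp (Fin m × Bool) ((0 : Fin m), false) ((0 : Fin m), c) / 2 ^ m *
        (1 / (2 : ℝ) ^ (m - 1)) * ∑ y : Fin m → Bool, ∑ z : Fin m → Bool,
          (if y i = b then φ (p - i + 0, updX (Equiv.addRight 0) c y z) else 0) =
        stp lp (Fin m × Bool) (p, b) (p + 0, xor b c) *
        (1 / (2 : ℝ) ^ (m - 1) * ∑ y : Fin m → Bool,
          (if y i = xor b c then φ (p - i + 0, y) else 0)) := by
      intro c
      have h2 := upd_avg_eq (Equiv.addRight (0 : Fin m)) i hσ b c (fun y => φ (p - i + 0, y))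
        (hφ _)
      rw [h2]
      have h3 : stp lp (Fin m × Bool) ((0 : Fin m), false) ((0 : Fin m), c) =
          stp lp (Fin m × Bool) (p, b) (p + 0, xor b c) := by
        refine stp_congr lp _ _ _ _ _ ?_
        rw [Prod.mk.injEq, Prod.mk.injEq, add_zero]
        cases b <;> cases c <;> simp
      rw [h3]
      field_simp
    rw [Finset.sum_congr rfl fun c _ => h1 c]
    refine Fintype.sum_bijective (fun c => xor b c) ?_ _ _ fun c => rfl
    constructor
    · intro c c' h
      have h' : xor b c = xor b c' := h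
      revert h'
      cases b <;> cases c <;> cases c' <;> simp
    · intro c
      exact ⟨xor b c, by cases b <;> cases c <;> rfl⟩
  · have hσ : (Equiv.addRight d) i ≠ i := by
      intro h
      have h' : i + d = i := h
      exact hd (by simpa using h')
    have h1 : ∀ c : Bool, stp lp (Fin m × Bool) ((0 : Fin m), false) (d, c) / 2 ^ m *
        (1 / (2 : ℝ) ^ (m - 1)) * ∑ y : Fin m → Bool, ∑ z : Fin m → Bool,
          (if y i = b then φ (p - i + d, updX (Equiv.addRight d) c y z) else 0) =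
        stp lp (Fin m × Bool) (p, b) (p + d, b) / 2 ^ m * ∑ v, φ (p - i + d, v) := by
      intro c
      have h2 := upd_avg_ne (Equiv.addRight d) i hσ b c (fun y => φ (p - i + d, y)) (hφ _)
      rw [h2]
      have h3 : stp lp (Fin m × Bool) ((0 : Fin m), false) (d, c) =
          stp lp (Fin m × Bool) (p, b) (p + d, b) := by
        refine stp_congr lp _ _ _ _ _ ?_
        rw [Prod.mk.injEq, Prod.mk.injEq]
        constructor
        · intro h
          exact absurd h.1.symm hd
        · intro h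
          exact absurd (by simpa using h.1.symm) hd
      rw [h3]
      field_simp
    have h4 : ∀ b' : Bool, stp lp (Fin m × Bool) (p, b) (p + d, b') =
        stp lp (Fin m × Bool) (p, b) (p + d, b) := by
      intro b'
      refine stp_congr lp _ _ _ _ _ ?_
      rw [Prod.mk.injEq, Prod.mk.injEq]
      constructor
      · intro h
        exact absurd (by simpa using h.1.symm) hd
      · intro h
        exact absurd (by simpa using h.1.symm) hd
    have h5 : ∑ b' : Bool, stp lp (Fin m × Bool) (p, b) (p + d, b') *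
        (1 / (2 : ℝ) ^ (m - 1) * ∑ y : Fin m → Bool, (if y i = b' then φ (p - i + d, y) else 0)) =
        ∑ b' : Bool, stp lp (Fin m × Bool) (p, b) (p + d, b) *
        (1 / (2 : ℝ) ^ (m - 1) * ∑ y : Fin m → Bool, (if y i = b' then φ (p - i + d, y) else 0)) :=
      Finset.sum_congr rfl fun b' _ => by rw [h4 b']
    rw [Finset.sum_congr rfl fun c _ => h1 c, h5,
      ← Finset.mul_sum, ← Finset.mul_sum, ← Finset.mul_sum,
      eo_split i (fun y => φ (p - i + d, y)), Finset.sum_const,
      Finset.card_univ, Fintype.card_bool, hpow]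
    simp only [nsmul_eq_mul]
    push_cast
    field_simp

theorem e_own (lp : Bool) (m : ℕ) [NeZero m] (i : Fin m) (x : Fin m × Bool)
    (v : List (Fin m × Bool)) :
    law (eπ m) (kmap (eμ lp m) (eF m)) (fun r => eout m r i) (x :: v) =
      law (eπ m) (kmap (eμ lp m) (eF m)) (fun r => eout m r i) [x] *
        steps lp (Fin m × Bool) x v := by
  have h := law_markov (R := ER m) (E := Fin m × Bool) (V := Fin m × Bool) lp (eπ m)
    (kmap (eμ lp m) (eF m)) (fun r => kmap_sum (eμ lp m) (eF m) (eo_mu_sum lp m) r)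
    (fun r => eout m r i) (fun x => x)
    (fun x r => if i + r.1 = x.1 ∧ r.2 i = x.2 then 1 / (2 : ℝ) ^ (m - 1) else 0)
    ?_ ?_ (fun x y => stp lp (Fin m × Bool) x y) (fun x => if x.1 = i then 1 / 2 else 0)
    (fun φ => ∀ g, Loc i fun y => φ (g, y)) ?_ ?_ ?_ ?_ ?_ x v
  · exact h
  · intro x r hne
    by_contra hc
    apply hne
    rw [if_neg]
    rintro ⟨h1, h2⟩
    exact hc (Prod.ext h1 h2)
  · intro x
    have h1 := eo_lam i x.1 x.2 (fun _ => 1)
    simp only [mul_one] at h1
    rw [h1, eo_half]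
    field_simp
  · intro g y y' _
    rfl
  · intro φ x hφ g y y' hyy
    have h0 : eout m (g, y) i = eout m (g, y') i := by
      change (i + g, y i) = (i + g, y' i)
      rw [hyy i le_rfl]
    dsimp only
    rw [h0, kmap_apply, kmap_apply]
    have h1 : ∑ ω, eμ lp m ω * φ (eF m (g, y) ω) = ∑ ω, eμ lp m ω * φ (eF m (g, y') ω) := by
      refine Finset.sum_congr rfl fun ω _ => ?_
      congr 1
      exact hφ _ _ _ (eo_updX i (Equiv.addRight ω.1.1) ω.1.2 y y' ω.2 hyy)
    rw [h1]
  · intro φ hφ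
    have h1 : ∀ x : Fin m × Bool, (if x.1 = i then (1 : ℝ) / 2 else 0) *
        ∑ r : ER m, (if i + r.1 = x.1 ∧ r.2 i = x.2 then 1 / (2 : ℝ) ^ (m - 1) else 0) * φ r =
        if x.1 = i then 1 / 2 ^ m * ∑ y : Fin m → Bool, (if y i = x.2 then φ (0, y) else 0) else 0 := by
      intro x
      by_cases hx : x.1 = i
      · rw [if_pos hx, if_pos hx, eo_lam, hx, sub_self, eo_pow m]
        field_simp
      · rw [if_neg hx, if_neg hx, zero_mul]
    have hR : ∑ x : Fin m × Bool, (if x.1 = i then (1 : ℝ) / 2 ^ m *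
        ∑ y : Fin m → Bool, (if y i = x.2 then φ (0, y) else 0) else 0) =
        1 / 2 ^ m * ∑ y, φ (0, y) := by
      rw [Fintype.sum_prod_type, Finset.sum_eq_single i]
      · rw [← eo_split i (fun y => φ (0, y)), Finset.mul_sum]
        refine Finset.sum_congr rfl fun b _ => ?_
        rw [if_pos rfl]
      · intro p _ hp
        refine Finset.sum_eq_zero fun b _ => ?_
        rw [if_neg hp]
      · intro hh
        exact absurd (Finset.mem_univ _) hh
    rw [Finset.sum_congr rfl fun x _ => h1 x, hR, Fintype.sum_prod_type,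
        Finset.sum_eq_single (0 : Fin m)]
    · rw [Finset.mul_sum]
      refine Finset.sum_congr rfl fun y _ => ?_
      unfold eπ
      rw [if_pos rfl]
    · intro g _ hg
      refine Finset.sum_eq_zero fun y _ => ?_
      unfold eπ
      rw [if_neg hg, zero_mul]
    · intro hh
      exact absurd (Finset.mem_univ _) hh
  · intro φ hφ x
    simp only [kmap_apply]
    exact eo_main lp m i x.1 x.2 φ hφ
  · intro x v
    rw [Finset.sum_eq_single v]
    · rw [if_pos rfl]
    · intro y _ hy
      rw [if_neg hy]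
    · intro hh
      exact absurd (Finset.mem_univ _) hh

end Pool.Agent.H95.AV
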