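import Pool.Agent.H95.AV.LawM

/-!
# Job AV-GoodM: the avoidance condition for machines

`good_of_inv`: if `law π κ out w ≠ 0` then there are states `r₀, r₁, ...` with `π r₀ ≠ 0`,
`κ r_t r_{t+1} ≠ 0` and outputs `w`; by induction on `w`: if `J r` and `mw κ out w r ≠ 0` then
`Good w` and `w = []` or the first letter of `w` is `out r`.
`supp_inv`: `π r' = ∑ π r κ r r' ≥ π r κ r r' > 0`.
`inj_of_good`: `law π κ out [out r] ≥ π r > 0`.  `avoid_of_good`: `law π κ out [out r, out r'] ≥
π r κ r r' > 0`.
`good_tail`, `good_append`: immediate from the definition / induction.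
`good_iff_getElem`: `Good w` iff all the letters are injective and consecutive letters satisfy
`Avoid`; induction.
-/

set_option autoImplicit false

namespace Pool.Agent.H95.AV

open Classical

private theorem gm_mw {R A : Type} [Fintype R] (κ : R → R → ℝ) (out : R → A) (a : A) (w : List A)
    (r : R) : mw κ out (a :: w) r = if out r = a then ∑ r', κ r r' * mw κ out w r' else 0 := rfl

private theorem gm_cons {k : ℕ} {V : Type} (a : Fin k → V) (w : List (Fin k → V)) :
    Good (a :: w) ↔ Function.Injective a ∧ (∀ b ∈ w.head?, Avoid a b) ∧ Good w := by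
  cases w with
  | nil => simp [Good]
  | cons b w => simp [Good]

theorem good_tail {k : ℕ} {V : Type} (a : Fin k → V) (w : List (Fin k → V))
    (h : Good (a :: w)) : Good w := by
  exact ((gm_cons a w).1 h).2.2

theorem good_append {k : ℕ} {V : Type} (u w : List (Fin k → V)) (h : Good (u ++ w)) :
    Good w := by
  induction u with
  | nil => exact h
  | cons a u ih => exact ih (good_tail a (u ++ w) h)

theorem good_ofFn {k : ℕ} {V : Type} (T : ℕ) (w : Fin T → Fin k → V) :
    Good (List.ofFn w) ↔ (∀ t, Function.Injective (w t)) ∧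
      ∀ t t' : Fin T, (t' : ℕ) = t + 1 → Avoid (w t) (w t') := by
  induction T with
  | zero =>
    rw [List.ofFn_zero]
    exact ⟨fun _ => ⟨fun t => t.elim0, fun t => t.elim0⟩, fun _ => trivial⟩
  | succ T ih =>
    rw [List.ofFn_succ, gm_cons, ih]
    constructor
    · rintro ⟨h1, h2, h3, h4⟩
      refine ⟨fun t => ?_, fun t t' htt => ?_⟩
      · refine Fin.cases h1 h3 t
      · obtain ⟨s', rfl⟩ : ∃ s' : Fin T, t' = s'.succ :=
          Fin.exists_succ_eq.2 (by
            intro h0
            rw [h0] at htt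
            simp at htt) |>.imp fun _ h => h.symm
        rcases Fin.eq_zero_or_eq_succ t with rfl | ⟨s, rfl⟩
        · have hs : (s' : ℕ) = 0 := by simpa using htt
          cases T with
          | zero => exact s'.elim0
          | succ T =>
            have hs0 : s' = 0 := Fin.ext hs
            subst hs0
            refine h2 _ ?_
            rw [List.ofFn_succ]
            rfl
        · refine h4 s s' ?_
          simpa using htt
    · rintro ⟨h1, h2⟩
      refine ⟨h1 0, fun b hb => ?_, fun t => h1 t.succ, fun t t' htt => h2 _ _ ?_⟩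
      · cases T with
        | zero => simp at hb
        | succ T =>
          rw [List.ofFn_succ] at hb
          have hb' : b = w (Fin.succ 0) := by simpa using hb.symm
          rw [hb']
          exact h2 _ _ (by simp)
      · simpa using htt

theorem good_of_inv {k : ℕ} {V R : Type} [Fintype R] {π : R → ℝ} {κ : R → R → ℝ}
    (out : R → Fin k → V) (J : R → Prop) (h0 : ∀ r, π r ≠ 0 → J r)
    (h1 : ∀ r r', J r → κ r r' ≠ 0 → J r') (hinj : ∀ r, J r → Function.Injective (out r))
    (hav : ∀ r r', J r → κ r r' ≠ 0 → Avoid (out r) (out r')) (w : List (Fin k → V))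
    (hw : law π κ out w ≠ 0) : Good w := by
  have key : ∀ (w : List (Fin k → V)) (r : R), J r → mw κ out w r ≠ 0 →
      Good w ∧ ∀ b ∈ w.head?, b = out r := by
    intro w
    induction w with
    | nil => exact fun r _ _ => ⟨trivial, by simp⟩
    | cons a w ih =>
      intro r hr hm
      have hm' := hm
      rw [gm_mw] at hm'
      by_cases ha : out r = a
      · rw [if_pos ha] at hm'
        obtain ⟨r', -, hr'⟩ := Finset.exists_ne_zero_of_sum_ne_zero hm'
        have hk := left_ne_zero_of_mul hr'
        have hmr := right_ne_zero_of_mul hr'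
        obtain ⟨g1, g2⟩ := ih r' (h1 r r' hr hk) hmr
        refine ⟨(gm_cons a w).2 ⟨ha ▸ hinj r hr, fun b hb => ?_, g1⟩, fun b hb => ?_⟩
        · rw [g2 b hb, ← ha]
          exact hav r r' hr hk
        · rw [ha]
          simpa using hb.symm
      · rw [if_neg ha] at hm'
        exact absurd rfl hm'
  obtain ⟨r, -, hr⟩ := Finset.exists_ne_zero_of_sum_ne_zero hw
  exact (key w r (h0 r (left_ne_zero_of_mul hr)) (right_ne_zero_of_mul hr)).1

theorem supp_inv {R : Type} [Fintype R] {π : R → ℝ} {κ : R → R → ℝ} (h : IsMach π κ)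
    (hs : IsStat π κ) (r r' : R) (h1 : π r ≠ 0) (h2 : κ r r' ≠ 0) : π r' ≠ 0 := by
  rw [← hs r']
  have h3 : 0 < π r * κ r r' := mul_pos (lt_of_le_of_ne (h.π_nonneg r) h1.symm)
    (lt_of_le_of_ne (h.κ_nonneg r r') h2.symm)
  have h4 : π r * κ r r' ≤ ∑ r, π r * κ r r' :=
    Finset.single_le_sum (f := fun r => π r * κ r r')
      (fun s _ => mul_nonneg (h.π_nonneg s) (h.κ_nonneg s r')) (Finset.mem_univ r)
  exact (lt_of_lt_of_le h3 h4).ne'

private theorem gm_mw_one {R A : Type} [Fintype R] {π : R → ℝ} {κ : R → R → ℝ} (h : IsMach π κ)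
    (out : R → A) (r : R) : mw κ out [out r] r = 1 := by
  show (if out r = out r then ∑ r', κ r r' * 1 else 0) = 1
  rw [if_pos rfl]
  simp only [mul_one]
  exact h.κ_sum r

private theorem gm_le_law {R A : Type} [Fintype R] {π : R → ℝ} {κ : R → R → ℝ}
    (h : IsMach π κ) (out : R → A) (w : List A) (r : R) :
    π r * mw κ out w r ≤ law π κ out w :=
  Finset.single_le_sum (f := fun r => π r * mw κ out w r)
    (fun s _ => mul_nonneg (h.π_nonneg s) (mw_nonneg h out w s)) (Finset.mem_univ r)

theorem inj_of_good {k : ℕ} {V R : Type} [Fintype R] {π : R → ℝ} {κ : R → R → ℝ}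
    (h : IsMach π κ) (out : R → Fin k → V) (hg : ∀ w, law π κ out w ≠ 0 → Good w) (r : R)
    (h1 : π r ≠ 0) : Function.Injective (out r) := by
  have h2 := gm_le_law h out [out r] r
  rw [gm_mw_one h, mul_one] at h2
  have h3 : 0 < π r := lt_of_le_of_ne (h.π_nonneg r) h1.symm
  have h4 : Good [out r] := hg _ (lt_of_lt_of_le h3 h2).ne'
  exact ((gm_cons _ _).1 h4).1

theorem avoid_of_good {k : ℕ} {V R : Type} [Fintype R] {π : R → ℝ} {κ : R → R → ℝ}
    (h : IsMach π κ) (out : R → Fin k → V) (hg : ∀ w, law π κ out w ≠ 0 → Good w) (r r' : R)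
    (h1 : π r ≠ 0) (h2 : κ r r' ≠ 0) : Avoid (out r) (out r') := by
  have h3 := gm_le_law h out [out r, out r'] r
  have h4 : κ r r' ≤ mw κ out [out r, out r'] r := by
    rw [gm_mw, if_pos rfl]
    have h5 : κ r r' * mw κ out [out r'] r' ≤ ∑ s, κ r s * mw κ out [out r'] s :=
      Finset.single_le_sum (f := fun s => κ r s * mw κ out [out r'] s)
        (fun s _ => mul_nonneg (h.κ_nonneg r s) (mw_nonneg h out _ s)) (Finset.mem_univ r')
    rwa [gm_mw_one h, mul_one] at h5
  have h5 : 0 < π r := lt_of_le_of_ne (h.π_nonneg r) h1.symm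
  have h6 : 0 < κ r r' := lt_of_le_of_ne (h.κ_nonneg r r') h2.symm
  have h7 : 0 < π r * mw κ out [out r, out r'] r := mul_pos h5 (h6.trans_le h4)
  have h8 : Good [out r, out r'] := hg _ (lt_of_lt_of_le h7 h3).ne'
  exact ((gm_cons _ _).1 h8).2.1 _ rfl

end Pool.Agent.H95.AV
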