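import Pool.Agent.H95.AV.EOwn
import Pool.Agent.H95.AV.Own
import Pool.Agent.H95.AV.GoodM

/-!
# Job AV-EPfs: the `E` machine is an avoidance coupling

PROOF.  `IsMach`: `kmap_mach`, `stp_sum`, `stp_nonneg` (`card (Fin m × Bool) = 2 m ≥ 2`).
Own laws: `own_law` and `e_own`.  `Good`: `good_of_inv` with `J = True`: positions are distinct since
`i ↦ i + g` is injective; if `i < j` and `eout (eF r ω) i = eout r j` then `i + g + d = j + g`, so
`σ i = i + d = j > i`, and the bits agree, contradicting `updX_lt` (`kmap_ne_zero`).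
-/

set_option autoImplicit false

namespace Pool.Agent.H95.AV

open Classical

private theorem epfs_card (m : ℕ) [NeZero m] : 2 ≤ Fintype.card (Fin m × Bool) := by
  rw [Fintype.card_prod, Fintype.card_fin, Fintype.card_bool]
  have := Nat.pos_of_neZero m
  omega

theorem e_mach (lp : Bool) (m : ℕ) [NeZero m] :
    IsMach (eπ m) (kmap (eμ lp m) (eF m)) := by
  have hp : (0 : ℝ) < 2 ^ m := by positivity
  refine kmap_mach _ _ _ (fun r => ?_) ?_ (fun ω => ?_) ?_
  · unfold eπ
    split_ifs
    · positivity
    · exact le_rfl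
  · unfold eπ
    rw [Fintype.sum_prod_type]
    have h1 : ∀ x : Fin m, (∑ y : Fin m → Bool, if ((x, y) : ER m).1 = 0 then (1 : ℝ) / 2 ^ m else 0) =
        if x = 0 then 1 else 0 := by
      intro x
      by_cases hx : x = 0
      · simp only [hx, if_true]
        rw [Finset.sum_const, nsmul_eq_mul, Finset.card_univ, Fintype.card_fun, Fintype.card_fin,
          Fintype.card_bool]
        push_cast
        field_simp
      · simp [hx]
    rw [Finset.sum_congr rfl fun x _ => h1 x, Finset.sum_ite_eq', if_pos (Finset.mem_univ _)]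
  · unfold eμ
    exact div_nonneg (stp_nonneg lp _ (epfs_card m) _ _) hp.le
  · unfold eμ
    rw [Fintype.sum_prod_type]
    have h1 : ∀ x : Fin m × Bool, (∑ y : Fin m → Bool,
        stp lp (Fin m × Bool) ((0 : Fin m), false) ((x, y) : EΩ m).1 / 2 ^ m) =
        stp lp (Fin m × Bool) ((0 : Fin m), false) x := by
      intro x
      show ∑ _y : Fin m → Bool, stp lp (Fin m × Bool) ((0 : Fin m), false) x / 2 ^ m = _
      rw [Finset.sum_const, nsmul_eq_mul, Finset.card_univ, Fintype.card_fun, Fintype.card_fin,
          Fintype.card_bool]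
      push_cast
      field_simp
    rw [Finset.sum_congr rfl fun x _ => h1 x]
    exact stp_sum lp _ (epfs_card m) _

theorem e_pfs (lp : Bool) (m : ℕ) [NeZero m] : PFS lp m (Fin m × Bool) := by
  refine ⟨ER m, inferInstance, eπ m, kmap (eμ lp m) (eF m), eout m, e_mach lp m, ?_, ?_⟩
  · intro i x v
    rw [own_law, own_law]
    exact e_own lp m i x v
  · intro w hw
    refine good_of_inv (eout m) (fun _ => True) (fun _ _ => trivial) (fun _ _ _ _ => trivial)
      ?_ ?_ w hw
    · intro r _ i j hij
      have h := congrArg Prod.fst hij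
      exact add_right_cancel (a := i) (b := r.1) (c := j) h
    · intro r r' _ hk i j hij he
      obtain ⟨ω, -, rfl⟩ := kmap_ne_zero _ _ _ _ hk
      have h1 : i + (r.1 + ω.1.1) = j + r.1 := congrArg Prod.fst he
      have h2 : updX (Equiv.addRight ω.1.1) ω.1.2 r.2 ω.2 i = r.2 j := congrArg Prod.snd he
      have h3 : i + ω.1.1 = j := by
        have : i + ω.1.1 + r.1 = j + r.1 := by rw [← h1, add_assoc, add_comm ω.1.1 r.1]
        exact add_right_cancel this
      have h4 : (Equiv.addRight ω.1.1) i = j := h3
      refine updX_lt (Equiv.addRight ω.1.1) ω.1.2 r.2 ω.2 i (by rw [h4]; exact hij) ?_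
      rw [h2, h4]

end Pool.Agent.H95.AV
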