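import Pool.Agent.H95.AV.LawM

/-!
# Job AV-Path: words of the simple random walk

`stp_sum`: `∑ y, stp lp V x y = 1` (`card V ≥ 2`); `stp_symm`.
`pathw_isLaw`: `nil`, `nonneg`, `right` from `stp_sum`, `left`: `∑ a, pathw (a :: x :: w) =
(1/n) ∑ a, stp a x * steps x w = (1/n) steps x w`, using symmetry.
`pathw_val`: every nonzero value of `steps lp V x v` is `(1 / dgr lp V) ^ v.length`.
`card_pathw`: the words of length `T ≥ 1` with `pathw ≠ 0` all have the same probability
`1 / (n d^(T-1))`, and the sum is `1` (`isLaw_sum`).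
`one_le_dgr`: `card V ≥ 2`.
-/

set_option autoImplicit false

namespace Pool.Agent.H95.AV

open Classical

theorem one_le_dgr (lp : Bool) (V : Type) [Fintype V] (hV : 2 ≤ Fintype.card V) :
    1 ≤ dgr lp V := by
  have h : (2 : ℝ) ≤ Fintype.card V := by exact_mod_cast hV
  unfold dgr
  split_ifs <;> linarith

theorem stp_nonneg (lp : Bool) (V : Type) [Fintype V] (hV : 2 ≤ Fintype.card V) (x y : V) :
    0 ≤ stp lp V x y := by
  have h : (2 : ℝ) ≤ Fintype.card V := by exact_mod_cast hV
  unfold stp
  split_ifs
  · exact div_nonneg zero_le_one (by linarith)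
  · exact le_rfl
  · exact div_nonneg zero_le_one (by linarith)

theorem stp_sum (lp : Bool) (V : Type) [Fintype V] (hV : 2 ≤ Fintype.card V) (x : V) :
    ∑ y, stp lp V x y = 1 := by
  have h : (2 : ℝ) ≤ Fintype.card V := by exact_mod_cast hV
  unfold stp
  by_cases hl : lp = true
  · simp only [if_pos hl]
    rw [Finset.sum_const, Finset.card_univ, nsmul_eq_mul]
    have : (Fintype.card V : ℝ) ≠ 0 := by linarith
    field_simp
  · simp only [if_neg hl]
    have h1 : ∀ y, (if x = y then (0 : ℝ) else 1 / ((Fintype.card V : ℝ) - 1)) =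
        1 / ((Fintype.card V : ℝ) - 1) - if x = y then 1 / ((Fintype.card V : ℝ) - 1) else 0 := by
      intro y
      split_ifs <;> ring
    rw [Finset.sum_congr rfl fun y _ => h1 y, Finset.sum_sub_distrib, Finset.sum_const,
      Finset.card_univ, nsmul_eq_mul, Finset.sum_ite_eq, if_pos (Finset.mem_univ _)]
    have : (Fintype.card V : ℝ) - 1 ≠ 0 := by linarith
    field_simp

theorem stp_symm (lp : Bool) (V : Type) [Fintype V] (x y : V) :
    stp lp V x y = stp lp V y x := by
  unfold stp
  simp only [eq_comm]

theorem Path_steps_nonneg (lp : Bool) (V : Type) [Fintype V] (hV : 2 ≤ Fintype.card V) (x : V)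
    (w : List V) : 0 ≤ steps lp V x w := by
  induction w generalizing x with
  | nil => exact zero_le_one
  | cons y w ih => exact mul_nonneg (stp_nonneg lp V hV x y) (ih y)

theorem Path_steps_right (lp : Bool) (V : Type) [Fintype V] (hV : 2 ≤ Fintype.card V) (x : V)
    (w : List V) : ∑ a, steps lp V x (w ++ [a]) = steps lp V x w := by
  induction w generalizing x with
  | nil =>
    show ∑ a, stp lp V x a * 1 = 1
    simp only [mul_one]
    exact stp_sum lp V hV x
  | cons y w ih =>
    show ∑ a, stp lp V x y * steps lp V y (w ++ [a]) = stp lp V x y * steps lp V y w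
    rw [← Finset.mul_sum, ih]

theorem Path_steps_val (lp : Bool) (V : Type) [Fintype V] (x : V) (w : List V) :
    steps lp V x w = 0 ∨ steps lp V x w = 1 / dgr lp V ^ w.length := by
  induction w generalizing x with
  | nil => right; simp [steps]
  | cons y w ih =>
    have h1 : stp lp V x y = 0 ∨ stp lp V x y = 1 / dgr lp V := by
      unfold stp dgr
      split_ifs
      · exact Or.inr rfl
      · exact Or.inl rfl
      · exact Or.inr rfl
    show stp lp V x y * steps lp V y w = 0 ∨ stp lp V x y * steps lp V y w = _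
    rcases h1 with h1 | h1
    · left; rw [h1, zero_mul]
    · rcases ih y with h2 | h2
      · left; rw [h2, mul_zero]
      · right
        rw [h1, h2, List.length_cons, pow_succ, one_div_mul_one_div, mul_comm]

theorem pathw_isLaw (lp : Bool) (V : Type) [Fintype V] (hV : 2 ≤ Fintype.card V) :
    IsLaw (pathw lp V) := by
  have hn : (2 : ℝ) ≤ Fintype.card V := by exact_mod_cast hV
  have hn0 : (Fintype.card V : ℝ) ≠ 0 := by linarith
  have hu : ∑ _x : V, 1 / (Fintype.card V : ℝ) = 1 := by
    rw [Finset.sum_const, Finset.card_univ, nsmul_eq_mul]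
    field_simp
  refine ⟨rfl, ?_, ?_, ?_⟩
  · intro w
    cases w with
    | nil => exact zero_le_one
    | cons x w =>
      exact mul_nonneg (div_nonneg zero_le_one (by linarith)) (Path_steps_nonneg lp V hV x w)
  · intro w
    cases w with
    | nil =>
      show ∑ a, 1 / (Fintype.card V : ℝ) * 1 = 1
      simp only [mul_one]
      exact hu
    | cons x w =>
      show ∑ a, 1 / (Fintype.card V : ℝ) * steps lp V x (w ++ [a]) =
        1 / (Fintype.card V : ℝ) * steps lp V x w
      rw [← Finset.mul_sum, Path_steps_right lp V hV]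
  · intro w
    cases w with
    | nil =>
      show ∑ a, 1 / (Fintype.card V : ℝ) * 1 = 1
      simp only [mul_one]
      exact hu
    | cons x w =>
      show ∑ a, 1 / (Fintype.card V : ℝ) * (stp lp V a x * steps lp V x w) =
        1 / (Fintype.card V : ℝ) * steps lp V x w
      rw [← Finset.mul_sum, ← Finset.sum_mul,
        Finset.sum_congr rfl fun a _ => stp_symm lp V a x, stp_sum lp V hV x, one_mul]

theorem pathw_val (lp : Bool) (V : Type) [Fintype V] (hV : 2 ≤ Fintype.card V) (T : ℕ)
    (hT : 1 ≤ T) (v : List V) (hv : v.length = T) :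
    pathw lp V v = 0 ∨ pathw lp V v = 1 / ((Fintype.card V : ℝ) * dgr lp V ^ (T - 1)) := by
  cases v with
  | nil => simp at hv; omega
  | cons x w =>
    have hw : w.length = T - 1 := by
      rw [List.length_cons] at hv; omega
    show 1 / (Fintype.card V : ℝ) * steps lp V x w = 0 ∨ 1 / (Fintype.card V : ℝ) * steps lp V x w = _
    rcases Path_steps_val lp V x w with h | h
    · left; rw [h, mul_zero]
    · right; rw [h, hw, one_div_mul_one_div]

theorem card_pathw (lp : Bool) (V : Type) [Fintype V] (hV : 2 ≤ Fintype.card V) (T : ℕ)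
    (hT : 1 ≤ T) :
    (((Finset.univ : Finset (Fin T → V)).filter
      (fun v => pathw lp V (List.ofFn v) ≠ 0)).card : ℝ) =
      (Fintype.card V : ℝ) * dgr lp V ^ (T - 1) := by
  have hn : (2 : ℝ) ≤ Fintype.card V := by exact_mod_cast hV
  have hd := one_le_dgr lp V hV
  have hC : (Fintype.card V : ℝ) * dgr lp V ^ (T - 1) ≠ 0 := by positivity
  have h1 : ∑ v : Fin T → V, pathw lp V (List.ofFn v) = 1 := isLaw_sum (pathw_isLaw lp V hV) T
  rw [← Finset.sum_filter_ne_zero] at h1
  have h2 : ∑ v ∈ (Finset.univ : Finset (Fin T → V)).filter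
      (fun v => pathw lp V (List.ofFn v) ≠ 0), pathw lp V (List.ofFn v) =
      ∑ v ∈ (Finset.univ : Finset (Fin T → V)).filter
      (fun v => pathw lp V (List.ofFn v) ≠ 0), 1 / ((Fintype.card V : ℝ) * dgr lp V ^ (T - 1)) := by
    refine Finset.sum_congr rfl fun v hv => ?_
    rcases pathw_val lp V hV T hT (List.ofFn v) List.length_ofFn with h | h
    · exact absurd h (Finset.mem_filter.mp hv).2
    · exact h
  rw [h2, Finset.sum_const, nsmul_eq_mul] at h1
  field_simp at h1
  exact h1

end Pool.Agent.H95.AV
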