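import Pool.Agent.H95.AV.Own
import Pool.Agent.H95.AV.Path

/-!
# Job AV-EntLow: the entropy is at least that of one walker

PROOF.  Let `P w = p (List.ofFn w)`.  If `P w > 0` then, with walker `0` (`1 ≤ k`), by `le_own`
`P w ≤ own (· 0) ((List.ofFn w).map (· 0)) p = pathw lp V (...)`, so `pathw ≠ 0` and by `pathw_val`
`P w ≤ 1 / (n d^(T-1))`, so `negMulLog (P w) = P w * log (1 / P w) ≥ P w * log (n d^(T-1))`.  Sum over `w`
(`isLaw_sum`).
-/

set_option autoImplicit false

namespace Pool.Agent.H95.AV

open Classical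

theorem ent_ge (lp : Bool) (k : ℕ) (hk : 1 ≤ k) (V : Type) [Fintype V]
    (hV : 2 ≤ Fintype.card V) {p : List (Fin k → V) → ℝ} (hc : IsCoupl lp k V p) (T : ℕ)
    (hT : 1 ≤ T) :
    Real.log ((Fintype.card V : ℝ) * dgr lp V ^ (T - 1)) ≤ ent p T := by
  have hd : 1 ≤ dgr lp V := one_le_dgr lp V hV
  have hn : (0 : ℝ) < Fintype.card V := by
    have : 0 < Fintype.card V := by omega
    exact_mod_cast this
  have hD : (0 : ℝ) < (Fintype.card V : ℝ) * dgr lp V ^ (T - 1) :=
    mul_pos hn (pow_pos (by linarith) _)
  have hs : ∑ w : Fin T → (Fin k → V), p (List.ofFn w) = 1 := isLaw_sum hc.isLaw T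
  calc Real.log ((Fintype.card V : ℝ) * dgr lp V ^ (T - 1))
      = ∑ w : Fin T → (Fin k → V), p (List.ofFn w) *
          Real.log ((Fintype.card V : ℝ) * dgr lp V ^ (T - 1)) := by
        rw [← Finset.sum_mul, hs, one_mul]
    _ ≤ ent p T := by
        unfold ent
        refine Finset.sum_le_sum fun w _ => ?_
        have h0 : 0 ≤ p (List.ofFn w) := hc.isLaw.nonneg _
        rcases eq_or_lt_of_le h0 with h | h
        · rw [← h]
          simp
        · have h1 := le_own (fun x : Fin k → V => x ⟨0, hk⟩) p hc.isLaw.nonneg (List.ofFn w)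
          rw [hc.own_eq] at h1
          have h2 := pathw_val lp V hV T hT
            ((List.ofFn w).map (fun x : Fin k → V => x ⟨0, hk⟩)) (by simp)
          have h3 : p (List.ofFn w) ≤ 1 / ((Fintype.card V : ℝ) * dgr lp V ^ (T - 1)) := by
            rcases h2 with h2 | h2
            · rw [h2] at h1
              exact absurd h1 (not_le.mpr h)
            · rw [h2] at h1
              exact h1
          have h4 : Real.log (p (List.ofFn w)) ≤
              -Real.log ((Fintype.card V : ℝ) * dgr lp V ^ (T - 1)) := by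
            rw [← Real.log_inv, ← one_div]
            exact Real.log_le_log h h3
          rw [Real.negMulLog]
          nlinarith

end Pool.Agent.H95.AV
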