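import Pool.Agent.H95.AV.LawM

/-!
# Job AV-EntUp: the entropy is at most the logarithm of the number of words

PROOF.  Let `P w = p (List.ofFn w) ≥ 0`, `∑ P = 1` (`isLaw_sum`), `N` the number of `w` with `P w ≠ 0`,
`1 ≤ N ≤ S`.  For `P w > 0`: `log (1 / (N P w)) ≤ 1 / (N P w) - 1`, so
`negMulLog (P w) - P w * log N ≤ 1 / N - P w`; sum over the `w` with `P w ≠ 0` (the other terms of the
entropy are `0`): `ent p T - log N ≤ 1 - 1 = 0`.
-/

set_option autoImplicit false

namespace Pool.Agent.H95.AV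

open Classical

theorem ent_le_log {A : Type} [Fintype A] {p : List A → ℝ} (hp : IsLaw p) (T S : ℕ)
    (hS : ((Finset.univ : Finset (Fin T → A)).filter (fun w => p (List.ofFn w) ≠ 0)).card ≤ S) :
    ent p T ≤ Real.log S := by
  set P : (Fin T → A) → ℝ := fun w => p (List.ofFn w) with hP
  set Fs := (Finset.univ : Finset (Fin T → A)).filter (fun w => p (List.ofFn w) ≠ 0) with hFs
  have hsum : ∑ w ∈ Fs, P w = 1 := by
    have h1 := isLaw_sum hp T
    have h2 : ∑ w ∈ Fs, P w = ∑ w, P w := by
      rw [hFs]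
      exact Finset.sum_filter_ne_zero Finset.univ
    rw [h2]
    exact h1
  have hN : 1 ≤ Fs.card := by
    rw [Nat.one_le_iff_ne_zero]
    intro h0
    rw [Finset.card_eq_zero] at h0
    rw [h0, Finset.sum_empty] at hsum
    exact zero_ne_one hsum
  have hN0 : (0 : ℝ) < (Fs.card : ℝ) := by exact_mod_cast hN
  have hent : ent p T = ∑ w ∈ Fs, Real.negMulLog (P w) := by
    unfold ent
    rw [hFs, Finset.sum_filter]
    refine Finset.sum_congr rfl fun w _ => ?_
    by_cases h0 : p (List.ofFn w) = 0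
    · rw [if_neg (not_not.2 h0), h0, Real.negMulLog_zero]
    · rw [if_pos h0]
  have hterm : ∀ w ∈ Fs, Real.negMulLog (P w) ≤
      P w * Real.log Fs.card + (1 / (Fs.card : ℝ) - P w) := by
    intro w _
    have h0 : 0 ≤ P w := hp.nonneg _
    have h1 := Real.negMulLog_le_one_sub_self (x := (Fs.card : ℝ) * P w) (by positivity)
    rw [Real.negMulLog_mul] at h1
    have h2 : Real.negMulLog (Fs.card : ℝ) = -(Fs.card : ℝ) * Real.log Fs.card := rfl
    rw [h2] at h1
    have h3 : (Fs.card : ℝ) * Real.negMulLog (P w) ≤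
        (Fs.card : ℝ) * (P w * Real.log Fs.card + (1 / (Fs.card : ℝ) - P w)) := by
      have h4 : (Fs.card : ℝ) * (P w * Real.log Fs.card + (1 / (Fs.card : ℝ) - P w)) =
          (Fs.card : ℝ) * P w * Real.log Fs.card + 1 - (Fs.card : ℝ) * P w := by
        field_simp
        ring
      rw [h4]
      linarith
    exact le_of_mul_le_mul_left h3 hN0
  rw [hent]
  calc ∑ w ∈ Fs, Real.negMulLog (P w)
      ≤ ∑ w ∈ Fs, (P w * Real.log Fs.card + (1 / (Fs.card : ℝ) - P w)) :=
        Finset.sum_le_sum hterm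
    _ = Real.log Fs.card := by
        rw [Finset.sum_add_distrib, Finset.sum_sub_distrib, ← Finset.sum_mul, hsum,
          Finset.sum_const, nsmul_eq_mul, mul_one_div_cancel hN0.ne']
        ring
    _ ≤ Real.log S := Real.log_le_log hN0 (by exact_mod_cast hS)

end Pool.Agent.H95.AV
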