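import Pool.Agent.H95.AV.LawM

/-!
# Job AV-Ext: from a law on words to a measure on sequences

PROOF (compactness).  `A` is finite with the discrete topology; `X = ℕ → A` is compact, metrizable, with
Borel sigma algebra the product one, and `ProbabilityMeasure X` is compact (instance
`[CompactSpace E] : CompactSpace (ProbabilityMeasure E)` in
`Mathlib/MeasureTheory/Measure/Prokhorov.lean`).  For `T : ℕ` let `S T` be the set of the probability
measures `μ` with `μ {x | ∀ t : Fin T, x t = w t} = ofReal (p (List.ofFn w))` for all `w : Fin T → A`.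
It is closed, since cylinders are clopen (continuity of `μ ↦ μ C` for clopen `C`: the indicator is
a bounded continuous function), nonempty (`∑ w, p (List.ofFn w) • dirac (extension of w by a constant)`,
`isLaw_sum`), and decreasing in `T` (`right`).  So the intersection is nonempty
(`IsCompact.nonempty_iInter_of_directed_nonempty_isCompact_isClosed`).
(An alternative: the Ionescu-Tulcea theorem, `ProbabilityTheory.Kernel.traj`, or
`MeasureTheory.Measure.infinitePi`/projective families; any proof is fine.)
-/

set_option autoImplicit false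

namespace Pool.Agent.H95.AV

open Classical MeasureTheory

/-- the cylinder of a word -/
def extCyl {A : Type} {T : ℕ} (w : Fin T → A) : Set (ℕ → A) := {x | ∀ t : Fin T, x t = w t}

theorem extCyl_isClopen {A : Type} [TopologicalSpace A] [DiscreteTopology A] {T : ℕ}
    (w : Fin T → A) : IsClopen (extCyl w) := by
  have : extCyl w = ⋂ t : Fin T, (fun x : ℕ → A => x t) ⁻¹' {w t} := by
    ext x; simp [extCyl]
  rw [this]
  apply isClopen_iInter_of_finite
  intro t
  exact (isClopen_discrete _).preimage (continuous_apply _)

theorem extCyl_meas {A : Type} [MeasurableSpace A] [MeasurableSingletonClass A] {T : ℕ}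
    (w : Fin T → A) : MeasurableSet (extCyl w) := by
  have : extCyl w = ⋂ t : Fin T, (fun x : ℕ → A => x t) ⁻¹' {w t} := by
    ext x; simp [extCyl]
  rw [this]
  refine MeasurableSet.iInter fun t => ?_
  exact (measurable_pi_apply _) (measurableSet_singleton _)

theorem extCyl_succ {A : Type} {T : ℕ} (w : Fin T → A) :
    extCyl w = ⋃ a : A, extCyl (Fin.snoc w a : Fin (T + 1) → A) := by
  ext x
  simp only [extCyl, Set.mem_iUnion, Set.mem_setOf_eq]
  constructor
  · intro h
    refine ⟨x T, fun t => ?_⟩
    refine Fin.lastCases ?_ (fun i => ?_) t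
    · simp
    · simpa using h i
  · rintro ⟨a, h⟩ t
    simpa using h t.castSucc

theorem extCyl_disj {A : Type} {T : ℕ} (w : Fin T → A) :
    Pairwise (Function.onFun Disjoint
      (fun a : A => extCyl (Fin.snoc w a : Fin (T + 1) → A))) := by
  intro a b hab
  rw [Function.onFun, Set.disjoint_left]
  intro x hx hy
  apply hab
  have h1 := hx (Fin.last T)
  have h2 := hy (Fin.last T)
  simp only [Fin.snoc_last] at h1 h2
  rw [← h1, ← h2]

/-- probability measures with given finite dimensional laws -/
def extS {A : Type} [MeasurableSpace A] (p : List A → ℝ) (T : ℕ) :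
    Set (ProbabilityMeasure (ℕ → A)) :=
  {μ | ∀ w : Fin T → A, (μ : Measure (ℕ → A)) (extCyl w) = ENNReal.ofReal (p (List.ofFn w))}

theorem extS_succ {A : Type} [Fintype A] [MeasurableSpace A]
    [MeasurableSingletonClass A] {p : List A → ℝ} (hp : IsLaw p) (T : ℕ) :
    extS p (T + 1) ⊆ extS p T := by
  intro μ hμ w
  rw [extCyl_succ, measure_iUnion (extCyl_disj w) (fun a => extCyl_meas _), tsum_fintype,
    ← hp.right, ENNReal.ofReal_sum_of_nonneg (fun a _ => hp.nonneg _)]
  refine Finset.sum_congr rfl fun a _ => ?_
  rw [hμ]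
  congr 2
  rw [List.ofFn_succ']
  simp

theorem extS_nonempty {A : Type} [Fintype A] [Nonempty A] [MeasurableSpace A]
    [MeasurableSingletonClass A] {p : List A → ℝ} (hp : IsLaw p) (T : ℕ) :
    (extS p T).Nonempty := by
  obtain ⟨a0⟩ := ‹Nonempty A›
  let e : (Fin T → A) → (ℕ → A) := fun w n => if h : n < T then w ⟨n, h⟩ else a0
  let μ : Measure (ℕ → A) := ∑ w : Fin T → A, ENNReal.ofReal (p (List.ofFn w)) • Measure.dirac (e w)
  have hμ : IsProbabilityMeasure μ := by
    constructor
    simp only [μ, Measure.coe_finset_sum, Finset.sum_apply, Measure.smul_apply, smul_eq_mul,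
      measure_univ, mul_one]
    rw [← ENNReal.ofReal_sum_of_nonneg (fun a _ => hp.nonneg _), isLaw_sum hp, ENNReal.ofReal_one]
  refine ⟨⟨μ, hμ⟩, fun w => ?_⟩
  change μ (extCyl w) = _
  simp only [μ, Measure.coe_finset_sum, Finset.sum_apply, Measure.smul_apply, smul_eq_mul]
  rw [Finset.sum_eq_single w]
  · rw [Measure.dirac_apply' _ (extCyl_meas w), Set.indicator_of_mem]
    · simp
    · intro t; simp [e]
  · intro v _ hv
    rw [Measure.dirac_apply' _ (extCyl_meas w), Set.indicator_of_notMem, mul_zero]
    intro h
    apply hv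
    funext t
    have := h t
    simpa [e] using this
  · intro h; exact absurd (Finset.mem_univ _) h

theorem exists_measure {A : Type} [Fintype A] [Nonempty A] [MeasurableSpace A]
    [MeasurableSingletonClass A] {p : List A → ℝ} (hp : IsLaw p) :
    ∃ μ : Measure (ℕ → A), IsProbabilityMeasure μ ∧ ∀ (T : ℕ) (w : Fin T → A),
      μ {x | ∀ t : Fin T, x t = w t} = ENNReal.ofReal (p (List.ofFn w)) := by
  letI : TopologicalSpace A := ⊥
  haveI : DiscreteTopology A := ⟨rfl⟩
  haveI : BorelSpace A := by
    constructor
    rw [borel_eq_top_of_discrete]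
    apply le_antisymm le_top
    intro s _
    exact s.toFinite.measurableSet
  haveI : SecondCountableTopology A := inferInstance
  haveI : BorelSpace (ℕ → A) := inferInstance
  haveI : CompactSpace (ℕ → A) := inferInstance
  haveI : CompactSpace (ProbabilityMeasure (ℕ → A)) := inferInstance
  have hcl : ∀ T, IsClosed (extS p T) := by
    intro T
    have : extS p T = ⋂ w : Fin T → A, (fun μ : ProbabilityMeasure (ℕ → A) =>
        (μ : Measure (ℕ → A)) (extCyl w)) ⁻¹' {ENNReal.ofReal (p (List.ofFn w))} := by
      ext μ; simp [extS]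
    rw [this]
    refine isClosed_iInter fun w => ?_
    refine IsClosed.preimage ?_ isClosed_singleton
    rw [continuous_iff_continuousAt]
    intro μ
    refine ProbabilityMeasure.tendsto_measure_of_null_frontier_of_tendsto' Filter.tendsto_id ?_
    rw [(extCyl_isClopen w).frontier_eq]
    simp
  have := IsCompact.nonempty_iInter_of_sequence_nonempty_isCompact_isClosed (extS p)
    (extS_succ hp) (extS_nonempty hp) (hcl 0).isCompact hcl
  obtain ⟨μ, hμ⟩ := this
  rw [Set.mem_iInter] at hμ
  exact ⟨(μ : Measure (ℕ → A)), inferInstance, fun T w => hμ T w⟩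

end Pool.Agent.H95.AV
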