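import Mathlib

/-!
# Avoidance couplings on complete graphs: the definitions of the problem

`k` walkers on the complete graph with vertex set `Fin n`, with loops (`loops = true`) or without.
A coupling is a measure on the space `ℕ → Fin k → Fin n` of all trajectories: `x t i` is the position of
walker `i` at time `t`.
-/

set_option autoImplicit false

namespace Pool.Agent.H95.AV.Model

open MeasureTheory Filter Topology

/-- transition probability of the simple random walk: on `K_n^*` (`loops = true`) the next position is
uniform, on `K_n` it is uniform among the other vertices -/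
noncomputable def step (loops : Bool) (n : ℕ) (x y : Fin n) : ℝ :=
  if loops = true then 1 / (n : ℝ) else if x = y then 0 else 1 / ((n : ℝ) - 1)

/-- `μ` is an avoidance coupling of `k` walkers: every walker is a simple random walk with uniform
initial distribution, and almost surely all positions at a time are distinct and no walker `i` moves
to the vertex occupied by a walker `j > i`, who moves later -/
structure IsAvoidanceCoupling (loops : Bool) (k n : ℕ) (μ : Measure (ℕ → Fin k → Fin n)) :
    Prop where
  prob : IsProbabilityMeasure μ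
  walk : ∀ (i : Fin k) (T : ℕ) (w : ℕ → Fin n), μ {x | ∀ t ≤ T, x t i = w t} =
    ENNReal.ofReal (1 / (n : ℝ) * ∏ t ∈ Finset.range T, step loops n (w t) (w (t + 1)))
  avoid : ∀ᵐ x ∂μ, ∀ t : ℕ, Function.Injective (x t) ∧
    ∀ i j : Fin k, i < j → x (t + 1) i ≠ x t j

/-- `μ` is invariant under the time shift -/
def IsStationary {k n : ℕ} (μ : Measure (ℕ → Fin k → Fin n)) : Prop :=
  μ.map (fun x t => x (t + 1)) = μ

/-- Shannon entropy of the joint positions at the times `0, ..., T - 1` -/
noncomputable def blockEntropy {k n : ℕ} (μ : Measure (ℕ → Fin k → Fin n)) (T : ℕ) : ℝ :=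
  ∑ w : Fin T → Fin k → Fin n, Real.negMulLog (μ.real {x | ∀ t : Fin T, x t = w t})

/-- there is a stationary avoidance coupling of `k` walkers whose entropy rate is that of one
walker, `log n` with loops and `log (n - 1)` without loops -/
def HasMinimumEntropyCoupling (loops : Bool) (k n : ℕ) : Prop :=
  ∃ μ : Measure (ℕ → Fin k → Fin n), IsAvoidanceCoupling loops k n μ ∧ IsStationary μ ∧
    Tendsto (fun T : ℕ => blockEntropy μ T / T) atTop
      (𝓝 (Real.log (if loops = true then (n : ℝ) else (n : ℝ) - 1)))

/-- the joint positions are a function of a Markov chain on a finite set, with any initial law -/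
def IsFiniteState {k n : ℕ} (μ : Measure (ℕ → Fin k → Fin n)) : Prop :=
  ∃ (S : Type) (_ : Fintype S) (π : S → ℝ) (P : S → S → ℝ) (out : S → Fin k → Fin n),
    (∀ s, 0 ≤ π s) ∧ ∑ s, π s = 1 ∧ (∀ s s', 0 ≤ P s s') ∧ (∀ s, ∑ s', P s s' = 1) ∧
    ∀ (T : ℕ) (w : Fin (T + 1) → Fin k → Fin n), μ {x | ∀ t : Fin (T + 1), x t = w t} =
      ENNReal.ofReal (∑ s : Fin (T + 1) → S, if (∀ t, out (s t) = w t) then
        π (s 0) * ∏ t : Fin T, P (s t.castSucc) (s t.succ) else 0)

end Pool.Agent.H95.AV.Model
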