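import Pool.Agent.H95.AV.Defs
import Pool.Agent.H95.AV.Model

/-!
# Job AV-PathF: product formulas

`pathw_ofFn`: induction on `T` (`List.ofFn_succ`, `Finset.prod_range_succ'`); `stp lp (Fin n) = Model.step lp n`
(`Fintype.card_fin`).
`law_eq_sum`: induction on `T`: `mw κ out (List.ofFn w) r = ∑ s : Fin (T + 1) → S with s 0 = r ...`; the last sum
over the state after the last letter is `1` (`hκ`).
-/

set_option autoImplicit false

namespace Pool.Agent.H95.AV

open Classical

theorem PathF_stp (lp : Bool) (n : ℕ) (x y : Fin n) : stp lp (Fin n) x y = Model.step lp n x y := by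
  unfold stp Model.step
  rw [Fintype.card_fin]
  by_cases h : lp = true
  · rw [if_pos h, if_pos h]
  · rw [if_neg h, if_neg h]
    by_cases h' : x = y
    · rw [if_pos h', if_pos h']
    · rw [if_neg h', if_neg h']

theorem PathF_steps (lp : Bool) (n T : ℕ) (w : ℕ → Fin n) :
    steps lp (Fin n) (w 0) (List.ofFn (fun t : Fin T => w (t + 1))) =
      ∏ t ∈ Finset.range T, Model.step lp n (w t) (w (t + 1)) := by
  induction T generalizing w with
  | zero => simp [steps]
  | succ T ih =>
    rw [List.ofFn_succ, Finset.prod_range_succ']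
    simp only [steps, Fin.val_zero, Fin.val_succ]
    have h := ih (fun t => w (t + 1))
    simp only [zero_add] at h ⊢
    rw [h, PathF_stp, mul_comm]

theorem PathF_cons {S : Type} [Fintype S] (T : ℕ) (G : (Fin (T + 1) → S) → ℝ) :
    ∑ s, G s = ∑ r : S, ∑ s' : Fin T → S, G (Fin.cons r s') := by
  rw [← (Fin.consEquiv (fun _ : Fin (T + 1) => S)).sum_comp, Fintype.sum_prod_type]
  rfl

theorem PathF_mw {S A : Type} [Fintype S] (κ : S → S → ℝ)
    (hκ : ∀ s, ∑ s', κ s s' = 1) (out : S → A) (T : ℕ) (r : S) (w : Fin T → A) :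
    ∑ r', κ r r' * mw κ out (List.ofFn w) r' = ∑ s : Fin T → S,
      if (∀ t, out (s t) = w t) then
        ∏ t : Fin T, κ ((Fin.cons r s : Fin (T + 1) → S) t.castSucc) (s t) else 0 := by
  induction T generalizing r with
  | zero =>
    have h1 : ∑ r', κ r r' * mw κ out (List.ofFn w) r' = 1 := by simp [mw, hκ r]
    rw [h1, Fintype.sum_unique]
    simp
  | succ T ih =>
    rw [PathF_cons]
    refine Finset.sum_congr rfl fun r' _ => ?_
    rw [List.ofFn_succ]
    simp only [mw]
    by_cases h : out r' = w 0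
    · rw [if_pos h, ih, Finset.mul_sum]
      refine Finset.sum_congr rfl fun s' _ => ?_
      simp only [Fin.forall_fin_succ, Fin.cons_zero, Fin.cons_succ, h, true_and]
      by_cases h' : ∀ t, out (s' t) = w t.succ
      · rw [if_pos h', if_pos h', Fin.prod_univ_succ]
        rfl
      · rw [if_neg h', if_neg h', mul_zero]
    · rw [if_neg h, mul_zero]
      symm
      refine Finset.sum_eq_zero fun s' _ => if_neg fun hc => h ?_
      exact hc 0

theorem pathw_ofFn (lp : Bool) (n T : ℕ) (w : ℕ → Fin n) :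
    pathw lp (Fin n) (List.ofFn (fun t : Fin (T + 1) => w t)) =
      1 / (n : ℝ) * ∏ t ∈ Finset.range T, Model.step lp n (w t) (w (t + 1)) := by
  rw [List.ofFn_succ]
  simp only [pathw, Fin.val_zero, Fin.val_succ, Fintype.card_fin]
  rw [PathF_steps]

theorem law_eq_sum {S A : Type} [Fintype S] (π : S → ℝ) (κ : S → S → ℝ)
    (hκ : ∀ s, ∑ s', κ s s' = 1) (out : S → A) (T : ℕ) (w : Fin (T + 1) → A) :
    law π κ out (List.ofFn w) = ∑ s : Fin (T + 1) → S, if (∀ t, out (s t) = w t) then
      π (s 0) * ∏ t : Fin T, κ (s t.castSucc) (s t.succ) else 0 := by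
  rw [PathF_cons]
  unfold law
  refine Finset.sum_congr rfl fun r _ => ?_
  rw [List.ofFn_succ]
  simp only [mw]
  by_cases h : out r = w 0
  · rw [if_pos h, PathF_mw κ hκ, Finset.mul_sum]
    refine Finset.sum_congr rfl fun s' _ => ?_
    simp only [Fin.forall_fin_succ, Fin.cons_zero, Fin.cons_succ, h, true_and]
    by_cases h' : ∀ t, out (s' t) = w t.succ
    · rw [if_pos h', if_pos h']
    · rw [if_neg h', if_neg h', mul_zero]
  · rw [if_neg h, mul_zero]
    symm
    refine Finset.sum_eq_zero fun s' _ => if_neg fun hc => h ?_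
    exact hc 0

end Pool.Agent.H95.AV
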