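import Pool.Agent.H95.AV.Own
import Pool.Agent.H95.AV.GoodM
import Pool.Agent.H95.AV.PathF

/-!
# Job AV-HM: finite state couplings in the sense of measures

PROOF.  By `law_eq_sum` `μ (cylinder w) = ofReal (law π P out (List.ofFn w))`.
Own laws: by `walk` and `own_ofFn` (the event `{x | ∀ t ≤ T, x t i = w t}` is the disjoint union of
cylinders) `ofReal (own (· i) (List.ofFn v) law) = ofReal (1 / n * ∏ ...) = ofReal (pathw ...)` (`pathw_ofFn`), both are
nonnegative (for `stp` use `n ≥ 1`; for `n = 1` the value `1 / (n - 1) = 0`), so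
`own (· i) (x :: v) law = 1 / n * steps x v` and `own (· i) [x] law = 1 / n`.
`Good`: if `law w ≠ 0` the cylinder of `w` has positive measure, so by `avoid` it contains an `x` with the
properties for all `t`, and `Good w` by `good_ofFn`.  For `w = []` nothing.
`two_le_of_coupling`: there is `x` with `x 0 : Fin k → Fin n` injective, so `k ≤ n`.
-/

set_option autoImplicit false

namespace Pool.Agent.H95.AV

open Classical MeasureTheory

/-- a nonempty list as a word given by a sequence -/
theorem HM_cons_ofFn {A : Type} (x : A) (v : List A) :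
    x :: v = List.ofFn (fun t : Fin (v.length + 1) => (x :: v).getD (t : ℕ) x) := by
  apply List.ext_getElem
  · simp
  · intro i h1 h2
    rw [List.getElem_ofFn]
    exact (List.getD_eq_getElem (x :: v) x h1).symm

theorem HM_meas {k n : ℕ} (T : ℕ) (u : Fin (T + 1) → Fin k → Fin n) :
    MeasurableSet {x : ℕ → Fin k → Fin n | ∀ t : Fin (T + 1), x t = u t} := by
  have e : {x : ℕ → Fin k → Fin n | ∀ t : Fin (T + 1), x t = u t} =
      ⋂ t : Fin (T + 1), (fun x : ℕ → Fin k → Fin n => x t) ⁻¹' {u t} := by
    ext x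
    simp
  rw [e]
  exact MeasurableSet.iInter fun t => (measurable_pi_apply (t : ℕ)) (measurableSet_singleton _)

theorem HM_split {k n : ℕ} (μ : Measure (ℕ → Fin k → Fin n)) (T : ℕ) (i : Fin k)
    (v : Fin (T + 1) → Fin n) :
    μ {x | ∀ t : Fin (T + 1), x t i = v t} =
      ∑ u : Fin (T + 1) → Fin k → Fin n, if (fun t => u t i) = v then
        μ {x | ∀ t : Fin (T + 1), x t = u t} else 0 := by
  rw [← Finset.sum_filter]
  rw [← measure_biUnion_finset]
  · congr 1
    ext x
    simp only [Set.mem_ofPred_eq, Set.mem_iUnion, Finset.mem_filter, Finset.mem_univ, true_and,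
      exists_prop]
    constructor
    · intro h
      refine ⟨fun t => x t, funext fun t => h t, fun t => rfl⟩
    · rintro ⟨u, hu, h⟩ t
      rw [h t]
      exact congrFun hu t
  · intro u _ u' _ huu
    rw [Function.onFun, Set.disjoint_left]
    intro x hx hx'
    exact huu (funext fun t => (hx t).symm.trans (hx' t))
  · intro u _
    exact HM_meas T u

theorem HM_stp_nonneg (lp : Bool) (n : ℕ) (hn : 1 ≤ n) (x y : Fin n) :
    0 ≤ Model.step lp n x y := by
  have h1 : (1 : ℝ) ≤ n := by exact_mod_cast hn
  unfold Model.step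
  split_ifs
  · positivity
  · exact le_rfl
  · exact div_nonneg zero_le_one (by linarith)

theorem HM_mw_nonneg {S A : Type} [Fintype S] (κ : S → S → ℝ) (h : ∀ s s', 0 ≤ κ s s')
    (out : S → A) (w : List A) (r : S) : 0 ≤ mw κ out w r := by
  induction w generalizing r with
  | nil => exact zero_le_one
  | cons a w ih =>
    rw [mw]
    split_ifs
    · exact Finset.sum_nonneg fun r' _ => mul_nonneg (h _ _) (ih r')
    · exact le_rfl

theorem HM_law_nonneg {S A : Type} [Fintype S] (π : S → ℝ) (κ : S → S → ℝ) (h0 : ∀ s, 0 ≤ π s)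
    (h : ∀ s s', 0 ≤ κ s s') (out : S → A) (w : List A) : 0 ≤ law π κ out w :=
  Finset.sum_nonneg fun r _ => mul_nonneg (h0 r) (HM_mw_nonneg κ h out w r)

theorem pfs_of_model (loops : Bool) (k n : ℕ) (μ : Measure (ℕ → Fin k → Fin n))
    (h : Model.IsAvoidanceCoupling loops k n μ) (hf : Model.IsFiniteState μ) :
    PFS loops k (Fin n) := by
  obtain ⟨S, hS, π, P, out, hπ0, hπ1, hP0, hP1, hμ⟩ := hf
  have hcyl : ∀ (T : ℕ) (w : Fin (T + 1) → Fin k → Fin n),
      μ {x | ∀ t : Fin (T + 1), x t = w t} = ENNReal.ofReal (law π P out (List.ofFn w)) := by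
    intro T w
    rw [hμ T w, law_eq_sum π P hP1 out T w]
    congr 1
    refine Finset.sum_congr rfl fun s _ => ?_
    by_cases hs : ∀ t, out (s t) = w t
    · rw [if_pos hs, if_pos hs]
    · rw [if_neg hs, if_neg hs]
  have hlaw0 : ∀ w, 0 ≤ law π P out w := HM_law_nonneg π P hπ0 hP0 out
  have hown : ∀ (i : Fin k) (x : Fin n) (v : List (Fin n)),
      own (fun x : Fin k → Fin n => x i) (x :: v) (law π P out) =
        pathw loops (Fin n) (x :: v) := by
    intro i x v
    have hn : 1 ≤ n := Nat.one_le_iff_ne_zero.2 (fun hn => by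
      subst hn
      exact x.elim0)
    set w : ℕ → Fin n := fun t => (x :: v).getD t x with hw
    have hxv : x :: v = List.ofFn (fun t : Fin (v.length + 1) => w t) := HM_cons_ofFn x v
    rw [hxv]
    have e1 : ENNReal.ofReal (own (fun x : Fin k → Fin n => x i)
        (List.ofFn (fun t : Fin (v.length + 1) => w t)) (law π P out)) =
        ENNReal.ofReal (pathw loops (Fin n) (List.ofFn (fun t : Fin (v.length + 1) => w t))) := by
      rw [pathw_ofFn, ← h.walk i v.length w, own_ofFn, ENNReal.ofReal_sum_of_nonneg]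
      · have e2 : {x : ℕ → Fin k → Fin n | ∀ t ≤ v.length, x t i = w t} =
            {x | ∀ t : Fin (v.length + 1), x t i = w t} := by
          ext x
          constructor
          · intro hx t
            exact hx t (Nat.lt_succ_iff.1 t.2)
          · intro hx t ht
            exact hx ⟨t, Nat.lt_succ_iff.2 ht⟩
        rw [e2, HM_split μ v.length i (fun t => w t)]
        refine Finset.sum_congr rfl fun u _ => ?_
        by_cases hu : (fun t => u t i) = fun t : Fin (v.length + 1) => w t
        · rw [if_pos hu, if_pos hu, hcyl]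
        · rw [if_neg hu, if_neg hu, ENNReal.ofReal_zero]
      · intro u _
        split_ifs
        · exact hlaw0 _
        · exact le_rfl
    refine (ENNReal.ofReal_eq_ofReal_iff ?_ ?_).1 e1
    · rw [own_ofFn]
      refine Finset.sum_nonneg fun u _ => ?_
      split_ifs
      · exact hlaw0 _
      · exact le_rfl
    · rw [pathw_ofFn]
      exact mul_nonneg (by positivity) (Finset.prod_nonneg fun t _ => HM_stp_nonneg _ _ hn _ _)
  refine ⟨S, hS, π, P, out, ⟨hπ0, hπ1, hP0, hP1⟩, ?_, ?_⟩
  · intro i x v
    rw [hown, hown, pathw, pathw, steps]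
    ring
  · intro w hw
    cases w with
    | nil => trivial
    | cons a w =>
      set W : ℕ → Fin k → Fin n := fun t => (a :: w).getD t a with hW
      have haw : a :: w = List.ofFn (fun t : Fin (w.length + 1) => W t) := HM_cons_ofFn a w
      have hpos : 0 < μ {x | ∀ t : Fin (w.length + 1), x t = W t} := by
        rw [hcyl, ← haw]
        exact ENNReal.ofReal_pos.2 (lt_of_le_of_ne (hlaw0 _) (Ne.symm hw))
      obtain ⟨x, hx, hx2⟩ : ∃ x : ℕ → Fin k → Fin n, (∀ t : Fin (w.length + 1), x t = W t) ∧
          ∀ t : ℕ, Function.Injective (x t) ∧ ∀ i j : Fin k, i < j → x (t + 1) i ≠ x t j := by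
        by_contra hcon
        push Not at hcon
        have hsub : {x : ℕ → Fin k → Fin n | ∀ t : Fin (w.length + 1), x t = W t} ⊆
            {x | ¬ ∀ t : ℕ, Function.Injective (x t) ∧
              ∀ i j : Fin k, i < j → x (t + 1) i ≠ x t j} := by
          intro x hx hx2
          obtain ⟨t, ht⟩ := hcon x hx
          obtain ⟨i, j, hij, he⟩ := ht (hx2 t).1
          exact (hx2 t).2 i j hij he
        have h0 := measure_mono_null hsub (ae_iff.1 h.avoid)
        exact hpos.ne' h0
      rw [haw, good_ofFn]
      constructor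
      · intro t
        rw [← hx t]
        exact (hx2 t).1
      · intro t t' htt i j hij
        rw [← hx t, ← hx t', htt]
        exact (hx2 t).2 i j hij

theorem le_of_coupling (loops : Bool) (k n : ℕ) (μ : Measure (ℕ → Fin k → Fin n))
    (h : Model.IsAvoidanceCoupling loops k n μ) : k ≤ n := by
  have := h.prob
  obtain ⟨x, hx⟩ := h.avoid.exists
  have h1 := Fintype.card_le_of_injective (x 0) (hx 0).1
  rwa [Fintype.card_fin, Fintype.card_fin] at h1

end Pool.Agent.H95.AV
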