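import Pool.Agent.H95.AV.Markov
import Pool.Agent.H95.AV.Own
import Pool.Agent.H95.AV.GoodM
import Pool.Agent.H95.AV.Kmap
import Pool.Agent.H95.AV.Path

/-!
# Job AV-K3: two walkers on the complete graph with 3 vertices and loops

`β a b x` for `x ≠ a`: a bijection from the complement of `a` to the complement of `b` with
`β a b x ≠ x`.  State `(u, x, x')`: previous position `u` of walker 2, position `x` and next position `x'` of
walker 1; walker 2 is at `β u x' x`.  Step: `(β u x' x, x', x'')`, `x''` uniform.  Initial law: uniform on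
the states with `u ≠ x`.
PROOF.  `IsMach`: `kmap_mach` with `Ω = Fin 3`.  `Good`: `good_of_inv` with `J (u, x, x')`: `u ≠ x`; positions
`x ≠ β u x' x`; `Avoid`: the new position `x'` of walker 1 is `≠ β u x' x`; all by `decide`.
Own law of walker 1: `law_markov` with `E = Fin 3`, `g = id`, `Q = stp true (Fin 3)` (`= 1/3`),
`Λ x (u, x₀, x') = if x₀ = x then 1/9 else 0`, `ι = 1/3`, `C`: functions which do not depend on `u`.
Own law of walker 2 (`o (u, x, x') = β u x' x`): `E = Fin 3`, `g = id`,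
`Λ y (u, x, x') = if u ≠ x ∧ β u x' x = y then 1/6 else 0`, `ι = 1/3`, `C`: functions `φ` such that
`φ (u, x, x') = φ (v, z, x')` whenever `u ≠ x`, `v ≠ z` and `β u x' x = β v x' z`; to have `hCκ` for all states
replace `R` by the subtype of the states with `u ≠ x` (the step maps it to itself), or treat the
states with `u = x` separately (e.g. a class condition only on the states with `u ≠ x`; note that
`Λ` and `π` live on those).  Everything is a finite check (`decide`, `fin_cases`, `norm_num`).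
-/

set_option autoImplicit false

namespace Pool.Agent.H95.AV

open Classical

/-- the bijections -/
def beta3 (a b x : Fin 3) : Fin 3 := if a = b then -(a + x) else if x = b then -(a + b) else a

abbrev R3 : Type := Fin 3 × Fin 3 × Fin 3

theorem beta3_ne (u x x' : Fin 3) (h : u ≠ x) : beta3 u x' x ≠ x' := by
  revert u x x'
  decide

theorem beta3_ne' (u x x' : Fin 3) (h : u ≠ x) : beta3 u x' x ≠ x := by
  revert u x x'
  decide

theorem k3n1 : (-1 : Fin 3) = 2 := by decide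

theorem k3n2 : (-2 : Fin 3) = 1 := by decide

/-- sum over the pairs of different vertices -/
noncomputable def k3A (Ψ : Fin 3 → Fin 3 → ℝ) : ℝ :=
  ∑ y : Fin 3, ∑ x' : Fin 3, if y = x' then 0 else Ψ y x'

theorem k3_sum1 (Ψ : Fin 3 → Fin 3 → ℝ) :
    ∑ r : R3, (if r.1 = r.2.1 then 0 else Ψ (beta3 r.1 r.2.2 r.2.1) r.2.2) = 3 * k3A Ψ := by
  unfold k3A
  simp only [Fintype.sum_prod_type, Fin.sum_univ_three]
  simp [beta3, k3n1, k3n2]
  ring

theorem k3_sum2 (Ψ : Fin 3 → Fin 3 → ℝ) (y : Fin 3) :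
    ∑ x' : Fin 3, (if y = x' then 0 else ∑ w : Fin 3, Ψ (beta3 y w x') w) = k3A Ψ := by
  unfold k3A
  fin_cases y <;> simp [Fin.sum_univ_three, beta3, k3n1, k3n2] <;> ring

theorem k3_sum3 (Ψ : Fin 3 → Fin 3 → ℝ) (y : Fin 3) :
    ∑ r : R3, (if r.1 = r.2.1 then 0 else if beta3 r.1 r.2.2 r.2.1 = y then
      Ψ (beta3 r.1 r.2.2 r.2.1) r.2.2 else 0) =
      3 * ∑ x' : Fin 3, (if y = x' then 0 else Ψ y x') := by
  fin_cases y <;> simp only [Fintype.sum_prod_type, Fin.sum_univ_three] <;>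
    simp [beta3, k3n1, k3n2] <;> ring

/-- initial law -/
noncomputable def k3π : R3 → ℝ := fun r => if r.1 = r.2.1 then 0 else 1 / 18

/-- one step -/
def k3F : R3 → Fin 3 → R3 := fun r w => (beta3 r.1 r.2.2 r.2.1, r.2.2, w)

/-- law of the noise -/
noncomputable def k3μ : Fin 3 → ℝ := fun _ => 1 / 3

/-- positions -/
def k3out : R3 → Fin 2 → Fin 3 := fun r => ![r.2.1, beta3 r.1 r.2.2 r.2.1]

theorem k3_mach : IsMach k3π (kmap k3μ k3F) := by
  refine kmap_mach k3π k3μ k3F ?_ ?_ ?_ ?_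
  · intro r
    unfold k3π
    split_ifs <;> norm_num
  · unfold k3π
    simp only [Fintype.sum_prod_type, Fin.sum_univ_three]
    simp
    norm_num
  · intro w
    unfold k3μ
    norm_num
  · unfold k3μ
    simp

theorem k3_stp (x y : Fin 3) : stp true (Fin 3) x y = 1 / 3 := by
  unfold stp
  rw [if_pos rfl, Fintype.card_fin]
  norm_num

theorem k3_kappa (φ : R3 → ℝ) (r : R3) :
    ∑ r', kmap k3μ k3F r r' * φ r' =
      1 / 3 * ∑ w : Fin 3, φ (beta3 r.1 r.2.2 r.2.1, r.2.2, w) := by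
  rw [kmap_apply, Finset.mul_sum]
  rfl

theorem k3_q (x v : Fin 3) :
    ∑ y : Fin 3, (if y = v then (1 : ℝ) / 3 else 0) = stp true (Fin 3) x v := by
  rw [k3_stp]
  simp

theorem k3_own0 (x : Fin 3) (v : List (Fin 3)) :
    law k3π (kmap k3μ k3F) (fun r : R3 => r.2.1) (x :: v) =
      law k3π (kmap k3μ k3F) (fun r : R3 => r.2.1) [x] * steps true (Fin 3) x v := by
  refine law_markov (R := R3) (E := Fin 3) (V := Fin 3) true k3π (kmap k3μ k3F)
    k3_mach.κ_sum (fun r => r.2.1) (fun x => x)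
    (fun x r => if r.2.1 = x then 1 / 9 else 0) ?_ ?_ (fun _ _ => 1 / 3) (fun _ => 1 / 3)
    (fun φ => ∃ Ψ : Fin 3 → Fin 3 → ℝ, ∀ r : R3, φ r = Ψ r.2.1 r.2.2) ?_ ?_ ?_ ?_ ?_ x v
  · intro x r h
    by_contra hc
    exact h (if_neg hc)
  · intro x
    fin_cases x <;> simp only [Fintype.sum_prod_type, Fin.sum_univ_three] <;> simp <;> norm_num
  · exact ⟨fun _ _ => 1, fun _ => rfl⟩
  · rintro φ x ⟨Ψ, hΨ⟩
    refine ⟨fun y z => if y = x then 1 / 3 * ∑ w : Fin 3, Ψ z w else 0, fun r => ?_⟩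
    dsimp only
    by_cases h : r.2.1 = x
    · rw [if_pos h, if_pos h, k3_kappa]
      congr 1
      exact Finset.sum_congr rfl fun w _ => hΨ _
    · rw [if_neg h, if_neg h]
  · rintro φ ⟨Ψ, hΨ⟩
    obtain rfl : φ = fun r => Ψ r.2.1 r.2.2 := funext hΨ
    unfold k3π
    simp only [Fintype.sum_prod_type, Fin.sum_univ_three]
    simp
    ring
  · rintro φ ⟨Ψ, hΨ⟩ x
    obtain rfl : φ = fun r => Ψ r.2.1 r.2.2 := funext hΨ
    simp only [k3_kappa]
    fin_cases x <;> simp only [Fintype.sum_prod_type, Fin.sum_univ_three] <;> simp <;> ring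
  · intro x v
    have h := k3_q x v
    rw [← h]
    refine Finset.sum_congr rfl fun y _ => ?_
    by_cases hy : y = v
    · rw [if_pos hy, if_pos hy]
    · rw [if_neg hy, if_neg hy]

theorem k3_lam (Ψ : Fin 3 → Fin 3 → ℝ) (φ : R3 → ℝ)
    (hΨ : ∀ r : R3, r.1 ≠ r.2.1 → φ r = Ψ (beta3 r.1 r.2.2 r.2.1) r.2.2) (y : Fin 3) :
    ∑ r : R3, (if r.1 = r.2.1 then 0 else if beta3 r.1 r.2.2 r.2.1 = y then (1 : ℝ) / 6 else 0) *
      φ r = 1 / 2 * ∑ x' : Fin 3, (if y = x' then 0 else Ψ y x') := by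
  have h := k3_sum3 Ψ y
  have h2 : ∑ r : R3, (if r.1 = r.2.1 then 0 else if beta3 r.1 r.2.2 r.2.1 = y then (1 : ℝ) / 6
      else 0) * φ r = 1 / 6 * ∑ r : R3, (if r.1 = r.2.1 then 0 else
        if beta3 r.1 r.2.2 r.2.1 = y then Ψ (beta3 r.1 r.2.2 r.2.1) r.2.2 else 0) := by
    rw [Finset.mul_sum]
    refine Finset.sum_congr rfl fun r _ => ?_
    by_cases h1 : r.1 = r.2.1
    · rw [if_pos h1, if_pos h1, zero_mul, mul_zero]
    · rw [if_neg h1, if_neg h1, hΨ r h1]
      by_cases h3 : beta3 r.1 r.2.2 r.2.1 = y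
      · rw [if_pos h3, if_pos h3]
      · rw [if_neg h3, if_neg h3, zero_mul, mul_zero]
  rw [h2, h]
  ring

theorem k3_own1 (x : Fin 3) (v : List (Fin 3)) :
    law k3π (kmap k3μ k3F) (fun r : R3 => beta3 r.1 r.2.2 r.2.1) (x :: v) =
      law k3π (kmap k3μ k3F) (fun r : R3 => beta3 r.1 r.2.2 r.2.1) [x] *
        steps true (Fin 3) x v := by
  refine law_markov (R := R3) (E := Fin 3) (V := Fin 3) true k3π (kmap k3μ k3F)
    k3_mach.κ_sum (fun r => beta3 r.1 r.2.2 r.2.1) (fun x => x)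
    (fun x r => if r.1 = r.2.1 then 0 else if beta3 r.1 r.2.2 r.2.1 = x then 1 / 6 else 0)
    ?_ ?_ (fun _ _ => 1 / 3) (fun _ => 1 / 3)
    (fun φ => ∃ Ψ : Fin 3 → Fin 3 → ℝ, ∀ r : R3, r.1 ≠ r.2.1 →
      φ r = Ψ (beta3 r.1 r.2.2 r.2.1) r.2.2) ?_ ?_ ?_ ?_ ?_ x v
  · intro x r h
    by_contra hc
    apply h
    by_cases h1 : r.1 = r.2.1
    · exact if_pos h1
    · rw [if_neg h1, if_neg hc]
  · intro x
    have h := k3_lam (fun _ _ => 1) (fun _ => 1) (fun _ _ => rfl) x
    simp only [mul_one] at h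
    rw [h]
    fin_cases x <;> simp [Fin.sum_univ_three] <;> norm_num
  · exact ⟨fun _ _ => 1, fun _ _ => rfl⟩
  · rintro φ x ⟨Ψ, hΨ⟩
    refine ⟨fun y z => if y = x then 1 / 3 * ∑ w : Fin 3, Ψ (beta3 y w z) w else 0,
      fun r hr => ?_⟩
    dsimp only
    by_cases h : beta3 r.1 r.2.2 r.2.1 = x
    · rw [if_pos h, if_pos h, k3_kappa]
      congr 1
      refine Finset.sum_congr rfl fun w _ => ?_
      rw [hΨ _ (beta3_ne r.1 r.2.1 r.2.2 hr)]
    · rw [if_neg h, if_neg h]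
  · rintro φ ⟨Ψ, hΨ⟩
    have h1 : ∑ r, k3π r * φ r = 1 / 18 * (3 * k3A Ψ) := by
      rw [← k3_sum1, Finset.mul_sum]
      refine Finset.sum_congr rfl fun r _ => ?_
      unfold k3π
      by_cases h1 : r.1 = r.2.1
      · rw [if_pos h1, if_pos h1, zero_mul, mul_zero]
      · rw [if_neg h1, if_neg h1, hΨ r h1]
    rw [h1]
    have h2 : ∀ y : Fin 3, (1 : ℝ) / 3 * ∑ r : R3, (if r.1 = r.2.1 then 0 else
        if beta3 r.1 r.2.2 r.2.1 = y then (1 : ℝ) / 6 else 0) * φ r =
        1 / 6 * ∑ x' : Fin 3, (if y = x' then 0 else Ψ y x') := by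
      intro y
      rw [k3_lam Ψ φ hΨ y]
      ring
    rw [Finset.sum_congr rfl fun y _ => h2 y, ← Finset.mul_sum]
    change _ = 1 / 6 * k3A Ψ
    ring
  · rintro φ ⟨Ψ, hΨ⟩ x
    have h1 := k3_lam (fun y z => 1 / 3 * ∑ w : Fin 3, Ψ (beta3 y w z) w)
      (fun r => ∑ r', kmap k3μ k3F r r' * φ r') (fun r hr => by
        rw [k3_kappa]
        congr 1
        refine Finset.sum_congr rfl fun w _ => ?_
        rw [hΨ _ (beta3_ne r.1 r.2.1 r.2.2 hr)]) x
    rw [h1]
    have h2 : ∑ x' : Fin 3, (if x = x' then 0 else 1 / 3 * ∑ w : Fin 3, Ψ (beta3 x w x') w) =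
        1 / 3 * k3A Ψ := by
      rw [← k3_sum2 Ψ x, Finset.mul_sum]
      refine Finset.sum_congr rfl fun x' _ => ?_
      by_cases h : x = x'
      · rw [if_pos h, if_pos h, mul_zero]
      · rw [if_neg h, if_neg h]
    rw [h2]
    have h3 : ∀ y : Fin 3, (1 : ℝ) / 3 * ∑ r : R3, (if r.1 = r.2.1 then 0 else
        if beta3 r.1 r.2.2 r.2.1 = y then (1 : ℝ) / 6 else 0) * φ r =
        1 / 6 * ∑ x' : Fin 3, (if y = x' then 0 else Ψ y x') := by
      intro y
      rw [k3_lam Ψ φ hΨ y]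
      ring
    rw [Finset.sum_congr rfl fun y _ => h3 y, ← Finset.mul_sum]
    change _ = 1 / 6 * k3A Ψ
    ring
  · intro x v
    have h := k3_q x v
    rw [← h]
    refine Finset.sum_congr rfl fun y _ => ?_
    by_cases hy : y = v
    · rw [if_pos hy, if_pos hy]
    · rw [if_neg hy, if_neg hy]

theorem k3_pfs : PFS true 2 (Fin 3) := by
  refine ⟨R3, inferInstance, k3π, kmap k3μ k3F, k3out, k3_mach, ?_, ?_⟩
  · intro i x v
    rw [own_law, own_law]
    fin_cases i
    · exact k3_own0 x v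
    · exact k3_own1 x v
  · refine fun w hw => good_of_inv k3out (fun r => r.1 ≠ r.2.1) ?_ ?_ ?_ ?_ w hw
    · intro r h0 hr
      exact h0 (if_pos hr)
    · intro r r' hr h
      obtain ⟨w, -, rfl⟩ := kmap_ne_zero k3μ k3F r r' h
      exact beta3_ne r.1 r.2.1 r.2.2 hr
    · intro r hr i j hij
      have h1 := beta3_ne' r.1 r.2.1 r.2.2 hr
      fin_cases i <;> fin_cases j
      · rfl
      · exact absurd hij.symm h1
      · exact absurd hij h1
      · rfl
    · intro r r' hr h i j hij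
      obtain ⟨w, -, rfl⟩ := kmap_ne_zero k3μ k3F r r' h
      have h1 := beta3_ne r.1 r.2.1 r.2.2 hr
      have hi : i = 0 := by
        have := hij
        fin_cases i <;> fin_cases j <;> simp_all
      have hj : j = 1 := by
        have := hij
        fin_cases i <;> fin_cases j <;> simp_all
      subst hi
      subst hj
      exact h1.symm

end Pool.Agent.H95.AV
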