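import Pool.Agent.H95.AV.LawS

/-!
# Job AV-LawM: the law of a machine

`mw_nonneg`, `mw_le_one`: induction on the word.
`mw_right`: induction on `w`; `w = []`: `∑ a, (if out r = a then ∑ r', κ r r' * 1 else 0) = 1`.
`law_left`: `∑ a, law π κ out (a :: w) = ∑ r, π r * ∑ r', κ r r' * mw κ out w r' =
law (π κ) κ out w`, `(π κ) r' = ∑ r, π r * κ r r'`.
`isLaw_law`: from these; for a stationary `π`, `π κ = π`.
-/

set_option autoImplicit false

namespace Pool.Agent.H95.AV

open Classical

theorem mw_nonneg {R A : Type} [Fintype R] {π : R → ℝ} {κ : R → R → ℝ} (h : IsMach π κ)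
    (out : R → A) (w : List A) (r : R) : 0 ≤ mw κ out w r := by
  induction w generalizing r with
  | nil => exact zero_le_one
  | cons a w ih =>
    show 0 ≤ if out r = a then ∑ r', κ r r' * mw κ out w r' else 0
    split_ifs
    · exact Finset.sum_nonneg fun r' _ => mul_nonneg (h.κ_nonneg r r') (ih r')
    · exact le_rfl

theorem mw_le_one {R A : Type} [Fintype R] {π : R → ℝ} {κ : R → R → ℝ} (h : IsMach π κ)
    (out : R → A) (w : List A) (r : R) : mw κ out w r ≤ 1 := by
  induction w generalizing r with
  | nil => exact le_rfl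
  | cons a w ih =>
    show (if out r = a then ∑ r', κ r r' * mw κ out w r' else 0) ≤ 1
    split_ifs
    · rw [← h.κ_sum r]
      exact Finset.sum_le_sum fun r' _ => mul_le_of_le_one_right (h.κ_nonneg r r') (ih r')
    · exact zero_le_one

theorem mw_right {R A : Type} [Fintype R] [Fintype A] {π : R → ℝ} {κ : R → R → ℝ}
    (h : IsMach π κ) (out : R → A) (w : List A) (r : R) :
    ∑ a, mw κ out (w ++ [a]) r = mw κ out w r := by
  induction w generalizing r with
  | nil =>
    show ∑ a, (if out r = a then ∑ r', κ r r' * (1 : ℝ) else 0) = 1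
    rw [Finset.sum_ite_eq, if_pos (Finset.mem_univ _)]
    simp only [mul_one]
    exact h.κ_sum r
  | cons b w ih =>
    show ∑ a, (if out r = b then ∑ r', κ r r' * mw κ out (w ++ [a]) r' else 0) =
      if out r = b then ∑ r', κ r r' * mw κ out w r' else 0
    split_ifs
    · rw [Finset.sum_comm]
      refine Finset.sum_congr rfl fun r' _ => ?_
      rw [← Finset.mul_sum, ih]
    · exact Finset.sum_const_zero

theorem law_nonneg {R A : Type} [Fintype R] {π : R → ℝ} {κ : R → R → ℝ} (h : IsMach π κ)
    (out : R → A) (w : List A) : 0 ≤ law π κ out w :=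
  Finset.sum_nonneg fun r _ => mul_nonneg (h.π_nonneg r) (mw_nonneg h out w r)

theorem law_nil {R A : Type} [Fintype R] {π : R → ℝ} {κ : R → R → ℝ} (h : IsMach π κ)
    (out : R → A) : law π κ out [] = 1 := by
  show ∑ r, π r * (1 : ℝ) = 1
  simp only [mul_one]
  exact h.π_sum

theorem law_left {R A : Type} [Fintype R] [Fintype A] (π : R → ℝ) (κ : R → R → ℝ)
    (out : R → A) (w : List A) :
    ∑ a, law π κ out (a :: w) = law (fun r' => ∑ r, π r * κ r r') κ out w := by
  unfold law
  rw [Finset.sum_comm]
  have h1 : ∀ r, ∑ a, π r * mw κ out (a :: w) r = ∑ r', π r * κ r r' * mw κ out w r' := by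
    intro r
    rw [← Finset.mul_sum]
    have h2 : ∑ a, mw κ out (a :: w) r = ∑ r', κ r r' * mw κ out w r' := by
      show ∑ a, (if out r = a then ∑ r', κ r r' * mw κ out w r' else 0) = _
      rw [Finset.sum_ite_eq, if_pos (Finset.mem_univ _)]
    rw [h2, Finset.mul_sum]
    exact Finset.sum_congr rfl fun r' _ => (mul_assoc _ _ _).symm
  simp only [h1]
  rw [Finset.sum_comm]
  exact Finset.sum_congr rfl fun r' _ => (Finset.sum_mul _ _ _).symm

theorem isLaw_law {R A : Type} [Fintype R] [Fintype A] {π : R → ℝ} {κ : R → R → ℝ}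
    (h : IsMach π κ) (hs : IsStat π κ) (out : R → A) : IsLaw (law π κ out) where
  nil := law_nil h out
  nonneg := law_nonneg h out
  right := by
    intro w
    unfold law
    rw [Finset.sum_comm]
    refine Finset.sum_congr rfl fun r _ => ?_
    rw [← Finset.mul_sum, mw_right h out w r]
  left := by
    intro w
    rw [law_left]
    have : (fun r' => ∑ r, π r * κ r r') = π := funext fun r' => hs r'
    rw [this]

end Pool.Agent.H95.AV
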