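import Pool.Agent.H95.AV.Defs

/-!
# Job AV-LawS: sums of a law over words

`isLaw_le_one`: `p (a :: w) ≤ ∑ a, p (a :: w) = p w`, induction.
`isLaw_sum_left`: `∑ u : Fin T → A, p (List.ofFn u ++ w) = p w`: induction on `T` with `Fin.consEquiv`
(`Fin.consEquiv`/`Fin.insertNthEquiv`, `List.ofFn_succ`) and `left`.
`isLaw_sum_right`: `∑ u : Fin T → A, p (w ++ List.ofFn u) = p w`, the same with `right`, e.g.
splitting off the first letter: `w ++ (a :: u') = (w ++ [a]) ++ u'`, induction for all `w`.
`isLaw_sum`: the case `w = []`.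
-/

set_option autoImplicit false

namespace Pool.Agent.H95.AV

open Classical

theorem lawS_cons {A : Type} [Fintype A] (T : ℕ) (F : List A → ℝ) :
    ∑ u : Fin (T + 1) → A, F (List.ofFn u) = ∑ a : A, ∑ u : Fin T → A, F (a :: List.ofFn u) := by
  rw [← (Fin.consEquiv (fun _ : Fin (T + 1) => A)).sum_comp, Fintype.sum_prod_type]
  refine Finset.sum_congr rfl fun a _ => Finset.sum_congr rfl fun u _ => ?_
  congr 1
  rw [List.ofFn_succ]
  rfl

theorem isLaw_le_one {A : Type} [Fintype A] {p : List A → ℝ} (hp : IsLaw p) (w : List A) :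
    p w ≤ 1 := by
  induction w with
  | nil => exact hp.nil.le
  | cons a w ih =>
    refine le_trans ?_ ih
    rw [← hp.left w]
    exact Finset.single_le_sum (f := fun a => p (a :: w)) (fun b _ => hp.nonneg _)
      (Finset.mem_univ a)

theorem isLaw_sum_left {A : Type} [Fintype A] {p : List A → ℝ} (hp : IsLaw p) (T : ℕ)
    (w : List A) : ∑ u : Fin T → A, p (List.ofFn u ++ w) = p w := by
  induction T with
  | zero =>
    rw [Fintype.sum_unique, List.ofFn_zero, List.nil_append]
  | succ T ih =>
    rw [lawS_cons T (fun l => p (l ++ w)), Finset.sum_comm]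
    rw [← ih]
    exact Finset.sum_congr rfl fun u _ => hp.left _

theorem isLaw_sum_right {A : Type} [Fintype A] {p : List A → ℝ} (hp : IsLaw p) (T : ℕ)
    (w : List A) : ∑ u : Fin T → A, p (w ++ List.ofFn u) = p w := by
  induction T generalizing w with
  | zero =>
    rw [Fintype.sum_unique, List.ofFn_zero, List.append_nil]
  | succ T ih =>
    rw [lawS_cons T (fun l => p (w ++ l)), ← hp.right w]
    refine Finset.sum_congr rfl fun a _ => ?_
    rw [← ih (w ++ [a])]
    refine Finset.sum_congr rfl fun u _ => ?_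
    rw [List.append_assoc, List.singleton_append]

theorem isLaw_sum {A : Type} [Fintype A] {p : List A → ℝ} (hp : IsLaw p) (T : ℕ) :
    ∑ u : Fin T → A, p (List.ofFn u) = 1 := by
  have h := isLaw_sum_right hp T []
  rw [hp.nil] at h
  exact h

end Pool.Agent.H95.AV
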