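import Pool.Agent.H95.AV.Own
import Pool.Agent.H95.AV.GoodM
import Pool.Agent.H95.AV.Path

/-!
# Job AV-Lazy: from the graph without loops to the graph with loops

All walkers stay put in the same rounds, with probability `1/n`, otherwise they move as before.
PROOF.  Let `(R, π, κ, out)` be as in `FSC false k V`, `n = card V ≥ 2`.  New kernel
`κ' r r' = (1/n) [r = r'] + (1 - 1/n) κ r r'`, same `π`, `out`.  `IsMach`, `IsStat` are clear.
`Good`: `good_of_inv` with `J r`: `π r ≠ 0`; if `r' = r` then `Avoid (out r) (out r)` by injectivity.
Own law: define `Lz : List V → (List V → ℝ) → ℝ` by `Lz [] G = G []`, `Lz [x] G = G [x]`,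
`Lz (x :: y :: w) G = (1/n) [x = y] Lz (y :: w) G + (1 - 1/n) Lz (y :: w) (fun u => G (x :: u))`, linear in `G`.
CLAIM 1: with `o r = out r i`: `mw κ' o w r = Lz w (fun u => mw κ o u r)`, by induction on `w`:
`mw κ' o (x :: y :: w) r = [o r = x] ((1/n) mw κ' o (y :: w) r + (1 - 1/n) ∑_s κ r s mw κ' o (y :: w) s)`; in the
first term `mw κ' o (y :: w) r ≠ 0` implies `o r = y`, so it is `(1/n) [x = y] mw κ' o (y :: w) r`; the second is
`(1 - 1/n) Lz (y :: w) (fun u => mw κ o (x :: u) r)` by linearity.  So `law π κ' o w = Lz w (law π κ o)
= Lz w (pathw false V)`.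
CLAIM 2: `Lz w (pathw false V) = (1/n)^(w.length)`, and more generally
`Lz (y :: w) (fun u => pathw false V (x :: u)) = stp false V x y * Lz (y :: w) (pathw false V)`, since only words `u`
which start with `y` occur in `Lz (y :: w) G` (induction on `w`; prove:
if `G u = c * G' u` for all `u` starting with `y` then `Lz (y :: w) G = c * Lz (y :: w) G'`).  So
`Lz (x :: y :: w) = ((1/n) [x = y] + (1 - 1/n) stp false V x y) * Lz (y :: w) = (1/n) * Lz (y :: w)`.
-/

set_option autoImplicit false

namespace Pool.Agent.H95.AV

open Classical

/-- lazy version of a function on words -/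
noncomputable def Lz {V : Type} (c : ℝ) : List V → (List V → ℝ) → ℝ
  | [], G => G []
  | [x], G => G [x]
  | x :: y :: w, G => (if x = y then c * Lz c (y :: w) G else 0) +
      (1 - c) * Lz c (y :: w) (fun u => G (x :: u))

theorem Lz_cons {V : Type} (c : ℝ) (x y : V) (w : List V) (G : List V → ℝ) :
    Lz c (x :: y :: w) G = (if x = y then c * Lz c (y :: w) G else 0) +
      (1 - c) * Lz c (y :: w) (fun u => G (x :: u)) := rfl

theorem Lz_sum {V R : Type} [Fintype R] (c : ℝ) (w : List V) (a : R → ℝ)
    (G : R → List V → ℝ) :
    Lz c w (fun u => ∑ s, a s * G s u) = ∑ s, a s * Lz c w (G s) := by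
  induction w generalizing G with
  | nil => rfl
  | cons x w ih =>
    cases w with
    | nil => rfl
    | cons y w =>
      rw [Lz_cons, ih, ih (fun s u => G s (x :: u))]
      have h1 : ∀ s, a s * Lz c (x :: y :: w) (G s)
          = (if x = y then a s * (c * Lz c (y :: w) (G s)) else 0)
            + (1 - c) * (a s * Lz c (y :: w) (fun u => G s (x :: u))) := by
        intro s
        rw [Lz_cons]
        split_ifs <;> ring
      simp only [h1]
      rw [Finset.sum_add_distrib, ← Finset.mul_sum]
      congr 1
      by_cases h : x = y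
      · simp only [if_pos h]
        rw [Finset.mul_sum]
        exact Finset.sum_congr rfl fun s _ => by ring
      · simp only [if_neg h]
        exact Finset.sum_const_zero.symm

theorem Lz_supp {V : Type} (c a : ℝ) (y : V) (w : List V) (G G' : List V → ℝ)
    (h : ∀ u, G (y :: u) = a * G' (y :: u)) : Lz c (y :: w) G = a * Lz c (y :: w) G' := by
  induction w generalizing y G G' with
  | nil => exact h []
  | cons z w ih =>
    rw [Lz_cons, Lz_cons, ih z (fun u => G (y :: u)) (fun u => G' (y :: u)) fun u => h (z :: u)]
    by_cases hyz : y = z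
    · rw [if_pos hyz, if_pos hyz, ih z G G' (by rw [← hyz]; exact h)]
      ring
    · rw [if_neg hyz, if_neg hyz]
      ring

theorem Lz_zero {V : Type} (c : ℝ) (w : List V) : Lz c w (fun _ => (0 : ℝ)) = 0 := by
  induction w with
  | nil => rfl
  | cons x w ih =>
    cases w with
    | nil => rfl
    | cons y w =>
      rw [Lz_cons, ih]
      split_ifs <;> ring

theorem Lz_mw {R V : Type} [Fintype R] {π : R → ℝ} {κ : R → R → ℝ} (hm : IsMach π κ) (c : ℝ)
    (κ' : R → R → ℝ) (hκ' : ∀ r r', κ' r r' = (if r = r' then c else 0) + (1 - c) * κ r r')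
    (o : R → V) (w : List V) (r : R) :
    mw κ' o w r = Lz c w (fun u => mw κ o u r) := by
  have hsum : ∀ (r : R) (M : R → ℝ), ∑ r', κ' r r' * M r' = c * M r + (1 - c) * ∑ r', κ r r' * M r' := by
    intro r M
    have h1 : ∀ r', κ' r r' * M r' = (if r = r' then c * M r' else 0) + (1 - c) * (κ r r' * M r') := by
      intro r'
      rw [hκ']
      split_ifs <;> ring
    simp only [h1]
    rw [Finset.sum_add_distrib, Finset.sum_ite_eq, if_pos (Finset.mem_univ _), Finset.mul_sum]
  induction w generalizing r with
  | nil => rfl
  | cons x w ih =>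
    cases w with
    | nil =>
      show (if o r = x then ∑ r', κ' r r' * (1 : ℝ) else 0) = if o r = x then ∑ r', κ r r' * (1 : ℝ) else 0
      rw [hsum r (fun _ => 1)]
      simp only [mul_one]
      rw [hm.κ_sum r, mul_one, add_sub_cancel]
    | cons y w =>
      have e1 : mw κ' o (x :: y :: w) r = if o r = x then ∑ r', κ' r r' * mw κ' o (y :: w) r' else 0 :=
        rfl
      have e0 : o r ≠ y → mw κ' o (y :: w) r = 0 := by
        intro h
        show (if o r = y then ∑ r', κ' r r' * mw κ' o w r' else 0) = 0
        rw [if_neg h]
      rw [e1, hsum, Lz_cons, ← ih r]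
      by_cases hx : o r = x
      · rw [if_pos hx]
        have e2 : (fun u => mw κ o (x :: u) r) = fun u => ∑ s, κ r s * mw κ o u s := by
          funext u
          show (if o r = x then ∑ s, κ r s * mw κ o u s else 0) = _
          rw [if_pos hx]
        rw [e2, Lz_sum]
        simp only [ih]
        by_cases hxy : x = y
        · rw [if_pos hxy]
        · rw [if_neg hxy, ← ih r, e0 (by rw [hx]; exact hxy), mul_zero]
      · rw [if_neg hx]
        have e2 : (fun u => mw κ o (x :: u) r) = fun _ => (0 : ℝ) := by
          funext u
          show (if o r = x then ∑ s, κ r s * mw κ o u s else 0) = _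
          rw [if_neg hx]
        rw [e2, Lz_zero, mul_zero, add_zero]
        by_cases hxy : x = y
        · rw [if_pos hxy, e0 (by rw [← hxy]; exact hx), mul_zero]
        · rw [if_neg hxy]

theorem Lz_path (V : Type) [Fintype V] (hV : 2 ≤ Fintype.card V) (w : List V) :
    Lz (1 / (Fintype.card V : ℝ)) w (pathw false V) = pathw true V w := by
  have hn : (2 : ℝ) ≤ Fintype.card V := by exact_mod_cast hV
  have hn0 : (Fintype.card V : ℝ) ≠ 0 := by linarith
  have hn1 : (Fintype.card V : ℝ) - 1 ≠ 0 := by linarith
  induction w with
  | nil => rfl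
  | cons x w ih =>
    cases w with
    | nil => rfl
    | cons y w =>
      rw [Lz_cons, Lz_supp _ (stp false V x y) y w (fun u => pathw false V (x :: u))
        (pathw false V), ih]
      · show (if x = y then 1 / (Fintype.card V : ℝ) * pathw true V (y :: w) else 0)
          + (1 - 1 / (Fintype.card V : ℝ)) * (stp false V x y * pathw true V (y :: w))
          = 1 / (Fintype.card V : ℝ) * (stp true V x y * steps true V y w)
        have e : pathw true V (y :: w) = 1 / (Fintype.card V : ℝ) * steps true V y w := rfl
        rw [e]
        unfold stp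
        by_cases h : x = y
        · simp [h]
        · simp [h]
          field_simp
      · intro u
        show 1 / (Fintype.card V : ℝ) * (stp false V x y * steps false V y u)
          = stp false V x y * (1 / (Fintype.card V : ℝ) * steps false V y u)
        ring

theorem fsc_lazy (k : ℕ) (V : Type) [Fintype V] (hV : 2 ≤ Fintype.card V)
    (h : FSC false k V) : FSC true k V := by
  obtain ⟨R, hR, π, κ, out, hm, hs, hc⟩ := h
  have hn : (2 : ℝ) ≤ Fintype.card V := by exact_mod_cast hV
  set c : ℝ := 1 / (Fintype.card V : ℝ) with hcdef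
  have hc0 : 0 ≤ c := by positivity
  have hc1 : 0 ≤ 1 - c := by
    have : c ≤ 1 := by
      rw [hcdef, div_le_one (by linarith)]
      linarith
    linarith
  set κ' : R → R → ℝ := fun r r' => (if r = r' then c else 0) + (1 - c) * κ r r' with hκ'
  have hm' : IsMach π κ' := by
    refine ⟨hm.π_nonneg, hm.π_sum, fun r r' => ?_, fun r => ?_⟩
    · refine add_nonneg ?_ (mul_nonneg hc1 (hm.κ_nonneg r r'))
      split_ifs
      · exact hc0
      · exact le_rfl
    · simp only [hκ']
      rw [Finset.sum_add_distrib, Finset.sum_ite_eq, if_pos (Finset.mem_univ _), ← Finset.mul_sum,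
        hm.κ_sum r]
      ring
  have hs' : IsStat π κ' := by
    intro r'
    have h1 : ∀ r, π r * κ' r r' = (if r = r' then c * π r else 0) + (1 - c) * (π r * κ r r') := by
      intro r
      simp only [hκ']
      split_ifs <;> ring
    simp only [h1]
    rw [Finset.sum_add_distrib, Finset.sum_ite_eq', if_pos (Finset.mem_univ _), ← Finset.mul_sum,
      hs r']
    ring
  refine ⟨R, hR, π, κ', out, hm', hs', isLaw_law hm' hs' out, fun i v => ?_, ?_⟩
  · rw [own_law]
    have h1 : law π κ' (fun r => out r i) v = Lz c v (law π κ (fun r => out r i)) := by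
      have e : law π κ (fun r => out r i)
          = fun u => ∑ r, π r * mw κ (fun r => out r i) u r := rfl
      rw [e, Lz_sum]
      unfold law
      refine Finset.sum_congr rfl fun r _ => ?_
      rw [Lz_mw hm c κ' (fun _ _ => rfl)]
    have h2 : law π κ (fun r => out r i) = pathw false V := by
      funext u
      rw [← hc.own_eq i u, own_law]
    rw [h1, h2, Lz_path V hV]
  · refine good_of_inv out (fun r => π r ≠ 0) (fun r h => h) ?_ ?_ ?_
    · intro r r' hr hk
      by_cases h : r = r'
      · rw [← h]; exact hr
      · have h2 : κ r r' ≠ 0 := by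
          intro h0
          apply hk
          simp only [hκ']
          rw [if_neg h, h0, mul_zero, add_zero]
        exact supp_inv hm hs r r' hr h2
    · intro r hr
      exact inj_of_good hm out hc.good r hr
    · intro r r' hr hk
      by_cases h : r = r'
      · rw [← h]
        intro i j hij he
        exact absurd (inj_of_good hm out hc.good r hr he) (ne_of_lt hij)
      · have h2 : κ r r' ≠ 0 := by
          intro h0
          apply hk
          simp only [hκ']
          rw [if_neg h, h0, mul_zero, add_zero]
        exact avoid_of_good hm out hc.good r r' hr h2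

end Pool.Agent.H95.AV
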