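import Pool.Agent.H95.AV.Own
import Pool.Agent.H95.AV.PathF

/-!
# Job AV-MeasA: the walkers of the measure

PROOF.  The event `{x | ∀ t ≤ T, x t i = w t}` is the disjoint union of the cylinders
`{x | ∀ t : Fin (T + 1), x t = u t}` over the `u : Fin (T + 1) → Fin k → Fin n` with `u t i = w t` for all `t`, so its
measure is `∑_u ofReal (p (List.ofFn u)) = ofReal (own (· i) (List.ofFn (fun t : Fin (T + 1) => w t)) p)`
(`own_ofFn`) `= ofReal (pathw lp (Fin n) (List.ofFn ..))`, and `pathw_ofFn`.
-/

set_option autoImplicit false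

namespace Pool.Agent.H95.AV

open Classical MeasureTheory

theorem meas_walk (lp : Bool) (k n : ℕ) {p : List (Fin k → Fin n) → ℝ}
    (hc : IsCoupl lp k (Fin n) p) (μ : Measure (ℕ → Fin k → Fin n))
    (hμ : ∀ (T : ℕ) (w : Fin T → Fin k → Fin n), μ {x | ∀ t : Fin T, x t = w t} =
      ENNReal.ofReal (p (List.ofFn w))) (i : Fin k) (T : ℕ) (w : ℕ → Fin n) :
    μ {x | ∀ t ≤ T, x t i = w t} =
      ENNReal.ofReal (1 / (n : ℝ) * ∏ t ∈ Finset.range T, Model.step lp n (w t) (w (t + 1))) := by
  have hE : {x : ℕ → Fin k → Fin n | ∀ t ≤ T, x t i = w t} =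
      ⋃ u ∈ (Finset.univ.filter fun u : Fin (T + 1) → Fin k → Fin n =>
        (fun t => u t i) = fun t : Fin (T + 1) => w t),
        {x : ℕ → Fin k → Fin n | ∀ t : Fin (T + 1), x t = u t} := by
    ext x
    simp only [Set.mem_iUnion, Finset.mem_filter, Finset.mem_univ, true_and, exists_prop,
      Set.mem_ofPred_eq]
    constructor
    · intro h
      refine ⟨fun t => x t, ?_, fun t => rfl⟩
      funext t
      exact h t (by omega)
    · rintro ⟨u, hu, hx⟩ t ht
      have h1 := hx ⟨t, by omega⟩
      have h2 := congrFun hu ⟨t, by omega⟩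
      simp only at h1 h2
      rw [h1, h2]
  have hm : ∀ u : Fin (T + 1) → Fin k → Fin n,
      MeasurableSet {x : ℕ → Fin k → Fin n | ∀ t : Fin (T + 1), x t = u t} := by
    intro u
    have h1 : {x : ℕ → Fin k → Fin n | ∀ t : Fin (T + 1), x t = u t} =
        ⋂ t : Fin (T + 1), (fun x : ℕ → Fin k → Fin n => x t) ⁻¹' {u t} := by
      ext x
      simp
    rw [h1]
    exact MeasurableSet.iInter fun t => (measurable_pi_apply _) (measurableSet_singleton _)
  rw [hE, measure_biUnion_finset]
  · have h1 : ∀ u ∈ (Finset.univ.filter fun u : Fin (T + 1) → Fin k → Fin n =>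
        (fun t => u t i) = fun t : Fin (T + 1) => w t),
        μ {x : ℕ → Fin k → Fin n | ∀ t : Fin (T + 1), x t = u t} =
          ENNReal.ofReal (p (List.ofFn u)) := fun u _ => hμ (T + 1) u
    have h2 : ∑ u ∈ (Finset.univ.filter fun u : Fin (T + 1) → Fin k → Fin n =>
        (fun t => u t i) = fun t : Fin (T + 1) => w t), p (List.ofFn u) =
        own (fun x : Fin k → Fin n => x i) (List.ofFn fun t : Fin (T + 1) => w t) p := by
      rw [own_ofFn, Finset.sum_filter]
      refine Finset.sum_congr rfl fun u _ => ?_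
      by_cases h : (fun t => u t i) = fun t : Fin (T + 1) => w t
      · rw [if_pos h, if_pos h]
      · rw [if_neg h, if_neg h]
    rw [Finset.sum_congr rfl h1, ← ENNReal.ofReal_sum_of_nonneg fun u _ => hc.isLaw.nonneg _,
      h2, hc.own_eq, pathw_ofFn]
  · intro u _ v _ huv
    refine Set.disjoint_left.mpr fun x hx hy => huv ?_
    funext t
    exact (hx t).symm.trans (hy t)
  · exact fun u _ => hm u

end Pool.Agent.H95.AV
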