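import Pool.Agent.H95.AV.GoodM
import Pool.Agent.H95.AV.PathF

/-!
# Job AV-MeasB: avoidance almost surely, entropy

`meas_avoid`.  PROOF.  If the property fails for `x` at time `t` then the word of the first `t + 2` positions
of `x` is not `Good` (`good_ofFn`), so its cylinder has measure `ofReal (p w) = 0` (`hc.good`).  There are
countably many words (`ae_all_iff`, `measure_iUnion_null` or `MeasureTheory.measure_mono_null`).
`meas_ent`: `μ.real (cylinder w) = p (List.ofFn w)`, as `p ≥ 0`.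
-/

set_option autoImplicit false

namespace Pool.Agent.H95.AV

open Classical MeasureTheory

theorem meas_avoid (lp : Bool) (k n : ℕ) {p : List (Fin k → Fin n) → ℝ}
    (hc : IsCoupl lp k (Fin n) p) (μ : Measure (ℕ → Fin k → Fin n))
    (hμ : ∀ (T : ℕ) (w : Fin T → Fin k → Fin n), μ {x | ∀ t : Fin T, x t = w t} =
      ENNReal.ofReal (p (List.ofFn w))) :
    ∀ᵐ x ∂μ, ∀ t : ℕ, Function.Injective (x t) ∧
      ∀ i j : Fin k, i < j → x (t + 1) i ≠ x t j := by
  have h1 : ∀ (T : ℕ) (w : Fin T → Fin k → Fin n),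
      ∀ᵐ x ∂μ, (∀ t : Fin T, x t = w t) → Good (List.ofFn w) := by
    intro T w
    by_cases hg : Good (List.ofFn w)
    · exact Filter.Eventually.of_forall fun _ _ => hg
    · have h0 : p (List.ofFn w) = 0 := by
        by_contra hne
        exact hg (hc.good _ hne)
      have h2 : μ {x | ∀ t : Fin T, x t = w t} = 0 := by
        rw [hμ, h0, ENNReal.ofReal_zero]
      have h3 : ∀ᵐ x ∂μ, x ∉ {x : ℕ → Fin k → Fin n | ∀ t : Fin T, x t = w t} :=
        measure_eq_zero_iff_ae_notMem.1 h2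
      filter_upwards [h3] with x hx hw
      exact absurd hw hx
  have h2 : ∀ᵐ x ∂μ, ∀ (T : ℕ) (w : Fin T → Fin k → Fin n),
      (∀ t : Fin T, x t = w t) → Good (List.ofFn w) := by
    rw [ae_all_iff]
    intro T
    rw [ae_all_iff]
    exact h1 T
  filter_upwards [h2] with x hx t
  have h3 := hx (t + 2) (fun s => x s) (fun _ => rfl)
  rw [good_ofFn] at h3
  refine ⟨h3.1 ⟨t, by omega⟩, ?_⟩
  exact h3.2 ⟨t, by omega⟩ ⟨t + 1, by omega⟩ rfl

theorem meas_ent (lp : Bool) (k n : ℕ) {p : List (Fin k → Fin n) → ℝ}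
    (hc : IsCoupl lp k (Fin n) p) (μ : Measure (ℕ → Fin k → Fin n))
    (hμ : ∀ (T : ℕ) (w : Fin T → Fin k → Fin n), μ {x | ∀ t : Fin T, x t = w t} =
      ENNReal.ofReal (p (List.ofFn w))) (T : ℕ) : Model.blockEntropy μ T = ent p T := by
  unfold Model.blockEntropy ent
  refine Finset.sum_congr rfl fun w _ => ?_
  congr 1
  rw [Measure.real, hμ, ENNReal.toReal_ofReal (hc.isLaw.nonneg _)]

end Pool.Agent.H95.AV
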