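import Pool.Agent.H95.AV.LawM
import Pool.Agent.H95.AV.Model

/-!
# Job AV-MeasC: stationarity of the measure

PROOF.  Both sides are probability measures on `ℕ → (Fin k → Fin n)`.  The shift is measurable.  For a
cylinder `{x | ∀ t : Fin T, x t = w t}` the preimage under the shift is the disjoint union over `a` of the
cylinders of `Fin.cons a w`, so `μ.map shift` gives it the measure `∑_a ofReal (p (a :: List.ofFn w)) =
ofReal (p (List.ofFn w))` (`left`, `List.ofFn_succ`).  The cylinders together with the empty set form a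
pi-system which generates the product sigma algebra (all points of the finite set `Fin k → Fin n` are
measurable; every set `{x | x t ∈ s}` is a finite union of cylinders of length `t + 1`):
`MeasureTheory.ext_of_generate_finite`; or use `MeasureTheory.IsProjectiveLimit.unique` /
`Measure.ext` with `MeasurableSpace.pi`.
-/

set_option autoImplicit false

namespace Pool.Agent.H95.AV

open Classical MeasureTheory

/-- the first `T` coordinates -/
def firstT (T : ℕ) {E : Type} (x : ℕ → E) : Fin T → E := fun t => x t

theorem measurable_firstT (T : ℕ) {E : Type} [MeasurableSpace E] :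
    Measurable (firstT T : (ℕ → E) → (Fin T → E)) :=
  measurable_pi_lambda _ (fun t => measurable_pi_apply (t : ℕ))

theorem measurable_shiftN {E : Type} [MeasurableSpace E] :
    Measurable (fun (x : ℕ → E) (t : ℕ) => x (t + 1)) :=
  measurable_pi_lambda _ (fun t => measurable_pi_apply (t + 1))

theorem meas_eq_of_cyl {E : Type} [Fintype E] [MeasurableSpace E] [MeasurableSingletonClass E]
    (μ ν : Measure (ℕ → E)) [IsProbabilityMeasure μ] [IsProbabilityMeasure ν]
    (h : ∀ (T : ℕ) (w : Fin T → E), ν {x | ∀ t : Fin T, x t = w t} =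
      μ {x | ∀ t : Fin T, x t = w t}) : ν = μ := by
  have hT : ∀ T : ℕ, ν.map (firstT T) = μ.map (firstT T) := by
    intro T
    refine Measure.ext_of_singleton (fun w => ?_)
    rw [Measure.map_apply (measurable_firstT T) (measurableSet_singleton w),
      Measure.map_apply (measurable_firstT T) (measurableSet_singleton w)]
    have e : firstT T ⁻¹' {w} = {x : ℕ → E | ∀ t : Fin T, x t = w t} := by
      ext x
      simp only [Set.mem_preimage, Set.mem_singleton_iff, Set.mem_setOf_eq, firstT, funext_iff]
    rw [e]
    exact h T w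
  have hI : ∀ I : Finset ℕ, ν.map I.restrict = μ.map I.restrict := by
    intro I
    have hsub : ∀ i ∈ I, i < I.sup id + 1 := fun i hi =>
      Nat.lt_succ_of_le (Finset.le_sup (f := id) hi)
    have hg : Measurable (fun (w : Fin (I.sup id + 1) → E) (i : I) => w ⟨i, hsub i i.2⟩) :=
      measurable_pi_lambda _ (fun i => measurable_pi_apply _)
    have hcomp : (I.restrict : (ℕ → E) → (I → E)) =
        (fun (w : Fin (I.sup id + 1) → E) (i : I) => w ⟨i, hsub i i.2⟩) ∘
          firstT (I.sup id + 1) := rfl
    rw [hcomp, ← Measure.map_map hg (measurable_firstT _),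
      ← Measure.map_map hg (measurable_firstT _), hT]
  have hfin : ∀ I : Finset ℕ, IsFiniteMeasure (μ.map (I.restrict : (ℕ → E) → (I → E))) :=
    fun I => inferInstance
  exact IsProjectiveLimit.unique (P := fun I : Finset ℕ => μ.map (I.restrict)) (fun I => hI I)
    (fun I => rfl)

theorem meas_stat (k n : ℕ) {p : List (Fin k → Fin n) → ℝ} (hp : IsLaw p)
    (μ : Measure (ℕ → Fin k → Fin n)) (hμ1 : IsProbabilityMeasure μ)
    (hμ : ∀ (T : ℕ) (w : Fin T → Fin k → Fin n), μ {x | ∀ t : Fin T, x t = w t} =
      ENNReal.ofReal (p (List.ofFn w))) : Model.IsStationary μ := by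
  unfold Model.IsStationary
  have hν : IsProbabilityMeasure
      (μ.map (fun (x : ℕ → Fin k → Fin n) (t : ℕ) => x (t + 1))) :=
    Measure.isProbabilityMeasure_map measurable_shiftN.aemeasurable
  refine meas_eq_of_cyl μ _ (fun T w => ?_)
  have hset : ∀ (M : ℕ) (v : Fin M → Fin k → Fin n),
      MeasurableSet {x : ℕ → Fin k → Fin n | ∀ t : Fin M, x t = v t} := by
    intro M v
    have e : {x : ℕ → Fin k → Fin n | ∀ t : Fin M, x t = v t} = firstT M ⁻¹' {v} := by
      ext x
      simp only [Set.mem_preimage, Set.mem_singleton_iff, Set.mem_setOf_eq, firstT, funext_iff]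
    rw [e]
    exact measurable_firstT M (measurableSet_singleton v)
  rw [Measure.map_apply measurable_shiftN (hset T w)]
  have e1 : (fun (x : ℕ → Fin k → Fin n) (t : ℕ) => x (t + 1)) ⁻¹'
      {x | ∀ t : Fin T, x t = w t} =
      ⋃ a ∈ (Finset.univ : Finset (Fin k → Fin n)),
        {x : ℕ → Fin k → Fin n | ∀ t : Fin (T + 1), x t =
          (Fin.cons a w : Fin (T + 1) → Fin k → Fin n) t} := by
    ext x
    simp only [Set.mem_preimage, Set.mem_setOf_eq, Set.mem_iUnion, Finset.mem_univ, true_and,
      exists_prop]
    constructor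
    · intro hx
      refine ⟨x 0, fun t => ?_⟩
      refine Fin.cases ?_ (fun i => ?_) t
      · rw [Fin.cons_zero]; rfl
      · rw [Fin.cons_succ, Fin.val_succ]; exact hx i
    · rintro ⟨a, ha⟩ t
      have h1 := ha t.succ
      rw [Fin.cons_succ, Fin.val_succ] at h1
      exact h1
  have hdisj : Set.PairwiseDisjoint (↑(Finset.univ : Finset (Fin k → Fin n)))
      (fun a => {x : ℕ → Fin k → Fin n | ∀ t : Fin (T + 1), x t =
          (Fin.cons a w : Fin (T + 1) → Fin k → Fin n) t}) := by
    intro a _ b _ hab
    rw [Function.onFun, Set.disjoint_left]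
    intro x hxa hxb
    have h1 := hxa 0
    have h2 := hxb 0
    rw [Fin.cons_zero] at h1 h2
    exact hab (h1.symm.trans h2)
  rw [e1, measure_biUnion_finset hdisj (fun a _ => hset (T + 1) _)]
  have e2 : ∀ a : Fin k → Fin n, μ {x : ℕ → Fin k → Fin n | ∀ t : Fin (T + 1), x t =
      (Fin.cons a w : Fin (T + 1) → Fin k → Fin n) t} =
      ENNReal.ofReal (p (a :: List.ofFn w)) := by
    intro a
    rw [hμ (T + 1) (Fin.cons a w), List.ofFn_cons]
  rw [Finset.sum_congr rfl (fun a _ => e2 a),
    ← ENNReal.ofReal_sum_of_nonneg (fun a _ => hp.nonneg _), hp.left, hμ T w]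

end Pool.Agent.H95.AV
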