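import Pool.Agent.H95.AV.Ext
import Pool.Agent.H95.AV.MeasA
import Pool.Agent.H95.AV.MeasB
import Pool.Agent.H95.AV.MeasC

/-!
# Job AV-Meas: from words to measures

Assembly: `p` from `MinE`, `μ` from `exists_measure` (`A = Fin k → Fin n`, nonempty as `2 ≤ n`),
`meas_walk`, `meas_avoid`, `meas_stat`, `meas_ent`; `dgr loops (Fin n) = if loops then n else n - 1`.
-/

set_option autoImplicit false

namespace Pool.Agent.H95.AV

open Classical MeasureTheory

theorem model_of_minE (loops : Bool) (k n : ℕ) (hn : 2 ≤ n) (h : MinE loops k (Fin n)) :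
    Model.HasMinimumEntropyCoupling loops k n := by
  obtain ⟨p, hc, hp⟩ := h
  have : Nonempty (Fin k → Fin n) := ⟨fun _ => ⟨0, by omega⟩⟩
  obtain ⟨μ, hμ1, hμ⟩ := exists_measure hc.isLaw
  refine ⟨μ, ⟨hμ1, meas_walk loops k n hc μ hμ, meas_avoid loops k n hc μ hμ⟩,
    meas_stat k n hc.isLaw μ hμ1 hμ, ?_⟩
  have h1 : (fun T : ℕ => Model.blockEntropy μ T / T) = fun T : ℕ => ent p T / T := by
    funext T
    rw [meas_ent loops k n hc μ hμ]
  have h2 : dgr loops (Fin n) = if loops = true then (n : ℝ) else (n : ℝ) - 1 := by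
    unfold dgr
    rw [Fintype.card_fin]
  rw [h1, ← h2]
  exact hp

end Pool.Agent.H95.AV
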