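import Pool.Agent.H95.AV.ProdL
import Pool.Agent.H95.AV.GoodM
import Pool.Agent.H95.AV.Path

/-!
# Job AV-Mono: one more vertex, with loops

PROOF.  Let `(R, π, κ, out)` be a machine as in `FSC true k V`, `n = card V ≥ 2`, `u : V`.  New machine:
states `(r, s, c) : R × R × Bool` (two independent copies and an independent coin), law
`π r * π s * β c`, kernel `κ r r' * κ s s' * β c'`, `β true = n / (n + 1)`, `β false = 1 / (n + 1)`, output
`i ↦ if out s i = u ∧ c = true then none else some (out r i)`.
`IsMach`, `IsStat`: products.  So the law is a law (`isLaw_law`).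
(Use `prod_mach`, `prod_stat` twice, states `R × (R × Bool)`.)
Own law of walker `i`: by `law_prod`, `law_iid` the law of `(out r i, out s i, c)` at the word `w` of length `T`
is `(1/n)^T (1/n)^T ∏ β (c_t)` (`pathw true V w = (1/n)^T`), i.e. `(w.map wt).prod` with
`wt (x, y, c) = 1/n * 1/n * β c`, and the law of `i ↦ ...` is its image (`own_law` or `own_own`), given by
`own_iid`.  For `none`: `(1/n) (n/(n+1)) =
1/(n+1)` (summed over `out r i`); for `some x`: `(1/n) (1 - 1/(n+1)) = 1/(n+1)`.
`Good`: `good_of_inv` with `J (r, s, c)`: `π r ≠ 0 ∧ π s ≠ 0` (`supp_inv`, `inj_of_good`, `avoid_of_good`): if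
two walkers `i < j` are at `none` at consecutive times then `out s' i = u = out s j`, contradicting
`Avoid (out s) (out s')`; two walkers at `none` at the same time contradict injectivity of `out s`.
-/

set_option autoImplicit false

namespace Pool.Agent.H95.AV

open Classical

theorem Mono_steps (V : Type) [Fintype V] (x : V) (w : List V) :
    steps true V x w = (w.map fun _ => 1 / (Fintype.card V : ℝ)).prod := by
  induction w generalizing x with
  | nil => rfl
  | cons y w ih =>
    rw [steps, ih, List.map_cons, List.prod_cons]
    congr 1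

theorem Mono_pathw (V : Type) [Fintype V] (w : List V) :
    pathw true V w = (w.map fun _ => 1 / (Fintype.card V : ℝ)).prod := by
  cases w with
  | nil => rfl
  | cons x w => rw [pathw, Mono_steps, List.map_cons, List.prod_cons]

/-- the coin -/
noncomputable def Mono_beta (n : ℝ) (c : Bool) : ℝ := if c = true then n / (n + 1) else 1 / (n + 1)

theorem Mono_beta_mach {n : ℝ} (hn : 0 < n) :
    IsMach (Mono_beta n) (fun _ y => Mono_beta n y) := by
  have h0 : ∀ c, 0 ≤ Mono_beta n c := by
    intro c
    unfold Mono_beta
    split_ifs <;> positivity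
  have h1 : ∑ c, Mono_beta n c = 1 := by
    rw [Fintype.sum_bool]
    unfold Mono_beta
    rw [if_pos rfl, if_neg (by simp)]
    field_simp
  exact ⟨h0, h1, fun _ c => h0 c, fun _ => h1⟩

theorem Mono_beta_stat {n : ℝ} (hn : 0 < n) :
    IsStat (Mono_beta n) (fun _ y => Mono_beta n y) := by
  intro c
  rw [← Finset.sum_mul, (Mono_beta_mach hn).π_sum, one_mul]

theorem Mono_fibre {V : Type} [Fintype V] (hV : 2 ≤ Fintype.card V) (u : V) (b : Option V) :
    ∑ a : V × (V × Bool), (if (if a.2.1 = u ∧ a.2.2 = true then none else some a.1) = b then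
      1 / (Fintype.card V : ℝ) * (1 / (Fintype.card V : ℝ) *
        Mono_beta (Fintype.card V : ℝ) a.2.2) else 0) = 1 / (Fintype.card (Option V) : ℝ) := by
  have hn : (0 : ℝ) < Fintype.card V := by
    have : 0 < Fintype.card V := by omega
    exact_mod_cast this
  rw [Fintype.card_option, Nat.cast_add, Nat.cast_one]
  set n : ℝ := (Fintype.card V : ℝ) with hndef
  rw [Fintype.sum_prod_type]
  cases b with
  | none =>
    have h1 : ∀ x y : V, ((if (if y = u ∧ true = true then none else some x) = none then
        1 / n * (1 / n * Mono_beta n true) else 0) +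
        (if (if y = u ∧ false = true then none else some x) = none then
        1 / n * (1 / n * Mono_beta n false) else 0) : ℝ) =
        if y = u then 1 / n * (1 / n * Mono_beta n true) else 0 := by
      intro x y
      by_cases h : y = u
      · simp [h]
      · simp [h]
    refine (Finset.sum_congr rfl fun x _ => (Fintype.sum_prod_type _).trans
      (Finset.sum_congr rfl fun y _ => (Fintype.sum_bool _).trans (h1 x y))).trans ?_
    rw [Finset.sum_const, Finset.sum_ite_eq', if_pos (Finset.mem_univ _), Finset.card_univ,
      nsmul_eq_mul, ← hndef]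
    unfold Mono_beta
    rw [if_pos rfl]
    field_simp
  | some z =>
    have h1 : ∀ x y : V, ((if (if y = u ∧ true = true then none else some x) = some z then
        1 / n * (1 / n * Mono_beta n true) else 0) +
        (if (if y = u ∧ false = true then none else some x) = some z then
        1 / n * (1 / n * Mono_beta n false) else 0) : ℝ) =
        if x = z then (1 / n * (1 / n * (Mono_beta n true + Mono_beta n false)) -
          if y = u then 1 / n * (1 / n * Mono_beta n true) else 0) else 0 := by
      intro x y
      by_cases h : y = u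
      · by_cases h' : x = z
        · simp [h, h']
          ring
        · simp [h, h']
      · by_cases h' : x = z
        · simp [h, h']
          ring
        · simp [h, h']
    refine (Finset.sum_congr rfl fun x _ => (Fintype.sum_prod_type _).trans
      (Finset.sum_congr rfl fun y _ => (Fintype.sum_bool _).trans (h1 x y))).trans ?_
    rw [Finset.sum_comm]
    simp only [Finset.sum_ite_eq', Finset.mem_univ, if_true]
    rw [Finset.sum_sub_distrib, Finset.sum_const, Finset.sum_ite_eq', if_pos (Finset.mem_univ _),
      Finset.card_univ, nsmul_eq_mul, ← hndef]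
    unfold Mono_beta
    rw [if_pos rfl, if_neg (by simp)]
    field_simp
    ring

theorem fsc_mono (k : ℕ) (V : Type) [Fintype V] (hV : 2 ≤ Fintype.card V)
    (h : FSC true k V) : FSC true k (Option V) := by
  obtain ⟨R, hR, π, κ, out, hM, hS, hC⟩ := h
  have hn : (0 : ℝ) < Fintype.card V := by
    have : 0 < Fintype.card V := by omega
    exact_mod_cast this
  obtain ⟨u⟩ : Nonempty V := Fintype.card_pos_iff.1 (by omega)
  set β : Bool → ℝ := Mono_beta (Fintype.card V : ℝ) with hβ
  have hMβ : IsMach β (fun _ y => β y) := Mono_beta_mach hn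
  have hSβ : IsStat β (fun _ y => β y) := Mono_beta_stat hn
  have hM' := prod_mach hM (prod_mach hM hMβ)
  have hS' := prod_stat hS (prod_stat hS hSβ)
  refine ⟨R × (R × Bool), inferInstance, _, _,
    fun x i => if out x.2.1 i = u ∧ x.2.2 = true then none else some (out x.1 i), hM', hS',
    isLaw_law hM' hS' _, ?_, ?_⟩
  · intro i v
    rw [own_law]
    refine (own_law (fun x : R × (R × Bool) => π x.1 * (π x.2.1 * β x.2.2))
      (fun x y : R × (R × Bool) => κ x.1 y.1 * (κ x.2.1 y.2.1 * β y.2.2))
      (fun x : R × (R × Bool) => (out x.1 i, (out x.2.1 i, x.2.2)))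
      (fun t : V × (V × Bool) =>
        (if t.2.1 = u ∧ t.2.2 = true then none else some t.1 : Option V)) v).symm.trans ?_
    have e2 : law (fun x : R × (R × Bool) => π x.1 * (π x.2.1 * β x.2.2))
        (fun x y : R × (R × Bool) => κ x.1 y.1 * (κ x.2.1 y.2.1 * β y.2.2))
        (fun x : R × (R × Bool) => (out x.1 i, (out x.2.1 i, x.2.2))) =
        fun w : List (V × (V × Bool)) => (w.map fun t => 1 / (Fintype.card V : ℝ) *
          (1 / (Fintype.card V : ℝ) * β t.2.2)).prod := by
      funext w
      have e3 := law_prod π (fun x : R × Bool => π x.1 * β x.2) κ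
        (fun x y : R × Bool => κ x.1 y.1 * β y.2) (fun r => out r i)
        (fun x : R × Bool => (out x.1 i, x.2)) w
      have e4 := law_prod π β κ (fun _ y => β y) (fun r => out r i) (fun c : Bool => c)
        (w.map Prod.snd)
      have e5 : ∀ w : List V, law π κ (fun r => out r i) w =
          (w.map fun _ => 1 / (Fintype.card V : ℝ)).prod := by
        intro w
        rw [← own_law π κ out (fun x => x i), hC.own_eq, Mono_pathw]
      refine e3.trans ?_
      rw [e4, e5, e5, law_iid β hMβ.π_sum]
      simp only [List.map_map]
      rw [← List.prod_map_mul, ← List.prod_map_mul]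
      rfl
    refine (congrArg (own _ v) e2).trans ?_
    rw [own_iid, Mono_pathw]
    congr 1
    apply List.map_congr_left
    intro b _
    refine Eq.trans (Finset.sum_congr rfl fun a _ => ?_) (Mono_fibre hV u b)
    by_cases h : (if a.2.1 = u ∧ a.2.2 = true then none else some a.1 : Option V) = b
    · rw [if_pos h, if_pos h]
    · rw [if_neg h, if_neg h]
  · have hJ : ∀ x y : R × (R × Bool), (π x.1 ≠ 0 ∧ π x.2.1 ≠ 0) →
        κ x.1 y.1 * (κ x.2.1 y.2.1 * β y.2.2) ≠ 0 →
        (κ x.1 y.1 ≠ 0 ∧ κ x.2.1 y.2.1 ≠ 0) := fun x y _ h =>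
      ⟨left_ne_zero_of_mul h, left_ne_zero_of_mul (right_ne_zero_of_mul h)⟩
    intro w hw
    refine good_of_inv _ (fun x : R × (R × Bool) => π x.1 ≠ 0 ∧ π x.2.1 ≠ 0) ?_ ?_ ?_ ?_ w hw
    · intro x hx
      exact ⟨left_ne_zero_of_mul hx, left_ne_zero_of_mul (right_ne_zero_of_mul hx)⟩
    · intro x y hx hxy
      have h1 := hJ x y hx hxy
      exact ⟨supp_inv hM hS _ _ hx.1 h1.1, supp_inv hM hS _ _ hx.2 h1.2⟩
    · intro x hx i j hij
      have h1 := inj_of_good hM out hC.good x.1 hx.1
      have h2 := inj_of_good hM out hC.good x.2.1 hx.2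
      simp only at hij
      by_cases hi : out x.2.1 i = u ∧ x.2.2 = true
      · rw [if_pos hi] at hij
        by_cases hj : out x.2.1 j = u ∧ x.2.2 = true
        · exact h2 (hi.1.trans hj.1.symm)
        · rw [if_neg hj] at hij
          exact absurd hij (by simp)
      · rw [if_neg hi] at hij
        by_cases hj : out x.2.1 j = u ∧ x.2.2 = true
        · rw [if_pos hj] at hij
          exact absurd hij (by simp)
        · rw [if_neg hj] at hij
          exact h1 (Option.some_injective _ hij)
    · intro x y hx hxy i j hij heq
      have h0 := hJ x y hx hxy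
      have h1 := avoid_of_good hM out hC.good x.1 y.1 hx.1 h0.1
      have h2 := avoid_of_good hM out hC.good x.2.1 y.2.1 hx.2 h0.2
      simp only at heq
      by_cases hi : out y.2.1 i = u ∧ y.2.2 = true
      · rw [if_pos hi] at heq
        by_cases hj : out x.2.1 j = u ∧ x.2.2 = true
        · exact h2 i j hij (hi.1.trans hj.1.symm)
        · rw [if_neg hj] at heq
          exact absurd heq (by simp)
      · rw [if_neg hi] at heq
        by_cases hj : out x.2.1 j = u ∧ x.2.2 = true
        · rw [if_pos hj] at heq
          exact absurd heq (by simp)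
        · rw [if_neg hj] at heq
          exact h1 i j hij (Option.some_injective _ heq)

end Pool.Agent.H95.AV
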