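import Pool.Agent.H95.AV.Model

/-!
# Job AV-NonEx: two walkers on very small graphs

PROOF.  Let `μ` be an avoidance coupling of two walkers on `n` vertices; `μ` is a probability, so the
a.s. properties hold for some trajectory in every event of positive probability.
`n ≤ 1`: `x 0 : Fin 2 → Fin n` is not injective.
`n = 2`: a.s. `x t 0 ≠ x t 1` and `x (t + 1) 0 ≠ x t 1`, so `x (t + 1) 0 = x t 0`.  But the event
`{x 0 0 = 0, x 1 0 = 1}` has probability `1/2 * step loops 2 0 1 > 0` (`walk` with `T = 1`; the event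
`∀ t ≤ 1, x t 0 = w t`).
`n = 3`, no loops: a.s. `x (t + 1) 0` is different from `x t 0` (probability zero of staying:
`walk` with `T = t + 1`, countably many words) and from `x t 1`, so it is the third vertex; `x (t + 1) 1` is
different from `x (t + 1) 0` and from `x t 1`, so it is `x t 0`; then `x (t + 2) 0` is different from
`x (t + 1) 0` and from `x (t + 1) 1 = x t 0`.  But `{x 0 0 = 0, x 1 0 = 1, x 2 0 = 0}` has probability
`1/3 * 1/2 * 1/2 > 0`.
-/

set_option autoImplicit false

namespace Pool.Agent.H95.AV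

open MeasureTheory

theorem NonEx_exists {Ω : Type*} [MeasurableSpace Ω] {μ : Measure Ω} {P : Ω → Prop}
    (hP : ∀ᵐ x ∂μ, P x) {A : Set Ω} (hA : μ A ≠ 0) : ∃ x ∈ A, P x := by
  by_contra hc
  push Not at hc
  exact hA (measure_mono_null hc (ae_iff.1 hP))

theorem two_walkers_small (loops : Bool) (n : ℕ) (μ : Measure (ℕ → Fin 2 → Fin n))
    (h : Model.IsAvoidanceCoupling loops 2 n μ) :
    (loops = true ∧ n = 3) ∨ 4 ≤ n := by
  have hpr := h.prob
  by_contra hc
  rw [not_or] at hc
  obtain ⟨hc1, hc2⟩ := hc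
  have huniv : μ Set.univ ≠ 0 := by
    rw [measure_univ]
    exact one_ne_zero
  have hn : n = 0 ∨ n = 1 ∨ n = 2 ∨ n = 3 := by omega
  rcases hn with rfl | rfl | rfl | rfl
  · obtain ⟨x, -, -⟩ := NonEx_exists h.avoid huniv
    exact (x 0 0).elim0
  · obtain ⟨x, -, hx⟩ := NonEx_exists h.avoid huniv
    have h1 : (0 : Fin 2) = 1 := (hx 0).1 (Subsingleton.elim _ _)
    exact absurd h1 (by decide)
  · have hA : μ {x | ∀ t ≤ 1, x t 0 = (fun t : ℕ => if t = 0 then (0 : Fin 2) else 1) t} ≠ 0 := by
      rw [h.walk 0 1 (fun t : ℕ => if t = 0 then (0 : Fin 2) else 1)]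
      rw [Finset.prod_range_one]
      have hs : 0 < Model.step loops 2 0 1 := by
        unfold Model.step
        cases loops <;> norm_num
      have : (0 : ℝ) < 1 / ((2 : ℕ) : ℝ) * Model.step loops 2 0 1 := by positivity
      exact (ENNReal.ofReal_pos.2 this).ne'
    obtain ⟨x, hx1, hx⟩ := NonEx_exists h.avoid hA
    have a0 : x 0 0 = 0 := hx1 0 (by norm_num)
    have a1 : x 1 0 = 1 := hx1 1 le_rfl
    have b0 : x 0 1 ≠ x 0 0 := fun he => absurd ((hx 0).1 he) (by decide)
    have b1 : x 1 0 ≠ x 0 1 := (hx 0).2 0 1 (by decide)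
    rw [a0] at b0
    rw [a1] at b1
    generalize x 0 1 = y at b0 b1
    revert y
    decide
  · have hl : loops = false := by
      cases loops
      · rfl
      · exact absurd ⟨rfl, rfl⟩ hc1
    subst hl
    have hA : μ {x | ∀ t ≤ 2, x t 0 = (fun t : ℕ => if t = 1 then (1 : Fin 3) else 0) t} ≠ 0 := by
      rw [h.walk 0 2 (fun t : ℕ => if t = 1 then (1 : Fin 3) else 0)]
      rw [Finset.prod_range_succ, Finset.prod_range_one]
      have hs : 0 < Model.step false 3 0 1 := by
        unfold Model.step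
        norm_num
      have hs' : 0 < Model.step false 3 1 0 := by
        unfold Model.step
        norm_num
      have : (0 : ℝ) < 1 / ((3 : ℕ) : ℝ) * (Model.step false 3 0 1 * Model.step false 3 1 0) := by
        positivity
      exact (ENNReal.ofReal_pos.2 this).ne'
    have hB : ∀ᵐ x ∂μ, ∀ a : Fin 3, ¬ ∀ t ≤ 1, x t 1 = (fun _ : ℕ => a) t := by
      rw [ae_all_iff]
      intro a
      rw [ae_iff]
      have e := h.walk 1 1 (fun _ : ℕ => a)
      rw [Finset.prod_range_one] at e
      have hs : Model.step false 3 a a = 0 := by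
        unfold Model.step
        simp
      rw [hs, mul_zero, ENNReal.ofReal_zero] at e
      simpa only [not_not] using e
    obtain ⟨x, hx1, hx, hx2⟩ := NonEx_exists (h.avoid.and hB) hA
    have a0 : x 0 0 = 0 := hx1 0 (by norm_num)
    have a1 : x 1 0 = 1 := hx1 1 (by norm_num)
    have a2 : x 2 0 = 0 := hx1 2 le_rfl
    have b0 : x 0 1 ≠ x 0 0 := fun he => absurd ((hx 0).1 he) (by decide)
    have b1 : x 1 0 ≠ x 0 1 := (hx 0).2 0 1 (by decide)
    have c0 : x 1 1 ≠ x 1 0 := fun he => absurd ((hx 1).1 he) (by decide)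
    have c1 : x 1 1 ≠ x 0 1 := by
      intro he
      refine hx2 (x 0 1) fun t ht => ?_
      rcases Nat.le_one_iff_eq_zero_or_eq_one.1 ht with rfl | rfl
      · rfl
      · exact he
    have d : x 2 0 ≠ x 1 1 := (hx 1).2 0 1 (by decide)
    rw [a0] at b0
    rw [a1] at b1 c0
    rw [a2] at d
    generalize x 0 1 = y at b0 b1 c1
    generalize x 1 1 = z at c0 c1 d
    revert y z
    decide

end Pool.Agent.H95.AV
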