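import Pool.Agent.H95.AV.OOwn
import Pool.Agent.H95.AV.Own
import Pool.Agent.H95.AV.GoodM

/-!
# Job AV-OPfs: the `O` machine is an avoidance coupling

PROOF.  `IsMach`: `kmap_mach` (`pm_pos`).  Own laws: `own_law` and `o_own`.  `Good`: `good_of_inv` with
`J s`: `t = true → R = true` (preserved: `oT .. = true → R' = true`).  Positions are distinct: only walker `a`
may be at `none`, and `c` is injective.  `Avoid`: let `i < j`, `s' = oF s ω`, and suppose
`oout s' i = oout s j`.  If this is `none` then `i = a'`, `t' = true`, `j = a`, `t = true`, so `R = true` (`J`),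
`a' < a`, `R' = !R = false`, but `t' = true` implies `R' = true`.  If it is `some _` then `c (σ i) = c j`,
so `σ i = j > i`, and the bits agree, contradicting `updX_lt`.
-/

set_option autoImplicit false

namespace Pool.Agent.H95.AV

open Classical

theorem oPfs_iota (m : ℕ) [NeZero m] : ∑ x, oι m x = 1 := by
  rw [Fintype.sum_prod_type, Finset.sum_eq_single 1]
  rotate_left
  · intro c _ hc
    refine Finset.sum_eq_zero fun x _ => ?_
    unfold oι
    rw [if_neg]
    rintro ⟨h, -⟩
    exact hc h
  · intro h
    exact absurd (Finset.mem_univ _) h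
  rw [Fintype.sum_prod_type, Finset.sum_eq_single 0]
  rotate_left
  · intro a _ ha
    refine Finset.sum_eq_zero fun x _ => ?_
    unfold oι
    rw [if_neg]
    rintro ⟨-, h, -⟩
    exact ha h
  · intro h
    exact absurd (Finset.mem_univ _) h
  rw [Fintype.sum_prod_type]
  simp only [Fintype.sum_bool]
  unfold oι
  norm_num

theorem oPfs_mach (m : ℕ) [NeZero m] (hm : 3 ≤ m) :
    IsMach (oπ m) (kmap (oμ m) (oF m)) := by
  refine kmap_mach (oπ m) (oμ m) (oF m) ?_ ?_ ?_ ?_
  · intro r
    unfold oπ
    split_ifs
    · positivity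
    · exact le_rfl
  · have h := o_pi m 0 (fun _ => 1)
    simp only [mul_one, o_one] at h
    rw [h]
    exact oPfs_iota m
  · intro ω
    unfold oμ
    positivity
  · have hp : (0 : ℝ) < (Fintype.card (Pm m) : ℝ) := by exact_mod_cast pm_pos m hm
    unfold oμ
    rw [Finset.sum_const, Finset.card_univ, nsmul_eq_mul]
    have hc : Fintype.card (OΩ m) = Fintype.card (Pm m) * 2 ^ (m + 1) := by
      unfold OΩ
      rw [Fintype.card_prod, Fintype.card_prod, Fintype.card_fun, Fintype.card_bool,
        Fintype.card_fin, pow_succ]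
    rw [hc]
    push_cast
    field_simp

theorem o_pfs (m : ℕ) (hm : 3 ≤ m) : PFS false m (Option (Fin m × Bool)) := by
  have hne : NeZero m := ⟨by omega⟩
  refine ⟨OR m, inferInstance, oπ m, kmap (oμ m) (oF m), oout m, oPfs_mach m hm, ?_, ?_⟩
  · intro i x v
    have h1 := own_law (oπ m) (kmap (oμ m) (oF m)) (oout m)
      (fun y : Fin m → Option (Fin m × Bool) => y i) (x :: v)
    have h2 := own_law (oπ m) (kmap (oμ m) (oF m)) (oout m)
      (fun y : Fin m → Option (Fin m × Bool) => y i) [x]
    rw [h1, h2]
    exact o_own m hm i x v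
  · intro w hw
    refine good_of_inv (oout m) (fun s : OR m => s.2.2.2.2 = true → s.2.2.2.1 = true)
      ?_ ?_ ?_ ?_ w hw
    · intro r hr ht
      have h1 : r.1 = 1 ∧ r.2.1 = 0 ∧ r.2.2.2.2 = false := by
        by_contra hc
        exact hr (if_neg hc)
      rw [h1.2.2] at ht
      exact absurd ht (by decide)
    · intro r r' _ hκ ht
      obtain ⟨ω, -, hω⟩ := kmap_ne_zero _ _ _ _ hκ
      rw [← hω] at ht ⊢
      change oT _ _ (oR r.2.1 ω.1.1.2 r.2.2.2.1 ω.2.2) _ = true at ht
      change oR r.2.1 ω.1.1.2 r.2.2.2.1 ω.2.2 = true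
      unfold oT at ht
      rw [Bool.and_eq_true] at ht
      exact ht.1
    · intro r _ i j hij
      unfold oout at hij
      by_cases hi : i = r.2.1 ∧ r.2.2.2.2 = true
      · by_cases hj : j = r.2.1 ∧ r.2.2.2.2 = true
        · rw [hi.1, hj.1]
        · rw [if_pos hi, if_neg hj] at hij
          exact absurd hij (by simp)
      · by_cases hj : j = r.2.1 ∧ r.2.2.2.2 = true
        · rw [if_neg hi, if_pos hj] at hij
          exact absurd hij (by simp)
        · rw [if_neg hi, if_neg hj] at hij
          have h1 := Option.some.inj hij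
          exact r.1.injective (Prod.mk.inj h1).1
    · intro r r' hJ hκ i j hlt heq
      obtain ⟨ω, -, hω⟩ := kmap_ne_zero _ _ _ _ hκ
      rw [← hω] at heq
      unfold oout at heq
      by_cases hi : i = (oF m r ω).2.1 ∧ (oF m r ω).2.2.2.2 = true
      · by_cases hj : j = r.2.1 ∧ r.2.2.2.2 = true
        · have hR : r.2.2.2.1 = true := hJ hj.2
          have h1 : i = ω.1.1.2 := hi.1
          have h2 : oT r.2.1 ω.1.1.2 (oR r.2.1 ω.1.1.2 r.2.2.2.1 ω.2.2) r.2.2.2.2 = true := hi.2
          have h3 : ω.1.1.2 < r.2.1 := by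
            rw [← h1, ← hj.1]
            exact hlt
          have h4 : oR r.2.1 ω.1.1.2 r.2.2.2.1 ω.2.2 = false := by
            unfold oR
            rw [if_pos h3, hR]
            rfl
          rw [h4] at h2
          unfold oT at h2
          rw [Bool.false_and] at h2
          exact absurd h2 (by decide)
        · rw [if_pos hi, if_neg hj] at heq
          exact absurd heq (by simp)
      · by_cases hj : j = r.2.1 ∧ r.2.2.2.2 = true
        · rw [if_neg hi, if_pos hj] at heq
          exact absurd heq (by simp)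
        · rw [if_neg hi, if_neg hj] at heq
          have h1 := Prod.mk.inj (Option.some.inj heq)
          have h2 : (r.1 * ω.1.1.1) i = r.1 j := h1.1
          have h3 : ω.1.1.1 i = j := r.1.injective h2
          have h4 : updX ω.1.1.1 (!(oR r.2.1 ω.1.1.2 r.2.2.2.1 ω.2.2)) r.2.2.1 ω.2.1 i =
              r.2.2.1 j := h1.2
          rw [← h3] at h4 hlt
          exact updX_lt _ _ _ _ i hlt h4

end Pool.Agent.H95.AV
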