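import Pool.Agent.H95.AV.Own
import Pool.Agent.H95.AV.GoodM

/-!
# Job AV-Restr: fewer walkers, renaming of vertices

`fsc_restrict`: same machine with output `fun r i => out r (Fin.castLE h i)`; own laws by `own_law` (both
sides are laws of the machine with output `fun r => out r (Fin.castLE h i)`), `Good` from `good_of_inv`
with `J r`: `π r ≠ 0` (`supp_inv`, `inj_of_good`, `avoid_of_good`), `isLaw_law`.
`fsc_equiv`: same machine with output `fun r i => e (out r i)`; `mw κ (e ∘ o) (v.map e) = mw κ o v`, and
`pathw lp W (v.map e) = pathw lp V v` (`Fintype.card_congr e`).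
-/

set_option autoImplicit false

namespace Pool.Agent.H95.AV

open Classical

theorem fsc_restrict (lp : Bool) (k k' : ℕ) (hk : k' ≤ k) (V : Type) [Fintype V]
    (h : FSC lp k V) : FSC lp k' V := by
  obtain ⟨R, iR, π, κ, out, hM, hS, hC⟩ := h
  refine ⟨R, iR, π, κ, fun r i => out r (Fin.castLE hk i), hM, hS, isLaw_law hM hS _, ?_, ?_⟩
  · intro i v
    rw [own_law]
    have h1 := hC.own_eq (Fin.castLE hk i) v
    rw [own_law] at h1
    exact h1
  · intro w hw
    refine good_of_inv (fun r i => out r (Fin.castLE hk i)) (fun r => π r ≠ 0) (fun r h => h)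
      (fun r r' h1 h2 => supp_inv hM hS r r' h1 h2) ?_ ?_ w hw
    · intro r hr
      exact (inj_of_good hM out hC.good r hr).comp (Fin.castLE_injective hk)
    · intro r r' h1 h2 i j hij
      exact avoid_of_good hM out hC.good r r' h1 h2 _ _ hij

theorem Restr_mw {R A B : Type} [Fintype R] (κ : R → R → ℝ) (o : R → A) (e : A ≃ B)
    (v : List A) (r : R) : mw κ (fun r => e (o r)) (v.map e) r = mw κ o v r := by
  induction v generalizing r with
  | nil => rfl
  | cons a v ih =>
    show (if e (o r) = e a then ∑ r', κ r r' * mw κ (fun r => e (o r)) (v.map e) r' else 0) =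
      if o r = a then ∑ r', κ r r' * mw κ o v r' else 0
    simp only [e.injective.eq_iff, ih]

theorem Restr_steps (lp : Bool) (V W : Type) [Fintype V] [Fintype W] (e : V ≃ W) (x : V)
    (v : List V) : steps lp W (e x) (v.map e) = steps lp V x v := by
  induction v generalizing x with
  | nil => rfl
  | cons y v ih =>
    show stp lp W (e x) (e y) * steps lp W (e y) (v.map e) = stp lp V x y * steps lp V y v
    rw [ih]
    unfold stp
    simp only [e.injective.eq_iff, Fintype.card_congr e]

theorem Restr_pathw (lp : Bool) (V W : Type) [Fintype V] [Fintype W] (e : V ≃ W)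
    (v : List V) : pathw lp W (v.map e) = pathw lp V v := by
  cases v with
  | nil => rfl
  | cons y v =>
    show 1 / (Fintype.card W : ℝ) * steps lp W (e y) (v.map e) =
      1 / (Fintype.card V : ℝ) * steps lp V y v
    rw [Restr_steps, Fintype.card_congr e]

theorem fsc_equiv (lp : Bool) (k : ℕ) (V W : Type) [Fintype V] [Fintype W] (e : V ≃ W)
    (h : FSC lp k V) : FSC lp k W := by
  obtain ⟨R, iR, π, κ, out, hM, hS, hC⟩ := h
  refine ⟨R, iR, π, κ, fun r i => e (out r i), hM, hS, isLaw_law hM hS _, ?_, ?_⟩
  · intro i v
    rw [own_law]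
    have h1 := hC.own_eq i (v.map e.symm)
    rw [own_law] at h1
    have h2 : v = (v.map e.symm).map e := by
      rw [List.map_map]
      simp
    have h3 : law π κ (fun r => e (out r i)) v = law π κ (fun r => out r i) (v.map e.symm) := by
      conv_lhs => rw [h2]
      unfold law
      refine Finset.sum_congr rfl fun r _ => ?_
      rw [Restr_mw]
    rw [h3, h1, ← Restr_pathw lp V W e, ← h2]
  · intro w hw
    refine good_of_inv (fun r i => e (out r i)) (fun r => π r ≠ 0) (fun r h => h)
      (fun r r' h1 h2 => supp_inv hM hS r r' h1 h2) ?_ ?_ w hw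
    · intro r hr
      exact e.injective.comp (inj_of_good hM out hC.good r hr)
    · intro r r' h1 h2 i j hij h
      exact avoid_of_good hM out hC.good r r' h1 h2 i j hij (e.injective h)

end Pool.Agent.H95.AV
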