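import Pool.Agent.H95.AV.StatA
import Pool.Agent.H95.AV.Own
import Pool.Agent.H95.AV.GoodM

/-!
# Job AV-StatB: from an arbitrary initial law to a stationary one

PROOF.  Let `(R, π, κ, out)` be given by `PFS`, `o_i r = out r i`; `own (· i) v (law π κ out) =
law π κ o_i v` (`own_law`).  Let `J r` be the property: `∀ w, mw κ out w r ≠ 0 → Good w`.
`S = {x | (∀ r, ¬ J r → x r = 0) ∧ ∀ i a v, law x κ o_i (a :: v) = law x κ o_i [a] * steps lp V a v}`;
it is closed (finite sums) and convex (linear conditions).  `π ∈ S`: if `π r ≠ 0` and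
`mw κ out w r ≠ 0` then `law π κ out w ≥ π r * mw κ out w r > 0`, so `Good w`.
Invariance: if `J r`, `κ r r' ≠ 0` and `mw κ out w r' ≠ 0` then `mw κ out (out r :: w) r ≠ 0`, so
`Good (out r :: w)` and `Good w`; so `J r'`.  And with `x' = x κ`:
`law x' κ o (a :: v) = ∑ b, law x κ o (b :: a :: v)` (`law_left`) `= ∑ b, law x κ o [b] * stp b a *
steps a v = (∑ b, law x κ o (b :: [a])) * steps a v = law x' κ o [a] * steps a v`.
By `exists_stat` there is a stationary `π' ∈ S`.  Its law is a law (`isLaw_law`); `Good` holds:
`law π' κ out w ≠ 0` gives `r` with `π' r ≠ 0`, so `J r`, and `mw κ out w r ≠ 0`.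
Own law: `ι a = law π' κ o_i [a]` has sum `1` and by stationarity (`law_left`)
`ι a = ∑ b, law π' κ o_i (b :: [a]) = ∑ b, ι b * stp lp V b a`.  `lp = true`: this is `1 / card V`.
`lp = false`: `ι a = (1 - ι a) / (card V - 1)`, so `ι a = 1 / card V`.
So `law π' κ o_i v = pathw lp V v`.
-/

set_option autoImplicit false

namespace Pool.Agent.H95.AV

open Classical

/-- linear conditions -/
theorem statB_cont {R A : Type} [Fintype R] (κ : R → R → ℝ) (out : R → A) (w : List A) :
    Continuous (fun x : R → ℝ => law x κ out w) := by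
  unfold law
  exact continuous_finsetSum _ fun r _ => (continuous_apply r).mul continuous_const

theorem statB_lin {R A : Type} [Fintype R] (κ : R → R → ℝ) (out : R → A) (w : List A)
    (x y : R → ℝ) (a b : ℝ) :
    law (a • x + b • y) κ out w = a * law x κ out w + b * law y κ out w := by
  unfold law
  rw [Finset.mul_sum, Finset.mul_sum, ← Finset.sum_add_distrib]
  refine Finset.sum_congr rfl fun r _ => ?_
  simp only [Pi.add_apply, Pi.smul_apply, smul_eq_mul]
  ring

theorem statB_pos {R A : Type} [Fintype R] {π : R → ℝ} {κ : R → R → ℝ} (h : IsMach π κ)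
    (out : R → A) (w : List A) {r : R} (h1 : π r ≠ 0) (h2 : mw κ out w r ≠ 0) :
    law π κ out w ≠ 0 := by
  have h3 : 0 < π r * mw κ out w r :=
    mul_pos (lt_of_le_of_ne (h.π_nonneg r) (Ne.symm h1))
      (lt_of_le_of_ne (mw_nonneg h out w r) (Ne.symm h2))
  have h4 : π r * mw κ out w r ≤ law π κ out w :=
    Finset.single_le_sum (f := fun r => π r * mw κ out w r)
      (fun s _ => mul_nonneg (h.π_nonneg s) (mw_nonneg h out w s)) (Finset.mem_univ r)
  exact (h3.trans_le h4).ne'

theorem statB_step {R A : Type} [Fintype R] {π : R → ℝ} {κ : R → R → ℝ} (h : IsMach π κ)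
    (out : R → A) (w : List A) {r r' : R} (h1 : κ r r' ≠ 0) (h2 : mw κ out w r' ≠ 0) :
    mw κ out (out r :: w) r ≠ 0 := by
  have h3 : 0 < κ r r' * mw κ out w r' :=
    mul_pos (lt_of_le_of_ne (h.κ_nonneg r r') (Ne.symm h1))
      (lt_of_le_of_ne (mw_nonneg h out w r') (Ne.symm h2))
  have h4 : κ r r' * mw κ out w r' ≤ ∑ s, κ r s * mw κ out w s :=
    Finset.single_le_sum (f := fun s => κ r s * mw κ out w s)
      (fun s _ => mul_nonneg (h.κ_nonneg r s) (mw_nonneg h out w s)) (Finset.mem_univ r')
  have h5 : mw κ out (out r :: w) r = ∑ s, κ r s * mw κ out w s := by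
    simp only [mw, if_true]
  rw [h5]
  exact (h3.trans_le h4).ne'

theorem fsc_of_pfs (lp : Bool) (k : ℕ) (V : Type) [Fintype V] (hV : 2 ≤ Fintype.card V)
    (h : PFS lp k V) : FSC lp k V := by
  obtain ⟨R, hR, π, κ, out, hM, hown, hgood⟩ := h
  have hlaw : ∀ (i : Fin k) (v : List V) (x : R → ℝ),
      own (fun y : Fin k → V => y i) v (law x κ out) = law x κ (fun r => out r i) v :=
    fun i v x => own_law x κ out (fun y : Fin k → V => y i) v
  set J : R → Prop := fun r => ∀ w, mw κ out w r ≠ 0 → Good w with hJ
  have hJs : ∀ r r', J r → κ r r' ≠ 0 → J r' := by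
    intro r r' hr hκ w hw
    exact good_tail (out r) w (hr _ (statB_step hM out w hκ hw))
  set S : Set (R → ℝ) := {x | (∀ r, ¬ J r → x r = 0) ∧ ∀ (i : Fin k) (a : V) (v : List V),
    law x κ (fun r => out r i) (a :: v) =
      law x κ (fun r => out r i) [a] * steps lp V a v} with hS
  have hS1 : IsClosed S := by
    refine IsClosed.inter (s₁ := {x : R → ℝ | ∀ r, ¬ J r → x r = 0})
      (s₂ := {x : R → ℝ | ∀ (i : Fin k) (a : V) (v : List V),
        law x κ (fun r => out r i) (a :: v) =
          law x κ (fun r => out r i) [a] * steps lp V a v}) ?_ ?_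
    · simp only [Set.ofPred_forall]
      exact isClosed_iInter fun r => isClosed_iInter fun _ =>
        isClosed_eq (continuous_apply r) continuous_const
    · simp only [Set.ofPred_forall]
      exact isClosed_iInter fun i => isClosed_iInter fun a => isClosed_iInter fun v =>
        isClosed_eq (statB_cont κ _ _) ((statB_cont κ _ _).mul continuous_const)
  have hS2 : Convex ℝ S := by
    intro x hx y hy a b _ _ _
    refine ⟨fun r hr => ?_, fun i c v => ?_⟩
    · show a * x r + b * y r = 0
      rw [hx.1 r hr, hy.1 r hr]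
      ring
    · rw [statB_lin, statB_lin, hx.2 i c v, hy.2 i c v]
      ring
  have hS3 : π ∈ S := by
    refine ⟨fun r hr => ?_, fun i a v => ?_⟩
    · by_contra h0
      exact hr fun w hw => hgood w (statB_pos hM out w h0 hw)
    · have h1 := hown i a v
      rw [hlaw, hlaw] at h1
      exact h1
  have hS4 : ∀ x ∈ S, x ∈ stdSimplex ℝ R → (fun r' => ∑ r, x r * κ r r') ∈ S := by
    intro x hx _
    refine ⟨fun r' hr' => ?_, fun i a v => ?_⟩
    · refine Finset.sum_eq_zero fun r _ => ?_
      by_cases hκ : κ r r' = 0
      · rw [hκ, mul_zero]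
      · have hr : ¬ J r := fun hh => hr' (hJs r r' hh hκ)
        rw [hx.1 r hr, zero_mul]
    · rw [← law_left, ← law_left, Finset.sum_mul]
      refine Finset.sum_congr rfl fun b _ => ?_
      rw [hx.2 i b (a :: v), hx.2 i b [a]]
      simp only [steps]
      ring
  obtain ⟨π', hπ', hM', hs'⟩ := exists_stat π κ hM S hS1 hS2 hS3 hS4
  refine ⟨R, hR, π', κ, out, hM', hs', ⟨isLaw_law hM' hs' out, fun i v => ?_, fun w hw => ?_⟩⟩
  · rw [hlaw]
    have hL : IsLaw (law π' κ (fun r => out r i)) := isLaw_law hM' hs' _
    cases v with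
    | nil => exact hL.nil
    | cons a v =>
      rw [hπ'.2 i a v]
      show _ = 1 / (Fintype.card V : ℝ) * steps lp V a v
      congr 1
      set ι : V → ℝ := fun b => law π' κ (fun r => out r i) [b] with hι
      have hn : (2 : ℝ) ≤ (Fintype.card V : ℝ) := by exact_mod_cast hV
      have hsum : ∑ b, ι b = 1 := by
        have h1 := hL.left []
        rw [hL.nil] at h1
        exact h1
      have hst : ι a = ∑ b, ι b * stp lp V b a := by
        have h1 := hL.left [a]
        show law π' κ (fun r => out r i) [a] = _
        rw [← h1]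
        refine Finset.sum_congr rfl fun b _ => ?_
        rw [hπ'.2 i b [a]]
        simp only [steps, mul_one, hι]
      show ι a = 1 / (Fintype.card V : ℝ)
      cases lp with
      | true =>
        rw [hst]
        simp only [stp, if_true]
        rw [← Finset.sum_mul, hsum, one_mul]
      | false =>
        have h2 : ∑ b, ι b * stp false V b a = (1 - ι a) / ((Fintype.card V : ℝ) - 1) := by
          have h3 : ∀ b, ι b * stp false V b a =
              ι b * (1 / ((Fintype.card V : ℝ) - 1)) -
                (if b = a then ι a * (1 / ((Fintype.card V : ℝ) - 1)) else 0) := by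
            intro b
            simp only [stp, Bool.false_eq_true, if_false]
            by_cases hb : b = a
            · rw [if_pos hb, if_pos hb, hb]
              ring
            · rw [if_neg hb, if_neg hb]
              ring
          simp only [h3]
          rw [Finset.sum_sub_distrib, ← Finset.sum_mul, hsum, Finset.sum_ite_eq' Finset.univ a,
            if_pos (Finset.mem_univ a)]
          ring
        rw [h2] at hst
        have h4 : (Fintype.card V : ℝ) - 1 ≠ 0 := by
          have : 0 < (Fintype.card V : ℝ) - 1 := by linarith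
          exact this.ne'
        rw [eq_div_iff h4] at hst
        rw [eq_div_iff (by linarith)]
        linarith
  · obtain ⟨r, _, hr⟩ := Finset.exists_ne_zero_of_sum_ne_zero hw
    have h1 : π' r ≠ 0 := left_ne_zero_of_mul hr
    have h2 : mw κ out w r ≠ 0 := right_ne_zero_of_mul hr
    have h3 : J r := by
      by_contra hc
      exact h1 (hπ'.1 r hc)
    exact h3 w h2

end Pool.Agent.H95.AV
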