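import Pool.Agent.H95.AV.Markov
import Pool.Agent.H95.AV.Own
import Pool.Agent.H95.AV.GoodM
import Pool.Agent.H95.AV.Path

/-!
# Job AV-TW: two walkers on the complete graph with at least 4 vertices, without loops

`n = card V ≥ 4`.  State `(x, y, x')`: positions `x`, `y` and the next position `x'` of walker 1.  Step:
`(x', y₁, x₁')` with `x₁'` uniform `≠ x'` and `y₁` uniform outside of `{y, x', x₁'}` (at most 3 elements).
PROOF.  `IsMach`: clear (`n ≥ 4`).  `Good`: `good_of_inv` with `J (x, y, x')`: all three different.
Own law of walker 1 (`o r = r.1`): `law_markov` with `E = V`, `g = id`, `Q = stp false V`,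
`Λ x (x₀, y, x') = if x₀ = x then stp false V x x' / n else 0` (`y` uniform), `ι = 1/n`, `C`: functions which do not
depend on `y`.  Own law of walker 2 (`o r = r.2.1`): `E = V`, `g = id`, `Q = stp false V`,
`Λ y (x, y₀, x') = if y₀ = y then stp false V y x' / n else 0` (`x` uniform), `ι = 1/n`, `C`: functions which do not
depend on `x`.  `hCΛ`: for `y` and given `y₁`, `x₁'` the probability, starting with `x'` uniform `≠ y`, of the new
`(y₁, x₁')` is, for `y₁ ≠ y` and `x₁' ≠ y₁` (otherwise `0`), the sum over `x' ∉ {y, y₁, x₁'}` of
`1/(n-1) * 1/(n-1) * 1/(n - card {y, x', x₁'})`: if `x₁' = y` there are `n - 2` such `x'` and the last factor is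
`1/(n-2)`; if `x₁' ≠ y` there are `n - 3` such `x'` and it is `1/(n-3)`.  Always `1/(n-1)^2`.
`hCπ`: the initial law (uniform on the triples of different vertices) has the marginals
`(x, x')` and `(y, x')` uniform on the pairs of different vertices.
-/

set_option autoImplicit false

namespace Pool.Agent.H95.AV

open Classical

/-- uniform law outside of `S` -/
noncomputable def twU {V : Type} [Fintype V] (S : Finset V) (y : V) : ℝ :=
  if y ∈ S then 0 else 1 / ((Fintype.card V : ℝ) - S.card)

/-- the kernel -/
noncomputable def twK {V : Type} [Fintype V] (r r' : V × V × V) : ℝ :=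
  if r'.1 = r.2.2 then stp false V r.2.2 r'.2.2 * twU {r.2.1, r.2.2, r'.2.2} r'.2.1 else 0

/-- the initial law -/
noncomputable def twP {V : Type} [Fintype V] (r : V × V × V) : ℝ :=
  1 / (Fintype.card V : ℝ) * (stp false V r.1 r.2.2 * twU {r.1, r.2.2} r.2.1)

section
variable {V : Type} [Fintype V]

lemma twU_sum (S : Finset V) (h : S.card < Fintype.card V) : ∑ y, twU S y = 1 := by
  unfold twU
  have h1 : (0 : ℝ) < (Fintype.card V : ℝ) - S.card := by
    have : (S.card : ℝ) < Fintype.card V := by exact_mod_cast h
    linarith
  have h2 : ∀ y, (if y ∈ S then (0 : ℝ) else 1 / ((Fintype.card V : ℝ) - S.card)) =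
      if y ∈ Sᶜ then 1 / ((Fintype.card V : ℝ) - S.card) else 0 := by
    intro y
    by_cases hy : y ∈ S
    · rw [if_pos hy, if_neg (by simpa using hy)]
    · rw [if_neg hy, if_pos (by simpa using hy)]
  simp only [h2]
  rw [Finset.sum_ite_mem, Finset.univ_inter, Finset.sum_const, Finset.card_compl, nsmul_eq_mul,
    Nat.cast_sub h.le]
  field_simp

lemma twU_nonneg (S : Finset V) (h : S.card ≤ Fintype.card V) (y : V) : 0 ≤ twU S y := by
  unfold twU
  split_ifs
  · exact le_rfl
  · apply one_div_nonneg.2
    have : (S.card : ℝ) ≤ Fintype.card V := by exact_mod_cast h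
    linarith

lemma tw_card3 (hV : 4 ≤ Fintype.card V) (a b c : V) :
    ({a, b, c} : Finset V).card < Fintype.card V :=
  lt_of_le_of_lt Finset.card_le_three (by omega)

lemma tw_card2 (hV : 4 ≤ Fintype.card V) (a b : V) :
    ({a, b} : Finset V).card < Fintype.card V :=
  lt_of_le_of_lt Finset.card_le_two (by omega)

lemma tw_stp_self (x : V) : stp false V x x = 0 := by
  unfold stp
  simp

lemma tw_stp_ne {x y : V} (h : x ≠ y) : stp false V x y = 1 / ((Fintype.card V : ℝ) - 1) := by
  unfold stp
  simp [h]

lemma tw_ne_of_stp {x y : V} (h : stp false V x y ≠ 0) : x ≠ y := by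
  rintro rfl
  exact h (tw_stp_self x)

lemma twK_sum (φ : V × V × V → ℝ) (x y z : V) :
    ∑ r', twK (x, y, z) r' * φ r' =
      ∑ z₁, stp false V z z₁ * ∑ y₁, twU {y, z, z₁} y₁ * φ (z, y₁, z₁) := by
  rw [Fintype.sum_prod_type, Finset.sum_eq_single z]
  · rw [Fintype.sum_prod_type, Finset.sum_comm]
    refine Finset.sum_congr rfl fun z₁ _ => ?_
    rw [Finset.mul_sum]
    refine Finset.sum_congr rfl fun y₁ _ => ?_
    unfold twK
    rw [if_pos rfl]
    ring
  · intro a _ ha
    refine Finset.sum_eq_zero fun b _ => ?_
    unfold twK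
    rw [if_neg ha, zero_mul]
  · intro h
    exact absurd (Finset.mem_univ z) h

lemma twP_sum (φ : V × V × V → ℝ) :
    ∑ r, twP r * φ r = ∑ x, ∑ z, ∑ y,
      1 / (Fintype.card V : ℝ) * (stp false V x z * twU {x, z} y) * φ (x, y, z) := by
  rw [Fintype.sum_prod_type]
  refine Finset.sum_congr rfl fun x _ => ?_
  rw [Fintype.sum_prod_type, Finset.sum_comm]
  rfl

lemma tw_coef (hV : 4 ≤ Fintype.card V) (y y₁ z₁ : V) :
    ∑ z, stp false V y z * (stp false V z z₁ * twU {y, z, z₁} y₁) =
      stp false V y y₁ * stp false V y₁ z₁ := by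
  by_cases h1 : y₁ = y
  · subst h1
    rw [tw_stp_self, zero_mul]
    refine Finset.sum_eq_zero fun z _ => ?_
    unfold twU
    rw [if_pos (by simp), mul_zero, mul_zero]
  by_cases h2 : y₁ = z₁
  · subst h2
    rw [tw_stp_self, mul_zero]
    refine Finset.sum_eq_zero fun z _ => ?_
    unfold twU
    rw [if_pos (by simp), mul_zero, mul_zero]
  have h3 : ∀ z, stp false V y z * (stp false V z z₁ * twU {y, z, z₁} y₁) =
      1 / ((Fintype.card V : ℝ) - 1) * (1 / ((Fintype.card V : ℝ) - 1)) * twU {y, z₁, y₁} z := by
    intro z
    by_cases hz : z ∈ ({y, z₁, y₁} : Finset V)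
    · have hz' := hz
      unfold twU
      rw [if_pos hz, mul_zero]
      simp only [Finset.mem_insert, Finset.mem_singleton] at hz'
      rcases hz' with h | h | h
      · rw [h, tw_stp_self, zero_mul]
      · rw [h, tw_stp_self, zero_mul, mul_zero]
      · rw [if_pos (by rw [h]; simp), mul_zero, mul_zero]
    · have hz' := hz
      simp only [Finset.mem_insert, Finset.mem_singleton, not_or] at hz'
      rw [tw_stp_ne (fun h => hz'.1 h.symm), tw_stp_ne hz'.2.1]
      have hc : ({y, z, z₁} : Finset V).card = ({y, z₁, y₁} : Finset V).card := by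
        have e1 : ({y, z, z₁} : Finset V) = insert z {y, z₁} := by
          ext a
          simp only [Finset.mem_insert, Finset.mem_singleton]
          tauto
        have e2 : ({y, z₁, y₁} : Finset V) = insert y₁ {y, z₁} := by
          ext a
          simp only [Finset.mem_insert, Finset.mem_singleton]
          tauto
        have n1 : z ∉ ({y, z₁} : Finset V) := by
          simp only [Finset.mem_insert, Finset.mem_singleton, not_or]
          exact ⟨hz'.1, hz'.2.1⟩
        have n2 : y₁ ∉ ({y, z₁} : Finset V) := by
          simp only [Finset.mem_insert, Finset.mem_singleton, not_or]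
          exact ⟨h1, h2⟩
        rw [e1, e2, Finset.card_insert_of_notMem n1, Finset.card_insert_of_notMem n2]
      have hn : y₁ ∉ ({y, z, z₁} : Finset V) := by
        simp only [Finset.mem_insert, Finset.mem_singleton, not_or]
        exact ⟨h1, fun h => hz'.2.2 h.symm, h2⟩
      unfold twU
      rw [if_neg hz, if_neg hn, hc]
      ring
  simp only [h3]
  rw [← Finset.mul_sum, twU_sum _ (tw_card3 hV _ _ _), mul_one, tw_stp_ne (fun h => h1 h.symm),
    tw_stp_ne h2]

lemma tw_coef2 (hV : 4 ≤ Fintype.card V) (y z : V) :
    ∑ x, stp false V x z * twU {x, z} y = stp false V y z := by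
  by_cases h1 : y = z
  · subst h1
    rw [tw_stp_self]
    refine Finset.sum_eq_zero fun x _ => ?_
    unfold twU
    rw [if_pos (by simp), mul_zero]
  have h3 : ∀ x, stp false V x z * twU {x, z} y =
      1 / ((Fintype.card V : ℝ) - 1) * twU {y, z} x := by
    intro x
    by_cases hx : x ∈ ({y, z} : Finset V)
    · have hx' := hx
      unfold twU
      rw [if_pos hx, mul_zero]
      simp only [Finset.mem_insert, Finset.mem_singleton] at hx'
      rcases hx' with h | h
      · rw [h, if_pos (by simp), mul_zero]
      · rw [h, tw_stp_self, zero_mul]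
    · have hx' := hx
      simp only [Finset.mem_insert, Finset.mem_singleton, not_or] at hx'
      rw [tw_stp_ne hx'.2]
      have hn : y ∉ ({x, z} : Finset V) := by
        simp only [Finset.mem_insert, Finset.mem_singleton, not_or]
        exact ⟨fun h => hx'.1 h.symm, h1⟩
      unfold twU
      rw [if_neg hx, if_neg hn, Finset.card_pair hx'.2, Finset.card_pair h1]
  simp only [h3]
  rw [← Finset.mul_sum, twU_sum _ (tw_card2 hV _ _), mul_one, tw_stp_ne h1]

lemma tw_mach (hV : 4 ≤ Fintype.card V) : IsMach (twP (V := V)) twK where
  π_nonneg r := by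
    unfold twP
    exact mul_nonneg (by positivity) (mul_nonneg (stp_nonneg false V (by omega) _ _)
      (twU_nonneg _ (tw_card2 hV _ _).le _))
  π_sum := by
    have h := twP_sum (V := V) (fun _ => 1)
    simp only [mul_one] at h
    rw [h]
    have h2 : ∀ x : V, ∑ z, ∑ y, 1 / (Fintype.card V : ℝ) * (stp false V x z * twU {x, z} y) =
        1 / (Fintype.card V : ℝ) := by
      intro x
      have h3 : ∀ z, ∑ y, 1 / (Fintype.card V : ℝ) * (stp false V x z * twU {x, z} y) =
          1 / (Fintype.card V : ℝ) * stp false V x z := by
        intro z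
        rw [← Finset.mul_sum, ← Finset.mul_sum, twU_sum _ (tw_card2 hV _ _), mul_one]
      simp only [h3]
      rw [← Finset.mul_sum, stp_sum false V (by omega), mul_one]
    simp only [h2]
    rw [Finset.sum_const, Finset.card_univ, nsmul_eq_mul]
    have : (Fintype.card V : ℝ) ≠ 0 := by
      have : 0 < Fintype.card V := by omega
      exact_mod_cast this.ne'
    field_simp
  κ_nonneg r r' := by
    unfold twK
    split_ifs
    · exact mul_nonneg (stp_nonneg false V (by omega) _ _)
        (twU_nonneg _ (tw_card3 hV _ _ _).le _)
    · exact le_rfl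
  κ_sum r := by
    obtain ⟨x, y, z⟩ := r
    have h := twK_sum (V := V) (fun _ => 1) x y z
    simp only [mul_one] at h
    rw [h]
    simp only [twU_sum _ (tw_card3 hV _ _ _), mul_one]
    exact stp_sum false V (by omega) z

/-- conditional law, walker 1 -/
noncomputable def twL1 (x : V) (r : V × V × V) : ℝ :=
  if r.1 = x then stp false V x r.2.2 / (Fintype.card V : ℝ) else 0

/-- conditional law, walker 2 -/
noncomputable def twL2 (y : V) (r : V × V × V) : ℝ :=
  if r.2.1 = y then stp false V y r.2.2 / (Fintype.card V : ℝ) else 0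

lemma twL1_sum (φ : V × V × V → ℝ) (x : V) :
    ∑ r, twL1 x r * φ r = ∑ z, ∑ y, stp false V x z / (Fintype.card V : ℝ) * φ (x, y, z) := by
  rw [Fintype.sum_prod_type, Finset.sum_eq_single x]
  · rw [Fintype.sum_prod_type, Finset.sum_comm]
    refine Finset.sum_congr rfl fun z _ => Finset.sum_congr rfl fun y _ => ?_
    unfold twL1
    rw [if_pos rfl]
  · intro a _ ha
    refine Finset.sum_eq_zero fun b _ => ?_
    unfold twL1
    rw [if_neg ha, zero_mul]
  · intro h
    exact absurd (Finset.mem_univ x) h

lemma twL2_sum (φ : V × V × V → ℝ) (y : V) :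
    ∑ r, twL2 y r * φ r = ∑ z, ∑ x, stp false V y z / (Fintype.card V : ℝ) * φ (x, y, z) := by
  rw [Fintype.sum_prod_type]
  conv_rhs => rw [Finset.sum_comm]
  refine Finset.sum_congr rfl fun x _ => ?_
  rw [Fintype.sum_prod_type, Finset.sum_eq_single y]
  · refine Finset.sum_congr rfl fun z _ => ?_
    unfold twL2
    rw [if_pos rfl]
  · intro a _ ha
    refine Finset.sum_eq_zero fun b _ => ?_
    unfold twL2
    rw [if_neg ha, zero_mul]
  · intro h
    exact absurd (Finset.mem_univ y) h

end

theorem tw_pfs (V : Type) [Fintype V] (hV : 4 ≤ Fintype.card V) : PFS false 2 V := by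
  have hm := tw_mach (V := V) hV
  have hn : (Fintype.card V : ℝ) ≠ 0 := by
    have : 0 < Fintype.card V := by omega
    exact_mod_cast this.ne'
  have hconst : ∀ c : ℝ, (∑ _y : V, 1 / (Fintype.card V : ℝ) * c) = c := by
    intro c
    rw [Finset.sum_const, Finset.card_univ, nsmul_eq_mul]
    field_simp
  refine ⟨V × V × V, inferInstance, twP, twK, fun r => ![r.1, r.2.1], hm, ?_, ?_⟩
  · intro i x v
    rw [own_law, own_law]
    fin_cases i
    · change law twP twK (fun r : V × V × V => r.1) (x :: v) =
        law twP twK (fun r : V × V × V => r.1) [x] * steps false V x v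
      refine law_markov (E := V) false twP twK hm.κ_sum (fun r => r.1) id twL1 ?_ ?_
        (stp false V) (fun _ => 1 / (Fintype.card V : ℝ))
        (fun φ => ∀ x y y' z, φ (x, y, z) = φ (x, y', z)) ?_ ?_ ?_ ?_ ?_ x v
      · intro x r h
        unfold twL1 at h
        by_contra h2
        exact h (if_neg h2)
      · intro x
        have h := twL1_sum (V := V) (fun _ => 1) x
        simp only [mul_one] at h
        rw [h]
        have h2 : ∀ z, ∑ _y : V, stp false V x z / (Fintype.card V : ℝ) = stp false V x z := by
          intro z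
          rw [Finset.sum_const, Finset.card_univ, nsmul_eq_mul]
          field_simp
        simp only [h2]
        exact stp_sum false V (by omega) x
      · intro _ _ _ _
        rfl
      · intro φ a hφ x y y' z
        simp only
        by_cases hx : x = a
        · rw [if_pos hx, if_pos hx, twK_sum, twK_sum]
          refine Finset.sum_congr rfl fun z₁ _ => ?_
          congr 1
          have h1 : ∀ y, ∑ y₁, twU {y, z, z₁} y₁ * φ (z, y₁, z₁) = φ (z, z, z₁) := by
            intro y
            have h2 : ∀ y₁, twU {y, z, z₁} y₁ * φ (z, y₁, z₁) =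
                twU {y, z, z₁} y₁ * φ (z, z, z₁) := fun y₁ => by rw [hφ z y₁ z z₁]
            simp only [h2]
            rw [← Finset.sum_mul, twU_sum _ (tw_card3 hV _ _ _), one_mul]
          rw [h1, h1]
        · rw [if_neg hx, if_neg hx]
      · intro φ hφ
        rw [twP_sum]
        refine Finset.sum_congr rfl fun x _ => ?_
        rw [twL1_sum, Finset.mul_sum]
        refine Finset.sum_congr rfl fun z _ => ?_
        have h2 : ∀ y, 1 / (Fintype.card V : ℝ) * (stp false V x z * twU {x, z} y) *
            φ (x, y, z) = twU {x, z} y * (1 / (Fintype.card V : ℝ) * stp false V x z *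
              φ (x, x, z)) := fun y => by
          rw [hφ x y x z]
          ring
        have h3 : ∀ y, stp false V x z / (Fintype.card V : ℝ) * φ (x, y, z) =
            1 / (Fintype.card V : ℝ) * (stp false V x z * φ (x, x, z)) := fun y => by
          rw [hφ x y x z]
          ring
        simp only [h2, h3]
        rw [← Finset.sum_mul, twU_sum _ (tw_card2 hV _ _), one_mul, hconst]
        ring
      · intro φ hφ x
        have h1 : ∀ r : V × V × V, ∑ r', twK r r' * φ r' =
            ∑ z₁, stp false V r.2.2 z₁ * φ (r.2.2, r.2.2, z₁) := by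
          intro r
          obtain ⟨a, b, c⟩ := r
          rw [twK_sum]
          refine Finset.sum_congr rfl fun z₁ _ => ?_
          congr 1
          have h2 : ∀ y₁, twU {b, c, z₁} y₁ * φ (c, y₁, z₁) =
              twU {b, c, z₁} y₁ * φ (c, c, z₁) := fun y₁ => by rw [hφ c y₁ c z₁]
          simp only [h2]
          rw [← Finset.sum_mul, twU_sum _ (tw_card3 hV _ _ _), one_mul]
        simp only [h1]
        rw [twL1_sum]
        refine Finset.sum_congr rfl fun z _ => ?_
        rw [twL1_sum]
        simp only
        have h4 : ∀ z₁, ∑ y, stp false V z z₁ / (Fintype.card V : ℝ) * φ (z, y, z₁) =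
            stp false V z z₁ * φ (z, z, z₁) := by
          intro z₁
          have h3 : ∀ y, stp false V z z₁ / (Fintype.card V : ℝ) * φ (z, y, z₁) =
              1 / (Fintype.card V : ℝ) * (stp false V z z₁ * φ (z, z, z₁)) := fun y => by
            rw [hφ z y z z₁]
            ring
          simp only [h3]
          rw [hconst]
        simp only [h4]
        have h5 : ∀ c : ℝ, ∑ _y : V, stp false V x z / (Fintype.card V : ℝ) * c =
            stp false V x z * c := by
          intro c
          rw [← hconst (stp false V x z * c)]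
          refine Finset.sum_congr rfl fun _ _ => ?_
          ring
        rw [h5]
      · intro x v
        simp
    · change law twP twK (fun r : V × V × V => r.2.1) (x :: v) =
        law twP twK (fun r : V × V × V => r.2.1) [x] * steps false V x v
      refine law_markov (E := V) false twP twK hm.κ_sum (fun r => r.2.1) id twL2 ?_ ?_
        (stp false V) (fun _ => 1 / (Fintype.card V : ℝ))
        (fun φ => ∀ x x' y z, φ (x, y, z) = φ (x', y, z)) ?_ ?_ ?_ ?_ ?_ x v
      · intro y r h
        unfold twL2 at h
        by_contra h2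
        exact h (if_neg h2)
      · intro y
        have h := twL2_sum (V := V) (fun _ => 1) y
        simp only [mul_one] at h
        rw [h]
        have h2 : ∀ z, ∑ _x : V, stp false V y z / (Fintype.card V : ℝ) = stp false V y z := by
          intro z
          rw [Finset.sum_const, Finset.card_univ, nsmul_eq_mul]
          field_simp
        simp only [h2]
        exact stp_sum false V (by omega) y
      · intro _ _ _ _
        rfl
      · intro φ a hφ x x' y z
        simp only
        by_cases hy : y = a
        · rw [if_pos hy, if_pos hy, twK_sum, twK_sum]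
        · rw [if_neg hy, if_neg hy]
      · intro φ hφ
        rw [twP_sum]
        simp only [twL2_sum]
        have h1 : ∀ x z y, 1 / (Fintype.card V : ℝ) * (stp false V x z * twU {x, z} y) *
            φ (x, y, z) = (stp false V x z * twU {x, z} y) * (1 / (Fintype.card V : ℝ) *
              φ (y, y, z)) := fun x z y => by
          rw [hφ x y y z]
          ring
        have h3 : ∀ y z, ∑ x, stp false V y z / (Fintype.card V : ℝ) * φ (x, y, z) =
            stp false V y z * φ (y, y, z) := by
          intro y z
          have h2 : ∀ x, stp false V y z / (Fintype.card V : ℝ) * φ (x, y, z) =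
              1 / (Fintype.card V : ℝ) * (stp false V y z * φ (y, y, z)) := fun x => by
            rw [hφ x y y z]
            ring
          simp only [h2]
          rw [hconst]
        simp only [h1, h3]
        have h4 : ∑ x : V, ∑ z : V, ∑ y : V, stp false V x z * twU {x, z} y *
            (1 / (Fintype.card V : ℝ) * φ (y, y, z)) =
            ∑ y : V, ∑ z : V, ∑ x : V, stp false V x z * twU {x, z} y *
            (1 / (Fintype.card V : ℝ) * φ (y, y, z)) := by
          rw [Finset.sum_comm]
          have : ∀ z : V, ∑ x : V, ∑ y : V, stp false V x z * twU {x, z} y *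
              (1 / (Fintype.card V : ℝ) * φ (y, y, z)) =
              ∑ y : V, ∑ x : V, stp false V x z * twU {x, z} y *
              (1 / (Fintype.card V : ℝ) * φ (y, y, z)) := fun z => Finset.sum_comm
          simp only [this]
          rw [Finset.sum_comm]
        rw [h4]
        refine Finset.sum_congr rfl fun y _ => ?_
        rw [Finset.mul_sum]
        refine Finset.sum_congr rfl fun z _ => ?_
        rw [← Finset.sum_mul, tw_coef2 hV]
        ring
      · intro φ hφ y
        have h1 : ∀ r : V × V × V, ∑ r', twK r r' * φ r' =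
            ∑ z₁, stp false V r.2.2 z₁ * ∑ y₁, twU {r.2.1, r.2.2, z₁} y₁ * φ (y₁, y₁, z₁) := by
          intro r
          obtain ⟨a, b, c⟩ := r
          rw [twK_sum]
          refine Finset.sum_congr rfl fun z₁ _ => ?_
          congr 1
          refine Finset.sum_congr rfl fun y₁ _ => ?_
          rw [hφ c y₁ y₁ z₁]
        simp only [h1]
        rw [twL2_sum]
        simp only
        have h5 : ∀ (z : V) (c : ℝ), ∑ _x : V, stp false V y z / (Fintype.card V : ℝ) * c =
            stp false V y z * c := by
          intro z c
          rw [← hconst (stp false V y z * c)]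
          refine Finset.sum_congr rfl fun _ _ => ?_
          ring
        simp only [h5]
        have h3 : ∀ y₁, ∑ r, twL2 y₁ r * φ r = ∑ z₁, stp false V y₁ z₁ * φ (y₁, y₁, z₁) := by
          intro y₁
          rw [twL2_sum]
          refine Finset.sum_congr rfl fun z₁ _ => ?_
          have h2 : ∀ x, stp false V y₁ z₁ / (Fintype.card V : ℝ) * φ (x, y₁, z₁) =
              1 / (Fintype.card V : ℝ) * (stp false V y₁ z₁ * φ (y₁, y₁, z₁)) := fun x => by
            rw [hφ x y₁ y₁ z₁]
            ring
          simp only [h2]
          rw [hconst]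
        simp only [h3]
        calc ∑ z, stp false V y z * ∑ z₁, stp false V z z₁ *
              ∑ y₁, twU {y, z, z₁} y₁ * φ (y₁, y₁, z₁)
            = ∑ z, ∑ z₁, ∑ y₁, stp false V y z * (stp false V z z₁ * twU {y, z, z₁} y₁) *
                φ (y₁, y₁, z₁) := by
              refine Finset.sum_congr rfl fun z _ => ?_
              rw [Finset.mul_sum]
              refine Finset.sum_congr rfl fun z₁ _ => ?_
              rw [Finset.mul_sum, Finset.mul_sum]
              refine Finset.sum_congr rfl fun y₁ _ => ?_
              ring
          _ = ∑ y₁, ∑ z₁, ∑ z, stp false V y z * (stp false V z z₁ * twU {y, z, z₁} y₁) *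
                φ (y₁, y₁, z₁) := by
              rw [Finset.sum_comm]
              have : ∀ z₁ : V, ∑ z : V, ∑ y₁ : V, stp false V y z *
                  (stp false V z z₁ * twU {y, z, z₁} y₁) * φ (y₁, y₁, z₁) =
                  ∑ y₁ : V, ∑ z : V, stp false V y z *
                  (stp false V z z₁ * twU {y, z, z₁} y₁) * φ (y₁, y₁, z₁) :=
                fun z₁ => Finset.sum_comm
              simp only [this]
              rw [Finset.sum_comm]
          _ = ∑ y₁, stp false V y y₁ * ∑ z₁, stp false V y₁ z₁ * φ (y₁, y₁, z₁) := by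
              refine Finset.sum_congr rfl fun y₁ _ => ?_
              rw [Finset.mul_sum]
              refine Finset.sum_congr rfl fun z₁ _ => ?_
              rw [← Finset.sum_mul, tw_coef hV]
              ring
      · intro x v
        simp
  · intro w hw
    refine good_of_inv (fun r : V × V × V => ![r.1, r.2.1])
      (fun r => r.1 ≠ r.2.1 ∧ r.2.1 ≠ r.2.2 ∧ r.1 ≠ r.2.2) ?_ ?_ ?_ ?_ w hw
    · intro r hr
      unfold twP at hr
      have h1 : stp false V r.1 r.2.2 ≠ 0 := fun h => hr (by rw [h]; ring)
      have h2 : twU {r.1, r.2.2} r.2.1 ≠ 0 := fun h => hr (by rw [h]; ring)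
      have h3 : r.2.1 ∉ ({r.1, r.2.2} : Finset V) := by
        intro h
        exact h2 (if_pos h)
      simp only [Finset.mem_insert, Finset.mem_singleton, not_or] at h3
      exact ⟨fun h => h3.1 h.symm, h3.2, tw_ne_of_stp h1⟩
    · intro r r' _ hr
      unfold twK at hr
      have h0 : r'.1 = r.2.2 := by
        by_contra h
        exact hr (if_neg h)
      rw [if_pos h0] at hr
      have h1 : stp false V r.2.2 r'.2.2 ≠ 0 := fun h => hr (by rw [h]; ring)
      have h2 : twU {r.2.1, r.2.2, r'.2.2} r'.2.1 ≠ 0 := fun h => hr (by rw [h]; ring)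
      have h3 : r'.2.1 ∉ ({r.2.1, r.2.2, r'.2.2} : Finset V) := by
        intro h
        exact h2 (if_pos h)
      simp only [Finset.mem_insert, Finset.mem_singleton, not_or] at h3
      rw [h0]
      exact ⟨fun h => h3.2.1 h.symm, h3.2.2, tw_ne_of_stp h1⟩
    · intro r hr i j hij
      fin_cases i <;> fin_cases j
      · rfl
      · exact absurd hij hr.1
      · exact absurd hij.symm hr.1
      · rfl
    · intro r r' hr hk i j hij
      unfold twK at hk
      have h0 : r'.1 = r.2.2 := by
        by_contra h
        exact hk (if_neg h)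
      fin_cases i <;> fin_cases j
      · exact absurd hij (lt_irrefl _)
      · change r'.1 ≠ r.2.1
        rw [h0]
        exact fun h => hr.2.1 h.symm
      · exact absurd hij (by decide)
      · exact absurd hij (lt_irrefl _)

end Pool.Agent.H95.AV
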