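import Pool.Agent.H95.AV.Baire
import Pool.Agent.H95.AV.Meas
import Pool.Agent.H95.AV.HM
import Pool.Agent.H95.AV.StatB
import Pool.Agent.H95.AV.EPfs
import Pool.Agent.H95.AV.OPfs
import Pool.Agent.H95.AV.TW
import Pool.Agent.H95.AV.K3
import Pool.Agent.H95.AV.Mono
import Pool.Agent.H95.AV.Lazy
import Pool.Agent.H95.AV.Restr
import Pool.Agent.H95.AV.NonEx

/-!
# Job AV-Main: assembly

`model_of_fsc`: `minE_of_fsc` and `model_of_minE`.
`fsc_half`.  `lp = false`.  Let `m = n / 2`, `k ≤ m`.  `n = 2 m`: `e_pfs false m`, `fsc_of_pfs`, `fsc_restrict`,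
`fsc_equiv` (`Fin m × Bool ≃ Fin (2 m)`, e.g. `Fintype.equivOfCardEq`).  `n = 2 m + 1`, `m ≥ 3`: the same with
`o_pfs m`.  `n = 5` (`k = 2`): `tw_pfs`.  `lp = true`: from `lp = false` by `fsc_lazy`.
`fsc_succ`: `fsc_mono` and `fsc_equiv` (`Option (Fin n) ≃ Fin (n + 1)`); `fsc_le` by induction.
`main_two`: by `two_walkers_small`; `n ≥ 4`: `fsc_half` with `k = 2`; `n = 3`, loops: `k3_pfs`.
`main_fs`: `pfs_of_model`, `le_of_coupling` (so `n ≥ 2`), `fsc_of_pfs`; for loops `fsc_le`, after `fsc_lazy` if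
`loops = false`.
-/

set_option autoImplicit false

namespace Pool.Agent.H95.AV

open Classical MeasureTheory

theorem model_of_fsc (lp : Bool) (k n : ℕ) (hk : 1 ≤ k) (hn : 2 ≤ n) (h : FSC lp k (Fin n)) :
    Model.HasMinimumEntropyCoupling lp k n :=
  model_of_minE lp k n hn (minE_of_fsc lp k hk (Fin n) (by simpa using hn) h)

theorem fsc_half_false (k n : ℕ) (hk : 2 ≤ k) (hn : 2 * k ≤ n) : FSC false k (Fin n) := by
  obtain ⟨m, hm | hm⟩ := Nat.even_or_odd' n
  · have hkm : k ≤ m := by omega
    haveI : NeZero m := ⟨by omega⟩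
    have h2 : 2 ≤ Fintype.card (Fin m × Bool) := by
      simp only [Fintype.card_prod, Fintype.card_fin, Fintype.card_bool]
      omega
    have h1 := fsc_restrict false m k hkm (Fin m × Bool)
      (fsc_of_pfs false m (Fin m × Bool) h2 (e_pfs false m))
    have h3 : Fintype.card (Fin m × Bool) = Fintype.card (Fin n) := by
      simp only [Fintype.card_prod, Fintype.card_fin, Fintype.card_bool]
      omega
    exact fsc_equiv false k (Fin m × Bool) (Fin n) (Fintype.equivOfCardEq h3) h1
  · by_cases hm3 : 3 ≤ m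
    · have hkm : k ≤ m := by omega
      have h2 : 2 ≤ Fintype.card (Option (Fin m × Bool)) := by
        simp only [Fintype.card_option, Fintype.card_prod, Fintype.card_fin, Fintype.card_bool]
        omega
      have h1 := fsc_restrict false m k hkm (Option (Fin m × Bool))
        (fsc_of_pfs false m (Option (Fin m × Bool)) h2 (o_pfs m hm3))
      have h3 : Fintype.card (Option (Fin m × Bool)) = Fintype.card (Fin n) := by
        simp only [Fintype.card_option, Fintype.card_prod, Fintype.card_fin, Fintype.card_bool]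
        omega
      exact fsc_equiv false k (Option (Fin m × Bool)) (Fin n) (Fintype.equivOfCardEq h3) h1
    · have hk2 : k = 2 := by omega
      subst hk2
      have h2 : 2 ≤ Fintype.card (Fin n) := by simp only [Fintype.card_fin]; omega
      exact fsc_of_pfs false 2 (Fin n) h2 (tw_pfs (Fin n) (by simp only [Fintype.card_fin]; omega))

theorem fsc_half (lp : Bool) (k n : ℕ) (hk : 2 ≤ k) (hn : 2 * k ≤ n) : FSC lp k (Fin n) := by
  cases lp with
  | false => exact fsc_half_false k n hk hn
  | true =>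
    exact fsc_lazy k (Fin n) (by simp only [Fintype.card_fin]; omega) (fsc_half_false k n hk hn)

theorem fsc_succ (k n : ℕ) (hn : 2 ≤ n) (h : FSC true k (Fin n)) : FSC true k (Fin (n + 1)) := by
  have h1 := fsc_mono k (Fin n) (by simpa using hn) h
  have h3 : Fintype.card (Option (Fin n)) = Fintype.card (Fin (n + 1)) := by
    simp only [Fintype.card_option, Fintype.card_fin]
  exact fsc_equiv true k (Option (Fin n)) (Fin (n + 1)) (Fintype.equivOfCardEq h3) h1

theorem fsc_le (k n n' : ℕ) (hn : 2 ≤ n) (hn' : n ≤ n') (h : FSC true k (Fin n)) :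
    FSC true k (Fin n') := by
  induction n', hn' using Nat.le_induction with
  | base => exact h
  | succ m hm ih => exact fsc_succ k m (hn.trans hm) ih

theorem main_half (lp : Bool) (k n : ℕ) (hk : 2 ≤ k) (hn : 2 * k ≤ n) :
    Model.HasMinimumEntropyCoupling lp k n :=
  model_of_fsc lp k n (by omega) (by omega) (fsc_half lp k n hk hn)

theorem main_two (lp : Bool) (n : ℕ)
    (h : ∃ μ : Measure (ℕ → Fin 2 → Fin n), Model.IsAvoidanceCoupling lp 2 n μ) :
    Model.HasMinimumEntropyCoupling lp 2 n := by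
  obtain ⟨μ, hμ⟩ := h
  rcases two_walkers_small lp n μ hμ with ⟨hl, h3⟩ | h4
  · subst hl
    subst h3
    exact model_of_fsc true 2 3 (by omega) (by omega)
      (fsc_of_pfs true 2 (Fin 3) (by simp only [Fintype.card_fin]; omega) k3_pfs)
  · exact main_half lp 2 n le_rfl (by omega)

theorem main_fs (lp : Bool) (k n : ℕ) (hk : 2 ≤ k)
    (h : ∃ μ : Measure (ℕ → Fin k → Fin n), Model.IsAvoidanceCoupling lp k n μ ∧
      Model.IsFiniteState μ) (lp' : Bool) (n' : ℕ)
    (hn' : (lp' = lp ∧ n' = n) ∨ (lp' = true ∧ n ≤ n')) :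
    Model.HasMinimumEntropyCoupling lp' k n' := by
  obtain ⟨μ, hc, hf⟩ := h
  have hkn : k ≤ n := le_of_coupling lp k n μ hc
  have hn2 : 2 ≤ n := hk.trans hkn
  have hcard : 2 ≤ Fintype.card (Fin n) := by simpa using hn2
  have h1 : FSC lp k (Fin n) := fsc_of_pfs lp k (Fin n) hcard (pfs_of_model lp k n μ hc hf)
  rcases hn' with ⟨hl, hnn⟩ | ⟨hl, hnn⟩
  · subst hl
    subst hnn
    exact model_of_fsc _ k _ (by omega) hn2 h1
  · subst hl
    have h2 : FSC true k (Fin n) := by
      cases lp with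
      | false => exact fsc_lazy k (Fin n) hcard h1
      | true => exact h1
    exact model_of_fsc true k n' (by omega) (by omega) (fsc_le k n n' hn2 hnn h2)

end Pool.Agent.H95.AV
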