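import Pool.Agent.H95.AV.LawM

/-!
# Job AV-Markov: criterion for the output of a machine to be a simple random walk

`o r` is the position of one walker.  `E` is a finite set of visible states, `g : E → V`, `Λ x` is a
probability on `R` living on states with `o r = g x` (the conditional law of the state given the
visible state), `C` is a class of functions on `R`, closed under `φ ↦ [o r = x] (κ φ) r`; on functions
of the class `Λ κ = Q Λ` (intertwining) and `π = ι Λ`, and `Q` projects to the simple random walk.
PROOF.  All functions `mw κ o w` are in `C` (induction, `hC1`, `hCκ`).  Claim: for all `v, x, y`: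
`∑ r, Λ y r * mw κ o (x :: v) r = if g y = x then steps lp V x v else 0`, by induction on `v`.
`v = []`: `mw κ o [x] r = if o r = x then 1 else 0`, and `Λ y` lives on `o r = g y`.
`v = x' :: v'`: `∑ r, Λ y r * mw κ o (x :: x' :: v') r =
[g y = x] ∑ r, Λ y r * ∑ r', κ r r' * mw κ o (x' :: v') r' =
[g y = x] ∑ z, Q y z * ∑ r, Λ z r * mw κ o (x' :: v') r = [g y = x] ∑ z, Q y z [g z = x'] steps x' v' =
[g y = x] stp lp V (g y) x' * steps x' v'`.
Finally `law π κ o (x :: v) = ∑ y, ι y * ∑ r, Λ y r * mw κ o (x :: v) r`.
-/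

set_option autoImplicit false

namespace Pool.Agent.H95.AV

open Classical

theorem law_markov {R E V : Type} [Fintype R] [Fintype E] [Fintype V] (lp : Bool)
    (π : R → ℝ) (κ : R → R → ℝ) (hκ : ∀ r, ∑ r', κ r r' = 1) (o : R → V) (g : E → V)
    (Λ : E → R → ℝ) (hΛ : ∀ x r, Λ x r ≠ 0 → o r = g x) (hΛ1 : ∀ x, ∑ r, Λ x r = 1)
    (Q : E → E → ℝ) (ι : E → ℝ) (C : (R → ℝ) → Prop) (hC1 : C (fun _ => 1))
    (hCκ : ∀ φ x, C φ → C (fun r => if o r = x then ∑ r', κ r r' * φ r' else 0))
    (hCπ : ∀ φ, C φ → ∑ r, π r * φ r = ∑ x, ι x * ∑ r, Λ x r * φ r)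
    (hCΛ : ∀ φ, C φ → ∀ x, ∑ r, Λ x r * ∑ r', κ r r' * φ r' =
      ∑ y, Q x y * ∑ r, Λ y r * φ r)
    (hQ : ∀ x v, ∑ y, (if g y = v then Q x y else 0) = stp lp V (g x) v)
    (x : V) (v : List V) :
    law π κ o (x :: v) = law π κ o [x] * steps lp V x v := by
  -- class membership
  have hC : ∀ w : List V, C (fun r => mw κ o w r) := by
    intro w
    induction w with
    | nil => exact hC1
    | cons a w ih => exact hCκ _ a ih
  have hloc : ∀ (y : E) (x : V) (f : R → ℝ),
      ∑ r, Λ y r * (if o r = x then f r else 0) = if g y = x then ∑ r, Λ y r * f r else 0 := by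
    intro y x f
    have h1 : ∀ r, Λ y r * (if o r = x then f r else 0) = if g y = x then Λ y r * f r else 0 := by
      intro r
      by_cases hr : Λ y r = 0
      · rw [hr]; simp
      · rw [hΛ y r hr]
        split_ifs <;> simp
    simp only [h1]
    split_ifs with h
    · rfl
    · simp
  have hcl : ∀ (v : List V) (x : V) (y : E), ∑ r, Λ y r * mw κ o (x :: v) r =
      if g y = x then steps lp V x v else 0 := by
    intro v
    induction v with
    | nil =>
      intro x y
      have h1 : ∀ r, mw κ o [x] r = if o r = x then 1 else 0 := by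
        intro r
        simp only [mw, mul_one, hκ]
      simp only [h1]
      rw [hloc y x (fun _ => 1)]
      simp only [mul_one, hΛ1, steps]
    | cons x' v' ih =>
      intro x y
      have h1 : ∀ r, mw κ o (x :: x' :: v') r =
          if o r = x then ∑ r', κ r r' * mw κ o (x' :: v') r' else 0 := fun r => rfl
      simp only [h1]
      rw [hloc y x (fun r => ∑ r', κ r r' * mw κ o (x' :: v') r')]
      by_cases hg : g y = x
      · rw [if_pos hg, if_pos hg, hCΛ _ (hC (x' :: v')) y]
        simp only [ih]
        have h2 : steps lp V x (x' :: v') = stp lp V x x' * steps lp V x' v' := rfl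
        rw [h2, ← hg, ← hQ y x', Finset.sum_mul]
        refine Finset.sum_congr rfl fun z _ => ?_
        split_ifs <;> simp
      · rw [if_neg hg, if_neg hg]
  have hlaw : ∀ v : List V, law π κ o (x :: v) =
      ∑ y, ι y * (if g y = x then steps lp V x v else 0) := by
    intro v
    unfold law
    rw [hCπ _ (hC (x :: v))]
    simp only [hcl]
  rw [hlaw v, hlaw [], Finset.sum_mul]
  refine Finset.sum_congr rfl fun y _ => ?_
  have h0 : steps lp V x [] = 1 := rfl
  rw [h0]
  split_ifs <;> simp

end Pool.Agent.H95.AV
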