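import Mathlib

/-!
# Job AV-Numer: choice of the block length

PROOF.  `c * d^(T-1) + f + 1 ≤ d^T * (c + f + 1)` for `d ≥ 1`, `T ≥ 1`, so the logarithm is at most
`T * log d + log (c + f + 1) < T * (log d + δ)` as soon as `T > log (c + f + 1) / δ`; and `L / T < ε` for
`T > L / ε`.
-/

set_option autoImplicit false

namespace Pool.Agent.H95.AV

theorem numer (d c f δ ε : ℝ) (L : ℕ) (hd : 1 ≤ d) (hc : 0 ≤ c) (hf : 0 ≤ f) (hδ : 0 < δ)
    (hε : 0 < ε) : ∃ T : ℕ, 1 ≤ T ∧ (L : ℝ) / T < ε ∧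
      Real.log (c * d ^ (T - 1) + f + 1) < T * (Real.log d + δ) := by
  obtain ⟨T, hT⟩ := exists_nat_gt (max 1 (max ((L : ℝ) / ε) (Real.log (c + f + 1) / δ)))
  have h1 : (1 : ℝ) < T := lt_of_le_of_lt (le_max_left _ _) hT
  have h2 : (L : ℝ) / ε < T :=
    lt_of_le_of_lt ((le_max_left _ _).trans (le_max_right _ _)) hT
  have h3 : Real.log (c + f + 1) / δ < T :=
    lt_of_le_of_lt ((le_max_right _ _).trans (le_max_right _ _)) hT
  have hT1 : 1 ≤ T := by
    have : (1 : ℕ) < T := by exact_mod_cast h1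
    omega
  have hT0 : (0 : ℝ) < T := by linarith
  refine ⟨T, hT1, ?_, ?_⟩
  · rw [div_lt_iff₀ hT0]
    rw [div_lt_iff₀ hε] at h2
    linarith
  · rw [div_lt_iff₀ hδ] at h3
    have hd0 : (0 : ℝ) < d := by linarith
    have e1 : d ^ (T - 1) ≤ d ^ T := pow_le_pow_right₀ hd (Nat.sub_le _ _)
    have e2 : 1 ≤ d ^ T := one_le_pow₀ hd
    have e0 : 0 ≤ d ^ (T - 1) := by positivity
    have e3 : c * d ^ (T - 1) + f + 1 ≤ d ^ T * (c + f + 1) := by
      nlinarith [mul_le_mul_of_nonneg_left e1 hc, mul_le_mul_of_nonneg_left e2 hf]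
    have e4 : 0 < c * d ^ (T - 1) + f + 1 := by
      have := mul_nonneg hc e0
      linarith
    have e5 : Real.log (c * d ^ (T - 1) + f + 1) ≤ T * Real.log d + Real.log (c + f + 1) := by
      refine (Real.log_le_log e4 e3).trans ?_
      rw [Real.log_mul (by positivity) (by linarith), Real.log_pow]
    have e6 : (T : ℝ) * (Real.log d + δ) = T * Real.log d + T * δ := by ring
    rw [e6]
    linarith

end Pool.Agent.H95.AV
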