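import Pool.Agent.H95.AV.PermOne

/-!
# Job AV-OA: the conditional laws of the `O` machine

`o_supp`: if `oΛ i x s ≠ 0` then `s.1 = x.1`, `s.2.1 = x.2.1`, the own bits agree and `t = θ && (a = i)`.
`o_one`: `y i` and `c, a, t` are fixed, `R` and the other bits are free: `2^m` states.
`o_pi`: both sides are `2^(-(m+1)) ∑_{y, R} φ (1, 0, y, R, false)`.
-/

set_option autoImplicit false

namespace Pool.Agent.H95.AV

open Classical

theorem o_supp {m : ℕ} (i : Fin m) (x : OE m) (s : OR m) (h : oΛ i x s ≠ 0) :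
    oout m s i = og i x := by
  have h1 : s.1 = x.1 ∧ s.2.1 = x.2.1 ∧ s.2.2.1 i = x.2.2.1 ∧
      s.2.2.2.2 = (x.2.2.2 && decide (x.2.1 = i)) := by
    by_contra hc
    exact h (if_neg hc)
  obtain ⟨h1, h2, h3, h4⟩ := h1
  unfold oout og
  rw [h1, h2, h3, h4]
  by_cases h5 : i = x.2.1
  · simp [← h5]
  · simp [h5]

private theorem OA_half {m : ℕ} (i : Fin m) (h : Bool → ℝ) :
    2 * ∑ y : Fin m → Bool, h (y i) = 2 ^ m * (h true + h false) := by
  let g : (Fin m → Bool) → (Fin m → Bool) := fun y => Function.update y i (!(y i))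
  have hg : Function.Involutive g := by
    intro y
    ext j
    by_cases hj : j = i
    · subst hj
      simp [g]
    · simp [g, hj]
  have h1 : ∑ y : Fin m → Bool, h (y i) = ∑ y : Fin m → Bool, h (!(y i)) := by
    rw [← Equiv.sum_comp (hg.toPerm g)]
    refine Finset.sum_congr rfl fun y _ => ?_
    have : (hg.toPerm g) y i = !(y i) := by
      change g y i = _
      simp [g]
    rw [this]
  have h2 : ∀ y : Fin m → Bool, h (y i) + h (!(y i)) = h true + h false := by
    intro y
    cases y i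
    · simp [add_comm]
    · simp
  calc 2 * ∑ y : Fin m → Bool, h (y i)
      = ∑ y : Fin m → Bool, h (y i) + ∑ y : Fin m → Bool, h (!(y i)) := by rw [← h1]; ring
    _ = ∑ y : Fin m → Bool, (h true + h false) := by
        rw [← Finset.sum_add_distrib]
        exact Finset.sum_congr rfl fun y _ => h2 y
    _ = _ := by
        rw [Finset.sum_const, nsmul_eq_mul, Finset.card_univ, Fintype.card_fun, Fintype.card_bool,
          Fintype.card_fin]
        push_cast
        ring

theorem o_one {m : ℕ} (i : Fin m) (x : OE m) : ∑ s, oΛ i x s = 1 := by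
  obtain ⟨c, a, e, θ⟩ := x
  rw [Fintype.sum_prod_type, Finset.sum_eq_single c]
  rotate_left
  · intro c' _ hc
    refine Finset.sum_eq_zero fun s _ => ?_
    unfold oΛ
    rw [if_neg]
    rintro ⟨h, -⟩
    exact hc h
  · intro h
    exact absurd (Finset.mem_univ _) h
  rw [Fintype.sum_prod_type, Finset.sum_eq_single a]
  rotate_left
  · intro a' _ ha
    refine Finset.sum_eq_zero fun s _ => ?_
    unfold oΛ
    rw [if_neg]
    rintro ⟨-, h, -⟩
    exact ha h
  · intro h
    exact absurd (Finset.mem_univ _) h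
  rw [Fintype.sum_prod_type]
  have h1 : ∀ y : Fin m → Bool, ∑ s : Bool × Bool, oΛ i (c, a, e, θ) (c, a, y, s) =
      (fun b : Bool => if b = e then 2 * (1 / 2 ^ m : ℝ) else 0) (y i) := by
    intro y
    rw [Fintype.sum_prod_type]
    have h2 : ∀ R : Bool, ∑ t : Bool, oΛ i (c, a, e, θ) (c, a, y, R, t) =
        if y i = e then (1 / 2 ^ m : ℝ) else 0 := by
      intro R
      rw [Finset.sum_eq_single (θ && decide (a = i))]
      · unfold oΛ
        by_cases h : y i = e
        · rw [if_pos ⟨rfl, rfl, h, rfl⟩, if_pos h]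
        · rw [if_neg h, if_neg]
          rintro ⟨-, -, h', -⟩
          exact h h'
      · intro t _ ht
        unfold oΛ
        rw [if_neg]
        rintro ⟨-, -, -, h⟩
        exact ht h
      · intro h
        exact absurd (Finset.mem_univ _) h
    simp_rw [h2]
    rw [Finset.sum_const, Finset.card_univ, Fintype.card_bool]
    by_cases h : y i = e
    · simp only [if_pos h, nsmul_eq_mul]
      push_cast
      ring
    · simp only [if_neg h, nsmul_zero]
  simp_rw [h1]
  have h3 := OA_half i (fun b : Bool => if b = e then 2 * (1 / 2 ^ m : ℝ) else 0)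
  have h4 : ((fun b : Bool => if b = e then 2 * (1 / 2 ^ m : ℝ) else 0) true +
      (fun b : Bool => if b = e then 2 * (1 / 2 ^ m : ℝ) else 0) false) = 2 * (1 / 2 ^ m) := by
    cases e <;> simp
  rw [h4] at h3
  have h5 : (2 : ℝ) ^ m * (2 * (1 / 2 ^ m)) = 2 := by
    have : (2 : ℝ) ^ m ≠ 0 := by positivity
    field_simp
  rw [h5] at h3
  linarith

theorem o_pi (m : ℕ) [NeZero m] (i : Fin m) (φ : OR m → ℝ) :
    ∑ r, oπ m r * φ r = ∑ x, oι m x * ∑ r, oΛ i x r * φ r := by
  simp_rw [Finset.mul_sum]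
  rw [Finset.sum_comm]
  refine Finset.sum_congr rfl fun r _ => ?_
  have h1 : ∑ x, oι m x * (oΛ i x r * φ r) = (∑ x, oι m x * oΛ i x r) * φ r := by
    rw [Finset.sum_mul]
    exact Finset.sum_congr rfl fun x _ => by ring
  rw [h1]
  congr 1
  obtain ⟨c, a, y, R, t⟩ := r
  rw [Finset.sum_eq_single ((1, 0, y i, false) : OE m)]
  · have h0 : oι m (1, 0, y i, false) = 1 / 2 := if_pos ⟨rfl, rfl, rfl⟩
    rw [h0]
    unfold oπ oΛ
    by_cases h : c = 1 ∧ a = 0 ∧ t = false
    · rw [if_pos h, if_pos ⟨h.1, h.2.1, rfl, by simpa using h.2.2⟩, pow_succ]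
      ring
    · rw [if_neg h, if_neg, mul_zero]
      rintro ⟨h1, h2, -, h4⟩
      exact h ⟨h1, h2, by simpa using h4⟩
  · rintro ⟨c', a', e, θ⟩ _ hx
    by_cases h1 : c' = 1 ∧ a' = 0 ∧ θ = false
    · have h2 : oΛ i (c', a', e, θ) (c, a, y, R, t) = 0 := by
        unfold oΛ
        rw [if_neg]
        rintro ⟨-, -, h3, -⟩
        apply hx
        rw [h1.1, h1.2.1, h1.2.2]
        change y i = e at h3
        rw [h3]
      rw [h2, mul_zero]
    · have h2 : oι m (c', a', e, θ) = 0 := by
        unfold oι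
        rw [if_neg h1]
      rw [h2, zero_mul]
  · intro h
    exact absurd (Finset.mem_univ _) h

end Pool.Agent.H95.AV
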