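import Pool.Agent.H95.AV.ODefs

/-!
# Job AV-OB: the class of functions is preserved

`kmap_apply`, and:
`hCκ`.  Let two states agree in this sense.  Then `oout . i` agrees.  After a step with the same noise
`(σ, a', z, ζ)`: `c σ`, `a'` agree; `R'` agrees if `a' ≥ i`: if `a' < a` then `a > i` so `R` agrees, otherwise
`R' = ζ`; the bits `updX σ (!R') y z j`, `j ≥ i`, agree: for `σ j = j` we have `j = a' ≥ i`, and `R'`, `y j`
agree; for `j < σ j` the bit `y (σ j)`, `σ j > i`; if `a' = i` then `t'` agrees: `R'` agrees, and if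
`a' = a` then `a = i` and `t` agrees.
-/

set_option autoImplicit false

namespace Pool.Agent.H95.AV

open Classical

theorem o_closed_R {m : ℕ} (i a a' : Fin m) (R R1 ζ : Bool) (hi : i ≤ a') (h4 : i < a → R = R1) :
    oR a a' R ζ = oR a a' R1 ζ := by
  unfold oR
  by_cases h : a' < a
  · rw [if_pos h, if_pos h, h4 (lt_of_le_of_lt hi h)]
  · rw [if_neg h, if_neg h]

theorem o_closed_step {m : ℕ} (i : Fin m) (φ : OR m → ℝ) (h : OC i φ) (s s' : OR m)
    (h1 : s.1 = s'.1) (h2 : s.2.1 = s'.2.1) (h3 : ∀ j, i ≤ j → s.2.2.1 j = s'.2.2.1 j)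
    (h4 : i < s.2.1 → s.2.2.2.1 = s'.2.2.2.1) (h5 : s.2.1 = i → s.2.2.2.2 = s'.2.2.2.2)
    (ω : OΩ m) : φ (oF m s ω) = φ (oF m s' ω) := by
  obtain ⟨c, a, y, R, t⟩ := s
  obtain ⟨c1, a1, y1, R1, t1⟩ := s'
  obtain ⟨⟨⟨σ, a'⟩, hσ⟩, z, ζ⟩ := ω
  simp only at h1 h2 h3 h4 h5 hσ
  subst h1
  subst h2
  have hR : i ≤ a' → oR a a' R ζ = oR a a' R1 ζ := fun hi => o_closed_R i a a' R R1 ζ hi h4
  apply h
  · rfl
  · rfl
  · intro j hj
    simp only [oF]
    unfold updX
    by_cases hj1 : σ j = j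
    · have hja : j = a' := (hσ j).1 hj1
      rw [if_pos hj1, if_pos hj1, hR (hja ▸ hj), h3 j hj]
    · rw [if_neg hj1, if_neg hj1]
      by_cases hj2 : j < σ j
      · rw [if_pos hj2, if_pos hj2, h3 (σ j) (hj.trans hj2.le)]
      · rw [if_neg hj2, if_neg hj2]
  · intro hi
    simp only [oF] at hi ⊢
    exact hR hi.le
  · intro hi
    simp only [oF] at hi ⊢
    rw [hR hi.ge]
    unfold oT
    by_cases ha : a' = a
    · rw [h5 (ha ▸ hi)]
    · simp [ha]

theorem o_closed {m : ℕ} (i : Fin m) (φ : OR m → ℝ) (x : Option (Fin m × Bool)) (h : OC i φ) :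
    OC i (fun r => if oout m r i = x then ∑ r', kmap (oμ m) (oF m) r r' * φ r' else 0) := by
  intro s s' h1 h2 h3 h4 h5
  have hout : oout m s i = oout m s' i := by
    unfold oout
    rw [← h1, ← h2, ← h3 i le_rfl]
    by_cases ha : i = s.2.1
    · rw [← h5 ha.symm]
    · rw [if_neg (fun hh => ha hh.1), if_neg (fun hh => ha hh.1)]
  simp only [hout]
  by_cases hx : oout m s' i = x
  · rw [if_pos hx, if_pos hx, kmap_apply, kmap_apply]
    refine Finset.sum_congr rfl fun ω _ => ?_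
    rw [o_closed_step i φ h s s' h1 h2 h3 h4 h5 ω]
  · rw [if_neg hx, if_neg hx]

end Pool.Agent.H95.AV
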