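import Pool.Agent.H95.AV.Path
import Pool.Agent.H95.AV.Kmap
import Pool.Agent.H95.AV.Upd

/-!
# The machine for `m` walkers on `2 m + 1` vertices without loops

Vertices `none` and `some (p, b)`, `p : Fin m`, `b : Bool`.  State `(c, a, y, R, t)`: `c` a permutation
(walker `i` is in part `c i`), `a` the walker who stayed in its part in the last step, `y` the bits,
`R` : that walker also kept its bit, `t` : that walker is at the vertex `none`.
Noise: a permutation `σ` with exactly one fixed point `a'`, bits `z`, a bit `ζ`.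
Step: walker `i` goes to the part of walker `σ i`; `R' = !R` if `a' < a`, otherwise `R' = ζ`;
`t' = R' && !(a' = a && t)`.
-/

set_option autoImplicit false

namespace Pool.Agent.H95.AV

open Classical

/-- permutations with exactly one fixed point -/
abbrev Pm (m : ℕ) : Type :=
  {x : Equiv.Perm (Fin m) × Fin m // ∀ j, x.1 j = j ↔ j = x.2}

abbrev OR (m : ℕ) : Type := Equiv.Perm (Fin m) × Fin m × (Fin m → Bool) × Bool × Bool
abbrev OΩ (m : ℕ) : Type := Pm m × (Fin m → Bool) × Bool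

/-- law of the noise -/
noncomputable def oμ (m : ℕ) : OΩ m → ℝ :=
  fun _ => 1 / ((Fintype.card (Pm m) : ℝ) * 2 ^ (m + 1))

/-- the new value of `R` -/
def oR {m : ℕ} (a a' : Fin m) (R ζ : Bool) : Bool := if a' < a then !R else ζ

/-- the new value of `t` -/
def oT {m : ℕ} (a a' : Fin m) (R' t : Bool) : Bool := R' && !(decide (a' = a) && t)

/-- one step -/
def oF (m : ℕ) : OR m → OΩ m → OR m :=
  fun s ω => (s.1 * ω.1.1.1, ω.1.1.2,
    updX ω.1.1.1 (!(oR s.2.1 ω.1.1.2 s.2.2.2.1 ω.2.2)) s.2.2.1 ω.2.1,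
    oR s.2.1 ω.1.1.2 s.2.2.2.1 ω.2.2,
    oT s.2.1 ω.1.1.2 (oR s.2.1 ω.1.1.2 s.2.2.2.1 ω.2.2) s.2.2.2.2)

/-- initial law: identity permutation, `a = 0`, uniform bits and `R`, `t = false` -/
noncomputable def oπ (m : ℕ) [NeZero m] : OR m → ℝ :=
  fun s => if s.1 = 1 ∧ s.2.1 = 0 ∧ s.2.2.2.2 = false then 1 / 2 ^ (m + 1) else 0

/-- positions of the walkers -/
def oout (m : ℕ) : OR m → Fin m → Option (Fin m × Bool) :=
  fun s i => if i = s.2.1 ∧ s.2.2.2.2 = true then none else some (s.1 i, s.2.2.1 i)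

/-- visible states of walker `i`: `c`, `a`, own bit, is walker `i` at `none` -/
abbrev OE (m : ℕ) : Type := Equiv.Perm (Fin m) × Fin m × Bool × Bool

/-- position of walker `i` in a visible state -/
def og {m : ℕ} (i : Fin m) (x : OE m) : Option (Fin m × Bool) :=
  if i = x.2.1 ∧ x.2.2.2 = true then none else some (x.1 i, x.2.2.1)

/-- conditional law of the state given the visible state -/
noncomputable def oΛ {m : ℕ} (i : Fin m) (x : OE m) (s : OR m) : ℝ :=
  if s.1 = x.1 ∧ s.2.1 = x.2.1 ∧ s.2.2.1 i = x.2.2.1 ∧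
    s.2.2.2.2 = (x.2.2.2 && decide (x.2.1 = i)) then 1 / 2 ^ m else 0

/-- random map of the visible states -/
def oG {m : ℕ} (i : Fin m) (x : OE m) (s : Pm m) (ρ : Bool) : OE m :=
  (x.1 * s.1.1, s.1.2, if s.1.2 = i then xor x.2.2.1 (!ρ) else ρ,
    decide (s.1.2 = i) && ρ && !(decide (x.2.1 = i) && x.2.2.2))

/-- kernel of the visible states -/
noncomputable def oQ {m : ℕ} (i : Fin m) (x y : OE m) : ℝ :=
  ∑ s : Pm m, ∑ ρ : Bool, if oG i x s ρ = y then 1 / (2 * (Fintype.card (Pm m) : ℝ)) else 0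

/-- initial law of the visible states -/
noncomputable def oι (m : ℕ) [NeZero m] (x : OE m) : ℝ :=
  if x.1 = 1 ∧ x.2.1 = 0 ∧ x.2.2.2 = false then 1 / 2 else 0

/-- functions of `c`, `a`, the bits `j ≥ i`, of `R` if `a > i`, of `t` if `a = i` -/
def OC {m : ℕ} (i : Fin m) (φ : OR m → ℝ) : Prop :=
  ∀ s s' : OR m, s.1 = s'.1 → s.2.1 = s'.2.1 → (∀ j, i ≤ j → s.2.2.1 j = s'.2.2.1 j) →
    (i < s.2.1 → s.2.2.2.1 = s'.2.2.2.1) → (s.2.1 = i → s.2.2.2.2 = s'.2.2.2.2) → φ s = φ s'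

end Pool.Agent.H95.AV
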