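import Pool.Agent.H95.AV.ODefs

/-!
# Job AV-OInt: intertwining for the `O` machine

`hCΛ`.  For fixed `(σ, a')` compare `2^(-(m+1)) ∑_{z, ζ} ∑_r Λ x r φ (oF r ((σ, a'), z, ζ))` with
`(1/2) ∑_ρ ∑_r Λ (G x (σ, a') ρ) r φ r`.  Given `R` and `ζ` (so `R'`) the average over `y` (`y i = b`) and `z` is
computed by `upd_avg_ne` (`a' ≠ i`) or `upd_avg_eq` (`a' = i`).  Case `a' < i`: `φ` does not see `R', t'`: both
sides are `2^(-m) ∑_v φ (c σ, a', v, ., .)`.  Case `a' > i`: `φ` sees `R'` and not `t'`, and `R'` is uniform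
(`R` and `ζ` are uniform): both sides are `(1/2) ∑_{R'} 2^(-m) ∑_v φ (c σ, a', v, R', .)`.  Case `a' = i`: `φ`
does not see `R'` and sees `t' = oT a i R' t`; `R'` is uniform, given `R'` the bit `i` is `xor b (!R')` and the
others are uniform: both sides are
`(1/2) ∑_ρ 2^(-(m-1)) ∑_{v i = xor b (!ρ)} φ (c σ, i, v, ., ρ && !(decide (i = a) && t))`.
(`kmap_apply` for the left side; `G = oG i`.)
-/

set_option autoImplicit false

namespace Pool.Agent.H95.AV

open Classical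

/-- sum against the conditional law -/
theorem oΛ_sum {m : ℕ} (i : Fin m) (x : OE m) (ψ : OR m → ℝ) :
    ∑ r, oΛ i x r * ψ r = (1 / 2 ^ m : ℝ) * ∑ y : Fin m → Bool, ∑ R : Bool,
      (if y i = x.2.2.1 then ψ (x.1, x.2.1, y, R, (x.2.2.2 && decide (x.2.1 = i))) else 0) := by
  unfold OR
  rw [Fintype.sum_prod_type, Finset.sum_eq_single x.1]
  · rw [Fintype.sum_prod_type, Finset.sum_eq_single x.2.1]
    · rw [Fintype.sum_prod_type, Finset.mul_sum]
      refine Finset.sum_congr rfl fun y _ => ?_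
      rw [Fintype.sum_prod_type, Finset.mul_sum]
      refine Finset.sum_congr rfl fun R _ => ?_
      rw [Finset.sum_eq_single (x.2.2.2 && decide (x.2.1 = i))]
      · by_cases h : y i = x.2.2.1
        · simp [oΛ, h]
        · simp [oΛ, h]
      · intro t _ ht
        simp [oΛ, ht]
      · intro h; exact absurd (Finset.mem_univ _) h
    · intro a _ ha
      refine Finset.sum_eq_zero fun t _ => ?_
      simp [oΛ, ha]
    · intro h; exact absurd (Finset.mem_univ _) h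
  · intro a _ ha
    refine Finset.sum_eq_zero fun t _ => ?_
    simp [oΛ, ha]
  · intro h; exact absurd (Finset.mem_univ _) h

theorem oR_sum {m : ℕ} (a a' : Fin m) (H : Bool → ℝ) :
    ∑ ζ : Bool, ∑ R : Bool, H (oR a a' R ζ) = 2 * ∑ ρ : Bool, H ρ := by
  unfold oR
  by_cases h : a' < a
  · simp only [h, if_true, Fintype.sum_bool, Bool.not_true, Bool.not_false]; ring
  · simp only [h, if_false, Fintype.sum_bool]; ring

theorem o_sum_swap {Y Z : Type} [Fintype Y] [Fintype Z] (F : Bool → Y → Z → ℝ)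
    (g : Bool → Bool → Bool) (c : ℝ) :
    ∑ z, ∑ ζ : Bool, c * ∑ y, ∑ R : Bool, F (g R ζ) y z =
      c * ∑ ζ : Bool, ∑ R : Bool, ∑ y, ∑ z, F (g R ζ) y z := by
  have h : ∀ b : Bool, ∑ z, ∑ y, F b y z = ∑ y, ∑ z, F b y z := fun b => Finset.sum_comm
  simp only [Fintype.sum_bool, Finset.sum_add_distrib, ← Finset.mul_sum, mul_add, h]

/-- the left side -/
theorem o_int_left {m : ℕ} (i : Fin m) (φ : OR m → ℝ) (x : OE m) (s : Pm m) :
    (1 / 2 ^ (m + 1) : ℝ) * ∑ z : Fin m → Bool, ∑ ζ : Bool, ∑ r, oΛ i x r *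
      φ (oF m r (s, z, ζ)) = (1 / 2 ^ m * (1 / 2 ^ m) : ℝ) * ∑ ρ : Bool,
        ∑ y : Fin m → Bool, ∑ z : Fin m → Bool, (if y i = x.2.2.1 then
          φ (x.1 * s.1.1, s.1.2, updX s.1.1 (!ρ) y z, ρ,
            oT x.2.1 s.1.2 ρ (x.2.2.2 && decide (x.2.1 = i))) else 0) := by
  have h1 : ∀ (z : Fin m → Bool) (ζ : Bool), ∑ r, oΛ i x r * φ (oF m r (s, z, ζ)) =
      (1 / 2 ^ m : ℝ) * ∑ y : Fin m → Bool, ∑ R : Bool, (if y i = x.2.2.1 then
          φ (x.1 * s.1.1, s.1.2, updX s.1.1 (!(oR x.2.1 s.1.2 R ζ)) y z, oR x.2.1 s.1.2 R ζ,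
            oT x.2.1 s.1.2 (oR x.2.1 s.1.2 R ζ) (x.2.2.2 && decide (x.2.1 = i))) else 0) := by
    intro z ζ
    rw [oΛ_sum i x (fun r => φ (oF m r (s, z, ζ)))]
    rfl
  simp only [h1]
  rw [o_sum_swap (fun ρ y z => (if y i = x.2.2.1 then
          φ (x.1 * s.1.1, s.1.2, updX s.1.1 (!ρ) y z, ρ,
            oT x.2.1 s.1.2 ρ (x.2.2.2 && decide (x.2.1 = i))) else 0))
    (oR x.2.1 s.1.2) (1 / 2 ^ m : ℝ)]
  rw [oR_sum x.2.1 s.1.2 (fun ρ => ∑ y : Fin m → Bool, ∑ z : Fin m → Bool,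
        (if y i = x.2.2.1 then
          φ (x.1 * s.1.1, s.1.2, updX s.1.1 (!ρ) y z, ρ,
            oT x.2.1 s.1.2 ρ (x.2.2.2 && decide (x.2.1 = i))) else 0))]
  rw [pow_succ]
  ring

/-- the step with given permutation -/
theorem o_int_one {m : ℕ} (i : Fin m) (φ : OR m → ℝ) (h : OC i φ) (x : OE m) (s : Pm m) :
    (1 / 2 ^ (m + 1) : ℝ) * ∑ z : Fin m → Bool, ∑ ζ : Bool, ∑ r, oΛ i x r *
      φ (oF m r (s, z, ζ)) = 1 / 2 * ∑ ρ : Bool, ∑ r, oΛ i (oG i x s ρ) r * φ r := by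
  rw [o_int_left]
  have hm : m = m - 1 + 1 := by have := i.isLt; omega
  have hpow : (2 : ℝ) ^ m = 2 ^ (m - 1) * 2 := by rw [← pow_succ, ← hm]
  have hne : (2 : ℝ) ^ m ≠ 0 := by positivity
  by_cases hi : s.1.2 = i
  · -- the walker `i` stays in its part
    have hσ : s.1.1 i = i := (s.2 i).2 hi.symm
    have hL : ∀ ρ : Bool, ∑ y : Fin m → Bool, ∑ z : Fin m → Bool, (if y i = x.2.2.1 then
          φ (x.1 * s.1.1, s.1.2, updX s.1.1 (!ρ) y z, ρ,
            oT x.2.1 s.1.2 ρ (x.2.2.2 && decide (x.2.1 = i))) else 0) =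
        2 ^ m * ∑ v : Fin m → Bool, (if v i = xor x.2.2.1 (!ρ) then
          φ (x.1 * s.1.1, s.1.2, v, ρ,
            oT x.2.1 s.1.2 ρ (x.2.2.2 && decide (x.2.1 = i))) else 0) := by
      intro ρ
      refine upd_avg_eq s.1.1 i hσ x.2.2.1 (!ρ) (fun v => φ (x.1 * s.1.1, s.1.2, v, ρ,
            oT x.2.1 s.1.2 ρ (x.2.2.2 && decide (x.2.1 = i)))) ?_
      intro y y' hy
      exact h _ _ rfl rfl hy (fun _ => rfl) (fun _ => rfl)
    have hR : ∀ ρ : Bool, ∑ r, oΛ i (oG i x s ρ) r * φ r =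
        (1 / 2 ^ m : ℝ) * (2 * ∑ v : Fin m → Bool, (if v i = xor x.2.2.1 (!ρ) then
          φ (x.1 * s.1.1, s.1.2, v, ρ,
            oT x.2.1 s.1.2 ρ (x.2.2.2 && decide (x.2.1 = i))) else 0)) := by
      intro ρ
      rw [oΛ_sum, Finset.mul_sum (a := (2 : ℝ))]
      congr 1
      refine Finset.sum_congr rfl fun v _ => ?_
      have e1 : (oG i x s ρ).2.2.1 = xor x.2.2.1 (!ρ) := by simp [oG, hi]
      rw [e1]
      by_cases hv : v i = xor x.2.2.1 (!ρ)
      · simp only [hv, if_true]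
        have e2 : ∀ R : Bool, φ ((oG i x s ρ).1, (oG i x s ρ).2.1, v, R,
            ((oG i x s ρ).2.2.2 && decide ((oG i x s ρ).2.1 = i))) =
            φ (x.1 * s.1.1, s.1.2, v, ρ,
              oT x.2.1 s.1.2 ρ (x.2.2.2 && decide (x.2.1 = i))) := by
          intro R
          refine h _ _ rfl rfl (fun _ _ => rfl) ?_ ?_
          · intro hlt
            exact absurd hlt (by simp [oG, hi])
          · intro _
            simp only [oG, oT, hi]
            by_cases ha : x.2.1 = i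
            · simp [ha]
            · have ha' : ¬ i = x.2.1 := fun hh => ha hh.symm
              simp [ha, ha']
        rw [Fintype.sum_bool, e2, e2]
        ring
      · simp only [hv, if_false, Finset.sum_const_zero, mul_zero]
    simp only [hL, hR, Fintype.sum_bool]
    field_simp
  · -- the walker `i` changes its part
    have hσ : s.1.1 i ≠ i := fun hh => hi ((s.2 i).1 hh).symm
    have hL : ∀ ρ : Bool, ∑ y : Fin m → Bool, ∑ z : Fin m → Bool, (if y i = x.2.2.1 then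
          φ (x.1 * s.1.1, s.1.2, updX s.1.1 (!ρ) y z, ρ,
            oT x.2.1 s.1.2 ρ (x.2.2.2 && decide (x.2.1 = i))) else 0) =
        2 ^ (m - 1) * ∑ v : Fin m → Bool, φ (x.1 * s.1.1, s.1.2, v, ρ, false) := by
      intro ρ
      rw [upd_avg_ne s.1.1 i hσ x.2.2.1 (!ρ) (fun v => φ (x.1 * s.1.1, s.1.2, v, ρ,
            oT x.2.1 s.1.2 ρ (x.2.2.2 && decide (x.2.1 = i))))]
      · congr 1
        refine Finset.sum_congr rfl fun v _ => ?_
        exact h _ _ rfl rfl (fun _ _ => rfl) (fun _ => rfl) (fun hh => absurd hh hi)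
      · intro y y' hy
        exact h _ _ rfl rfl hy (fun _ => rfl) (fun _ => rfl)
    have hR : ∑ ρ : Bool, ∑ r, oΛ i (oG i x s ρ) r * φ r =
        (1 / 2 ^ m : ℝ) * ∑ R : Bool, ∑ v : Fin m → Bool,
          φ (x.1 * s.1.1, s.1.2, v, R, false) := by
      have e0 : ∀ ρ : Bool, ∑ r, oΛ i (oG i x s ρ) r * φ r = (1 / 2 ^ m : ℝ) *
          ∑ v : Fin m → Bool, ∑ R : Bool,
            (if v i = ρ then φ (x.1 * s.1.1, s.1.2, v, R, false) else 0) := by
        intro ρ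
        rw [oΛ_sum]
        congr 1
        refine Finset.sum_congr rfl fun v _ => Finset.sum_congr rfl fun R _ => ?_
        simp [oG, hi]
      simp only [e0, Fintype.sum_bool]
      rw [← mul_add, ← Finset.sum_add_distrib, ← Finset.sum_add_distrib]
      congr 1
      refine Finset.sum_congr rfl fun v _ => ?_
      cases v i <;> simp
    rw [hR]
    simp only [hL, Fintype.sum_bool, hpow]
    have hne2 : (2 : ℝ) ^ (m - 1) ≠ 0 := by positivity
    field_simp

theorem o_int {m : ℕ} (i : Fin m) (φ : OR m → ℝ) (h : OC i φ) (x : OE m) :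
    ∑ r, oΛ i x r * ∑ r', kmap (oμ m) (oF m) r r' * φ r' =
      ∑ y, oQ i x y * ∑ r, oΛ i y r * φ r := by
  have hl : ∑ r, oΛ i x r * ∑ r', kmap (oμ m) (oF m) r r' * φ r' =
      (1 / (Fintype.card (Pm m) : ℝ)) * ∑ s : Pm m, ((1 / 2 ^ (m + 1) : ℝ) *
        ∑ z : Fin m → Bool, ∑ ζ : Bool, ∑ r, oΛ i x r * φ (oF m r (s, z, ζ))) := by
    have e1 : ∀ r, oΛ i x r * ∑ r', kmap (oμ m) (oF m) r r' * φ r' =
        (1 / ((Fintype.card (Pm m) : ℝ) * 2 ^ (m + 1))) *
          ∑ ω : OΩ m, oΛ i x r * φ (oF m r ω) := by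
      intro r
      rw [kmap_apply]
      simp only [oμ, ← Finset.mul_sum]
      ring
    have e2 : ∀ f : OΩ m → ℝ, ∑ ω : OΩ m, f ω =
        ∑ s : Pm m, ∑ z : Fin m → Bool, ∑ ζ : Bool, f (s, z, ζ) := by
      intro f
      unfold OΩ
      rw [Fintype.sum_prod_type]
      refine Finset.sum_congr rfl fun s _ => ?_
      rw [Fintype.sum_prod_type]
    rw [Finset.sum_congr rfl fun r _ => e1 r, ← Finset.mul_sum, Finset.sum_comm, e2,
      ← Finset.mul_sum, ← mul_assoc, one_div_mul_one_div]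
  have hr : ∑ y, oQ i x y * ∑ r, oΛ i y r * φ r = (1 / (Fintype.card (Pm m) : ℝ)) *
      ∑ s : Pm m, (1 / 2 * ∑ ρ : Bool, ∑ r, oΛ i (oG i x s ρ) r * φ r) := by
    simp only [oQ, Finset.sum_mul]
    rw [Finset.sum_comm, Finset.mul_sum]
    refine Finset.sum_congr rfl fun s _ => ?_
    rw [Finset.sum_comm, Finset.mul_sum, Finset.mul_sum]
    refine Finset.sum_congr rfl fun ρ _ => ?_
    rw [Finset.sum_eq_single (oG i x s ρ)]
    · rw [if_pos rfl]
      rw [← mul_assoc, one_div_mul_one_div, mul_comm (Fintype.card (Pm m) : ℝ) 2]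
    · intro y _ hy
      rw [if_neg (fun hh => hy hh.symm), zero_mul]
    · intro hh; exact absurd (Finset.mem_univ _) hh
  rw [hl, hr]
  congr 1
  exact Finset.sum_congr rfl fun s _ => o_int_one i φ h x s

end Pool.Agent.H95.AV
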