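import Pool.Agent.H95.AV.PermOne

/-!
# Job AV-OQ: the visible chain projects to the simple random walk

`hQ`.  Count the `(s, ρ)` with `g (G x s ρ) = v` by `pm_count` (`N = card (Pm m)`): `a' = i` (i.e. `σ i = i`,
`N / m` of them): `none` if `ρ` and not (`a = i ∧ θ`), otherwise `some (c i, xor b (!ρ))`; `a' ≠ i`:
`some (c (σ i), ρ)`, `N / m` for every `σ i = j ≠ i`.  So if `g x = none` every `some _` gets `N / m` and `none`
nothing; if `g x = some (c i, b)`: `none` gets `N / m` (`ρ = true`), `some (c i, !b)` gets `N / m`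
(`ρ = false`), `some (c i, b)` nothing, all the others `N / m`.  Divide by `2 N`: `1 / (2 m)`.
(`G = oG i`, `g = og i`, `card V = 2 m + 1`.)
-/

set_option autoImplicit false

namespace Pool.Agent.H95.AV

open Classical

/-- the image of `i` for which the position is `v` -/
noncomputable def oqJ {m : ℕ} (i : Fin m) (c : Equiv.Perm (Fin m)) :
    Option (Fin m × Bool) → Fin m
  | none => i
  | some p => c.symm p.1

lemma oq_F {m : ℕ} (i : Fin m) (x : OE m) (v : Option (Fin m × Bool)) (s : Pm m) :
    ∑ ρ : Bool, (if og i (oG i x s ρ) = v then (1 : ℝ) else 0) =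
      if s.1.1 i = oqJ i x.1 v then (if og i x = v then 0 else 1) else 0 := by
  obtain ⟨c, a, b, θ⟩ := x
  obtain ⟨⟨σ, a'⟩, hs⟩ := s
  have hsi : σ i = i ↔ i = a' := hs i
  rw [Fintype.sum_bool]
  by_cases h : i = a'
  · have hσ : σ i = i := hsi.2 h
    subst h
    cases v with
    | none =>
      by_cases ha : i = a
      · subst ha
        cases θ <;> simp [og, oG, oqJ, hσ]
      · have ha' : ¬ a = i := fun h => ha h.symm
        simp [og, oG, oqJ, hσ, ha, ha']
    | some p =>
      obtain ⟨p, β⟩ := p
      have hc : i = c.symm p ↔ c i = p := by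
        rw [Equiv.eq_symm_apply]
      by_cases ha : i = a
      · subst ha
        by_cases hp : c i = p
        · cases θ <;> cases β <;> cases b <;> simp [og, oG, oqJ, hσ, hc, hp]
        · cases θ <;> simp [og, oG, oqJ, hσ, hc, hp]
      · have ha' : ¬ a = i := fun h => ha h.symm
        by_cases hp : c i = p
        · cases β <;> cases b <;> simp [og, oG, oqJ, hσ, hc, hp, ha, ha']
        · simp [og, oG, oqJ, hσ, hc, hp, ha, ha']
  · have hσ : ¬ σ i = i := fun h' => h (hsi.1 h')
    have h' : ¬ a' = i := fun h2 => h h2.symm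
    cases v with
    | none => simp [og, oG, oqJ, hσ, h, h']
    | some p =>
      obtain ⟨p, β⟩ := p
      have hc : σ i = c.symm p ↔ c (σ i) = p := by
        rw [Equiv.eq_symm_apply]
      by_cases hp : c (σ i) = p
      · have hne : ¬ og i ((c, a, b, θ) : OE m) = some (p, β) := by
          intro h3
          unfold og at h3
          split_ifs at h3 with h4
          simp only [Option.some.injEq, Prod.mk.injEq] at h3
          exact hσ (c.injective (hp.trans h3.1.symm))
        rw [if_neg hne]
        cases β <;> simp [og, oG, oqJ, h, h', hc, hp]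
      · simp [og, oG, oqJ, h, h', hc, hp]

theorem o_q (m : ℕ) (hm : 3 ≤ m) (i : Fin m) (x : OE m) (v : Option (Fin m × Bool)) :
    ∑ y, (if og i y = v then oQ i x y else 0) =
      stp false (Option (Fin m × Bool)) (og i x) v := by
  have hN := pm_pos m hm
  have hN' : (0 : ℝ) < (Fintype.card (Pm m) : ℝ) := by exact_mod_cast hN
  have hm' : (0 : ℝ) < (m : ℝ) := by
    have : 0 < m := by omega
    exact_mod_cast this
  have h1 : ∑ y, (if og i y = v then oQ i x y else 0) =
      ∑ s : Pm m, 1 / (2 * (Fintype.card (Pm m) : ℝ)) *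
        ∑ ρ : Bool, (if og i (oG i x s ρ) = v then (1 : ℝ) else 0) := by
    have h2 : ∀ y, (if og i y = v then oQ i x y else 0) = ∑ s : Pm m, ∑ ρ : Bool,
        if oG i x s ρ = y then (if og i y = v then 1 / (2 * (Fintype.card (Pm m) : ℝ)) else 0)
          else 0 := by
      intro y
      unfold oQ
      by_cases hy : og i y = v
      · simp only [if_pos hy]
      · simp only [if_neg hy, ite_self, Finset.sum_const_zero]
    simp only [h2]
    rw [Finset.sum_comm]
    refine Finset.sum_congr rfl fun s _ => ?_
    rw [Finset.sum_comm, Finset.mul_sum]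
    refine Finset.sum_congr rfl fun ρ _ => ?_
    rw [Finset.sum_ite_eq]
    simp only [Finset.mem_univ, if_true, mul_ite, mul_one, mul_zero]
  rw [h1]
  simp only [oq_F]
  rw [← Finset.mul_sum, ← Finset.sum_filter, Finset.sum_const, nsmul_eq_mul]
  have h3 := pm_count m hm i (oqJ i x.1 v)
  have h4 : ((((Finset.univ : Finset (Pm m)).filter
      (fun s => s.1.1 i = oqJ i x.1 v)).card : ℕ) : ℝ) = (Fintype.card (Pm m) : ℝ) / m := by
    rw [eq_div_iff hm'.ne']
    rw [mul_comm]
    exact_mod_cast h3
  rw [h4]
  unfold stp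
  have h5 : ((Fintype.card (Option (Fin m × Bool)) : ℕ) : ℝ) - 1 = 2 * m := by
    rw [Fintype.card_option, Fintype.card_prod, Fintype.card_fin, Fintype.card_bool]
    push_cast
    ring
  rw [h5]
  by_cases hv : og i x = v
  · simp [hv]
  · simp only [if_neg hv]
    rw [if_neg (by simp)]
    field_simp

end Pool.Agent.H95.AV
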