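import Pool.Agent.H95.AV.Markov
import Pool.Agent.H95.AV.OA
import Pool.Agent.H95.AV.OB
import Pool.Agent.H95.AV.OQ
import Pool.Agent.H95.AV.OInt

/-!
# Job AV-OOwn: each walker of the `O` machine is a simple random walk

Assembly: `law_markov` with `E = OE m`, `g = og i`, `Λ = oΛ i`, `Q = oQ i`, `ι = oι m`, `C = OC i`:
`o_supp`, `o_one`, `o_pi`, `o_closed`, `o_int`, `o_q`; `hκ` from `kmap_sum` (`pm_pos`; `∑ ω, oμ m ω = 1`).
-/

set_option autoImplicit false

namespace Pool.Agent.H95.AV

open Classical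

theorem o_own (m : ℕ) [NeZero m] (hm : 3 ≤ m) (i : Fin m) (x : Option (Fin m × Bool))
    (v : List (Option (Fin m × Bool))) :
    law (oπ m) (kmap (oμ m) (oF m)) (fun r => oout m r i) (x :: v) =
      law (oπ m) (kmap (oμ m) (oF m)) (fun r => oout m r i) [x] *
        steps false (Option (Fin m × Bool)) x v := by
  have hμ : ∑ ω, oμ m ω = 1 := by
    unfold oμ
    rw [Finset.sum_const, nsmul_eq_mul, Finset.card_univ, Fintype.card_prod, Fintype.card_prod,
      Fintype.card_fun, Fintype.card_bool, Fintype.card_fin]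
    have hp : (0 : ℝ) < (Fintype.card (Pm m) : ℝ) := by exact_mod_cast pm_pos m hm
    have h2 : (0 : ℝ) < 2 ^ m := by positivity
    push_cast
    rw [pow_succ]
    field_simp
  refine law_markov false (oπ m) (kmap (oμ m) (oF m)) (fun r => kmap_sum (oμ m) (oF m) hμ r)
    (fun r => oout m r i) (og i) (oΛ i) (fun x s h => o_supp i x s h) (fun x => o_one i x)
    (oQ i) (oι m) (OC i) (fun _ _ _ _ _ _ _ => rfl) ?_ (fun φ _ => o_pi m i φ)
    (fun φ h x => o_int i φ h x) ?_ x v
  · intro φ x h
    have h1 := o_closed i φ x h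
    intro s s' e1 e2 e3 e4 e5
    have h2 := h1 s s' e1 e2 e3 e4 e5
    dsimp only at h2 ⊢
    by_cases ha : oout m s i = x <;> by_cases hb : oout m s' i = x <;>
      simpa [ha, hb] using h2
  · intro x v
    rw [← o_q m hm i x v]
    refine Finset.sum_congr rfl (fun y _ => ?_)
    by_cases h : og i y = v
    · rw [if_pos h, if_pos h]
    · rw [if_neg h, if_neg h]

end Pool.Agent.H95.AV
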