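import Pool.Agent.H95.AV.Defs

/-!
# Job AV-OwnA: linearity of `own`

All by induction on the word `v`, for all `p` at once (`own f (b :: v) p` is a sum of values
`own f v (fun w => p (a :: w))`).
-/

set_option autoImplicit false

namespace Pool.Agent.H95.AV

open Classical

theorem own_add {A B : Type} [Fintype A] (f : A → B) (v : List B) (p q : List A → ℝ) :
    own f v (fun w => p w + q w) = own f v p + own f v q := by
  induction v generalizing p q with
  | nil => rfl
  | cons b v ih =>
    simp only [own]
    rw [← Finset.sum_add_distrib]
    refine Finset.sum_congr rfl fun a _ => ?_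
    by_cases h : f a = b
    · rw [if_pos h, if_pos h, if_pos h]
      exact ih (fun w => p (a :: w)) (fun w => q (a :: w))
    · rw [if_neg h, if_neg h, if_neg h, add_zero]

theorem own_smul {A B : Type} [Fintype A] (f : A → B) (v : List B) (c : ℝ) (p : List A → ℝ) :
    own f v (fun w => c * p w) = c * own f v p := by
  induction v generalizing p with
  | nil => rfl
  | cons b v ih =>
    simp only [own]
    rw [Finset.mul_sum]
    refine Finset.sum_congr rfl fun a _ => ?_
    by_cases h : f a = b
    · rw [if_pos h, if_pos h]
      exact ih (fun w => p (a :: w))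
    · rw [if_neg h, if_neg h, mul_zero]

theorem own_zero {A B : Type} [Fintype A] (f : A → B) (v : List B) :
    own f v (fun _ => (0 : ℝ)) = 0 := by
  have h := own_smul f v 0 (fun _ => (0 : ℝ))
  simpa using h

theorem own_sum {ι A B : Type} [Fintype A] (f : A → B) (v : List B) (s : Finset ι)
    (p : ι → List A → ℝ) :
    own f v (fun w => ∑ i ∈ s, p i w) = ∑ i ∈ s, own f v (p i) := by
  classical
  induction s using Finset.induction_on with
  | empty =>
    simp only [Finset.sum_empty]
    exact own_zero f v
  | insert i s hi ih =>
    simp only [Finset.sum_insert hi]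
    rw [own_add f v (p i) (fun w => ∑ i ∈ s, p i w), ih]

theorem own_nonneg {A B : Type} [Fintype A] (f : A → B) (v : List B) (p : List A → ℝ)
    (hp : ∀ w, 0 ≤ p w) : 0 ≤ own f v p := by
  induction v generalizing p with
  | nil => exact hp []
  | cons b v ih =>
    simp only [own]
    refine Finset.sum_nonneg fun a _ => ?_
    by_cases h : f a = b
    · rw [if_pos h]
      exact ih (fun w => p (a :: w)) fun w => hp _
    · rw [if_neg h]

end Pool.Agent.H95.AV
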