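import Pool.Agent.H95.AV.ODefs

/-!
# Job AV-PermOne: permutations with exactly one fixed point

PROOF.  For `m ≥ 3` there is one: the cycle of `{1, ..., m - 1}` fixing `0` (`m - 1 ≥ 2`), e.g. built from
`finRotate (m - 1)` and `Equiv.Perm.decomposeFin` or `Fin.cycleRange`, or from `Equiv.optionCongr`.
For a permutation `τ` the map `(σ, a) ↦ (τ σ τ⁻¹, τ a)` is a bijection of `Pm m`; it maps
`{σ i = j}` to `{σ (τ i) = τ j}`.  So `N i j = card {x | x.1.1 i = j}` takes the same value `α` for all
`i = j` and the same value `β` for all `i ≠ j` (choose `τ` with `τ i = i'`, `τ j = j'`,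
e.g. by composing swaps).  `∑ a, N a a = card (Pm m)` (every element has exactly one fixed point), so
`m α = card (Pm m)`; `∑ j, N i j = card (Pm m) = α + (m - 1) β`, so `m β = card (Pm m)` too.
-/

set_option autoImplicit false

namespace Pool.Agent.H95.AV

open Classical

theorem pm_pos (m : ℕ) (hm : 3 ≤ m) : 0 < Fintype.card (Pm m) := by
  obtain ⟨k, rfl⟩ : ∃ k, m = k + 1 := ⟨m - 1, by omega⟩
  have hk : 2 ≤ k := by omega
  refine Fintype.card_pos_iff.mpr ⟨⟨(Equiv.Perm.decomposeFin.symm (0, finRotate k), 0), ?_⟩⟩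
  intro j
  refine Fin.cases ?_ (fun i => ?_) j
  · simp
  · have h1 : finRotate k i ≠ i := by
      rw [← Equiv.Perm.mem_support, support_finRotate_of_le hk]
      exact Finset.mem_univ _
    constructor
    · intro h
      exfalso
      apply h1
      simpa using h
    · intro h
      exact absurd h (Fin.succ_ne_zero i)

/-- conjugation by `τ` -/
private def poConj {m : ℕ} (τ : Equiv.Perm (Fin m)) (x : Pm m) : Pm m :=
  ⟨(τ * x.1.1 * τ⁻¹, τ x.1.2), by
    intro j
    have h := x.2 (τ⁻¹ j)
    constructor
    · intro hj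
      have h1 : x.1.1 (τ⁻¹ j) = τ⁻¹ j := by
        have := congrArg (fun y => τ⁻¹ y) hj
        simpa using this
      have h2 := h.mp h1
      rw [← h2]
      simp
    · intro hj
      have h1 : τ⁻¹ j = x.1.2 := by
        change j = τ x.1.2 at hj
        rw [hj]
        simp
      have h2 := h.mpr h1
      change τ (x.1.1 (τ⁻¹ j)) = j
      rw [h2]
      simp⟩

private lemma po_inv {m : ℕ} (τ : Equiv.Perm (Fin m)) (i j : Fin m) :
    ((Finset.univ : Finset (Pm m)).filter (fun x => x.1.1 i = j)).card =
      ((Finset.univ : Finset (Pm m)).filter (fun x => x.1.1 (τ i) = τ j)).card := by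
  refine Finset.card_bij' (fun x _ => poConj τ x) (fun x _ => poConj τ⁻¹ x) ?_ ?_ ?_ ?_
  · intro x hx
    rw [Finset.mem_filter] at hx ⊢
    refine ⟨Finset.mem_univ _, ?_⟩
    change τ (x.1.1 (τ⁻¹ (τ i))) = τ j
    have h1 : τ⁻¹ (τ i) = i := by simp
    rw [h1, hx.2]
  · intro x hx
    rw [Finset.mem_filter] at hx ⊢
    refine ⟨Finset.mem_univ _, ?_⟩
    change τ⁻¹ (x.1.1 (τ⁻¹⁻¹ i)) = j
    rw [inv_inv, hx.2]
    simp
  · intro x _
    apply Subtype.ext
    apply Prod.ext
    · change τ⁻¹ * (τ * x.1.1 * τ⁻¹) * τ⁻¹⁻¹ = x.1.1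
      group
    · change τ⁻¹ (τ x.1.2) = x.1.2
      simp
  · intro x _
    apply Subtype.ext
    apply Prod.ext
    · change τ * (τ⁻¹ * x.1.1 * τ⁻¹⁻¹) * τ⁻¹ = x.1.1
      group
    · change τ (τ⁻¹ x.1.2) = x.1.2
      simp

private lemma po_diag {m : ℕ} :
    ∑ a : Fin m, ((Finset.univ : Finset (Pm m)).filter (fun x => x.1.1 a = a)).card =
      Fintype.card (Pm m) := by
  have h1 : ∀ a : Fin m, ((Finset.univ : Finset (Pm m)).filter (fun x => x.1.1 a = a)).card =
      ∑ x : Pm m, if x.1.1 a = a then 1 else 0 := by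
    intro a
    rw [Finset.card_filter]
  rw [Finset.sum_congr rfl (fun a _ => h1 a), Finset.sum_comm]
  have h2 : ∀ x : Pm m, (∑ a : Fin m, if x.1.1 a = a then 1 else 0) = 1 := by
    intro x
    rw [← Finset.card_filter]
    have : (Finset.univ : Finset (Fin m)).filter (fun a => x.1.1 a = a) = {x.1.2} := by
      ext a
      rw [Finset.mem_filter, Finset.mem_singleton]
      constructor
      · intro h
        exact (x.2 a).mp h.2
      · intro h
        exact ⟨Finset.mem_univ _, (x.2 a).mpr h⟩
    rw [this, Finset.card_singleton]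
  rw [Finset.sum_congr rfl (fun x _ => h2 x)]
  simp

private lemma po_row {m : ℕ} (i : Fin m) :
    ∑ j : Fin m, ((Finset.univ : Finset (Pm m)).filter (fun x => x.1.1 i = j)).card =
      Fintype.card (Pm m) := by
  have := Finset.card_eq_sum_card_fiberwise (s := (Finset.univ : Finset (Pm m)))
    (t := (Finset.univ : Finset (Fin m))) (f := fun x => x.1.1 i)
    (fun x _ => Finset.mem_coe.mpr (Finset.mem_univ _))
  rw [← this]
  rfl

private lemma po_diag_all {m : ℕ} (i : Fin m) :
    m * ((Finset.univ : Finset (Pm m)).filter (fun x => x.1.1 i = i)).card =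
      Fintype.card (Pm m) := by
  rw [← po_diag]
  have h : ∀ a : Fin m, ((Finset.univ : Finset (Pm m)).filter (fun x => x.1.1 a = a)).card =
      ((Finset.univ : Finset (Pm m)).filter (fun x => x.1.1 i = i)).card := by
    intro a
    have := po_inv (Equiv.swap a i) a a
    rw [Equiv.swap_apply_left] at this
    exact this
  rw [Finset.sum_congr rfl (fun a _ => h a)]
  simp

theorem pm_count (m : ℕ) (hm : 3 ≤ m) (i j : Fin m) :
    m * ((Finset.univ : Finset (Pm m)).filter (fun x => x.1.1 i = j)).card =
      Fintype.card (Pm m) := by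
  by_cases hij : j = i
  · subst hij
    exact po_diag_all j
  · have hrow := po_row i
    rw [← Finset.add_sum_erase _ _ (Finset.mem_univ i)] at hrow
    have h : ∀ a ∈ (Finset.univ : Finset (Fin m)).erase i,
        ((Finset.univ : Finset (Pm m)).filter (fun x => x.1.1 i = a)).card =
        ((Finset.univ : Finset (Pm m)).filter (fun x => x.1.1 i = j)).card := by
      intro a ha
      have hai : a ≠ i := Finset.ne_of_mem_erase ha
      have := po_inv (Equiv.swap a j) i a
      rw [Equiv.swap_apply_left,
        Equiv.swap_apply_of_ne_of_ne (Ne.symm hai) (Ne.symm hij)] at this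
      exact this
    rw [Finset.sum_congr rfl h, Finset.sum_const, Finset.card_erase_of_mem (Finset.mem_univ i),
      Finset.card_univ, Fintype.card_fin, smul_eq_mul] at hrow
    have hd := po_diag_all i
    generalize ((Finset.univ : Finset (Pm m)).filter (fun x => x.1.1 i = j)).card = β at *
    generalize ((Finset.univ : Finset (Pm m)).filter (fun x => x.1.1 i = i)).card = α at *
    generalize Fintype.card (Pm m) = N at *
    obtain ⟨k, rfl⟩ : ∃ k, m = k + 1 := ⟨m - 1, by omega⟩
    have hk : 0 < k := by omega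
    simp only [Nat.add_sub_cancel] at hrow
    have h3 : k * ((k + 1) * β) = k * N := by
      have e1 : (k + 1) * (α + k * β) = (k + 1) * N := by rw [hrow]
      have e2 : (k + 1) * (α + k * β) = (k + 1) * α + k * ((k + 1) * β) := by ring
      have e3 : (k + 1) * N = k * N + N := by ring
      omega
    exact Nat.eq_of_mul_eq_mul_left hk h3

end Pool.Agent.H95.AV
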