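import Pool.Agent.H95.AV.Own

/-!
# Job AV-ProdL: product machines, functions of independent letters

`mw_prod`, `law_prod`: induction on the word (`Finset.sum_mul_sum`, `Fintype.sum_prod_type`).
`own_iid`: induction on `v`.
-/

set_option autoImplicit false

namespace Pool.Agent.H95.AV

open Classical

theorem mw_prod {R S A B : Type} [Fintype R] [Fintype S] (κ : R → R → ℝ) (κ' : S → S → ℝ)
    (o : R → A) (o' : S → B) (w : List (A × B)) (r : R) (s : S) :
    mw (fun x y : R × S => κ x.1 y.1 * κ' x.2 y.2) (fun x => (o x.1, o' x.2)) w (r, s) =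
      mw κ o (w.map Prod.fst) r * mw κ' o' (w.map Prod.snd) s := by
  induction w generalizing r s with
  | nil => simp [mw]
  | cons c w ih =>
    obtain ⟨a, b⟩ := c
    simp only [mw, List.map_cons, Prod.mk.injEq]
    by_cases h1 : o r = a
    · by_cases h2 : o' s = b
      · rw [if_pos ⟨h1, h2⟩, if_pos h1, if_pos h2, Finset.sum_mul_sum, Fintype.sum_prod_type]
        refine Finset.sum_congr rfl fun x _ => Finset.sum_congr rfl fun y _ => ?_
        rw [ih]
        ring
      · rw [if_neg fun h => h2 h.2, if_neg h2, mul_zero]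
    · rw [if_neg fun h => h1 h.1, if_neg h1, zero_mul]

theorem law_prod {R S A B : Type} [Fintype R] [Fintype S] (π : R → ℝ) (π' : S → ℝ)
    (κ : R → R → ℝ) (κ' : S → S → ℝ) (o : R → A) (o' : S → B) (w : List (A × B)) :
    law (fun x : R × S => π x.1 * π' x.2) (fun x y : R × S => κ x.1 y.1 * κ' x.2 y.2)
      (fun x => (o x.1, o' x.2)) w =
      law π κ o (w.map Prod.fst) * law π' κ' o' (w.map Prod.snd) := by
  unfold law
  rw [Finset.sum_mul_sum, Fintype.sum_prod_type]
  refine Finset.sum_congr rfl fun x _ => Finset.sum_congr rfl fun y _ => ?_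
  rw [mw_prod]
  ring

theorem own_iid {A B : Type} [Fintype A] (f : A → B) (wt : A → ℝ) (v : List B) :
    own f v (fun w => (w.map wt).prod) =
      (v.map (fun b => ∑ a, if f a = b then wt a else 0)).prod := by
  induction v with
  | nil => simp [own]
  | cons b v ih =>
    simp only [own, List.map_cons, List.prod_cons]
    rw [Finset.sum_mul]
    refine Finset.sum_congr rfl fun a _ => ?_
    by_cases h : f a = b
    · rw [if_pos h, if_pos h, own_smul, ih]
    · rw [if_neg h, if_neg h, zero_mul]

/-- a machine with independent states -/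
theorem law_iid {A : Type} [Fintype A] (β : A → ℝ) (hβ : ∑ a, β a = 1) (w : List A) :
    law β (fun _ y => β y) (fun a => a) w = (w.map β).prod := by
  unfold law
  induction w with
  | nil => simp [mw, hβ]
  | cons a w ih =>
    simp only [mw, List.map_cons, List.prod_cons]
    rw [ih, Finset.sum_eq_single a]
    · rw [if_pos rfl]
    · intro b _ hb
      rw [if_neg hb, mul_zero]
    · intro h
      exact absurd (Finset.mem_univ a) h

theorem prod_mach {R S : Type} [Fintype R] [Fintype S] {π : R → ℝ} {π' : S → ℝ}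
    {κ : R → R → ℝ} {κ' : S → S → ℝ} (h : IsMach π κ) (h' : IsMach π' κ') :
    IsMach (fun x : R × S => π x.1 * π' x.2) (fun x y : R × S => κ x.1 y.1 * κ' x.2 y.2) where
  π_nonneg := fun x => mul_nonneg (h.π_nonneg _) (h'.π_nonneg _)
  π_sum := by
    rw [Fintype.sum_prod_type, ← Finset.sum_mul_sum, h.π_sum, h'.π_sum, one_mul]
  κ_nonneg := fun x y => mul_nonneg (h.κ_nonneg _ _) (h'.κ_nonneg _ _)
  κ_sum := fun x => by
    rw [Fintype.sum_prod_type, ← Finset.sum_mul_sum, h.κ_sum, h'.κ_sum, one_mul]

theorem prod_stat {R S : Type} [Fintype R] [Fintype S] {π : R → ℝ} {π' : S → ℝ}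
    {κ : R → R → ℝ} {κ' : S → S → ℝ} (h : IsStat π κ) (h' : IsStat π' κ') :
    IsStat (fun x : R × S => π x.1 * π' x.2) (fun x y : R × S => κ x.1 y.1 * κ' x.2 y.2) := by
  intro y
  show ∑ r : R × S, π r.1 * π' r.2 * (κ r.1 y.1 * κ' r.2 y.2) = π y.1 * π' y.2
  rw [← h y.1, ← h' y.2, Finset.sum_mul_sum, Fintype.sum_prod_type]
  refine Finset.sum_congr rfl fun x _ => Finset.sum_congr rfl fun z _ => ?_
  ring

end Pool.Agent.H95.AV
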