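import Pool.Agent.H95.AV.Own
import Pool.Agent.H95.AV.BMach
import Pool.Agent.H95.AV.Cara
import Pool.Agent.H95.AV.Path

/-!
# Job AV-ResK: a block kernel with small support

PROOF.  Let `K = KT T κ out` and fix `s`.  Apply `cara` with `Ω = (Fin T → (Fin k → V)) × R`,
`x (u, s') = K s u s'`, `I = (Fin k × {v : Fin T → V // pathw lp V (List.ofFn v) ≠ 0} × R) ⊕ F` and
`c (inl (i, v, s')) (u, s'') = [(fun t => u t i) = v ∧ s'' = s']`, `c (inr w) (u, s'') = cnt T w u`.  This
gives `K' s`; `card I = k * card {v | pathw ≠ 0} * card R + card F`, and `card_pathw`.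
(own) for `v` with `pathw lp V (List.ofFn v) ≠ 0` by construction.  For the other `v`:
`∑ s, π s * ∑ s', ∑ u, [own_i u = v] K s u s' = own (· i) (List.ofFn v) (law π κ out) = pathw ... = 0`
(`own_ofFn`, `mw_append` with `w = []`), all terms are nonnegative and `π s > 0`, so
`K s u s' = 0` if `own_i u = v`, and `K' s u s' = 0` as the support of `K'` is contained in that of `K`.
(IsBlk) With walker `0` (`1 ≤ k`): `∑ u, K' s u s' = ∑ v, ∑ u, [own_0 u = v] K' s u s'
= ∑ u, K s u s'`, which gives `sum` and `stat` from `isBlk_KT`.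
-/

set_option autoImplicit false

namespace Pool.Agent.H95.AV

open Classical

theorem rk_bw_sum {R A : Type} [Fintype R] (κ : R → R → ℝ) (out : R → A) (w : List A) (s : R) :
    ∑ s', bw κ out w s s' = mw κ out w s := by
  have h := mw_append κ out w [] s
  rw [List.append_nil] at h
  rw [h]
  refine Finset.sum_congr rfl fun s' _ => ?_
  rw [mw, mul_one]

/-- index type of the moments -/
abbrev RKI (lp : Bool) (k : ℕ) (V : Type) [Fintype V] (R : Type) (T : ℕ)
    (F : Finset (List (Fin k → V))) : Type :=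
  (Fin k × {v : Fin T → V // pathw lp V (List.ofFn v) ≠ 0} × R) ⊕ {w // w ∈ F}

/-- the moments -/
noncomputable def rkc (lp : Bool) (k : ℕ) (V : Type) [Fintype V] (R : Type) (T : ℕ)
    (F : Finset (List (Fin k → V))) : RKI lp k V R T F → (Fin T → (Fin k → V)) × R → ℝ
  | Sum.inl (i, v, s'), ω => if (fun t => ω.1 t i) = v.1 ∧ ω.2 = s' then 1 else 0
  | Sum.inr w, ω => cnt T w.1 ω.1

theorem rkc_inl (lp : Bool) (k : ℕ) (V : Type) [Fintype V] (R : Type) [Fintype R] (T : ℕ)
    (F : Finset (List (Fin k → V))) (i : Fin k)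
    (v : {v : Fin T → V // pathw lp V (List.ofFn v) ≠ 0}) (s' : R)
    (y : (Fin T → (Fin k → V)) × R → ℝ) :
    ∑ ω, rkc lp k V R T F (Sum.inl (i, v, s')) ω * y ω =
      ∑ u : Fin T → (Fin k → V), (if (fun t => u t i) = v.1 then y (u, s') else 0) := by
  rw [Fintype.sum_prod_type]
  refine Finset.sum_congr rfl fun u _ => ?_
  have he : ∀ s'' : R, rkc lp k V R T F (Sum.inl (i, v, s')) (u, s'') =
      if (fun t => u t i) = v.1 ∧ s'' = s' then 1 else 0 := fun _ => rfl
  rw [Finset.sum_eq_single s']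
  · rw [he]
    by_cases h : (fun t => u t i) = v.1
    · rw [if_pos ⟨h, rfl⟩, if_pos h, one_mul]
    · rw [if_neg (fun hh => h hh.1), if_neg h, zero_mul]
  · intro s'' _ hne
    rw [he, if_neg (fun hh => hne hh.2), zero_mul]
  · intro hh
    exact absurd (Finset.mem_univ _) hh

theorem rkc_inr (lp : Bool) (k : ℕ) (V : Type) [Fintype V] (R : Type) [Fintype R] (T : ℕ)
    (F : Finset (List (Fin k → V))) (w : {w // w ∈ F})
    (y : (Fin T → (Fin k → V)) × R → ℝ) :
    ∑ ω, rkc lp k V R T F (Sum.inr w) ω * y ω =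
      ∑ u : Fin T → (Fin k → V), ∑ s', y (u, s') * cnt T w.1 u := by
  rw [Fintype.sum_prod_type]
  refine Finset.sum_congr rfl fun u _ => Finset.sum_congr rfl fun s' _ => ?_
  unfold rkc
  ring

theorem rk_zero (lp : Bool) (k : ℕ) (V : Type) [Fintype V] {R : Type} [Fintype R] (π : R → ℝ)
    (κ : R → R → ℝ) (out : R → Fin k → V) (h : IsMach π κ) (hpos : ∀ r, 0 < π r)
    (hc : IsCoupl lp k V (law π κ out)) (T : ℕ) (i : Fin k) (v : Fin T → V)
    (hv : pathw lp V (List.ofFn v) = 0) (s : R) (u : Fin T → (Fin k → V)) (s' : R)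
    (hu : (fun t => u t i) = v) : KT T κ out s u s' = 0 := by
  have h1 := hc.own_eq i (List.ofFn v)
  rw [hv, own_ofFn] at h1
  have hnn : ∀ (w : List (Fin k → V)) (r r' : R), 0 ≤ bw κ out w r r' :=
    fun w r r' => bw_nonneg h out w r r'
  have h2 := (Finset.sum_eq_zero_iff_of_nonneg (fun u' _ => by
    by_cases hc' : (fun t => (fun x : Fin k → V => x i) (u' t)) = v
    · rw [if_pos hc']
      exact law_nonneg h out _
    · rw [if_neg hc'])).1 h1 u (Finset.mem_univ u)
  rw [if_pos hu] at h2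
  unfold law at h2
  have hmn : ∀ r, 0 ≤ mw κ out (List.ofFn u) r := fun r => mw_nonneg h out _ r
  have h3 := (Finset.sum_eq_zero_iff_of_nonneg (fun r _ =>
    mul_nonneg (hpos r).le (hmn r))).1 h2 s (Finset.mem_univ s)
  have h4 : mw κ out (List.ofFn u) s = 0 := (mul_eq_zero.1 h3).resolve_left (hpos s).ne'
  rw [← rk_bw_sum] at h4
  exact (Finset.sum_eq_zero_iff_of_nonneg (fun r _ => hnn _ s r)).1 h4 s' (Finset.mem_univ s')

theorem rk_split {k : ℕ} {V : Type} [Fintype V] {T : ℕ} (i : Fin k)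
    (y : (Fin T → (Fin k → V)) → ℝ) :
    ∑ v : Fin T → V, ∑ u, (if (fun t => u t i) = v then y u else 0) = ∑ u, y u := by
  rw [Finset.sum_comm]
  refine Finset.sum_congr rfl fun u _ => ?_
  rw [Finset.sum_ite_eq]
  rw [if_pos (Finset.mem_univ _)]

theorem exists_kernel (lp : Bool) (k : ℕ) (hk : 1 ≤ k) (V : Type) [Fintype V]
    (hV : 2 ≤ Fintype.card V) {R : Type} [Fintype R] (π : R → ℝ) (κ : R → R → ℝ)
    (out : R → Fin k → V) (h : IsMach π κ) (hs : IsStat π κ) (hpos : ∀ r, 0 < π r)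
    (hc : IsCoupl lp k V (law π κ out)) (T : ℕ) (hT : 1 ≤ T)
    (F : Finset (List (Fin k → V))) :
    ∃ K' : R → (Fin T → (Fin k → V)) → R → ℝ, IsBlk T π K' ∧
      (∀ s u s', K' s u s' ≠ 0 → KT T κ out s u s' ≠ 0) ∧
      (∀ (i : Fin k) s (v : Fin T → V) s',
        ∑ u, (if (fun t => u t i) = v then K' s u s' else 0) =
          ∑ u, (if (fun t => u t i) = v then KT T κ out s u s' else 0)) ∧
      (∀ s, ∀ w ∈ F, ∑ u, ∑ s', K' s u s' * cnt T w u =
        ∑ u, ∑ s', KT T κ out s u s' * cnt T w u) ∧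
      (∀ s, (((Finset.univ : Finset ((Fin T → (Fin k → V)) × R)).filter
        (fun x => K' s x.1 x.2 ≠ 0)).card : ℝ) ≤
          k * ((Fintype.card V : ℝ) * dgr lp V ^ (T - 1)) * Fintype.card R + F.card) := by
  have hblk := isBlk_KT T h hs out
  have hex : ∀ s : R, ∃ y : (Fin T → (Fin k → V)) × R → ℝ, (∀ ω, 0 ≤ y ω) ∧
      (∀ ω, KT T κ out s ω.1 ω.2 = 0 → y ω = 0) ∧
      (∀ c, ∑ ω, rkc lp k V R T F c ω * y ω =
        ∑ ω, rkc lp k V R T F c ω * KT T κ out s ω.1 ω.2) ∧
      ((Finset.univ : Finset ((Fin T → (Fin k → V)) × R)).filter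
        (fun ω => y ω ≠ 0)).card ≤ Fintype.card (RKI lp k V R T F) := fun s =>
    cara (rkc lp k V R T F) (fun ω => KT T κ out s ω.1 ω.2) (fun ω => hblk.nonneg s ω.1 ω.2)
  choose y hy0 hysupp hymom hycard using hex
  have hown : ∀ (i : Fin k) s (v : Fin T → V) s',
      ∑ u, (if (fun t => u t i) = v then y s (u, s') else 0) =
        ∑ u, (if (fun t => u t i) = v then KT T κ out s u s' else 0) := by
    intro i s v s'
    by_cases hv : pathw lp V (List.ofFn v) = 0
    · refine Finset.sum_congr rfl fun u _ => ?_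
      by_cases hu : (fun t => u t i) = v
      · have h0 := rk_zero lp k V π κ out h hpos hc T i v hv s u s' hu
        rw [if_pos hu, if_pos hu, h0, hysupp s (u, s') h0]
      · rw [if_neg hu, if_neg hu]
    · have h1 := hymom s (Sum.inl (i, ⟨v, hv⟩, s'))
      rw [rkc_inl, rkc_inl lp k V R T F i ⟨v, hv⟩ s' (fun ω => KT T κ out s ω.1 ω.2)] at h1
      exact h1
  have hmarg : ∀ s s', ∑ u, y s (u, s') = ∑ u, KT T κ out s u s' := by
    intro s s'
    rw [← rk_split (⟨0, hk⟩ : Fin k) (fun u => y s (u, s')),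
      ← rk_split (⟨0, hk⟩ : Fin k) (fun u => KT T κ out s u s')]
    exact Finset.sum_congr rfl fun v _ => hown ⟨0, hk⟩ s v s'
  refine ⟨fun s u s' => y s (u, s'), ⟨hblk.π_nonneg, hblk.π_sum, fun s u s' => hy0 s (u, s'),
    ?_, ?_⟩, ?_, hown, ?_, ?_⟩
  · intro s
    rw [← hblk.sum s, Finset.sum_comm]
    conv_rhs => rw [Finset.sum_comm]
    exact Finset.sum_congr rfl fun s' _ => hmarg s s'
  · intro s'
    rw [← hblk.stat s']
    refine Finset.sum_congr rfl fun s _ => ?_
    rw [hmarg s s']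
  · intro s u s' hne h0
    exact hne (hysupp s (u, s') h0)
  · intro s w hw
    have h1 := hymom s (Sum.inr ⟨w, hw⟩)
    rw [rkc_inr, rkc_inr lp k V R T F ⟨w, hw⟩ (fun ω => KT T κ out s ω.1 ω.2)] at h1
    exact h1
  · intro s
    have h1 := hycard s
    have h2 : Fintype.card (RKI lp k V R T F) =
        k * (((Finset.univ : Finset (Fin T → V)).filter
          (fun v => pathw lp V (List.ofFn v) ≠ 0)).card * Fintype.card R) + F.card := by
      rw [Fintype.card_sum, Fintype.card_prod, Fintype.card_prod, Fintype.card_fin,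
        Fintype.card_coe, Fintype.card_subtype]
    have h3 := card_pathw lp V hV T hT
    rw [h2] at h1
    have h4 : ((((Finset.univ : Finset ((Fin T → (Fin k → V)) × R)).filter
        (fun ω => y s ω ≠ 0)).card : ℕ) : ℝ) ≤
        ((k * (((Finset.univ : Finset (Fin T → V)).filter
          (fun v => pathw lp V (List.ofFn v) ≠ 0)).card * Fintype.card R) + F.card : ℕ) : ℝ) := by
      exact_mod_cast h1
    push_cast at h4
    rw [h3] at h4
    rw [mul_assoc (k : ℝ)]
    exact h4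

end Pool.Agent.H95.AV
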