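import Pool.Agent.H95.AV.BLaw
import Pool.Agent.H95.AV.BOwn
import Pool.Agent.H95.AV.BClose
import Pool.Agent.H95.AV.BCount
import Pool.Agent.H95.AV.ResK
import Pool.Agent.H95.AV.EntUp
import Pool.Agent.H95.AV.Numer
import Pool.Agent.H95.AV.GoodM

/-!
# Job AV-Res: resampling

PROOF.  Let `L` be the maximum of the lengths of the words of `F`, `d = dgr lp V ≥ 1`,
`c = k * card V * card R`, `f = card F`, `T` from `numer` with `δ/2`, `K'` from `exists_kernel`, and
`p = law (bπ T π K') (bκ T K') (bout T)`.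
(1) machine: `blk_mach`, `blk_stat`, so `p` is a law (`isLaw_law`).
(2) own laws: `own (· i) v p = law ... (fun x => bout T x i) v` (`own_law`), which by `blk_own` is the same
for `KT T κ out`, i.e. `own (· i) v (law π κ out)` (`blk_law`) `= pathw lp V v`.
(3) `Good`: `p w ≠ 0` implies `law (bπ T π K) (bκ T K) (bout T) w ≠ 0`, `K = KT T κ out`, by `law_supp`
(`bπ T π K' x ≠ 0` gives `s` with `π s * K' s .. ≠ 0`, so `K s .. ≠ 0` and `bπ T π K x > 0`), which is
`law π κ out w` by `blk_law`.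
(4) closeness: `blk_close` and `blk_law`: `≤ L / T < ε`.
(5) entropy: let `C` be the maximum over `s` of the cardinality of the support of `K' s`,
`C ≤ c d^(T-1) + f`.  By `blk_count` and `ent_le_log`: `ent p (T * N) ≤ log (card BSt * C^N) ≤
log (card BSt) + N * log (c d^(T-1) + f + 1)` and this is `< T * N * (log d + δ)` for large `N`, as
`log (c d^(T-1) + f + 1) < T * (log d + δ/2)`.  `M = T * N ≥ 1`.
-/

set_option autoImplicit false

namespace Pool.Agent.H95.AV

open Classical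

/-- `p` is the law of a finite stationary machine -/
def IsFS {A : Type} (p : List A → ℝ) : Prop :=
  ∃ (R : Type) (_ : Fintype R) (π : R → ℝ) (κ : R → R → ℝ) (out : R → A),
    IsMach π κ ∧ IsStat π κ ∧ p = law π κ out

theorem res_bpi {R A : Type} [Fintype R] [Fintype A] (T : ℕ) (hT : 1 ≤ T) (π : R → ℝ)
    (hpos : ∀ r, 0 < π r) (K K' : R → (Fin T → A) → R → ℝ) (hK : ∀ s u s', 0 ≤ K s u s')
    (hsupp : ∀ s u s', K' s u s' ≠ 0 → K s u s' ≠ 0) (x : BSt T A R) (hx : bπ T π K' x ≠ 0) :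
    bπ T π K x ≠ 0 := by
  unfold bπ at hx ⊢
  have hsum : ∑ s, π s * K' s x.1 x.2.1 ≠ 0 := right_ne_zero_of_mul hx
  obtain ⟨s, -, hs⟩ := Finset.exists_ne_zero_of_sum_ne_zero hsum
  have h1 : K s x.1 x.2.1 ≠ 0 := hsupp s _ _ (right_ne_zero_of_mul hs)
  have h2 : 0 < π s * K s x.1 x.2.1 :=
    mul_pos (hpos s) (lt_of_le_of_ne (hK s _ _) (Ne.symm h1))
  have h3 : 0 < ∑ s, π s * K s x.1 x.2.1 :=
    Finset.sum_pos' (fun s _ => mul_nonneg (hpos s).le (hK s _ _)) ⟨s, Finset.mem_univ _, h2⟩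
  have hT' : (0 : ℝ) < T := by exact_mod_cast hT
  positivity

theorem res_bkappa {R A : Type} (T : ℕ) (K K' : R → (Fin T → A) → R → ℝ)
    (hsupp : ∀ s u s', K' s u s' ≠ 0 → K s u s' ≠ 0) (x y : BSt T A R) (hx : bκ T K' x y ≠ 0) :
    bκ T K x y ≠ 0 := by
  unfold bκ at hx ⊢
  by_cases h1 : (x.2.2 : ℕ) + 1 < T
  · rw [if_pos h1] at hx ⊢
    exact hx
  · rw [if_neg h1] at hx ⊢
    by_cases h2 : (y.2.2 : ℕ) = 0
    · rw [if_pos h2] at hx ⊢
      exact hsupp _ _ _ hx
    · rw [if_neg h2] at hx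
      exact absurd rfl hx

theorem res_num (a b t l δ : ℝ) (ht : 1 ≤ t) (hδ : 0 < δ) (hb : b < t * (l + δ / 2)) :
    ∃ N : ℕ, 1 ≤ N ∧ a + N * b < t * N * (l + δ) := by
  obtain ⟨N, hN⟩ := exists_nat_gt (a / (t * (δ / 2)))
  have htd : 0 < t * (δ / 2) := by positivity
  refine ⟨N + 1, Nat.succ_le_succ (Nat.zero_le _), ?_⟩
  have h1 : a < (N + 1 : ℝ) * (t * (δ / 2)) := by
    rw [div_lt_iff₀ htd] at hN
    nlinarith
  have h2 : (N + 1 : ℝ) * b ≤ (N + 1 : ℝ) * (t * (l + δ / 2)) :=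
    mul_le_mul_of_nonneg_left hb.le (by positivity)
  push_cast
  nlinarith

theorem resample (lp : Bool) (k : ℕ) (hk : 1 ≤ k) (V : Type) [Fintype V]
    (hV : 2 ≤ Fintype.card V) {R : Type} [Fintype R] (π : R → ℝ) (κ : R → R → ℝ)
    (out : R → Fin k → V) (h : IsMach π κ) (hs : IsStat π κ) (hpos : ∀ r, 0 < π r)
    (hc : IsCoupl lp k V (law π κ out)) (F : Finset (List (Fin k → V))) (ε δ : ℝ)
    (hε : 0 < ε) (hδ : 0 < δ) :
    ∃ p : List (Fin k → V) → ℝ, IsFS p ∧ IsCoupl lp k V p ∧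
      (∀ w ∈ F, |p w - law π κ out w| < ε) ∧
      ∃ M : ℕ, 1 ≤ M ∧ ent p M < M * (Real.log (dgr lp V) + δ) := by
  set d : ℝ := dgr lp V with hd
  have hd1 : 1 ≤ d := one_le_dgr lp V hV
  set c : ℝ := (k : ℝ) * Fintype.card V * Fintype.card R with hcdef
  have hc0 : 0 ≤ c := by positivity
  obtain ⟨T, hT, hTε, hTlog⟩ := numer d c F.card (δ / 2) ε (F.sup List.length) hd1 hc0
    (by positivity) (by positivity) hε
  obtain ⟨K', hK', hsupp, hown, hcnt, hcard⟩ :=
    exists_kernel lp k hk V hV π κ out h hs hpos hc T hT F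
  have hK := isBlk_KT T h hs out
  have hmach := blk_mach T hT π K' hK'
  have hmachK := blk_mach T hT π _ hK
  have hstat := blk_stat T hT π K' hK'
  have hlaw := isLaw_law hmach hstat (bout T : BSt T (Fin k → V) R → Fin k → V)
  have hblk : law (bπ T π (KT T κ out)) (bκ T (KT T κ out)) (bout T) = law π κ out :=
    funext fun w => blk_law T hT h hs out w
  refine ⟨law (bπ T π K') (bκ T K') (bout T),
    ⟨BSt T (Fin k → V) R, inferInstance, _, _, _, hmach, hstat, rfl⟩, ⟨hlaw, ?_, ?_⟩, ?_, ?_⟩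
  · intro i v
    have e1 := own_law (bπ T π (KT T κ out)) (bκ T (KT T κ out)) (bout T)
      (fun x : Fin k → V => x i) v
    rw [own_law, blk_own T π K' (KT T κ out) (fun x : Fin k → V => x i) (fun s v s' => hown i s v s')
      v]
    refine e1.symm.trans ?_
    rw [hblk]
    exact hc.own_eq i v
  · intro w hw
    refine hc.good w ?_
    rw [← blk_law T hT h hs out w]
    exact law_supp hmachK hmach (bout T)
      (fun x hx => res_bpi T hT π hpos _ K' hK.nonneg hsupp x hx)
      (fun x y hxy => res_bkappa T _ K' hsupp x y hxy) w hw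
  · intro w hw
    have h1 := blk_close T hT π K' (KT T κ out) hK' hK w (fun s => hcnt s w hw)
    rw [hblk] at h1
    refine lt_of_le_of_lt h1 (lt_of_le_of_lt ?_ hTε)
    have h2 : w.length ≤ F.sup List.length := Finset.le_sup (f := List.length) hw
    have h3 : (w.length : ℝ) ≤ ((F.sup List.length : ℕ) : ℝ) := by exact_mod_cast h2
    exact div_le_div_of_nonneg_right h3 (by positivity)
  · have hbd : ∀ s, (((Finset.univ : Finset ((Fin T → (Fin k → V)) × R)).filter
        (fun x => K' s x.1 x.2 ≠ 0)).card : ℝ) ≤ c * d ^ (T - 1) + F.card := by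
      intro s
      refine (hcard s).trans (le_of_eq ?_)
      rw [hcdef]
      ring
    have hB0 : 0 ≤ c * d ^ (T - 1) + F.card := by positivity
    set C : ℕ := ⌊c * d ^ (T - 1) + F.card⌋₊ with hC
    have hCle : (C : ℝ) ≤ c * d ^ (T - 1) + F.card := Nat.floor_le hB0
    have hne : Nonempty (BSt T (Fin k → V) R) := by
      by_contra hemp
      rw [not_nonempty_iff] at hemp
      have := hmach.π_sum
      rw [Finset.univ_eq_empty, Finset.sum_empty] at this
      exact zero_ne_one this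
    have hcB : (0 : ℝ) < Fintype.card (BSt T (Fin k → V) R) := by
      exact_mod_cast Fintype.card_pos
    have hT1 : (1 : ℝ) ≤ T := by exact_mod_cast hT
    obtain ⟨N, hN1, hN⟩ := res_num (Real.log (Fintype.card (BSt T (Fin k → V) R)))
      (Real.log (c * d ^ (T - 1) + F.card + 1)) T (Real.log d) δ hT1 hδ hTlog
    refine ⟨T * N, Nat.one_le_iff_ne_zero.2 (Nat.mul_ne_zero (by omega) (by omega)), ?_⟩
    have h1 := blk_count T hT π K' hK' C N (fun s => Nat.le_floor (hbd s))
    have h2 : ((Finset.univ : Finset (Fin (T * N) → (Fin k → V))).filter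
        (fun w => law (bπ T π K') (bκ T K') (bout T) (List.ofFn w) ≠ 0)).card ≤
        Fintype.card (BSt T (Fin k → V) R) * (C + 1) ^ N :=
      h1.trans (Nat.mul_le_mul_left _ (Nat.pow_le_pow_left (Nat.le_succ C) N))
    have h3 := ent_le_log hlaw (T * N) _ h2
    have h4 : Real.log ((Fintype.card (BSt T (Fin k → V) R) * (C + 1) ^ N : ℕ) : ℝ) =
        Real.log (Fintype.card (BSt T (Fin k → V) R)) + N * Real.log ((C : ℝ) + 1) := by
      push_cast
      rw [Real.log_mul hcB.ne' (by positivity), Real.log_pow]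
    have h5 : Real.log ((C : ℝ) + 1) ≤ Real.log (c * d ^ (T - 1) + F.card + 1) :=
      Real.log_le_log (by positivity) (by linarith)
    have h6 : (N : ℝ) * Real.log ((C : ℝ) + 1) ≤ N * Real.log (c * d ^ (T - 1) + F.card + 1) :=
      mul_le_mul_of_nonneg_left h5 (by positivity)
    rw [h4] at h3
    push_cast at h3 hN ⊢
    linarith

end Pool.Agent.H95.AV
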