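import Pool.Agent.H95.AV.Defs

/-!
# Job AV-StatA: existence of a stationary law in a closed convex invariant set

PROOF.  `K = S ∩ stdSimplex ℝ R` is compact and convex.  Let `push x r' = ∑ r, x r * κ r r'`, a linear
map which maps `K` to itself (`hinv`; it maps the simplex to itself).  Let
`a_T = (1/T) ∑_{t < T} push^t π ∈ K`, `T ≥ 1` (convexity, e.g. `Convex.sum_mem`).  A subsequence
converges to some `π' ∈ K` (`IsCompact.tendsto_subseq`).  `push a_T - a_T = (1/T) (push^T π - π)`, each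
coordinate has absolute value at most `1/T`, so it tends to `0`, and `push` is continuous, so
`push π' = π'`.
-/

set_option autoImplicit false

namespace Pool.Agent.H95.AV

open Classical

/-- one step of the chain as a linear map on row vectors -/
noncomputable def pushL {R : Type} [Fintype R] (κ : R → R → ℝ) : (R → ℝ) →ₗ[ℝ] (R → ℝ) where
  toFun x := fun r' => ∑ r, x r * κ r r'
  map_add' x y := by
    funext r'
    simp only [Pi.add_apply, add_mul, Finset.sum_add_distrib]
  map_smul' c x := by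
    funext r'
    simp only [Pi.smul_apply, smul_eq_mul, RingHom.id_apply, Finset.mul_sum, mul_assoc]

theorem pushL_apply {R : Type} [Fintype R] (κ : R → R → ℝ) (x : R → ℝ) :
    pushL κ x = fun r' => ∑ r, x r * κ r r' := rfl

theorem pushL_simplex {R : Type} [Fintype R] {π : R → ℝ} {κ : R → R → ℝ} (h : IsMach π κ)
    {x : R → ℝ} (hx : x ∈ stdSimplex ℝ R) : pushL κ x ∈ stdSimplex ℝ R := by
  refine ⟨fun r' => Finset.sum_nonneg (fun r _ => mul_nonneg (hx.1 r) (h.κ_nonneg r r')), ?_⟩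
  rw [pushL_apply, Finset.sum_comm]
  have e : ∀ r, ∑ r', x r * κ r r' = x r := fun r => by
    rw [← Finset.mul_sum, h.κ_sum r, mul_one]
  rw [Finset.sum_congr rfl (fun r _ => e r)]
  exact hx.2

theorem pushL_continuous {R : Type} [Fintype R] (κ : R → R → ℝ) :
    Continuous (fun x : R → ℝ => pushL κ x) := by
  refine continuous_pi (fun r' => ?_)
  exact continuous_finsetSum _ (fun r _ => (continuous_apply r).mul continuous_const)

theorem exists_stat {R : Type} [Fintype R] (π : R → ℝ) (κ : R → R → ℝ) (h : IsMach π κ)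
    (S : Set (R → ℝ)) (hS : IsClosed S) (hS2 : Convex ℝ S) (hπ : π ∈ S)
    (hinv : ∀ x ∈ S, x ∈ stdSimplex ℝ R → (fun r' => ∑ r, x r * κ r r') ∈ S) :
    ∃ π' ∈ S, IsMach π' κ ∧ IsStat π' κ := by
  have hK : IsCompact (S ∩ stdSimplex ℝ R) := (isCompact_stdSimplex ℝ R).inter_left hS
  have hKc : Convex ℝ (S ∩ stdSimplex ℝ R) := hS2.inter (convex_stdSimplex ℝ R)
  have hK0 : π ∈ S ∩ stdSimplex ℝ R := ⟨hπ, h.π_nonneg, h.π_sum⟩
  have hstep : ∀ x ∈ S ∩ stdSimplex ℝ R, pushL κ x ∈ S ∩ stdSimplex ℝ R := fun x hx =>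
    ⟨hinv x hx.1 hx.2, pushL_simplex h hx.2⟩
  set z : ℕ → (R → ℝ) := fun t => (fun x => pushL κ x)^[t] π with hz
  have hzs : ∀ t, z (t + 1) = pushL κ (z t) := fun t => by
    simp only [hz, Function.iterate_succ_apply']
  have hzK : ∀ t, z t ∈ S ∩ stdSimplex ℝ R := by
    intro t
    induction t with
    | zero => exact hK0
    | succ t ih => rw [hzs t]; exact hstep _ ih
  set a : ℕ → (R → ℝ) := fun T => ∑ t ∈ Finset.range (T + 1), (1 / ((T : ℝ) + 1)) • z t with ha
  have haK : ∀ T, a T ∈ S ∩ stdSimplex ℝ R := by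
    intro T
    have hpos : (0 : ℝ) < (T : ℝ) + 1 := by positivity
    refine hKc.sum_mem (fun t _ => by positivity) ?_ (fun t _ => hzK t)
    rw [Finset.sum_const, Finset.card_range, nsmul_eq_mul]
    push_cast
    field_simp
  have hdiff : ∀ T, pushL κ (a T) - a T = (1 / ((T : ℝ) + 1)) • (z (T + 1) - z 0) := by
    intro T
    simp only [ha]
    rw [map_sum, ← Finset.sum_sub_distrib]
    have e : ∀ t ∈ Finset.range (T + 1), pushL κ ((1 / ((T : ℝ) + 1)) • z t) -
        (1 / ((T : ℝ) + 1)) • z t = (1 / ((T : ℝ) + 1)) • (z (t + 1) - z t) := fun t _ => by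
      rw [map_smul, hzs t, smul_sub]
    rw [Finset.sum_congr rfl e, ← Finset.smul_sum, Finset.sum_range_sub]
  have hbd : ∀ T r, |(pushL κ (a T) - a T) r| ≤ 1 / ((T : ℝ) + 1) := by
    intro T r
    have hpos : (0 : ℝ) < (T : ℝ) + 1 := by positivity
    rw [hdiff T, Pi.smul_apply, smul_eq_mul, abs_mul, abs_of_pos (one_div_pos.mpr hpos),
      Pi.sub_apply]
    have h01 : ∀ t, 0 ≤ z t r ∧ z t r ≤ 1 := fun t => by
      refine ⟨(hzK t).2.1 r, ?_⟩
      rw [← (hzK t).2.2]
      exact Finset.single_le_sum (fun i _ => (hzK t).2.1 i) (Finset.mem_univ r)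
    have h2 : |z (T + 1) r - z 0 r| ≤ 1 := by
      rw [abs_le]
      constructor <;> linarith [(h01 (T + 1)).1, (h01 (T + 1)).2, (h01 0).1, (h01 0).2]
    calc 1 / ((T : ℝ) + 1) * |z (T + 1) r - z 0 r| ≤ 1 / ((T : ℝ) + 1) * 1 :=
          mul_le_mul_of_nonneg_left h2 (one_div_pos.mpr hpos).le
      _ = 1 / ((T : ℝ) + 1) := mul_one _
  obtain ⟨π', hπ', φ, hφ, hlim⟩ := hK.tendsto_subseq haK
  refine ⟨π', hπ'.1, ⟨hπ'.2.1, hπ'.2.2, h.κ_nonneg, h.κ_sum⟩, fun r => ?_⟩
  have h1 : Filter.Tendsto (fun n => (pushL κ (a (φ n)) - a (φ n)) r) Filter.atTop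
      (nhds ((pushL κ π' - π') r)) := by
    have h3 : Filter.Tendsto (fun n => pushL κ (a (φ n)) - a (φ n)) Filter.atTop
        (nhds (pushL κ π' - π')) :=
      (((pushL_continuous κ).tendsto π').comp hlim).sub hlim
    exact (tendsto_pi_nhds.mp h3) r
  have h2 : Filter.Tendsto (fun n => (pushL κ (a (φ n)) - a (φ n)) r) Filter.atTop (nhds 0) := by
    have h4 : Filter.Tendsto (fun n : ℕ => 1 / (((φ n : ℕ) : ℝ) + 1)) Filter.atTop (nhds 0) :=
      tendsto_one_div_add_atTop_nhds_zero_nat.comp hφ.tendsto_atTop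
    exact squeeze_zero_norm (fun n => by rw [Real.norm_eq_abs]; exact hbd (φ n) r) h4
  have h5 := tendsto_nhds_unique h1 h2
  rw [Pi.sub_apply, pushL_apply] at h5
  exact sub_eq_zero.mp h5

end Pool.Agent.H95.AV
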